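import Pool.Agent.W_MP_83aea7_lc.Defs

set_option autoImplicit false

/-!
# MP_315f31_lc : the definitions used in the statement of the theorem

The theorem says: if there is a supercompact cardinal, then there is a countable well-founded model
`(M, E)` of ZFC in which `DCFA` holds, `2^ℵ₀ > ℵ₁`, and there is an `ω₂`-Aronszajn tree.

Everything below (except the last section) is about a structure `(M, E)`; `E x y` is read `x ∈ y`.
From `Pool/Agent/W_MP_83aea7_lc/Defs.lean` we use: `Fml k` (first-order formulas of set theory with `k` free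
variables), `IsZFC`, and the elementary notions `Sub` (`⊆`), `IsEmp` (`∅`), `IsPair`
(ordered pair), `IsSucc` (`x ∪ {x}`), `IsTr` (transitive), `IsOrd` (ordinal), `IsOmega` (`ω`), `App f x y`
(`(x, y) ∈ f`), `IsFun f a` (`f` is a function with domain `a`), `Maps f a b` (`f : a → b`).
-/

namespace DCT
open HESR
universe u
variable {M : Type u} (E : M → M → Prop)

/-- `b` covers `a`: some function with domain `b` has all elements of `a` in its range (`|a| ≤ |b|`) -/
def Cov (b a : M) : Prop := ∃ f, IsFun E f b ∧ ∀ y, E y a → ∃ x, App E f x y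

/-- `a` is countable -/
def IsCtb (a : M) : Prop := ∃ w, IsOmega E w ∧ Cov E w a

/-- `w1` is `ω₁`: the ordinal which is not countable and all of whose elements are countable -/
def IsOm1 (w1 : M) : Prop := IsOrd E w1 ∧ ¬ IsCtb E w1 ∧ ∀ α, E α w1 → IsCtb E α

/-- `w2` is `ω₂`: the ordinal which is not covered by `ω₁` and all of whose elements are covered by `ω₁` -/
def IsOm2 (w2 : M) : Prop := IsOrd E w2 ∧ ∃ w1, IsOm1 E w1 ∧ ¬ Cov E w1 w2 ∧ ∀ α, E α w2 → Cov E w1 α

/-- `l` is a limit ordinal, `l ≠ 0` -/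
def IsLim (l : M) : Prop := IsOrd E l ∧ (∃ x, E x l) ∧ ∀ x, E x l → ∃ y, E y l ∧ IsSucc E y x

/-- `θ` is an uncountable regular cardinal: a limit ordinal greater than `ω` such that every
function from some `β < θ` to `θ` is bounded -/
def IsRegC (θ : M) : Prop :=
  IsLim E θ ∧ (∀ w, IsOmega E w → E w θ) ∧
    ∀ β f, E β θ → Maps E f β θ → ∃ γ, E γ θ ∧ ∀ x y, App E f x y → E y γ

/-- `x ∈ H_θ`: `x` is an element of a transitive set `t` with `|t| < θ` -/
def InH (θ x : M) : Prop := ∃ t, IsTr E t ∧ E x t ∧ ∃ β, E β θ ∧ Cov E β t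

/-- `H ⊨ φ(v)`: satisfaction in the class `H` (all quantifiers are restricted to `H`) -/
def SatC (H : M → Prop) : {k : ℕ} → Fml k → (Fin k → M) → Prop
  | _, .mem i j, v => E (v i) (v j)
  | _, .eq i j, v => v i = v j
  | _, .neg φ, v => ¬ SatC H φ v
  | _, .and φ ψ, v => SatC H φ v ∧ SatC H ψ v
  | _, .ex φ, v => ∃ x, H x ∧ SatC H φ (Fin.cons x v)

/-! ### Forcing notions -/

/-- `P = (Y, R)` is a forcing notion: `Y` is not empty and `R ⊆ Y × Y` is a preorder;
`App E R x y` is `x ≤ y` (`x` is stronger than `y`) -/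
def IsPo (P Y R : M) : Prop :=
  IsPair E P Y R ∧ (∃ x, E x Y) ∧ (∀ p, E p R → ∃ x y, E x Y ∧ E y Y ∧ IsPair E p x y) ∧
    (∀ x, E x Y → App E R x x) ∧ ∀ x y z, App E R x y → App E R y z → App E R x z

/-- `D` is a dense subset of `(Y, R)` -/
def IsDense (Y R D : M) : Prop := Sub E D Y ∧ ∀ x, E x Y → ∃ y, E y D ∧ App E R y x

/-- `G` is a filter on `(Y, R)` -/
def IsFilt (Y R G : M) : Prop :=
  Sub E G Y ∧ (∃ x, E x G) ∧ (∀ x y, E x G → App E R x y → E y G) ∧
    ∀ x y, E x G → E y G → ∃ z, E z G ∧ App E R z x ∧ App E R z y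

/-! ### Countable elementary substructures of `H_θ` -/

/-- `N` is a countable elementary substructure of `H_θ` -/
def IsElem (θ N : M) : Prop :=
  IsCtb E N ∧ (∀ x, E x N → InH E θ x) ∧
    ∀ (k : ℕ) (φ : Fml k) (v : Fin k → M), (∀ i, E (v i) N) →
      (SatC E (fun x => E x N) φ v ↔ SatC E (fun x => InH E θ x) φ v)

/-- `G ∈ Gen(N, P, p)` for `P = (Y, R)`: `G` is an `N`-generic filter on `P ∩ N` which contains `p` -/
def IsGen (N Y R p G : M) : Prop :=
  (∀ x, E x G → E x Y ∧ E x N) ∧ E p G ∧ (∀ x y, E x G → E y N → App E R x y → E y G) ∧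
    (∀ x y, E x G → E y G → ∃ z, E z G ∧ App E R z x ∧ App E R z y) ∧
    ∀ D, E D N → IsDense E Y R D → ∃ x, E x G ∧ E x D

/-- `π : Nb → N` is the inverse of the transitive collapse of `N` -/
def IsColl (N Nb π : M) : Prop :=
  IsTr E Nb ∧ Maps E π Nb N ∧ (∀ y, E y N → ∃ x, App E π x y) ∧
    ∀ x x' y y', App E π x y → App E π x' y' → (E x x' ↔ E y y') ∧ (x = x' ↔ y = y')

/-! ### Simple completeness systems, dee-completeness -/

/-- `G ∈ A_u` for the triple `(N, P, p)`, the formula `φ` and the parameter `s`: `G` is the filter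
(on `P ∩ N`) generated by the pointwise image under `π` of some `Gb ∈ Gen(Nb, Pb, pb)` with
`H_ω₁ ⊨ φ(Nb, Gb, Pb, pb, u, s)` -/
def InA (φ : Fml 6) (s N P p u G : M) : Prop :=
  ∃ Nb π Pb Yb Rb pb Gb w1, IsColl E N Nb π ∧ App E π Pb P ∧ App E π pb p ∧ IsPo E Pb Yb Rb ∧
    IsGen E Nb Yb Rb pb Gb ∧ IsOm1 E w1 ∧
    SatC E (fun x => InH E w1 x) φ ![Nb, Gb, Pb, pb, u, s] ∧
    ∃ Y R, IsPo E P Y R ∧ ∀ x, E x G ↔ E x Y ∧ E x N ∧ ∃ g y, E g Gb ∧ App E π g y ∧ App E R y x

/-- `φ` and `s` define a simple completeness system `D(N, P, p) = {A_u : u ∈ H_ω₁}` on `θ` for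
`P = (Y, R)`: for every triple, countably many of the `A_u` have nonempty intersection -/
def IsSys (θ P Y : M) (φ : Fml 6) (s : M) : Prop :=
  ∃ w1, IsOm1 E w1 ∧ InH E w1 s ∧ ∀ N p, IsElem E θ N → E P N → E p N → E p Y →
    ∀ w f, IsOmega E w → IsFun E f w → (∀ n u, App E f n u → InH E w1 u) →
      ∃ G, ∀ n u, App E f n u → InA E φ s N P p u G

/-- `P = (Y, R)` is dee-complete -/
def IsDee (P Y R : M) : Prop :=
  ∃ θ₀, IsOrd E θ₀ ∧ ∀ θ, IsRegC E θ → E θ₀ θ → ∃ (φ : Fml 6) (s : M), IsSys E θ P Y φ s ∧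
    ∀ N p, IsElem E θ N → E P N → E p N → E p Y → ∃ w1 u, IsOm1 E w1 ∧ InH E w1 u ∧
      ∀ G, InA E φ s N P p u G → ∃ r, E r Y ∧ ∀ x, E x G → App E R r x

/-! ### `<ω₁`-properness -/

/-- `q` is `(N, P)`-generic -/
def IsGenC (N Y R q : M) : Prop :=
  ∀ D, E D N → IsDense E Y R D → ∀ r, App E R r q → ∃ d z, E d D ∧ E d N ∧ App E R z d ∧ App E R z r

/-- `f = ⟨N_i : i < α⟩` is an `α`-tower of countable elementary substructures of `H_θ` -/
def IsTower (θ α f : M) : Prop :=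
  IsFun E f α ∧ (∀ i N, App E f i N → IsElem E θ N) ∧
    (∀ β γ N, IsSucc E γ β → App E f γ N →
      ∃ g, IsFun E g γ ∧ (∀ i x, App E g i x → App E f i x) ∧ E g N) ∧
    ∀ l N, IsLim E l → App E f l N → ∀ x, E x N ↔ ∃ i N', E i l ∧ App E f i N' ∧ E x N'

/-- `P = (Y, R)` is `α`-proper -/
def IsProper (α P Y R : M) : Prop :=
  ∃ θ₀, IsOrd E θ₀ ∧ ∀ θ, IsRegC E θ → E θ₀ θ → ∀ p f, E p Y → IsTower E θ α f →
    (∀ z N, IsEmp E z → App E f z N → E p N ∧ E P N) →
      ∃ q, App E R q p ∧ ∀ i N, App E f i N → IsGenC E N Y R q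

/-! ### The axiom DCFA, the negation of CH, Aronszajn trees -/

/-- `DCFA`: for every dee-complete, `<ω₁`-proper `P` and any `ℵ₁` dense subsets of `P`, some filter
on `P` meets them all -/
def DCFA : Prop :=
  ∀ P Y R, IsPo E P Y R → IsDee E P Y R → (∀ w1 α, IsOm1 E w1 → E α w1 → IsProper E α P Y R) →
    ∀ w1 F, IsOm1 E w1 → Cov E w1 F → (∀ D, E D F → IsDense E Y R D) →
      ∃ G, IsFilt E Y R G ∧ ∀ D, E D F → ∃ x, E x G ∧ E x D

/-- `2^ℵ₀ > ℵ₁` -/
def NotCH : Prop :=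
  ∃ w w1 Pw, IsOmega E w ∧ IsOm1 E w1 ∧ (∀ x, E x Pw ↔ Sub E x w) ∧ ¬ Cov E w1 Pw

/-- `(T, R)` is an `ω₂`-Aronszajn tree: `R` is a strict partial order on `T`; `h x < ω₂` is the height
(order type of the set of predecessors) of `x`; every level `α < ω₂` is nonempty and of size at most
`ℵ₁`; every chain has size at most `ℵ₁` -/
def IsAronszajn (T R h : M) : Prop :=
  ∃ w1 w2, IsOm1 E w1 ∧ IsOm2 E w2 ∧ Maps E h T w2 ∧
    (∀ x y, App E R x y → E x T ∧ E y T) ∧ (∀ x, ¬ App E R x x) ∧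
    (∀ x y z, App E R x y → App E R y z → App E R x z) ∧
    (∀ x α, App E h x α → (∀ y β, App E R y x → App E h y β → E β α) ∧
      (∀ β, E β α → ∃ y, App E R y x ∧ App E h y β) ∧
      ∀ y y' β β', App E R y x → App E R y' x → App E h y β → App E h y' β' →
        (App E R y y' ↔ E β β') ∧ (y = y' ↔ β = β')) ∧
    (∀ α, E α w2 → ∃ x, App E h x α) ∧
    (∀ α L, E α w2 → (∀ x, E x L ↔ App E h x α) → Cov E w1 L) ∧
    ∀ b, Sub E b T → (∀ x y, E x b → E y b → x = y ∨ App E R x y ∨ App E R y x) → Cov E w1 b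

/-- there is an `ω₂`-Aronszajn tree: the tree property on `ω₂` fails -/
def HasAT : Prop := ∃ T R h, IsAronszajn E T R h

/-! ### Supercompact cardinals -/

/-- `U` is a fine normal `κ`-complete ultrafilter on the set of the subsets of `A` of size less than `κ` -/
structure IsFNU (κ : Cardinal.{u}) {A : Type u} (U : Ultrafilter (Set A)) : Prop where
  small : {x : Set A | Cardinal.mk x < κ} ∈ U
  fine : ∀ a : A, {x : Set A | a ∈ x} ∈ U
  complete : ∀ S : Set (Set (Set A)), Cardinal.mk S < κ → (∀ s ∈ S, s ∈ U) → ⋂₀ S ∈ U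
  normal : ∀ f : Set A → A, {x | f x ∈ x} ∈ U → ∃ a, {x | f x = a} ∈ U

/-- `κ` is a supercompact cardinal of the universe `Type u`: `κ` is inaccessible and for every set `A` there
is a fine normal `κ`-complete ultrafilter on the set of the subsets of `A` of size less than `κ` -/
def IsSupercompact (κ : Cardinal.{u}) : Prop :=
  κ.IsInaccessible ∧ ∀ A : Type u, ∃ U : Ultrafilter (Set A), IsFNU κ U

end DCT
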