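import Pool.Agent.W_MP_315f31_lc.Abs

/-!
# MP_315f31_lc : the club filter on the countable subsets of a type

All proofs are direct: `IsClub S` has a witness `F : ℕ → List Z → Option Z`; countably many
witnesses are combined with `Nat.pairEquiv` / `Nat.unpair`; for `diag` use
`F' n (z :: l) = F_z n l`; for `exists_mem` close the countable set `A` under `F` (an increasing union
of countable sets, or the inductively defined closure, countable because it is the image of the terms);
for `comap` use `F' n l = (F n (the preimages of l)).map g` (`none` if some element of `l` is not in the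
range of `g`); for `proj` let `N'` be the closure of `g '' N` under `F`: the elements of `N'` are the
values of terms at lists of elements of `g '' N`, there are only countably many terms `t`, and `N` has to
be closed under the partial operations `l ↦ g⁻¹ (t (g l))`.
-/

universe u v

open Set

namespace Pool.Agent.W_MP_315f31_lc

variable {Z : Type v}

/-! ### Closure under partial operations -/

/-- the closure of `A` under the partial operations `F` -/
def clU {Z : Type v} (F : ℕ → List Z → Option Z) (A : Set Z) : Set Z :=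
  ⋂₀ {B : Set Z | A ⊆ B ∧ ClosedU F B}

theorem subset_clU (F : ℕ → List Z → Option Z) (A : Set Z) : A ⊆ clU F A := by
  intro a ha B hB
  exact hB.1 ha

theorem closedU_clU (F : ℕ → List Z → Option Z) (A : Set Z) : ClosedU F (clU F A) := by
  intro n l hl z hz B hB
  exact hB.2 n l (fun w hw => hl w hw B hB) z hz

theorem clU_min {F : ℕ → List Z → Option Z} {A B : Set Z} (h : A ⊆ B) (hB : ClosedU F B) :
    clU F A ⊆ B := by
  intro z hz
  exact hz B ⟨h, hB⟩

theorem clU_mono {F : ℕ → List Z → Option Z} {A B : Set Z} (h : A ⊆ B) :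
    clU F A ⊆ clU F B :=
  clU_min (h.trans (subset_clU F B)) (closedU_clU F B)

/-- one step of the closure -/
def stepU {Z : Type v} (F : ℕ → List Z → Option Z) (A : Set Z) : Set Z :=
  A ∪ {z | ∃ n l, (∀ w ∈ l, w ∈ A) ∧ F n l = some z}

theorem stepU_countable (F : ℕ → List Z → Option Z) {A : Set Z} (hA : A.Countable) :
    (stepU F A).Countable := by
  apply hA.union
  have hc : Countable A := hA.to_subtype
  have h1 : (Set.range fun q : ℕ × List A => F q.1 (q.2.map Subtype.val)).Countable :=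
    Set.countable_range _
  have h2 : ((fun z : Z => (some z : Option Z)) ⁻¹'
      (Set.range fun q : ℕ × List A => F q.1 (q.2.map Subtype.val))).Countable :=
    h1.preimage_of_injOn (fun a _ b _ h => Option.some_injective _ h)
  refine h2.mono ?_
  rintro z ⟨n, l, hl, hz⟩
  have h3 : ∃ m : List A, m.map Subtype.val = l := by
    clear hz
    induction l with
    | nil => exact ⟨[], rfl⟩
    | cons a l ih =>
      obtain ⟨m, hm⟩ := ih (fun w hw => hl w (List.mem_cons_of_mem _ hw))
      exact ⟨⟨a, hl a List.mem_cons_self⟩ :: m, by simp [hm]⟩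
  obtain ⟨m, hm⟩ := h3
  exact ⟨(n, m), by simp only [hm]; exact hz⟩

/-- iterated closure -/
def iterU {Z : Type v} (F : ℕ → List Z → Option Z) (A : Set Z) : ℕ → Set Z
  | 0 => A
  | k + 1 => stepU F (iterU F A k)

theorem iterU_mono (F : ℕ → List Z → Option Z) (A : Set Z) : Monotone (iterU F A) := by
  apply monotone_nat_of_le_succ
  intro k
  exact Set.subset_union_left

theorem iterU_countable (F : ℕ → List Z → Option Z) {A : Set Z} (hA : A.Countable) (k : ℕ) :
    (iterU F A k).Countable := by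
  induction k with
  | zero => exact hA
  | succ k ih => exact stepU_countable F ih

theorem clU_countable (F : ℕ → List Z → Option Z) {A : Set Z} (hA : A.Countable) :
    (clU F A).Countable := by
  have h1 : (⋃ k, iterU F A k).Countable :=
    Set.countable_iUnion fun k => iterU_countable F hA k
  refine h1.mono (clU_min ?_ ?_)
  · intro a ha
    exact Set.mem_iUnion.2 ⟨0, ha⟩
  · intro n l hl z hz
    have h2 : ∃ k, ∀ w ∈ l, w ∈ iterU F A k := by
      clear hz
      induction l with
      | nil => exact ⟨0, by simp⟩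
      | cons a l ih =>
        obtain ⟨k, hk⟩ := ih (fun w hw => hl w (List.mem_cons_of_mem _ hw))
        obtain ⟨j, hj⟩ := Set.mem_iUnion.1 (hl a List.mem_cons_self)
        refine ⟨max k j, ?_⟩
        intro w hw
        rcases List.mem_cons.1 hw with rfl | hw
        · exact iterU_mono F A (le_max_right _ _) hj
        · exact iterU_mono F A (le_max_left _ _) (hk w hw)
    obtain ⟨k, hk⟩ := h2
    exact Set.mem_iUnion.2 ⟨k + 1, Or.inr ⟨n, l, hk, hz⟩⟩

/-! ### The club filter -/

theorem IsClub.mono {S T : Set (Set Z)} (h : IsClub S) (hST : S ⊆ T) : IsClub T := by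
  obtain ⟨F, hF⟩ := h
  exact ⟨F, fun N hN hc => hST (hF N hN hc)⟩

theorem IsClub.univ : IsClub (Set.univ : Set (Set Z)) :=
  ⟨fun _ _ => none, fun _ _ _ => Set.mem_univ _⟩

theorem IsClub.ctbl : IsClub {N : Set Z | N.Countable} :=
  ⟨fun _ _ => none, fun _ hN _ => hN⟩

theorem IsClub.iInter {S : ℕ → Set (Set Z)} (h : ∀ n, IsClub (S n)) : IsClub (⋂ n, S n) := by
  choose F hF using h
  refine ⟨fun k => F (Nat.unpair k).1 (Nat.unpair k).2, ?_⟩
  intro N hN hc
  refine Set.mem_iInter.2 fun n => hF n N hN ?_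
  intro m l hl z hz
  refine hc (Nat.pair n m) l hl z ?_
  simpa using hz

/-- intersection over a countable type -/
theorem IsClub.all {I : Type*} [Countable I] {S : I → Set (Set Z)} (h : ∀ i, IsClub (S i)) :
    IsClub {N | ∀ i, N ∈ S i} := by
  rcases isEmpty_or_nonempty I with hI | hI
  · refine IsClub.univ.mono ?_
    intro N _ i
    exact (hI.false i).elim
  · obtain ⟨f, hf⟩ := exists_surjective_nat I
    refine (IsClub.iInter (S := fun n => S (f n)) fun n => h (f n)).mono ?_
    intro N hN i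
    obtain ⟨n, rfl⟩ := hf i
    exact Set.mem_iInter.1 hN n

theorem IsClub.inter {S T : Set (Set Z)} (h : IsClub S) (h' : IsClub T) : IsClub (S ∩ T) := by
  have h1 : IsClub {N : Set Z | ∀ b : Bool, N ∈ (if b then S else T)} := by
    apply IsClub.all
    intro b
    cases b
    · exact h'
    · exact h
  refine h1.mono ?_
  intro N hN
  exact ⟨hN true, hN false⟩

/-- diagonal intersection -/
theorem IsClub.diag {S : Z → Set (Set Z)} (h : ∀ z, IsClub (S z)) :
    IsClub {N | ∀ z ∈ N, N ∈ S z} := by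
  choose F hF using h
  refine ⟨fun n l => match l with
    | [] => none
    | z :: l' => F z n l', ?_⟩
  intro N hN hc z hz
  refine hF z N hN ?_
  intro n l hl w hw
  refine hc n (z :: l) ?_ w hw
  intro v hv
  rcases List.mem_cons.1 hv with rfl | hv
  · exact hz
  · exact hl v hv

theorem IsClub.op (f : List Z → Option Z) :
    IsClub {N : Set Z | ∀ l, (∀ z ∈ l, z ∈ N) → ∀ z, f l = some z → z ∈ N} :=
  ⟨fun _ => f, fun _ _ hc => fun l hl z hz => hc 0 l hl z hz⟩

theorem IsClub.mem (z : Z) : IsClub {N : Set Z | z ∈ N} := by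
  refine (IsClub.op fun _ => some z).mono ?_
  intro N hN
  exact hN [] (by simp) z rfl

/-- elementarity for relations on lists -/
theorem IsClub.relL (R : List Z → Z → Prop) :
    IsClub {N : Set Z | ∀ l, (∀ z ∈ l, z ∈ N) → (∃ y, R l y) → ∃ y ∈ N, R l y} := by
  classical
  refine (IsClub.op fun l => if h : ∃ y, R l y then some h.choose else none).mono ?_
  intro N hN l hl h
  refine ⟨h.choose, hN l hl _ ?_, h.choose_spec⟩
  rw [dif_pos h]

/-- closure under a function -/
theorem IsClub.fn (f : Z → Z) : IsClub {N : Set Z | ∀ z ∈ N, f z ∈ N} := by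
  refine (IsClub.relL fun l y => ∃ x, l = [x] ∧ y = f x).mono ?_
  intro N hN x hx
  obtain ⟨y, hy, x', h1, h2⟩ := hN [x] (by simpa using hx) ⟨f x, x, rfl, rfl⟩
  obtain rfl : x = x' := by simpa using h1
  rw [← h2]
  exact hy

theorem IsClub.fn2 (f : Z → Z → Z) : IsClub {N : Set Z | ∀ x ∈ N, ∀ y ∈ N, f x y ∈ N} := by
  refine (IsClub.relL fun l w => ∃ x y, l = [x, y] ∧ w = f x y).mono ?_
  intro N hN x hx y hy
  obtain ⟨w, hw, x', y', h1, h2⟩ := hN [x, y] (by simp [hx, hy]) ⟨f x y, x, y, rfl, rfl⟩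
  simp only [List.cons.injEq, and_true] at h1
  obtain ⟨rfl, rfl⟩ := h1
  rw [← h2]
  exact hw

theorem IsClub.fn3 (f : Z → Z → Z → Z) :
    IsClub {N : Set Z | ∀ x ∈ N, ∀ y ∈ N, ∀ z ∈ N, f x y z ∈ N} := by
  refine (IsClub.relL fun l w => ∃ x y z, l = [x, y, z] ∧ w = f x y z).mono ?_
  intro N hN x hx y hy z hz
  obtain ⟨w, hw, x', y', z', h1, h2⟩ :=
    hN [x, y, z] (by simp [hx, hy, hz]) ⟨f x y z, x, y, z, rfl, rfl⟩
  simp only [List.cons.injEq, and_true] at h1
  obtain ⟨rfl, rfl, rfl⟩ := h1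
  rw [← h2]
  exact hw

/-- elementarity -/
theorem IsClub.rel (R : Z → Z → Prop) :
    IsClub {N : Set Z | ∀ x ∈ N, (∃ y, R x y) → ∃ y ∈ N, R x y} := by
  refine (IsClub.relL fun l w => ∃ x, l = [x] ∧ R x w).mono ?_
  rintro N hN x hx ⟨y, hy⟩
  obtain ⟨w, hw, x', h1, h2⟩ := hN [x] (by simp [hx]) ⟨y, x, rfl, hy⟩
  simp only [List.cons.injEq, and_true] at h1
  obtain rfl := h1
  exact ⟨w, hw, h2⟩

theorem IsClub.rel2 (R : Z → Z → Z → Prop) :
    IsClub {N : Set Z | ∀ x ∈ N, ∀ y ∈ N, (∃ z, R x y z) → ∃ z ∈ N, R x y z} := by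
  refine (IsClub.relL fun l w => ∃ x y, l = [x, y] ∧ R x y w).mono ?_
  rintro N hN x hx y hy ⟨v, hv⟩
  obtain ⟨w, hw, x', y', h1, h2⟩ := hN [x, y] (by simp [hx, hy]) ⟨v, x, y, rfl, hv⟩
  simp only [List.cons.injEq, and_true] at h1
  obtain ⟨rfl, rfl⟩ := h1
  exact ⟨w, hw, h2⟩

theorem IsClub.rel3 (R : Z → Z → Z → Z → Prop) :
    IsClub {N : Set Z | ∀ x ∈ N, ∀ y ∈ N, ∀ z ∈ N, (∃ w, R x y z w) → ∃ w ∈ N, R x y z w} := by
  refine (IsClub.relL fun l w => ∃ x y z, l = [x, y, z] ∧ R x y z w).mono ?_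
  rintro N hN x hx y hy z hz ⟨v, hv⟩
  obtain ⟨w, hw, x', y', z', h1, h2⟩ :=
    hN [x, y, z] (by simp [hx, hy, hz]) ⟨v, x, y, z, rfl, hv⟩
  simp only [List.cons.injEq, and_true] at h1
  obtain ⟨rfl, rfl, rfl⟩ := h1
  exact ⟨w, hw, h2⟩

theorem IsClub.rel4 (R : Z → Z → Z → Z → Z → Prop) :
    IsClub {N : Set Z | ∀ x ∈ N, ∀ y ∈ N, ∀ z ∈ N, ∀ w ∈ N,
      (∃ v, R x y z w v) → ∃ v ∈ N, R x y z w v} := by
  refine (IsClub.relL fun l v => ∃ x y z w, l = [x, y, z, w] ∧ R x y z w v).mono ?_
  rintro N hN x hx y hy z hz w hw ⟨v, hv⟩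
  obtain ⟨t, ht, x', y', z', w', h1, h2⟩ :=
    hN [x, y, z, w] (by simp [hx, hy, hz, hw]) ⟨v, x, y, z, w, rfl, hv⟩
  simp only [List.cons.injEq, and_true] at h1
  obtain ⟨rfl, rfl, rfl, rfl⟩ := h1
  exact ⟨t, ht, h2⟩

/-- A club contains a countable set which contains a given countable set. -/
theorem IsClub.exists_mem {S : Set (Set Z)} (h : IsClub S) {A : Set Z} (hA : A.Countable) :
    ∃ N ∈ S, N.Countable ∧ A ⊆ N := by
  obtain ⟨F, hF⟩ := h
  exact ⟨clU F A, hF _ (clU_countable F hA) (closedU_clU F A), clU_countable F hA,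
    subset_clU F A⟩

theorem IsClub.comap {Z' : Type*} {g : Z' → Z} (hg : Function.Injective g) {S : Set (Set Z')}
    (h : IsClub S) : IsClub {N : Set Z | g ⁻¹' N ∈ S} := by
  classical
  obtain ⟨F, hF⟩ := h
  refine ⟨fun n l => if h : ∃ l' : List Z', l'.map g = l then (F n h.choose).map g else none, ?_⟩
  intro N hN hc
  refine hF _ (hN.preimage_of_injOn hg.injOn) ?_
  intro n l hl z hz
  have h1 : ∃ l' : List Z', l'.map g = l.map g := ⟨l, rfl⟩
  have h2 : h1.choose = l := List.map_injective_iff.2 hg h1.choose_spec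
  refine hc n (l.map g) ?_ (g z) ?_
  · intro w hw
    obtain ⟨w', hw', rfl⟩ := List.mem_map.1 hw
    exact hl w' hw'
  · simp only
    rw [dif_pos h1, h2, hz]
    rfl

theorem IsClub.proj {Z' : Type*} {g : Z → Z'} (hg : Function.Injective g) {S : Set (Set Z')}
    (h : IsClub S) : IsClub {N : Set Z | ∃ N' ∈ S, N'.Countable ∧ g ⁻¹' N' = N} := by
  classical
  obtain ⟨F, hF⟩ := h
  let C : List Z → Set Z' := fun l => clU F (g '' {z | z ∈ l})
  have hC : ∀ l, (C l).Countable := fun l =>
    clU_countable F (((List.finite_toSet l).countable).image g)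
  have hP : ∀ l, (g ⁻¹' C l).Countable := fun l => (hC l).preimage_of_injOn hg.injOn
  have hE : ∀ l, ∃ e : ℕ → Option Z, ∀ z ∈ g ⁻¹' C l, ∃ n, e n = some z := by
    intro l
    rcases Set.eq_empty_or_nonempty (g ⁻¹' C l) with h0 | h0
    · refine ⟨fun _ => none, fun z hz => ?_⟩
      rw [h0] at hz
      exact hz.elim
    · obtain ⟨e, he⟩ := (hP l).exists_eq_range h0
      refine ⟨fun n => some (e n), fun z hz => ?_⟩
      rw [he] at hz
      obtain ⟨n, rfl⟩ := hz
      exact ⟨n, rfl⟩
  have hE' : ∀ l, ∃ e : ℕ → Option Z, (∀ z ∈ g ⁻¹' C l, ∃ n, e n = some z) := hE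
  choose e he using hE'
  refine ⟨fun n l => e l n, ?_⟩
  intro N hN hc
  let N' : Set Z' := ⋃ l ∈ {l : List Z | ∀ z ∈ l, z ∈ N}, C l
  have hsub : ∀ l l' : List Z, (∀ z ∈ l, z ∈ l') → C l ⊆ C l' := by
    intro l l' hll
    apply clU_mono
    apply Set.image_mono
    intro z hz
    exact hll z hz
  have hNl : {l : List Z | ∀ z ∈ l, z ∈ N}.Countable := by
    have hcN : Countable N := hN.to_subtype
    refine (Set.countable_range fun m : List N => m.map Subtype.val).mono ?_
    intro l hl
    induction l with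
    | nil => exact ⟨[], rfl⟩
    | cons a l ih =>
      obtain ⟨m, hm⟩ := ih (fun w hw => hl w (List.mem_cons_of_mem _ hw))
      have hm' : m.map Subtype.val = l := hm
      exact ⟨⟨a, hl a List.mem_cons_self⟩ :: m, by simp [hm']⟩
  have hN'c : N'.Countable := hNl.biUnion fun l _ => hC l
  have hN'cl : ClosedU F N' := by
    intro n l hl z hz
    have h1 : ∃ m : List Z, (∀ w ∈ m, w ∈ N) ∧ ∀ w ∈ l, w ∈ C m := by
      clear hz
      induction l with
      | nil => exact ⟨[], by simp, by simp⟩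
      | cons a l ih =>
        obtain ⟨m, hm, hm'⟩ := ih (fun w hw => hl w (List.mem_cons_of_mem _ hw))
        obtain ⟨j, hj, hj'⟩ := Set.mem_iUnion₂.1 (hl a List.mem_cons_self)
        refine ⟨m ++ j, ?_, ?_⟩
        · intro w hw
          rcases List.mem_append.1 hw with hw | hw
          · exact hm w hw
          · exact hj w hw
        · intro w hw
          rcases List.mem_cons.1 hw with rfl | hw
          · exact hsub j (m ++ j) (fun z hz => List.mem_append_right _ hz) hj'
          · exact hsub m (m ++ j) (fun z hz => List.mem_append_left _ hz) (hm' w hw)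
    obtain ⟨m, hm, hm'⟩ := h1
    exact Set.mem_iUnion₂.2 ⟨m, hm, closedU_clU F _ n l hm' z hz⟩
  refine ⟨N', hF N' hN'c hN'cl, hN'c, ?_⟩
  apply Set.Subset.antisymm
  · intro z hz
    obtain ⟨l, hl, hl'⟩ := Set.mem_iUnion₂.1 hz
    obtain ⟨n, hn⟩ := he l z hl'
    exact hc n l hl z hn
  · intro z hz
    refine Set.mem_iUnion₂.2 ⟨[z], ?_, ?_⟩
    · intro w hw
      obtain rfl : w = z := by simpa using hw
      exact hz
    · exact subset_clU F _ ⟨z, by simp, rfl⟩

end Pool.Agent.W_MP_315f31_lc
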