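import Mathlib

/-!
# MP_315f31_lc : abstract notions (club filter, total properness over a poset, filters, supercompact
cardinals)

`P` is a type with a preorder `L` (`L q p` : `q` is stronger than `p`).  A name of a poset with
underlying set `Y` is a `P`-valued relation `ρ : Y → Y → P → Prop` (`ρ x y p` : `p` forces `x ≤ y`).
-/

universe u v

open Cardinal Set Filter

namespace Pool.Agent.W_MP_315f31_lc

/-! ### The club filter -/

/-- `N` is closed under the partial operations `F n`. -/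
def ClosedU {Z : Type v} (F : ℕ → List Z → Option Z) (N : Set Z) : Prop :=
  ∀ n l, (∀ z ∈ l, z ∈ N) → ∀ z, F n l = some z → z ∈ N

/-- `S` contains all countable sets closed under countably many suitable partial operations. -/
def IsClub {Z : Type v} (S : Set (Set Z)) : Prop :=
  ∃ F : ℕ → List Z → Option Z, ∀ N : Set Z, N.Countable → ClosedU F N → N ∈ S

/-! ### Total properness over a poset -/

section
variable {P Y W : Type u} (L : P → P → Prop) (ρ : Y → Y → P → Prop)

/-- `ρ` is a name of a preorder on `Y`. -/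
structure POrd : Prop where
  refl : ∀ x p, ρ x x p
  trans : ∀ x y z p, ρ x y p → ρ y z p → ρ x z p
  mono : ∀ x y p q, ρ x y p → L q p → ρ x y q
  reg : ∀ x y p, (∀ q, L q p → ∃ r, L r q ∧ ρ x y r) → ρ x y p

/-- The objects of a model `N`: elements of `P` and `Y`, subsets of `P` and of `P × Y`. -/
inductive ObA (P Y : Type u) : Type u
  | p (a : P) : ObA P Y
  | y (b : Y) : ObA P Y
  | d (D : Set P) : ObA P Y
  | s (E : Set (P × Y)) : ObA P Y

/-- `D` is dense open in `P`. -/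
def DOp (D : Set P) : Prop :=
  (∀ p q, p ∈ D → L q p → q ∈ D) ∧ ∀ p, ∃ q, L q p ∧ q ∈ D

/-- `E` is dense open in `P * Y`. -/
def DOs (E : Set (P × Y)) : Prop :=
  (∀ p y p' y', (p, y) ∈ E → L p' p → ρ y' y p' → (p', y') ∈ E) ∧
    ∀ p y, ∃ p' y', L p' p ∧ ρ y' y p' ∧ (p', y') ∈ E

/-- `q` is `(N, P)`-generic. -/
def GenA (N : Set (ObA P Y)) (q : P) : Prop :=
  ∀ D, ObA.d D ∈ N → DOp L D → ∀ q', L q' q → ∃ r, L r q' ∧ ∃ p, p ∈ D ∧ ObA.p p ∈ N ∧ L r p

/-- `r` forces that `y1` is a lower bound, below `y0`, of an `N[G]`-generic filter. -/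
def LB (N : Set (ObA P Y)) (r : P) (y0 y1 : Y) : Prop :=
  ρ y1 y0 r ∧ ∀ E, ObA.s E ∈ N → DOs L ρ E → ∀ r', L r' r → ∃ r'', L r'' r' ∧
    ∃ p y, (p, y) ∈ E ∧ ObA.p p ∈ N ∧ ObA.y y ∈ N ∧ L r'' p ∧ ρ y1 y r''

/-- `p0` forces that the poset `(Y, ρ)` is totally proper relative to the models `N[G]`, `N` in the
ground model. -/
def TPN (p0 : P) : Prop :=
  IsClub {N : Set (ObA P Y) | ∀ q, L q p0 → GenA L N q → ∀ y0, ObA.y y0 ∈ N →
    ∃ r y1, L r q ∧ LB L ρ N r y0 y1}

/-- `p0` forces that every `D w` is dense open. -/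
def DnsW (D : W → Y → P → Prop) (p0 : P) : Prop :=
  (∀ w y p y' q, D w y p → L q p → ρ y' y q → D w y' q) ∧
    ∀ w p, L p p0 → ∀ y, ∃ q y', L q p ∧ ρ y' y q ∧ D w y' q

/-- `q` forces that `F` is a directed set which meets every `D w`. -/
structure Filt (D : W → Y → P → Prop) (q : P) (F : Y → P → Prop) : Prop where
  mono : ∀ y p r, F y p → L r p → F y r
  dir : ∀ y y' r, L r q → F y r → F y' r → ∃ r' z, L r' r ∧ F z r' ∧ ρ z y r' ∧ ρ z y' r'
  meet : ∀ w r, L r q → ∃ r' y, L r' r ∧ F y r' ∧ D w y r'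

/-- `p0` forces that `(Y, ρ)` and the `D w` are a counterexample to the forcing axiom. -/
structure Bad (D : W → Y → P → Prop) (p0 : P) : Prop where
  ne : Nonempty Y
  ord : POrd L ρ
  tp : TPN L ρ p0
  dns : DnsW L ρ D p0
  nof : ∀ q, L q p0 → ∀ F, ¬ Filt L ρ D q F

end

/-! ### Supercompact cardinals -/

/-- `U` is a fine normal `κ`-complete ultrafilter on the set of subsets of `A` of size less
than `κ`. -/
structure IsFNU (κ : Cardinal.{u}) {A : Type u} (U : Ultrafilter (Set A)) : Prop where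
  small : {x : Set A | #x < κ} ∈ U
  fine : ∀ a : A, {x : Set A | a ∈ x} ∈ U
  complete : ∀ S : Set (Set (Set A)), #S < κ → (∀ s ∈ S, s ∈ U) → ⋂₀ S ∈ U
  normal : ∀ f : Set A → A, {x | f x ∈ x} ∈ U → ∃ a, {x | f x = a} ∈ U

/-- `κ` is a supercompact cardinal (of the universe of types in `Type u`). -/
def IsSupercompact (κ : Cardinal.{u}) : Prop :=
  κ.IsInaccessible ∧ ∀ A : Type u, ∃ U : Ultrafilter (Set A), IsFNU κ U

/-- `K` is (order isomorphic to) an inaccessible cardinal. -/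
structure Inacc (K : Type u) [LinearOrder K] : Prop where
  card : (#K).IsInaccessible
  lt : ∀ a : K, #(Iio a) < #K

/-- A type of size `ℵ₁`. -/
abbrev W1 : Type u := (ℵ₁ : Cardinal.{u}).out

end Pool.Agent.W_MP_315f31_lc
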