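import Pool.Agent.W_MP_315f31_lc.ItOk

/-!
# MP_315f31_lc : the collapse of every `δ < K` to `ℵ₁`, many reals

`extend_at`: the condition `glue (succ γ) (snoc γ w (cst x')) p`.  It is `≤ p`: `Dat.glue_le` and `Dat.snoc_le_iff`; for
`r ≤ w` in `P_γ`, `Dec γ r (cst x') y` gives `y = x'` (`Dat.Dec_cst`, `Dat.Dec_uniq`), `Dec γ r (p γ) z` gives `z = x`.
`decide_at`: `Dat.Dec_dense` at `γ` gives `w ≤ p` in `P_γ`; take `glue γ w p`.
`J_of_dec`: `Dat.le_iff` at `γ`.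

`it_coll`: let `l > δ` be a limit (`exists_lim`), `γ := succ (succ l)`, so `J γ = colJ C l`.
`g w a p := ∀ q, D.le ⊤ q p → ∀ x, Dec γ q (q γ) x → pfl C l x w = some a`.  uniq: `decide_at`.  Density: let `q1 ≤ p` and `x` with
`Dec γ q1 (q1 γ) x`; `{w | pfl C l x w ≠ none}` is countable and `#W1 = ℵ₁`, so there is `w` outside; let `pfl C l x'` be
`pfl C l x` with the additional value `a` at `w` (`exists_pfl`); take `extend_at`.  For `q' ≤ q` with `Dec γ q' (q' γ) x''`: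
`J γ x'' x' q'` by `J_of_dec`.

`it_reals`: let `ι` be given by `exists_lim_inj`, `γ δ := succ^[3] (ι δ)`, so `J (γ δ) = cohJ C` (`IsIt.coh` with `n = 0`).
`x δ n b p := ∀ q, D.le ⊤ q p → ∀ v, Dec (γ δ) q (q (γ δ)) v → ∃ m, (C.ls v)[n]? = some m ∧ decide (m % 2 = 1) = b`.
Density, without changing the coordinates above `γ δ`: decide the value `v` and extend `C.ls v` by zeros to length
`> n`.  Distinctness: by symmetry (the statement for `(δ, δ', n, b)` follows from the one for `(δ', δ, n, !b)`) let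
`γ δ < γ δ'`.  Decide the value `v'` at `γ δ'` (`q1`), let `n` be the length of `C.ls v'`, let `q2 ≤ q1` decide the bit `n` of `x δ` to be
`b`, with the same coordinates above `γ δ`; so `Dec (γ δ') q2 (q2 (γ δ')) v'` by `Dat.Dec_mono`; extend `C.ls v'` at `γ δ'` by one
element so that bit `n` is `!b`.
-/

universe u

open Cardinal Set

namespace Pool.Agent.W_MP_315f31_lc

variable {K : Type u} [LinearOrder K] [OrderBot K] [WellFoundedLT K] [SuccOrder K] [NoMaxOrder K]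
  {C : Cod K} {D : Dat K}

theorem J_of_dec (h : OkB D ⊤) {γ x y : K} {r p : Cond K} (hr : D.le ⊤ r p)
    (hx : D.Dec γ r (r γ) x) (hy : D.Dec γ r (p γ) y) : D.J γ x y r :=
  (D.le_iff ⊤ r p).1 hr γ (WithTop.coe_lt_top γ) r (Dat.le_refl (h.mono_top le_top) r) x y hx hy

theorem decide_at (h : OkB D ⊤) (γ : K) (p : Cond K) : ∃ q x, D.le ⊤ q p ∧
    D.Dec γ q (q γ) x ∧ ∀ β, γ ≤ β → q β = p β := by
  obtain ⟨w, x, hw, hx⟩ := Dat.Dec_dense (h.mono_top (le_top : (γ : WithTop K) ≤ ⊤)) p (p γ)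
  have hge : ∀ β, γ ≤ β → Cond.glue (γ : WithTop K) w p β = p β := fun β hβ =>
    Cond.glue_of_ge w p (WithTop.coe_le_coe.2 hβ)
  refine ⟨Cond.glue (γ : WithTop K) w p, x, Dat.glue_le h le_top hw, ?_, hge⟩
  rw [hge γ (_root_.le_refl γ)]
  exact (Dat.Dec_congr D fun β hβ => Cond.glue_of_lt w p hβ).2 hx

theorem extend_at (h : OkB D ⊤) {γ x x' : K} {w p : Cond K} (hw : D.le (γ : WithTop K) w p)
    (hx : D.Dec γ w (p γ) x) (hJ : D.J γ x' x w) :
    ∃ q, D.le ⊤ q p ∧ (∀ β < γ, q β = w β) ∧ q γ = D.cst x' ∧ (∀ β, γ < β → q β = p β) ∧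
      D.Dec γ q (q γ) x' := by
  have hγ : OkB D (γ : WithTop K) := h.mono_top le_top
  have h1 : D.le (Order.succ γ : K) (Cond.snoc γ w (D.cst x')) p := by
    rw [Dat.snoc_le_iff hγ]
    exact ⟨hw, (Dat.FL_iff h (WithTop.coe_lt_top γ) (Dat.Dec_cst hγ w x') hx).2 hJ⟩
  have e1 : Cond.glue (Order.succ γ : K) (Cond.snoc γ w (D.cst x')) p γ = D.cst x' := by
    rw [Cond.glue_of_lt _ _ (WithTop.coe_lt_coe.2 (Order.lt_succ γ)), Cond.snoc_self]
  refine ⟨Cond.glue (Order.succ γ : K) (Cond.snoc γ w (D.cst x')) p,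
    Dat.glue_le h le_top h1, fun β hβ => ?_, e1, fun β hβ => ?_, ?_⟩
  · rw [Cond.glue_of_lt _ _ (WithTop.coe_lt_coe.2 (hβ.trans (Order.lt_succ γ))),
      Cond.snoc_of_lt _ _ hβ]
  · exact Cond.glue_of_ge _ _ (WithTop.coe_le_coe.2 (Order.succ_le_of_lt hβ))
  · rw [e1]
    exact Dat.Dec_cst hγ _ x'

/-- the values at `γ` of the stronger conditions are stronger than a given value -/
theorem cr_force (h : OkB D ⊤) {γ x' y : K} {q q' : Cond K} (hq : D.Dec γ q (q γ) x')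
    (hle : D.le ⊤ q' q) (hy : D.Dec γ q' (q' γ) y) : D.J γ y x' q' :=
  J_of_dec h hle hy (Dat.Dec_mono (h.mono_top le_top) hq (D.le_mono le_top hle))

/-- strengthen the value at `γ` -/
theorem cr_ext (h : OkB D ⊤) {γ x x' : K} {p : Cond K} (hx : D.Dec γ p (p γ) x)
    (hJ : D.J γ x' x p) : ∃ q, D.le ⊤ q p ∧ (∀ β, γ < β → q β = p β) ∧
      ∀ q', D.le ⊤ q' q → ∀ y, D.Dec γ q' (q' γ) y → D.J γ y x' q' := by
  obtain ⟨q, h1, -, -, h4, h5⟩ := extend_at h (Dat.le_refl (h.mono_top le_top) p) hx hJ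
  exact ⟨q, h1, h4, fun q' hq' y hy => cr_force h h5 hq' hy⟩

theorem it_coll (hC : C.Ok) (hI : IsIt C D) (h : OkB D ⊤) (δ : K) :
    ∃ g : W1.{u} → K → Cond K → Prop, IsFn (D.le ⊤) g ∧
      ∀ a < δ, ∀ p, ∃ q w, D.le ⊤ q p ∧ g w a q := by
  classical
  obtain ⟨l, hδl, hl⟩ := exists_lim h.inacc δ
  obtain ⟨γ, hγ⟩ : ∃ γ : K, γ = Order.succ (Order.succ l) := ⟨_, rfl⟩
  have hJ : D.J γ = colJ C l := by
    rw [hγ]
    exact hI.col l hl
  refine ⟨fun w a p => ∀ q, D.le ⊤ q p → ∀ x, D.Dec γ q (q γ) x → pfl C l x w = some a,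
    ⟨?_, ?_⟩, ?_⟩
  · intro w a p q hp hq q' hq' x hx
    exact hp q' (Dat.le_trans h hq' hq) x hx
  · intro w a b p ha hb
    obtain ⟨q, x, hq, hx, -⟩ := decide_at h γ p
    have h1 := ha q hq x hx
    have h2 := hb q hq x hx
    rw [h1] at h2
    exact Option.some.inj h2
  · intro a ha p
    obtain ⟨q1, x, hq1, hx, -⟩ := decide_at h γ p
    have hct := pfl_ctbl hC l x
    obtain ⟨w, hw⟩ : ∃ w, pfl C l x w = none := by
      by_contra hcon
      push Not at hcon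
      have h1 : {w | pfl C l x w ≠ none} = Set.univ := by
        ext w
        simp [hcon w]
      rw [h1] at hct
      have h2 : #(W1.{u}) ≤ ℵ₀ := by
        rw [← Cardinal.mk_univ]
        exact hct.le_aleph0
      rw [Cardinal.mk_out] at h2
      exact absurd h2 (not_le.2 Cardinal.aleph0_lt_aleph_one)
    obtain ⟨x', hx'⟩ := exists_pfl hC l (Function.update (pfl C l x) w (some a))
      ((hct.insert w).mono fun v hv => by
        by_cases hvw : v = w
        · exact Or.inl hvw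
        · right
          have hv' : Function.update (pfl C l x) w (some a) v ≠ none := hv
          rw [Function.update_of_ne hvw] at hv'
          exact hv')
      (fun v b hv => by
        by_cases hvw : v = w
        · subst hvw
          rw [Function.update_self] at hv
          rw [← Option.some.inj hv]
          exact ha.trans hδl
        · rw [Function.update_of_ne hvw] at hv
          exact pfl_lt hv)
    have hxx : D.J γ x' x q1 := by
      rw [hJ]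
      intro v b hv
      rw [hx']
      by_cases hvw : v = w
      · subst hvw
        rw [hw] at hv
        exact absurd hv (by simp)
      · rw [Function.update_of_ne hvw]
        exact hv
    obtain ⟨q, hq, -, hf⟩ := cr_ext h hx hxx
    refine ⟨q, w, Dat.le_trans h hq hq1, fun q' hq' y hy => ?_⟩
    have h1 := hf q' hq' y hy
    rw [hJ] at h1
    refine h1 w a ?_
    rw [hx', Function.update_self]

/-- the bit `n` of the real added at `γ` -/
def cr_bit (C : Cod K) (D : Dat K) (γ : K) (n : ℕ) (b : Bool) (p : Cond K) : Prop :=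
  ∀ q, D.le ⊤ q p → ∀ v, D.Dec γ q (q γ) v →
    ∃ m, (C.ls v)[n]? = some m ∧ decide (m % 2 = 1) = b

theorem cr_bit_mono (h : OkB D ⊤) {γ : K} {n : ℕ} {b : Bool} {p q : Cond K}
    (hp : cr_bit C D γ n b p) (hq : D.le ⊤ q p) : cr_bit C D γ n b q :=
  fun q' hq' v hv => hp q' (Dat.le_trans h hq' hq) v hv

/-- extend the sequence at `γ` -/
theorem cr_coh_ext (hC : C.Ok) (h : OkB D ⊤) {γ : K} (hJ : D.J γ = cohJ C) {p : Cond K} {v : K}
    (hv : D.Dec γ p (p γ) v) {s : List ℕ} (hs : C.ls v <+: s) {n m : ℕ} (hm : s[n]? = some m) :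
    ∃ q, D.le ⊤ q p ∧ cr_bit C D γ n (decide (m % 2 = 1)) q ∧ ∀ β, γ < β → q β = p β := by
  obtain ⟨x', hx'⟩ := hC.ls_surj s
  have h1 : D.J γ x' v p := by
    rw [hJ]
    show C.ls v <+: C.ls x'
    rw [hx']
    exact hs
  obtain ⟨q, hq, hge, hf⟩ := cr_ext h hv h1
  refine ⟨q, hq, fun q' hq' y hy => ⟨m, ?_, rfl⟩, hge⟩
  have h2 := hf q' hq' y hy
  rw [hJ] at h2
  have h3 : C.ls x' <+: C.ls y := h2
  rw [hx'] at h3
  obtain ⟨t, ht⟩ := h3
  obtain ⟨hlt, -⟩ := List.getElem?_eq_some_iff.1 hm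
  rw [← ht, List.getElem?_append_left hlt]
  exact hm

theorem cr_bit_dense (hC : C.Ok) (h : OkB D ⊤) {γ : K} (hJ : D.J γ = cohJ C) (n : ℕ)
    (p : Cond K) : ∃ q b, D.le ⊤ q p ∧ cr_bit C D γ n b q ∧ ∀ β, γ < β → q β = p β := by
  obtain ⟨q1, v, hq1, hv, hge⟩ := decide_at h γ p
  have hlen : n < (C.ls v ++ List.replicate (n + 1) 0).length := by
    rw [List.length_append, List.length_replicate]
    omega
  obtain ⟨q, hq, hb, hge'⟩ := cr_coh_ext hC h hJ hv (List.prefix_append _ _)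
    (List.getElem?_eq_getElem hlen)
  exact ⟨q, _, Dat.le_trans h hq hq1, hb, fun β hβ => (hge' β hβ).trans (hge β hβ.le)⟩

theorem cr_bit_diff (hC : C.Ok) (h : OkB D ⊤) {γ γ' : K} (hJ : D.J γ = cohJ C)
    (hJ' : D.J γ' = cohJ C) (hγ : γ < γ') (p : Cond K) :
    ∃ q n b, D.le ⊤ q p ∧ cr_bit C D γ n b q ∧ cr_bit C D γ' n (!b) q := by
  obtain ⟨q1, v', hq1, hv', -⟩ := decide_at h γ' p
  obtain ⟨q2, b, hq2, hb, hge⟩ := cr_bit_dense hC h hJ (C.ls v').length q1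
  have hv2 : D.Dec γ' q2 (q2 γ') v' := by
    rw [hge γ' hγ]
    exact Dat.Dec_mono (h.mono_top le_top) hv' (D.le_mono le_top hq2)
  obtain ⟨m, hm⟩ : ∃ m : ℕ, decide (m % 2 = 1) = !b := by
    cases b
    · exact ⟨1, rfl⟩
    · exact ⟨0, rfl⟩
  obtain ⟨q, hq, hb', -⟩ := cr_coh_ext hC h hJ' hv2 (List.prefix_append (C.ls v') [m])
    (n := (C.ls v').length) (m := m) (by simp)
  rw [hm] at hb'
  exact ⟨q, (C.ls v').length, b, Dat.le_trans h hq (Dat.le_trans h hq2 hq1),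
    cr_bit_mono h hb hq, hb'⟩

theorem it_reals (hC : C.Ok) (hI : IsIt C D) (h : OkB D ⊤) :
    ∃ x : K → ℕ → Bool → Cond K → Prop,
    (∀ δ n b p q, x δ n b p → D.le ⊤ q p → x δ n b q) ∧ (∀ δ n p, ¬ (x δ n true p ∧ x δ n false p)) ∧
    (∀ δ n p, ∃ q b, D.le ⊤ q p ∧ x δ n b q) ∧
    ∀ δ δ', δ ≠ δ' → ∀ p, ∃ q n b, D.le ⊤ q p ∧ x δ n b q ∧ x δ' n (!b) q := by
  obtain ⟨ι, hι, hlim⟩ := exists_lim_inj h.inacc
  obtain ⟨γ, hγ⟩ : ∃ γ : K → K, γ = fun δ => Order.succ^[3] (ι δ) := ⟨_, rfl⟩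
  have hJ : ∀ δ, D.J (γ δ) = cohJ C := by
    intro δ
    rw [hγ]
    exact hI.coh (ι δ) (hlim δ) 0
  have hinj : Function.Injective γ := by
    rw [hγ]
    exact (Order.succ_injective.iterate 3).comp hι
  refine ⟨fun δ => cr_bit C D (γ δ), fun δ n b p q hp hq => cr_bit_mono h hp hq, ?_, ?_, ?_⟩
  · rintro δ n p ⟨h1, h2⟩
    obtain ⟨q, v, hq, hv, -⟩ := decide_at h (γ δ) p
    obtain ⟨m, hm, e1⟩ := h1 q hq v hv
    obtain ⟨m', hm', e2⟩ := h2 q hq v hv
    rw [hm] at hm'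
    rw [Option.some.inj hm', e2] at e1
    exact absurd e1 (by simp)
  · intro δ n p
    obtain ⟨q, b, hq, hb, -⟩ := cr_bit_dense hC h (hJ δ) n p
    exact ⟨q, b, hq, hb⟩
  · intro δ δ' hne p
    rcases lt_or_gt_of_ne (hinj.ne hne) with h1 | h1
    · exact cr_bit_diff hC h (hJ δ) (hJ δ') h1 p
    · obtain ⟨q, n, b, hq, hb, hb'⟩ := cr_bit_diff hC h (hJ δ') (hJ δ) h1 p
      refine ⟨q, n, !b, hq, hb', ?_⟩
      rw [Bool.not_not]
      exact hb

end Pool.Agent.W_MP_315f31_lc
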