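import Pool.Agent.W_MP_315f31_lc.ItOk

/-!
# MP_315f31_lc : covering of countable sets

Choose `v n p` with `f n (v n p) p` whenever there is such an `a`.  `E_n := {(p, s) | ∃ a, f n a p}` is `DO ⊤`.  By
`Dat.exists_gen'` (`β = ⊤`, `S = univ`, `A = {Ob.e E_n | n}`) there are a countable `N` containing all `Ob.e E_n`, `c` and
`r ≤ p` with `Gen N c ⊤ r`.  Let `S := {a | ∃ n p', Ob.c p' ∈ N ∧ a = v n p'}`, a countable set.  For `r1 ≤ r` `Gen` gives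
`r' ≤ r1` and `p'` with `Ob.c p' ∈ N`, `(p', _) ∈ E_n`, `r' ≤ p'`; so `f n (v n p') r'`.
-/

universe u

open Cardinal Set

namespace Pool.Agent.W_MP_315f31_lc

variable {K : Type u} [LinearOrder K] [OrderBot K] [WellFoundedLT K] [SuccOrder K] [NoMaxOrder K]
  {D : Dat K}

theorem it_cover (h : OkB D ⊤) (hg : ∀ γ, D.Good γ) (A : Type u) (f : ℕ → A → Cond K → Prop)
    (hf : ∀ n a p q, f n a p → D.le ⊤ q p → f n a q) (hd : ∀ n p, ∃ q a, D.le ⊤ q p ∧ f n a q)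
    (p : Cond K) : ∃ (q : Cond K) (S : Set A), D.le ⊤ q p ∧ S.Countable ∧
      ∀ n r, D.le ⊤ r q → ∃ r' a, D.le ⊤ r' r ∧ a ∈ S ∧ f n a r' := by
  let E : ℕ → Set (Cond K × List ℕ) := fun n => {z | ∃ a, f n a z.1}
  have hE : ∀ n, D.DO ⊤ (E n) := by
    intro n
    constructor
    · rintro p s p' s' ⟨a, ha⟩ hp _
      exact ⟨a, hf n a p p' ha hp⟩
    · intro p s
      obtain ⟨q, a, hq, ha⟩ := hd n p
      exact ⟨q, s, hq, List.prefix_rfl, a, ha⟩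
  obtain ⟨N, -, hNc, hAN, -, c, r, -, hrp, hgen⟩ := Dat.exists_gen' h (fun γ _ => hg γ)
    IsClub.univ (countable_range fun n => Ob.e (E n)) p
  have hP : {p' : Cond K | Ob.c p' ∈ N}.Countable := by
    refine hNc.preimage_of_injOn (f := Ob.c) ?_
    intro a _ b _ hab
    exact Ob.c.inj hab
  refine ⟨r, ⋃ n, ⋃ p' ∈ {p' : Cond K | Ob.c p' ∈ N}, {a | ∃ h : (∃ a, f n a p'), h.choose = a},
    hrp, ?_, ?_⟩
  · refine countable_iUnion fun n => hP.biUnion fun p' _ => ?_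
    refine Set.Subsingleton.countable ?_
    rintro a ⟨_, rfl⟩ b ⟨_, rfl⟩
    rfl
  · intro n r1 hr1
    obtain ⟨r', hr', p', m, ⟨a, ha⟩, hp', hrp'⟩ := hgen (E n) (hAN ⟨n, rfl⟩) (hE n) r1 hr1
    have hex : ∃ a, f n a p' := ⟨a, ha⟩
    exact ⟨r', hex.choose, hr', mem_iUnion.2 ⟨n, mem_iUnion₂.2 ⟨p', hp', hex, rfl⟩⟩,
      hf n _ p' r' hex.choose_spec hrp'⟩

end Pool.Agent.W_MP_315f31_lc
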