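import Pool.Agent.W_MP_315f31_lc.Core

/-!
# MP_315f31_lc : countable support iterations of length `K`

`K` is a well-order of the type of an inaccessible cardinal.  Conditions are functions `K → K` with
countable support; the coordinate `p γ` is a NAME of an element of the stage poset `γ`, whose
underlying set (base) is `K` and whose order is the relation `J γ : K → K → Cond K → Prop`
(`J γ x y p` : `p` forces `x ≤ y` in the stage poset `γ`); the base element `⊥` is the largest
element of every stage poset.  A name `k` of a base element is evaluated through `nm k : Set (Cond K × K)`: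
its value in `V[G]` is the least `x` such that `(u, x) ∈ nm k` for some `u ∈ G` (and `⊥` if there is
none).  `le β` is the order of the iteration up to `β : WithTop K`.
-/

universe u

open Cardinal Set

namespace Pool.Agent.W_MP_315f31_lc

variable {K : Type u} [LinearOrder K] [OrderBot K]

/-! ### Conditions -/

/-- Conditions: functions with countable support. -/
def Cond (K : Type u) [LinearOrder K] [OrderBot K] : Type u :=
  {p : K → K // {γ | p γ ≠ ⊥}.Countable}

instance : CoeFun (Cond K) fun _ => K → K := ⟨Subtype.val⟩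

namespace Cond

theorem ext {p q : Cond K} (h : ∀ γ, p γ = q γ) : p = q := Subtype.ext (funext h)

/-- The largest condition. -/
def one : Cond K := ⟨fun _ => ⊥, by simp⟩

/-- `w` below `α`, `r` from `α` on. -/
noncomputable def glue (α : WithTop K) (w r : Cond K) : Cond K :=
  ⟨fun γ => open Classical in if (γ : WithTop K) < α then w γ else r γ, by
    refine (w.2.union r.2).mono ?_
    intro γ hγ
    by_cases h : (γ : WithTop K) < α
    · left; simpa [h] using hγ
    · right; simpa [h] using hγ⟩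

theorem glue_of_lt {α : WithTop K} (w r : Cond K) {γ : K} (h : (γ : WithTop K) < α) :
    glue α w r γ = w γ := by
  show (if (γ : WithTop K) < α then w γ else r γ) = _
  simp [h]

theorem glue_of_ge {α : WithTop K} (w r : Cond K) {γ : K} (h : α ≤ (γ : WithTop K)) :
    glue α w r γ = r γ := by
  show (if (γ : WithTop K) < α then w γ else r γ) = _
  simp [not_lt.2 h]

/-- `q` below `γ`, the name `a` at `γ`, nothing above `γ`. -/
noncomputable def snoc (γ : K) (q : Cond K) (a : K) : Cond K :=
  ⟨fun β => open Classical in if β < γ then q β else if β = γ then a else ⊥, by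
    refine (q.2.union (countable_singleton γ)).mono ?_
    intro β hβ
    by_cases h : β < γ
    · left; simpa [h] using hβ
    · right
      by_cases h' : β = γ
      · exact h'
      · simp [h, h'] at hβ⟩

theorem snoc_of_lt {γ β : K} (q : Cond K) (a : K) (h : β < γ) : snoc γ q a β = q β := by
  show (if β < γ then q β else if β = γ then a else ⊥) = _
  simp [h]

theorem snoc_self (γ : K) (q : Cond K) (a : K) : snoc γ q a γ = a := by
  show (if γ < γ then q γ else if γ = γ then a else ⊥) = _
  simp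

theorem snoc_of_gt {γ β : K} (q : Cond K) (a : K) (h : γ < β) : snoc γ q a β = ⊥ := by
  show (if β < γ then q β else if β = γ then a else ⊥) = _
  simp [not_lt.2 h.le, ne_of_gt h]

end Cond

/-- `q` is bounded by `δ`: its support and its values are below `δ`. -/
def Bnd (q : Cond K) (δ : K) : Prop := ∀ γ, q γ ≠ ⊥ → γ < δ ∧ q γ < δ

/-- The set of the conditions bounded by `δ`, as a type. -/
abbrev CT (δ : K) : Type u := {q : Cond K // Bnd q δ}

/-- `δ` has uncountable cofinality (or is a successor, or `⊥`). -/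
def CofU (δ : K) : Prop := ∀ s : ℕ → K, (∀ n, s n < δ) → ∃ b < δ, ∀ n, s n ≤ b

/-! ### The order -/

/-- The data of an iteration: evaluation of names, stage posets. -/
structure Dat (K : Type u) [LinearOrder K] [OrderBot K] where
  nm : K → Set (Cond K × K)
  J : K → K → K → Cond K → Prop

/-- Incompatibility with respect to a relation. -/
def IncR (L : Cond K → Cond K → Prop) (p q : Cond K) : Prop := ¬ ∃ w, L w p ∧ L w q

/-- `p` decides, in a strong way, that the value of the name `k` is `x`. -/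
def DecR (nm : K → Set (Cond K × K)) (L : Cond K → Cond K → Prop) (p : Cond K) (k x : K) : Prop :=
  ((∃ u, (u, x) ∈ nm k ∧ L p u) ∧ ∀ y < x, ∀ v, (v, y) ∈ nm k → IncR L p v) ∨
    (x = ⊥ ∧ ∀ y v, (v, y) ∈ nm k → IncR L p v)

variable [WellFoundedLT K]

/-- The order of the iteration up to `β`. -/
noncomputable def Dat.le (D : Dat K) : WithTop K → Cond K → Cond K → Prop :=
  WellFounded.fix (C := fun _ => Cond K → Cond K → Prop) (wellFounded_lt (α := WithTop K))
    (fun β ih p q => ∀ (γ : K) (h : (γ : WithTop K) < β), ∀ r, ih γ h r p → ∀ x y,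
      DecR D.nm (ih γ h) r (p γ) x → DecR D.nm (ih γ h) r (q γ) y → D.J γ x y r)

/-- `p` decides the value of the name `k` at stage `γ`. -/
def Dat.Dec (D : Dat K) (β : WithTop K) (p : Cond K) (k x : K) : Prop := DecR D.nm (D.le β) p k x

/-- Incompatibility at stage `β`. -/
def Dat.Inc (D : Dat K) (β : WithTop K) (p q : Cond K) : Prop := IncR (D.le β) p q

theorem Dat.le_iff (D : Dat K) (β : WithTop K) (p q : Cond K) :
    D.le β p q ↔ ∀ γ : K, (γ : WithTop K) < β → ∀ r, D.le γ r p → ∀ x y,
      D.Dec γ r (p γ) x → D.Dec γ r (q γ) y → D.J γ x y r := by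
  unfold Dat.Dec
  conv_lhs => rw [Dat.le, WellFounded.fix_eq]
  rfl

/-- The requirements on the stages below `β`. -/
structure OkB (D : Dat K) (β : WithTop K) : Prop where
  inacc : Inacc K
  nm_bot : D.nm ⊥ = ∅
  nm_surj : ∀ S : Set (Cond K × K), #S < #K → ∃ k, D.nm k = S
  refl : ∀ γ : K, (γ : WithTop K) < β → ∀ x p, D.J γ x x p
  top : ∀ γ : K, (γ : WithTop K) < β → ∀ x p, D.J γ x ⊥ p
  trans : ∀ γ : K, (γ : WithTop K) < β → ∀ x y z p, D.J γ x y p → D.J γ y z p → D.J γ x z p
  mono : ∀ γ : K, (γ : WithTop K) < β → ∀ x y p q, D.J γ x y p → D.le γ q p → D.J γ x y q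
  reg : ∀ γ : K, (γ : WithTop K) < β → ∀ x y p,
    (∀ q, D.le γ q p → ∃ r, D.le γ r q ∧ D.J γ x y r) → D.J γ x y p
  sm : ∀ γ : K, (γ : WithTop K) < β → ∃ X : Set K, #X < #K ∧
    ∀ x, ∃ y ∈ X, ∀ p, D.J γ x y p ∧ D.J γ y x p

theorem OkB.mono_top {D : Dat K} {α β : WithTop K} (h : OkB D β) (hα : α ≤ β) : OkB D α where
  inacc := h.inacc
  nm_bot := h.nm_bot
  nm_surj := h.nm_surj
  refl γ hγ := h.refl γ (hγ.trans_le hα)
  top γ hγ := h.top γ (hγ.trans_le hα)
  trans γ hγ := h.trans γ (hγ.trans_le hα)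
  mono γ hγ := h.mono γ (hγ.trans_le hα)
  reg γ hγ := h.reg γ (hγ.trans_le hα)
  sm γ hγ := h.sm γ (hγ.trans_le hα)

/-! ### Generic conditions -/

/-- The objects of the models `N`: elements of `K`, conditions, subsets of `Cond K × List ℕ` and
subsets of `Cond K × K`. -/
inductive Ob (K : Type u) [LinearOrder K] [OrderBot K] : Type u
  | k (x : K) : Ob K
  | c (p : Cond K) : Ob K
  | e (E : Set (Cond K × List ℕ)) : Ob K
  | s (E : Set (Cond K × K)) : Ob K

/-- The initial segment of length `n` of `c`. -/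
def pre (c : ℕ → ℕ) (n : ℕ) : List ℕ := (List.range n).map c

/-- `E` is dense open in `P_β × List ℕ`. -/
def Dat.DO (D : Dat K) (β : WithTop K) (E : Set (Cond K × List ℕ)) : Prop :=
  (∀ p s p' s', (p, s) ∈ E → D.le β p' p → s <+: s' → (p', s') ∈ E) ∧
    ∀ p s, ∃ p' s', D.le β p' p ∧ s <+: s' ∧ (p', s') ∈ E

/-- `q` is `(N, P_β)`-generic and forces that `c` is a Cohen real over `N[G_β]`. -/
def Dat.Gen (D : Dat K) (N : Set (Ob K)) (c : ℕ → ℕ) (β : WithTop K) (q : Cond K) : Prop :=
  ∀ E, Ob.e E ∈ N → D.DO β E → ∀ q', D.le β q' q →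
    ∃ r, D.le β r q' ∧ ∃ p n, (p, pre c n) ∈ E ∧ Ob.c p ∈ N ∧ D.le β r p

/-- The name `a` is forced by `q` to be below the base element `x` at stage `γ`. -/
def Dat.Below (D : Dat K) (γ : K) (q : Cond K) (a x : K) : Prop :=
  ∀ r, D.le γ r q → ∀ z, D.Dec γ r a z → D.J γ z x r

/-- The stage poset `γ` is good: for club many `N` generic conditions of `P_γ` extend to
generic conditions of `P_(γ+1)`. -/
def Dat.Good (D : Dat K) [SuccOrder K] (γ : K) : Prop :=
  IsClub {N : Set (Ob K) | ∀ c q, D.Gen N c γ q → ∀ x, Ob.k x ∈ N →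
    ∃ a, D.Below γ q a x ∧ D.Gen N c (Order.succ γ : K) (Cond.snoc γ q a)}

/-- `W` is a `P_α`-name, below `q`, of a condition `p ∈ P_β ∩ N` with `p ↾ α ∈ G_α`: `W w p`
means that `w` decides this condition to be `p`. -/
structure Dat.CNm (D : Dat K) (N : Set (Ob K)) (α : WithTop K) (q : Cond K)
    (W : Cond K → Cond K → Prop) : Prop where
  mono : ∀ w w' p, W w p → D.le α w' w → W w' p
  dense : ∀ w, D.le α w q → ∃ w' p, D.le α w' w ∧ W w' p
  uniq : ∀ w p p', W w p → W w p' → p = p'
  mem : ∀ w p, W w p → Ob.c p ∈ N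
  le : ∀ w p, W w p → D.le α w p

/-- `β` belongs to the model. -/
def MemB (N : Set (Ob K)) : WithTop K → Prop
  | ⊤ => True
  | (b : K) => Ob.k b ∈ N

/-- The statement of the iteration lemma for the model `N` between `α` and `β`. -/
def Dat.IterAt (D : Dat K) (N : Set (Ob K)) (α β : WithTop K) : Prop :=
  ∀ c q, D.Gen N c α q → ∀ W, D.CNm N α q W →
    ∃ r : Cond K, (∀ γ : K, (γ : WithTop K) < α → r γ = q γ) ∧ D.Gen N c β r ∧
      ∀ w p, D.le α w q → W w p → D.le β (Cond.glue α w r) p

/-- `c` is a Cohen real over `N`. -/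
def Dat.Coh (D : Dat K) (N : Set (Ob K)) (c : ℕ → ℕ) : Prop :=
  ∀ E, Ob.e E ∈ N → D.DO ((⊥ : K) : WithTop K) E → ∃ p n, (p, pre c n) ∈ E ∧ Ob.c p ∈ N

/-- `r` forces that the base element `y` of the stage `γ` is a lower bound, below `x`, of an
`N[G]`-generic filter. -/
def Dat.LBK (D : Dat K) (N : Set (Ob K)) (γ : K) (r : Cond K) (x y : K) : Prop :=
  D.J γ y x r ∧ ∀ E, Ob.s E ∈ N → DOs (D.le γ) (D.J γ) E → ∀ r', D.le γ r' r →
    ∃ r'', D.le γ r'' r' ∧ ∃ p z, (p, z) ∈ E ∧ Ob.c p ∈ N ∧ Ob.k z ∈ N ∧ D.le γ r'' p ∧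
      D.J γ y z r''

/-- The stage `γ` is totally proper relative to the models `N[G]`. -/
def Dat.TPK (D : Dat K) (γ : K) : Prop :=
  IsClub {N : Set (Ob K) | ∀ c q, D.Gen N c γ q → ∀ x, Ob.k x ∈ N →
    ∃ r y, D.le γ r q ∧ D.LBK N γ r x y}

/-- The conditions of `P_β` are the conditions bounded by `η`, up to equivalence. -/
def Dat.SmallAt (D : Dat K) (β : WithTop K) (η : K) : Prop :=
  ∀ p, ∃ q, Bnd q η ∧ D.le β q p ∧ D.le β p q

/-- The comparison of names, forced by `p`. -/
def Dat.FL (D : Dat K) (γ : K) (p : Cond K) (a b : K) : Prop :=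
  ∀ r, D.le γ r p → ∀ x y, D.Dec γ r a x → D.Dec γ r b y → D.J γ x y r

end Pool.Agent.W_MP_315f31_lc
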