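import Pool.Agent.W_MP_315f31_lc.Defs
import Pool.Agent.W_MP_315f31_lc.D_h1.RefA

/-!
# MP_315f31_lc : reflection of minimal counterexamples (supercompactness)

`κ = #K`, `P = Cond K` with ANY preorder `L`.  No property of the iteration is used here.

RULES for a fine normal `κ`-complete ultrafilter `U` on `Set A` (`∀ᶠ x` means: for `U`-many `x`):
(N) if for every `a : A`, `∀ᶠ x, φ x a`, then `∀ᶠ x, ∀ a ∈ x, φ x a` (otherwise pick `f x = a ∈ x` with
`¬ φ x a`, `f` is constant on a set of `U`); the same for finitely many elements and lists of elements of `x`,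
and for countable subsets `C ⊆ x` (a countable subset is the range of a sequence `s_x : ℕ → x`, each
`s_x n` is constant on a set of `U`, so `C` is constant on a set of `U`).
(E) if `∀ᶠ x, ∃ a ∈ x, φ x a` then `∃ a, ∀ᶠ x, φ x a`; the same for countable subsets.
(S) if `∀ᶠ x, ∃ S ⊆ x, φ x S` then `∃ S ⊆ A, ∀ᶠ x, φ x (S ∩ x)`: put `S = {a | ∀ᶠ x, a ∈ S_x}`, then
`∀ᶠ x, S ∩ x = S_x` by (N).  The same for relations on `x` and for operations on the lists of elements of `x`.

(T) TRANSFER.  Let `Z : Type u` and let `U` be such an ultrafilter on `Set A`, `A = K ⊕ ObA P Z` (with `W1`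
added if convenient).
`∀ᶠ x`: `x ∩ K = Iio δ` for some `δ : K` (by (N) and completeness `Iio a ⊆ x` for `a ∈ x ∩ K`; `#x < κ`), `δ` is closed
under `h` and of uncountable cofinality (a countable subset of `x ∩ K` is bounded in `K`, by an element of `x` by (N)),
`p ∈ x ↔ Bnd p δ` for `p : P` (a condition is determined by two sequences `ℕ → K`, (N) for countable
subsets), and `D ↦ D ∩ x` is a bijection of `x ∩ Set P` onto the subsets of `x ∩ P`, similarly for
`Set (P × Z)` (onto by (S): the limit `S` is an element of `A`; injective by (N)).  So `x ∩ ObA P Z` is in bijection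
with `ObA (P ∩ x) (Z ∩ x)`.  CLAIM: `Bad P Z ρ D p ↔ ∀ᶠ x, Bad (P ∩ x) (Z ∩ x) (ρ ↾ x) (D ↾ x) p`.
`Nonempty, POrd, DnsW` are first order: use (N).  `TPN`, from left to right: let `F` be a witness for `P`; `x` is closed under
`F`; let `F_x` be the corresponding operations on `ObA (P ∩ x) (Z ∩ x)`, let `N'` be closed under `F_x`
and `N ⊆ x` the corresponding countable set.  If `q ∈ x` is generic for `N'` in `P ∩ x` then it is generic for
`N` in `P` (otherwise for some `D ∈ N` some `q' ≤ q` is incompatible with all elements of the countable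
set `D ∩ N ⊆ x`, and such a `q'` can be found in `x` by (N) for countable sets; `D ∈ x` is dense open iff
`D ∩ x` is dense open in `P ∩ x` by (N)), so there are `r, y1` with `LB N r y0 y1`, and by (N) for the
countable set `N` such `r, y1` exist in `x`; `LB` for `N` and `P` gives `LB` for `N'` and `P ∩ x`.  From right to left: otherwise,
let `F_x` be witnesses for `P ∩ x`; by (S) there is `F` on `ObA P Z` which restricts to `F_x` for `U`-many `x`; let
`N` be a countable set closed under `F` which violates the condition of `TPN` with `q, y0`;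
`∀ᶠ x, N ⊆ x, q ∈ x`, ... and as before one gets a contradiction.  `nof`: if `∀ᶠ x` there are `q_x, F_x` with
`Filt (P ∩ x)`, then `q_x = q` is constant and by (S) there is `F` with `F ↾ x = F_x`, and `Filt P D q F` by (N); the
other direction by (N).

`reflect`: apply (T) to `Y`.  It remains to see that `∀ᶠ x` no structure on a set of size `< #(Y ∩ x)` is bad for
`P ∩ x`.  Otherwise, `∀ᶠ x`, there are `Z_x ⊆ Y ∩ x`, `#Z_x < #(Y ∩ x)` and `ρ_x, D_x, p_x` on `Z_x` bad for
`P ∩ x`.  By (S), (E) there are `Z ⊆ Y`, `ρ', D'`, `p'` with `Z ∩ x = Z_x` etc. for `U`-many `x`.  `#Z < #Y`: otherwise there is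
a bijection `φ : Y → Z`, `x` is closed under `φ` and its inverse, so `#(Y ∩ x) = #(Z ∩ x)`.  By (T) for the type
`Z` (and the image of `U` under `x ↦` the trace of `x` on `K ⊕ ObA P Z`) `Z` carries a bad structure for
`P`, against the minimality of `Y`.  Finally choose `μ` least with `#(Iio μ) = #(Y ∩ x)` and transport the structure
along a bijection `Iio μ ≃ Y ∩ x`.
-/

universe u

open Cardinal Set

namespace Pool.Agent.W_MP_315f31_lc

variable {K : Type u} [LinearOrder K] [OrderBot K] [WellFoundedLT K]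

/-- A subset of `Y` gives a subtype of objects. -/
def subOb {P Y : Type u} (S : Set Y) : ObA P S → ObA P Y
  | .p a => .p a
  | .y b => .y b.1
  | .d D => .d D
  | .s E => .s {z | ∃ h : z.2 ∈ S, (z.1, (⟨z.2, h⟩ : S)) ∈ E}

theorem subOb_inj {P Y : Type u} (S : Set Y) : Function.Injective (subOb (P := P) S) := by
  rintro (a | b | D | E) (a' | b' | D' | E') h <;> simp only [subOb] at h <;> try cases h
  · rfl
  · have h1 := ObA.y.inj h
    rw [Subtype.ext h1]
  · rfl
  · have h1 := ObA.s.inj h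
    have h2 : E = E' := by
      ext ⟨a, b⟩
      have h3 := congrArg (fun T => (a, b.1) ∈ T) h1
      simpa using h3
    rw [h2]

theorem reflect (hK : Inacc K) (hsc : IsSupercompact (#K)) (L : Cond K → Cond K → Prop)
    (hr : ∀ p, L p p) (ht : ∀ p q r, L p q → L q r → L p r) (h : K → K)
    {Y : Type u} (ρ : Y → Y → Cond K → Prop) (D : W1.{u} → Y → Cond K → Prop) (p : Cond K)
    (hbad : Bad L ρ D p)
    (hmin : ∀ Y' : Type u, #Y' < #Y → ∀ (ρ' : Y' → Y' → Cond K → Prop)
      (D' : W1.{u} → Y' → Cond K → Prop) (p' : Cond K), ¬ Bad L ρ' D' p') :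
    ∃ δ : K, (∀ γ < δ, h γ < δ) ∧ CofU δ ∧ ∃ (hp : Bnd p δ) (μ : K) (σ : Iio μ → Y),
      Bad (P := CT δ) (fun a b => L a.1 b.1) (fun a b u => ρ (σ a) (σ b) u.1)
        (fun w a u => D w (σ a) u.1) ⟨p, hp⟩ ∧
      ∀ μ' < μ, ∀ (ρ' : Iio μ' → Iio μ' → CT δ → Prop) (D' : W1.{u} → Iio μ' → CT δ → Prop)
        (p' : CT δ), ¬ Bad (P := CT δ) (fun a b => L a.1 b.1) ρ' D' p' := by
  classical
  have hκ := hK.card.aleph0_lt
  have hW : #(W1.{u}) < #K := by
    have h1 : (ℵ₁ : Cardinal.{u}) < #K := by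
      rw [← succ_aleph0]
      exact hK.card.isSuccLimit.succ_lt hκ
    simpa [W1] using h1
  obtain ⟨U, hU⟩ := hsc.2 (ObA (Cond K) Y)
  obtain ⟨hlin, hwf, hord⟩ := exists_ord_eq_type_lt Y
  -- the `Y`-part of `x` has size less than `κ`
  have hYs : ∀ᶠ x in (U : Filter (Set (ObA (Cond K) Y))), #{y : Y | ObA.y (P := Cond K) y ∈ x} < #K := by
    have h1 : ∀ᶠ x : Set (ObA (Cond K) Y) in (U : Filter (Set (ObA (Cond K) Y))), #x < #K :=
      hU.small
    filter_upwards [h1] with x hx
    refine lt_of_le_of_lt ?_ hx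
    refine Cardinal.mk_le_of_injective (f := fun y : {y : Y | ObA.y (P := Cond K) y ∈ x} =>
      (⟨ObA.y y.1, y.2⟩ : x)) ?_
    intro a b hab
    exact Subtype.ext (ObA.y.inj (congrArg Subtype.val hab))
  by_contra hcon
  have hex : ∀ᶠ x in (U : Filter (Set (ObA (Cond K) Y))), ∃ o ∈ x, ∃ y, o = ObA.y y ∧
      ∃ (P' Y' : Type u) (i : P' → Cond K) (j : Y' → Y), Function.Injective i ∧
        Function.Injective j ∧ range i = {a | ObA.p a ∈ x} ∧
        range j = {z | ObA.y z ∈ x ∧ z < y} ∧ ∃ (ρ' : Y' → Y' → P' → Prop)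
          (D' : W1.{u} → Y' → P' → Prop) (p0' : P'), Bad (fun a b => L (i a) (i b)) ρ' D' p0' := by
    filter_upwards [hYs, hU.trace hK h, hbad.down hU hκ hW, hU.mem' (ObA.p p)] with x h1 h2 h3 h4
    obtain ⟨δ, hδ1, hδ2, hδ3⟩ := h2
    obtain ⟨μ, σ, hσ, hσr⟩ := exists_enum _ h1
    have hσi : Function.Injective σ := by
      intro a b hab
      rcases lt_trichotomy a b with h5 | h5 | h5
      · exact absurd (hσ _ _ h5) (by rw [hab]; exact lt_irrefl _)
      · exact h5
      · exact absurd (hσ _ _ h5) (by rw [hab]; exact lt_irrefl _)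
    have hri : range (Subtype.val : CT δ → Cond K) = {a | ObA.p a ∈ x} := by
      ext a
      constructor
      · rintro ⟨a, rfl⟩
        exact (hδ3 _).2 a.2
      · intro ha
        exact ⟨⟨a, (hδ3 _).1 ha⟩, rfl⟩
    have hB := h3 (CT δ) (Iio μ) Subtype.val σ Subtype.val_injective hσi hri hσr
      ⟨p, (hδ3 p).1 h4⟩ rfl
    have hμ : ∃ μ' < μ, ∃ (ρ' : Iio μ' → Iio μ' → CT δ → Prop) (D' : W1.{u} → Iio μ' → CT δ → Prop)
        (p' : CT δ), Bad (P := CT δ) (fun a b => L a.1 b.1) ρ' D' p' := by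
      by_contra hc
      push Not at hc
      exact hcon ⟨δ, hδ1, hδ2, (hδ3 p).1 h4, μ, σ, hB, hc⟩
    obtain ⟨μ', hμ', ρ', D', p', hB'⟩ := hμ
    refine ⟨ObA.y (σ ⟨μ', hμ'⟩), ?_, σ ⟨μ', hμ'⟩, rfl, CT δ, Iio μ', Subtype.val,
      fun a => σ ⟨a.1, lt_trans a.2 hμ'⟩, Subtype.val_injective, ?_, hri, ?_, ρ', D', p', hB'⟩
    · exact mem_of_range hσr _
    · intro a b hab
      have h5 := hσi hab
      exact Subtype.ext (congrArg (fun z : Iio μ => z.1) h5)
    · ext z
      constructor
      · rintro ⟨a, rfl⟩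
        exact ⟨mem_of_range hσr _, hσ _ _ a.2⟩
      · rintro ⟨hz1, hz2⟩
        obtain ⟨b, rfl⟩ := exists_of_range hσr hz1
        have h5 : b.1 < μ' := by
          by_contra hc
          rcases (not_lt.1 hc).lt_or_eq with h6 | h6
          · exact absurd (hσ ⟨μ', hμ'⟩ b h6) (not_lt.2 hz2.le)
          · have h7 : (⟨μ', hμ'⟩ : Iio μ) = b := Subtype.ext h6
            rw [h7] at hz2
            exact lt_irrefl _ hz2
        exact ⟨⟨b.1, h5⟩, rfl⟩
  obtain ⟨o, ho⟩ := hU.ex hex
  obtain ⟨x0, -, y, rfl, -⟩ := ho.exists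
  have hU' := hU.map (subOb (P := Cond K) (Iio y)) (subOb_inj _)
  have hcard : #(Iio y) < #Y := mk_Iio_lt y hord
  obtain ⟨ρ', D', p', hB⟩ := exists_bad_of_small (Y := Iio y) (W := W1.{u}) (L := L) hU' hκ hW (by
    rw [Ultrafilter.coe_map, Filter.eventually_map]
    filter_upwards [ho] with x hx
    obtain ⟨-, y', hy', P', Y', i, j, hi, hj, hri, hrj, hB⟩ := hx
    obtain rfl := ObA.y.inj hy'
    refine ⟨P', Y', i, fun a => ⟨j a, (mem_of_range hrj a).2⟩, hi, ?_, ?_, ?_, hB⟩
    · intro a b hab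
      exact hj (congrArg Subtype.val hab)
    · exact hri
    · ext z
      constructor
      · rintro ⟨a, rfl⟩
        exact (mem_of_range hrj a).1
      · intro hz
        obtain ⟨a, ha⟩ := exists_of_range hrj (b := z.1) ⟨hz, z.2⟩
        exact ⟨a, Subtype.ext ha⟩)
  exact hmin _ hcard ρ' D' p' hB

end Pool.Agent.W_MP_315f31_lc
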