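import Pool.Agent.W_MP_315f31_lc.LotStage
import Pool.Agent.W_MP_315f31_lc.Reflect

/-!
# MP_315f31_lc : the forcing axiom of the iteration

Suppose that some `(Y, ρ, E, p)` is a counterexample; take `#Y` minimal.  `reflect` gives a closure point `δ` of
uncountable cofinality, `μ` and `σ : Iio μ → Y` such that the structure pulled back along `σ` is a minimal
counterexample over the poset `CT δ`; so it is a candidate `i` in the lottery at the stage `δ`.  Extend `p` by a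
name at `δ` of an element `⟨i, a0⟩` of the lottery; then the elements `σ a` such that `⟨i, a⟩` belongs to the generic filter
of the stage `δ` form a directed set which meets all the `E w`.
-/

universe u

open Cardinal Set

set_option linter.unusedSectionVars false

namespace Pool.Agent.W_MP_315f31_lc

variable {K : Type u} [LinearOrder K] [OrderBot K] [WellFoundedLT K] [SuccOrder K] [NoMaxOrder K]

/-- the bounded conditions are dense at the closure points of uncountable cofinality -/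
theorem fa_cdense {D : Dat K} (h : OkB D ⊤) {g : K → K} (hg : ∀ γ : K, D.SmallAt γ (g γ)) {δ : K}
    (hδ : ∀ γ < δ, g γ < δ) (hl : IsLim δ) (hc : CofU δ) : D.Cdense δ := by
  intro p
  have hok : OkB D (δ : WithTop K) := h.mono_top le_top
  -- the support below `δ` is bounded below `δ`
  have hb : (∀ γ < δ, p γ = ⊥) ∨ ∃ b < δ, ∀ γ < δ, p γ ≠ ⊥ → γ < b := by
    by_cases hne : {γ | p γ ≠ ⊥ ∧ γ < δ}.Nonempty
    · right
      have hcb : {γ | p γ ≠ ⊥ ∧ γ < δ}.Countable := p.2.mono fun γ hγ => hγ.1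
      obtain ⟨s, hs⟩ := hcb.exists_eq_range hne
      have hs1 : ∀ n, s n < δ := fun n => by
        have h1 : s n ∈ {γ | p γ ≠ ⊥ ∧ γ < δ} := by
          rw [hs]
          exact ⟨n, rfl⟩
        exact h1.2
      obtain ⟨b, hb1, hb2⟩ := hc s hs1
      refine ⟨Order.succ b, hl.succ_lt hb1, fun γ hγ hp => ?_⟩
      have h1 : γ ∈ range s := by
        rw [← hs]
        exact ⟨hp, hγ⟩
      obtain ⟨n, rfl⟩ := h1
      exact Order.lt_succ_of_le (hb2 n)
    · left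
      intro γ hγ
      by_contra hp
      exact hne ⟨γ, hp, hγ⟩
  rcases hb with hb | ⟨b, hbδ, hb⟩
  · refine ⟨Cond.one, fun γ hγ => absurd rfl hγ, ?_⟩
    rw [D.le_iff_FL]
    intro γ hγ
    rw [hb γ (WithTop.coe_lt_coe.1 hγ)]
    exact Dat.FL_top hok hγ _ _
  · obtain ⟨q, hq, hqp, -⟩ := hg b p
    refine ⟨q, hq.mono (hδ b hbδ).le, ?_⟩
    rw [D.le_iff_FL]
    intro γ hγ
    by_cases hγb : γ < b
    · exact (D.le_iff_FL b q p).1 hqp γ (WithTop.coe_lt_coe.2 hγb)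
    · have hp : p γ = ⊥ := by
        by_contra hp
        exact hγb (hb γ (WithTop.coe_lt_coe.1 hγ) hp)
      rw [hp]
      exact Dat.FL_top hok hγ _ _

/-- the generic set of the stage `δ` below the candidate `i` -/
def faF {D : Dat K} {δ : K} (i : LotI D δ) {Y : Type u} (σ : Iio i.m → Y) (y : Y) (r : Cond K) : Prop :=
  ∃ a, σ a = y ∧ D.FL δ r (r δ) (D.cst (D.lcode δ ⟨i, a⟩))

section
variable {D : Dat K} {δ : K} {i : LotI D δ} {Y : Type u} {σ : Iio i.m → Y}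
  {ρ : Y → Y → Cond K → Prop} {E : W1.{u} → Y → Cond K → Prop}

theorem fa_lt_top (δ : K) : (δ : WithTop K) < ⊤ := WithTop.coe_lt_top δ

/-- below a condition with a positive answer one can decide the index of the coordinate at `δ` -/
theorem fa_decide (h : OkB D ⊤) (hJ : D.J δ = D.lotJ δ) (hc : CofU δ ∧ D.Cdense δ) {r : Cond K} {a : Iio i.m}
    (hr : D.FL δ r (r δ) (D.cst (D.lcode δ ⟨i, a⟩))) (hp : D.le δ r i.c.p.1) :
    ∃ (t : Cond K) (x : K) (b : Iio i.m) (u : CT δ), D.le δ t r ∧ D.Dec δ t (r δ) x ∧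
      D.dl δ x = some ⟨i, b⟩ ∧ D.le δ t u.1 ∧ i.c.ρ b a u := by
  have hok : OkB D (δ : WithTop K) := h.mono_top le_top
  obtain ⟨s, x, hs, hx⟩ := Dat.Dec_dense hok r (r δ)
  have h1 : D.J δ x (D.lcode δ ⟨i, a⟩) s := hr s hs x _ hx (Dat.Dec_cst hok s _)
  rw [hJ] at h1
  obtain ⟨t, ht, hR⟩ := h1 hc s (Dat.le_refl hok s)
  have hcode : D.dl δ (D.lcode δ ⟨i, a⟩) = some ⟨i, a⟩ := dl_lcode h.inacc _
  rcases hR with h2 | ⟨b, h2, h3⟩ | ⟨i', b, c, u, h2, h3, h4, h5, h6⟩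
  · rw [h2] at hcode
    cases hcode
  · rw [hcode] at h2
    cases h2
    exact absurd ⟨t, Dat.le_refl hok t, Dat.le_trans hok ht (Dat.le_trans hok hs hp)⟩ h3
  · rw [hcode] at h3
    cases h3
    exact ⟨t, x, b, u, Dat.le_trans hok ht hs, Dat.Dec_mono hok hx ht, h2, h5, h6⟩

theorem faF_mono (h : OkB D ⊤) {y : Y} {r r' : Cond K} (hF : faF i σ y r) (hr : D.le ⊤ r' r) :
    faF i σ y r' := by
  obtain ⟨a, ha, hr1⟩ := hF
  refine ⟨a, ha, ?_⟩
  have hok : OkB D (δ : WithTop K) := h.mono_top le_top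
  exact Dat.FL_trans h (fa_lt_top δ) ((D.le_iff_FL ⊤ r' r).1 hr δ (fa_lt_top δ))
    (Dat.FL_mono hok hr1 (D.le_mono le_top hr))

/-- the condition which puts `⟨i, a⟩` into the generic filter of the stage `δ` -/
noncomputable def faC (i : LotI D δ) (a : Iio i.m) (w r : Cond K) : Cond K :=
  Cond.glue (Order.succ δ : K) (Cond.snoc δ w (D.cst (D.lcode δ ⟨i, a⟩))) r

theorem faC_apply (a : Iio i.m) (w r : Cond K) : faC i a w r δ = D.cst (D.lcode δ ⟨i, a⟩) := by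
  unfold faC
  rw [Cond.glue_of_lt _ _ (WithTop.coe_lt_coe.2 (Order.lt_succ δ)), Cond.snoc_self]

theorem faC_le_left (h : OkB D ⊤) (a : Iio i.m) (w r : Cond K) : D.le δ (faC i a w r) w := by
  have hok : OkB D (δ : WithTop K) := h.mono_top le_top
  have h1 : ∀ γ : K, γ < δ → faC i a w r γ = w γ := by
    intro γ hγ
    unfold faC
    rw [Cond.glue_of_lt _ _ (WithTop.coe_lt_coe.2 (hγ.trans (Order.lt_succ δ))), Cond.snoc_of_lt _ _ hγ]
  rw [D.le_congr (p' := w) (q' := w) (fun γ hγ => h1 γ (WithTop.coe_lt_coe.1 hγ)) (fun _ _ => rfl)]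
  exact Dat.le_refl hok w

theorem faC_le (h : OkB D ⊤) (a : Iio i.m) {w r : Cond K} (hw : D.le δ w r)
    (hF : D.FL δ w (D.cst (D.lcode δ ⟨i, a⟩)) (r δ)) : D.le ⊤ (faC i a w r) r := by
  have hok : OkB D (δ : WithTop K) := h.mono_top le_top
  unfold faC
  refine Dat.glue_le h le_top ?_
  rw [Dat.snoc_le_iff hok]
  exact ⟨hw, hF⟩

theorem faC_mem (h : OkB D ⊤) (a : Iio i.m) (w r : Cond K) : faF i σ (σ a) (faC i a w r) := by
  refine ⟨a, rfl, ?_⟩
  rw [faC_apply]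
  exact Dat.FL_refl h (fa_lt_top δ) _ _

end

theorem fa_filt {D : Dat K} {δ : K} (h : OkB D ⊤) (hJ : D.J δ = D.lotJ δ) (hc : CofU δ ∧ D.Cdense δ)
    {Y : Type u} (ρ : Y → Y → Cond K → Prop) (E : W1.{u} → Y → Cond K → Prop) (hρ : POrd (D.le ⊤) ρ)
    (hE : ∀ w y p y' q, E w y p → D.le ⊤ q p → ρ y' y q → E w y' q) (i : LotI D δ)
    (σ : Iio i.m → Y) (h1 : ∀ a b u, i.c.ρ a b u → ρ (σ a) (σ b) u.1)
    (h2 : ∀ w a u, i.c.W w a u → E w (σ a) u.1) :
    ∃ q F, D.le ⊤ q i.c.p.1 ∧ Filt (D.le ⊤) ρ E q F := by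
  have hok : OkB D (δ : WithTop K) := h.mono_top le_top
  obtain ⟨a0⟩ := i.bad.ne
  have hbig : ∀ {r : Cond K} {u : CT δ}, D.le δ r u.1 → D.le ⊤ r u.1 := fun {r u} hr =>
    (Dat.le_iff_of_bnd h le_top u.2).2 hr
  have hpδ : i.c.p.1 δ = ⊥ := by
    by_contra hne
    exact lt_irrefl _ (i.c.p.2 δ hne).1
  refine ⟨faC i a0 i.c.p.1 i.c.p.1, faF i σ, ?_, ?_⟩
  · refine faC_le h a0 (Dat.le_refl hok _) ?_
    rw [hpδ]
    exact Dat.FL_top h (fa_lt_top δ) _ _
  · constructor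
    · intro y p r hF hr
      exact faF_mono h hF hr
    · rintro y y' r hr ⟨a, rfl, ha⟩ ⟨a', rfl, ha'⟩
      have hrp : D.le δ r i.c.p.1 := Dat.le_trans hok (D.le_mono le_top hr) (faC_le_left h _ _ _)
      obtain ⟨t, x, b, u, ht, hx, hb, hu, hρ1⟩ := fa_decide h hJ hc ha hrp
      have htp : D.le δ t i.c.p.1 := Dat.le_trans hok ht hrp
      -- the second answer, below `t`
      have hgl : D.le ⊤ (Cond.glue (δ : WithTop K) t r) r := Dat.glue_le h le_top ht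
      have hgδ : (Cond.glue (δ : WithTop K) t r) δ = r δ := Cond.glue_of_ge t r (le_refl _)
      have hgt := Dat.glue_le_left h (α := (δ : WithTop K)) le_top t r
      have ha'' : D.FL δ (Cond.glue (δ : WithTop K) t r) ((Cond.glue (δ : WithTop K) t r) δ)
          (D.cst (D.lcode δ ⟨i, a'⟩)) := by
        rw [hgδ]
        exact Dat.FL_mono hok ha' (D.le_mono le_top hgl)
      obtain ⟨t', x', b', u', ht', hx', hb', hu', hρ2⟩ := fa_decide h hJ hc ha''
        (Dat.le_trans hok hgt.1 htp)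
      rw [hgδ] at hx'
      have ht't : D.le δ t' t := Dat.le_trans hok ht' hgt.1
      have hxx : x' = x := Dat.Dec_uniq hok hx' (Dat.Dec_mono hok hx ht't)
      subst hxx
      rw [hb] at hb'
      cases hb'
      have ht'r : D.le δ t' r := Dat.le_trans hok ht't ht
      refine ⟨Cond.glue (δ : WithTop K) t' r, σ b, Dat.glue_le h le_top ht'r, ⟨b, rfl, ?_⟩, ?_, ?_⟩
      · rw [Cond.glue_of_ge t' r (le_refl _)]
        intro s hs z z' hz hz'
        have hst : D.le δ s t' := Dat.le_trans hok hs (Dat.glue_le_left h le_top t' r).1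
        have e1 : z = x' := Dat.Dec_uniq hok hz (Dat.Dec_mono hok hx' hst)
        have e2 : z' = D.lcode δ ⟨i, b⟩ := Dat.Dec_uniq hok hz' (Dat.Dec_cst hok s _)
        rw [e1, e2, hJ]
        exact lot_lotJ_congr rfl (hb.trans (dl_lcode h.inacc _).symm) (lot_refl hok x' s)
      · have h3 : D.le ⊤ (Cond.glue (δ : WithTop K) t' r) u.1 := hbig (Dat.le_trans hok
          (Dat.glue_le_left h le_top t' r).1 (Dat.le_trans hok ht't hu))
        exact hρ.mono _ _ _ _ (h1 _ _ _ hρ1) h3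
      · have h3 : D.le ⊤ (Cond.glue (δ : WithTop K) t' r) u'.1 := hbig (Dat.le_trans hok
          (Dat.glue_le_left h le_top t' r).1 hu')
        exact hρ.mono _ _ _ _ (h1 _ _ _ hρ2) h3
    · intro w r hr
      have hrp : D.le δ r i.c.p.1 := Dat.le_trans hok (D.le_mono le_top hr) (faC_le_left h _ _ _)
      have ha : D.FL δ r (r δ) (D.cst (D.lcode δ ⟨i, a0⟩)) := by
        have h3 := (D.le_iff_FL ⊤ r _).1 hr δ (fa_lt_top δ)
        rw [faC_apply] at h3
        exact h3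
      obtain ⟨t, x, b, u, ht, hx, hb, hu, hρ1⟩ := fa_decide h hJ hc ha hrp
      obtain ⟨t2, ht2, ht2t⟩ := hc.2 t
      obtain ⟨q', a2, hq', hρ2, hW⟩ := i.bad.dns.2 w ⟨t2, ht2⟩
        (Dat.le_trans hok ht2t (Dat.le_trans hok ht hrp)) b
      have hq't : D.le δ q'.1 t := Dat.le_trans hok hq' ht2t
      have hl : D.le ⊤ (faC i a2 q'.1 r) r := by
        refine faC_le h a2 (Dat.le_trans hok hq't ht) ?_
        intro s hs z z' hz hz'
        have e1 : z = D.lcode δ ⟨i, a2⟩ := Dat.Dec_uniq hok hz (Dat.Dec_cst hok s _)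
        have e2 : z' = x := Dat.Dec_uniq hok hz' (Dat.Dec_mono hok hx (Dat.le_trans hok hs hq't))
        rw [e1, e2, hJ]
        exact lot_lotJ_of_rho hok (dl_lcode h.inacc _) hb hρ2 hs
      refine ⟨faC i a2 q'.1 r, σ a2, hl, faC_mem h a2 _ _, ?_⟩
      exact hE w _ _ _ _ (h2 _ _ _ hW) (hbig (faC_le_left h _ _ _)) (hρ.refl _ _)

theorem it_not_bad {C : Cod K} {D : Dat K} (hsc : IsSupercompact (#K)) (_hC : C.Ok) (hI : IsIt C D)
    (h : OkB D ⊤) {Y : Type u} (ρ : Y → Y → Cond K → Prop) (W : W1.{u} → Y → Cond K → Prop)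
    (p : Cond K) : ¬ Bad (D.le ⊤) ρ W p := by
  intro hbad
  -- a counterexample of minimal size
  let A : Set Cardinal.{u} := {c | ∃ Y : Type u, #Y = c ∧ ∃ (ρ : Y → Y → Cond K → Prop)
    (E : W1.{u} → Y → Cond K → Prop) (p : Cond K), Bad (D.le ⊤) ρ E p}
  have hA : A.Nonempty := ⟨_, Y, rfl, ρ, W, p, hbad⟩
  clear hbad
  obtain ⟨Y, hYc, ρ, E, p, hbad⟩ := Cardinal.lt_wf.min_mem A hA
  have hmin : ∀ Y' : Type u, #Y' < #Y → ∀ (ρ' : Y' → Y' → Cond K → Prop)
      (D' : W1.{u} → Y' → Cond K → Prop) (p' : Cond K), ¬ Bad (D.le ⊤) ρ' D' p' := by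
    intro Y' hY' ρ' D' p' hB
    rw [hYc] at hY'
    exact Cardinal.lt_wf.not_lt_min A ⟨Y', rfl, ρ', D', p', hB⟩ hY'
  have hsm : ∀ γ : K, ∃ η, D.SmallAt γ η := fun γ => Dat.small γ (h.mono_top le_top)
  choose g hg using hsm
  obtain ⟨δ, hδ, hcof, hp, μ, σ, hB, hmn⟩ := reflect h.inacc hsc (D.le ⊤) (fun p => Dat.le_refl h p)
    (fun p q r => Dat.le_trans h) (fun γ => max (g γ) (Order.succ γ)) ρ E p hbad hmin
  have hl : IsLim δ := fun a ha => ⟨Order.succ a, Order.lt_succ a, (le_max_right _ _).trans_lt (hδ a ha)⟩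
  have hCd : D.Cdense δ := fa_cdense h hg (fun γ hγ => (le_max_left _ _).trans_lt (hδ γ hγ)) hl hcof
  have hLe : (fun a b : CT δ => D.le ⊤ a.1 b.1) = D.ctle δ := by
    funext a b
    exact propext (Dat.le_iff_of_bnd h le_top b.2)
  rw [hLe] at hB hmn
  let c : Cand δ μ := ⟨fun a b u => ρ (σ a) (σ b) u.1, fun w a u => E w (σ a) u.1, ⟨p, hp⟩⟩
  have hcb : c.IsBadL (D.le δ) := hB
  let i : LotI D δ := ⟨μ, ⟨⟨c, hcb⟩, fun m' hm' c' hc' => hmn m' hm' c'.ρ c'.W c'.p hc'⟩, c, hcb⟩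
  obtain ⟨q, F, hq, hF⟩ := fa_filt h (hI.lot δ hl) ⟨hcof, hCd⟩ ρ E hbad.ord hbad.dns.1 i σ
    (fun a b u hu => hu) (fun w a u hu => hu)
  exact hbad.nof q hq F hF

/-- the forcing axiom -/
theorem it_fa {C : Cod K} {D : Dat K} (hsc : IsSupercompact (#K)) (hC : C.Ok) (hI : IsIt C D)
    (h : OkB D ⊤) (Y : Type u) (hY : Nonempty Y) (ρ : Y → Y → Cond K → Prop)
    (W : W1.{u} → Y → Cond K → Prop) (p : Cond K) (h1 : POrd (D.le ⊤) ρ) (h2 : TPN (D.le ⊤) ρ p)
    (h3 : DnsW (D.le ⊤) ρ W p) : ∃ q F, D.le ⊤ q p ∧ Filt (D.le ⊤) ρ W q F := by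
  by_contra hcon
  push Not at hcon
  exact it_not_bad hsc hC hI h ρ W p ⟨hY, h1, h2, h3, fun q hq F hF => hcon q F hq hF⟩

end Pool.Agent.W_MP_315f31_lc
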