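import Pool.Agent.W_MP_315f31_lc.TreeFacts
import Pool.Agent.W_MP_315f31_lc.FA
import Pool.Agent.W_MP_315f31_lc.Cover
import Pool.Agent.W_MP_315f31_lc.CollReal

/-!
# MP_315f31_lc : the native core
-/

universe u

open Cardinal Set

namespace Pool.Agent.W_MP_315f31_lc

theorem core_of (K : Type u) [LinearOrder K] [OrderBot K] [WellFoundedLT K] [SuccOrder K]
    [NoMaxOrder K] (hK : Inacc K) (hsc : IsSupercompact (#K)) :
    ∃ L : Cond K → Cond K → Prop, Core K (Cond K) L := by
  obtain ⟨C, hC⟩ := exists_cod hK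
  obtain ⟨D, hI⟩ := exists_it C
  obtain ⟨h, hg⟩ := it_ok hK hC hI
  exact ⟨D.le ⊤,
    { inacc := hK
      wf := inferInstance
      refl := fun p => D.le_refl h p
      trans := fun p q r h1 h2 => D.le_trans h h1 h2
      card := (card_cond hK).le
      ne := ⟨Cond.one⟩
      cover := it_cover h hg
      cc := it_cc h
      coll := it_coll hC hI h
      reals := it_reals hC hI h
      tree := ⟨_, _, it_tree hC hI h⟩
      fa := it_fa hsc hC hI h }⟩

theorem exists_K (κ : Cardinal.{u}) (h : κ.IsInaccessible) :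
    ∃ (K : Type u) (_ : LinearOrder K) (_ : OrderBot K) (_ : WellFoundedLT K) (_ : SuccOrder K)
      (_ : NoMaxOrder K), #K = κ ∧ Inacc K := by
  have h0 : ℵ₀ ≤ κ := h.aleph0_lt.le
  have h1 : #(κ.ord.ToType) = κ := mk_ord_toType κ
  have hne : κ.ord ≠ 0 := by
    intro h2
    rw [Cardinal.ord_eq_zero] at h2
    rw [h2] at h0
    exact absurd h0 (not_le.2 aleph0_pos)
  refine ⟨κ.ord.ToType, inferInstance, Ordinal.toTypeOrderBot hne, inferInstance, inferInstance,
    Cardinal.noMaxOrder h0, h1, ?_, ?_⟩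
  · rw [h1]
    exact h
  · intro a
    rw [h1]
    exact mk_Iio_toType_ord_lt a

theorem core_main (κ : Cardinal.{u}) (h : IsSupercompact κ) :
    ∃ (K : Type u) (_ : LinearOrder K) (P : Type u) (L : P → P → Prop), #K = κ ∧ Core K P L := by
  obtain ⟨K, i1, i2, i3, i4, i5, h1, h2⟩ := exists_K κ h.1
  obtain ⟨L, hL⟩ := core_of K h2 (h1 ▸ h)
  exact ⟨K, i1, Cond K, L, h1, hL⟩

end Pool.Agent.W_MP_315f31_lc
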