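import Pool.Agent.W_MP_315f31_lc.Thm
import Pool.Agent.W_MP_315f31_lc.CoreMain
import Pool.Agent.W_315f31_h40.Final1

set_option autoImplicit false

/-!
# MP_315f31_lc : the definitions of `Thm.lean` agree with those used in the proof
-/

namespace DCT
open HESR
universe u

theorem satC_eq {M : Type u} : @SatC M = @DCM.SatC M := by
  funext E H k φ v
  induction φ with
  | mem i j => rfl
  | eq i j => rfl
  | neg φ ih =>
    change (¬ SatC E H φ v) = (¬ DCM.SatC E H φ v)
    rw [ih]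
  | and φ ψ ih1 ih2 =>
    change (SatC E H φ v ∧ SatC E H ψ v) = (DCM.SatC E H φ v ∧ DCM.SatC E H ψ v)
    rw [ih1, ih2]
  | ex φ ih =>
    change (∃ x, H x ∧ SatC E H φ (Fin.cons x v)) = (∃ x, H x ∧ DCM.SatC E H φ (Fin.cons x v))
    simp only [ih]

theorem isElem_eq {M : Type u} : @IsElem M = @DCM.IsElem M := by
  unfold IsElem DCM.IsElem
  rw [satC_eq]
  rfl

theorem inA_eq {M : Type u} : @InA M = @DCM.InA M := by
  unfold InA DCM.InA
  rw [satC_eq]
  rfl

theorem isSys_eq {M : Type u} : @IsSys M = @DCM.IsSys M := by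
  unfold IsSys DCM.IsSys
  rw [isElem_eq, inA_eq]
  rfl

theorem isDee_eq {M : Type u} : @IsDee M = @DCM.IsDee M := by
  unfold IsDee DCM.IsDee
  rw [isElem_eq, inA_eq, isSys_eq]
  rfl

theorem isTower_eq {M : Type u} : @IsTower M = @DCM.IsTower M := by
  unfold IsTower DCM.IsTower
  rw [isElem_eq]
  rfl

theorem isProper_eq {M : Type u} : @IsProper M = @DCM.IsProper M := by
  unfold IsProper DCM.IsProper
  rw [isTower_eq]
  rfl

theorem dcfa_eq {M : Type u} : @DCFA M = @DCM.DCFA M := by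
  unfold DCFA DCM.DCFA
  rw [isDee_eq, isProper_eq]
  rfl

theorem notCH_eq {M : Type u} : @NotCH M = @DCM.NotCH M := rfl

theorem hasAT_eq {M : Type u} : @HasAT M = @DCM.HasAT M := rfl

theorem isSupercompact_imp {κ : Cardinal.{u}} (h : IsSupercompact κ) :
    Pool.Agent.W_MP_315f31_lc.IsSupercompact κ := by
  refine ⟨h.1, fun A => ?_⟩
  obtain ⟨U, hU⟩ := h.2 A
  exact ⟨U, hU.small, hU.fine, hU.complete, hU.normal⟩

theorem main (κ : Cardinal.{u}) (h : IsSupercompact κ) :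
    ∃ (M : Type (u + 1)) (E : M → M → Prop), Countable M ∧ WellFounded E ∧ IsZFC E ∧ DCFA E ∧
      NotCH E ∧ HasAT E := by
  obtain ⟨K, _, P, L, _, hL⟩ := Pool.Agent.W_MP_315f31_lc.core_main κ (isSupercompact_imp h)
  obtain ⟨M, E, h1, h2, h3, h4, h5, h6⟩ := Pool.Agent.W_MP_315f31_lc.model_of_core hL
  refine ⟨M, E, h1, h2, h3, ?_, ?_, ?_⟩
  · rw [dcfa_eq]
    exact h4
  · rw [notCH_eq]
    exact h5
  · rw [hasAT_eq]
    exact h6

end DCT
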