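import Pool.Agent.W_MP_315f31_lc.ItOk

/-!
# MP_315f31_lc : closed `δ`, the chain condition, capture of names

`exists_dense_fn`: `f γ ≥ Order.succ γ` and `f γ ≥ η` for an `η` with `SmallAt (Order.succ γ) η` (`Dat.small`).
Let `δ` be closed under `f`, `CofU δ`.  `IsLim δ`: clear.  Let `p` be a condition.  Its support is countable, so by
`CofU δ` there is `b < δ` such that the elements of the support which are `< δ` are `≤ b` (if `δ = ⊥` take
`Cond.one`, `Dat.le_bot`).  Let `q` be `≤ p` and `≥ p` in `P_(succ b)`, bounded by `f b < δ`.  `glue (succ b) q one`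
is bounded by `f b` and it is `≤ p` in `P_δ` (`Dat.one_le_of_supp`, `Dat.le_congr`).

`glue_common` (used everywhere): if `q` is bounded by `δ` and `w ≤ q` in `P_δ`, `w ≤ a` in `P_δ`, then
`glue δ w a ≤ a` and `glue δ w a ≤ q` in `P_⊤` (`Dat.glue_le`, `Dat.le_iff_of_bnd`, `Dat.glue_le_left`).

`it_cc`: let `A` be an antichain of `P_⊤`.  For `q` compatible with an element of `A` choose `a_q ∈ A` and
`w_q ≤ q, a_q`.  Let `g γ` be such that `w_q` and `a_q` are bounded by `g γ` for all `q ∈ CT γ` (`card_bnd`, `exists_bnd`,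
`bdd_small`, `Bnd.mono`).  Let `δ` be a limit, `CofU δ`, closed under the `f` of `exists_dense_fn` and under
`γ ↦ g (succ γ)` (`exists_closed` for the maximum).  Claim: every `a ∈ A` is bounded by `δ`; so `#A ≤ #(CT δ) < #K`.
There is `q` bounded by `δ` with `q ≤ a` in `P_δ` (`Cdense`).  By `CofU δ` the support and the values of `q` are
`≤ b` for some `b < δ`, so `q ∈ CT (succ b)`.  `q` is compatible with `a` (`glue_common` with `w = q`), so `w_q, a_q` are
defined and bounded by `g (succ b) ≤ δ`.  `w_q ≤ q ≤ a` in `P_δ`, so by `glue_common` `glue δ w_q a ≤ a` and it is `≤ w_q ≤ a_q`.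
So `a = a_q`.

`it_capture`: for `ξ : K` let `A_ξ` be a maximal antichain of elements of `{u | b ξ u}` (`Dat.exists_max_anti`); by `it_cc`
`#A_ξ < #K`, so there is `g ξ` such that all elements of `A_ξ` are bounded by `g ξ`.  If `δ` is closed under `g` let
`D.nm z = {(u, ξ) | ξ < δ, u ∈ A_ξ}` (`OkB.nm_surj`; its size is `< #K`, or: it injects into `CT δ × Iio δ`).
`b ξ p → ext δ z ξ p`: for `q ≤ p` in `P_δ` `glue δ q p ≤ p`, so `b ξ (glue δ q p)`, so it is compatible with some `u ∈ A_ξ`; a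
common extension `r` is `≤ q` and `≤ u` in `P_δ` (`Dat.le_mono`).  `ext δ z ξ p → b ξ p`: use `reg`; let `q ≤ p`; there are
`r ≤ q` and `u ∈ A_ξ` with `r ≤ u` in `P_δ`; `glue δ r q ≤ q` and `glue δ r q ≤ u` (`glue_common`), so `b ξ (glue δ r q)` by `mono`.
-/

universe u

open Cardinal Set

set_option linter.unusedSectionVars false

namespace Pool.Agent.W_MP_315f31_lc

variable {K : Type u} [LinearOrder K] [OrderBot K] [WellFoundedLT K] [SuccOrder K] [NoMaxOrder K]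
  {D : Dat K}

theorem glue_common (h : OkB D ⊤) {δ : K} {q w a : Cond K} (hq : Bnd q δ)
    (h1 : D.le (δ : WithTop K) w q) (h2 : D.le (δ : WithTop K) w a) :
    D.le ⊤ (Cond.glue (δ : WithTop K) w a) a ∧ D.le ⊤ (Cond.glue (δ : WithTop K) w a) q := by
  have hδ : (δ : WithTop K) ≤ ⊤ := le_top
  have hO : OkB D (δ : WithTop K) := h.mono_top hδ
  refine ⟨Dat.glue_le h hδ h2, ?_⟩
  rw [Dat.le_iff_of_bnd h hδ hq]
  exact Dat.le_trans hO (Dat.glue_le_left h hδ w a).1 h1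

/-- a sequence in a set covering the part of a countable set -/
theorem cc_enum {S : Set K} (hS : S.Countable) {δ : K} (hδ : δ ≠ ⊥) (hb : ∀ x ∈ S, x < δ)
    (hc : CofU δ) : ∃ b < δ, ∀ x ∈ S, x ≤ b := by
  rcases S.eq_empty_or_nonempty with h0 | h0
  · refine ⟨⊥, bot_lt_iff_ne_bot.2 hδ, ?_⟩
    intro x hx
    rw [h0] at hx
    exact absurd hx (notMem_empty _)
  · obtain ⟨f, hf⟩ := hS.exists_eq_range h0
    obtain ⟨b, hbδ, hb2⟩ := hc f (fun n => hb _ (by rw [hf]; exact mem_range_self n))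
    refine ⟨b, hbδ, ?_⟩
    intro x hx
    rw [hf] at hx
    obtain ⟨n, rfl⟩ := hx
    exact hb2 n

theorem exists_dense_fn (h : OkB D ⊤) : ∃ f : K → K, ∀ δ, (∀ γ < δ, f γ < δ) → CofU δ →
    IsLim δ ∧ D.Cdense δ := by
  have hsm : ∀ γ : K, ∃ η, D.SmallAt (Order.succ γ : K) η := fun γ =>
    Dat.small (Order.succ γ) (h.mono_top le_top)
  choose η hη using hsm
  refine ⟨fun γ => max (Order.succ γ) (η γ), fun δ hcl hcof => ⟨?_, ?_⟩⟩
  · intro a ha
    exact ⟨Order.succ a, Order.lt_succ a, (le_max_left _ _).trans_lt (hcl a ha)⟩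
  · intro p
    by_cases hδ : δ = ⊥
    · refine ⟨Cond.one, ?_, ?_⟩
      · intro γ hγ
        exact absurd rfl hγ
      · rw [hδ]
        exact D.le_bot _ _
    obtain ⟨b, hbδ, hb⟩ := cc_enum (S := {γ | p γ ≠ ⊥ ∧ γ < δ})
      (p.2.mono fun γ hγ => hγ.1) hδ (fun x hx => hx.2) hcof
    have hclb := hcl b hbδ
    have hsb : Order.succ b < δ := (le_max_left _ _).trans_lt hclb
    have hηb : η b < δ := (le_max_right _ _).trans_lt hclb
    obtain ⟨q, hqb, hqp, hpq⟩ := hη b p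
    have hO : OkB D (δ : WithTop K) := h.mono_top le_top
    have hbd : Bnd (Cond.glue ((Order.succ b : K) : WithTop K) q Cond.one) (η b) := by
      intro γ hγ
      by_cases hlt : (γ : WithTop K) < ((Order.succ b : K) : WithTop K)
      · rw [Cond.glue_of_lt q Cond.one hlt] at hγ ⊢
        exact hqb γ hγ
      · rw [Cond.glue_of_ge q Cond.one (not_lt.1 hlt)] at hγ
        exact absurd rfl hγ
    refine ⟨Cond.glue ((Order.succ b : K) : WithTop K) q Cond.one, hbd.mono hηb.le, ?_⟩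
    rw [D.le_congr (p' := Cond.glue ((Order.succ b : K) : WithTop K) q Cond.one)
      (q' := Cond.glue ((Order.succ b : K) : WithTop K) p Cond.one) (fun _ _ => rfl) ?_]
    · refine Dat.one_le_of_supp hO (α := ((Order.succ b : K) : WithTop K))
        (WithTop.coe_le_coe.2 hsb.le) ?_ ?_
      · rw [D.le_congr (p' := q) (q' := p) (fun γ hγ => Cond.glue_of_lt q Cond.one hγ)
          (fun γ hγ => Cond.glue_of_lt p Cond.one hγ)]
        exact hqp
      · intro γ hγ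
        rw [Cond.glue_of_ge p Cond.one hγ]
        rfl
    · intro γ hγ
      by_cases hlt : (γ : WithTop K) < ((Order.succ b : K) : WithTop K)
      · rw [Cond.glue_of_lt p Cond.one hlt]
      · rw [Cond.glue_of_ge p Cond.one (not_lt.1 hlt)]
        change p γ = ⊥
        by_contra hne
        have h1 := hb γ ⟨hne, WithTop.coe_lt_coe.1 hγ⟩
        exact hlt (WithTop.coe_lt_coe.2 (Order.lt_succ_of_le h1))

/-- a small family of conditions has a common bound -/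
theorem cc_bnd (h : Inacc K) {I : Type u} (hI : #I < #K) (F : I → Cond K) :
    ∃ g : K, ∀ i, Bnd (F i) g := by
  have hex : ∀ i, ∃ η, Bnd (F i) η := fun i => exists_bnd h (F i)
  choose η hη using hex
  obtain ⟨g, hg⟩ := bdd_small h (range η) (mk_range_le.trans_lt hI)
  exact ⟨g, fun i => (hη i).mono (hg _ (mem_range_self i)).le⟩

theorem it_cc (h : OkB D ⊤) (A : Set (Cond K))
    (hA : ∀ p ∈ A, ∀ q ∈ A, p ≠ q → ¬ ∃ r, D.le ⊤ r p ∧ D.le ⊤ r q) : #A < #K := by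
  classical
  have hin := h.inacc
  have hex : ∀ q : Cond K, ∃ a w : Cond K, (∃ a ∈ A, ∃ w, D.le ⊤ w q ∧ D.le ⊤ w a) →
      a ∈ A ∧ D.le ⊤ w q ∧ D.le ⊤ w a := by
    intro q
    by_cases hc : ∃ a ∈ A, ∃ w, D.le ⊤ w q ∧ D.le ⊤ w a
    · obtain ⟨a, ha, w, h1, h2⟩ := hc
      exact ⟨a, w, fun _ => ⟨ha, h1, h2⟩⟩
    · exact ⟨q, q, fun h0 => absurd h0 hc⟩
  choose a w haw using hex
  have hg1 : ∀ γ : K, ∃ g : K, ∀ q : CT γ, Bnd (w q.1) g := fun γ =>
    cc_bnd hin (card_bnd hin γ) (fun q : CT γ => w q.1)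
  have hg2 : ∀ γ : K, ∃ g : K, ∀ q : CT γ, Bnd (a q.1) g := fun γ =>
    cc_bnd hin (card_bnd hin γ) (fun q : CT γ => a q.1)
  choose g1 hg1 using hg1
  choose g2 hg2 using hg2
  obtain ⟨f, hf⟩ := exists_dense_fn h
  obtain ⟨δ, hδ0, -, hcof, hcl⟩ := exists_closed hin
    (fun γ => max (f γ) (max (g1 (Order.succ γ)) (g2 (Order.succ γ)))) (⊥ : K)
  obtain ⟨-, hdense⟩ := hf δ (fun γ hγ => (le_max_left _ _).trans_lt (hcl γ hγ)) hcof
  have hO : OkB D (δ : WithTop K) := h.mono_top le_top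
  have key : ∀ x ∈ A, Bnd x δ := by
    intro x hx
    obtain ⟨q, hqδ, hqx⟩ := hdense x
    obtain ⟨b1, hb1, hb1'⟩ := cc_enum (S := {γ | q γ ≠ ⊥}) q.2 hδ0.ne'
      (fun γ hγ => (hqδ γ hγ).1) hcof
    obtain ⟨b2, hb2, hb2'⟩ := cc_enum (S := (fun γ => q γ) '' {γ | q γ ≠ ⊥}) (q.2.image _) hδ0.ne'
      (by
        rintro _ ⟨γ, hγ, rfl⟩
        exact (hqδ γ hγ).2) hcof
    have hbδ : max b1 b2 < δ := max_lt hb1 hb2
    have hqb : Bnd q (Order.succ (max b1 b2)) := by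
      intro γ hγ
      exact ⟨Order.lt_succ_of_le ((hb1' γ hγ).trans (le_max_left _ _)),
        Order.lt_succ_of_le ((hb2' _ ⟨γ, hγ, rfl⟩).trans (le_max_right _ _))⟩
    have hcomp : ∃ a ∈ A, ∃ w, D.le ⊤ w q ∧ D.le ⊤ w a := by
      have h1 := glue_common h hqδ (Dat.le_refl hO q) hqx
      exact ⟨x, hx, _, h1.2, h1.1⟩
    obtain ⟨haA, hwq, hwa⟩ := haw q hcomp
    have hclb := hcl _ hbδ
    have hwb : Bnd (w q) δ := (hg1 _ ⟨q, hqb⟩).mono
      (((le_max_left _ _).trans (le_max_right _ _)).trans_lt hclb).le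
    have hab : Bnd (a q) δ := (hg2 _ ⟨q, hqb⟩).mono
      (((le_max_right _ _).trans (le_max_right _ _)).trans_lt hclb).le
    have hwx : D.le (δ : WithTop K) (w q) x :=
      Dat.le_trans hO (D.le_mono le_top hwq) hqx
    have h2 := glue_common h hwb (Dat.le_refl hO (w q)) hwx
    have heq : x = a q := by
      by_contra hne
      exact hA x hx (a q) haA hne ⟨_, h2.1, Dat.le_trans h h2.2 hwa⟩
    rw [heq]
    exact hab
  have hsub : A ⊆ {q : Cond K | Bnd q δ} := key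
  exact (mk_le_mk_of_subset hsub).trans_lt (card_bnd hin δ)

theorem it_capture (h : OkB D ⊤) {b : K → Cond K → Prop} (hb : IsNm (D.le ⊤) b) :
    ∃ g : K → K, ∀ δ, (∀ γ < δ, g γ < δ) → ∃ z, ∀ ξ < δ, ∀ p, b ξ p ↔ D.ext (δ : WithTop K) z ξ p := by
  classical
  have hin := h.inacc
  have hex : ∀ ξ : K, ∃ A : Set (Cond K), A ⊆ {u | b ξ u} ∧ D.Anti ⊤ A ∧
      ∀ s ∈ {u | b ξ u}, ∃ a ∈ A, ¬ D.Inc ⊤ s a := by
    intro ξ
    obtain ⟨A, h1, h2, h3⟩ := Dat.exists_max_anti h {u | b ξ u}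
    exact ⟨A, h1, h2, h3⟩
  choose A hAS hAanti hAmax using hex
  have hcard : ∀ ξ : K, #(A ξ) < #K := fun ξ => it_cc h (A ξ) (hAanti ξ)
  have hg : ∀ ξ : K, ∃ g : K, ∀ u : A ξ, Bnd u.1 g := fun ξ => cc_bnd hin (hcard ξ) (fun u : A ξ => u.1)
  choose g hg using hg
  refine ⟨g, fun δ hcl => ?_⟩
  have hδ : (δ : WithTop K) ≤ ⊤ := le_top
  have hO : OkB D (δ : WithTop K) := h.mono_top hδ
  have hAb : ∀ ξ < δ, ∀ u ∈ A ξ, Bnd u δ := fun ξ hξ u hu => (hg ξ ⟨u, hu⟩).mono (hcl ξ hξ).le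
  have hsmall : #({w : Cond K × K | w.2 < δ ∧ w.1 ∈ A w.2} : Set (Cond K × K)) < #K := by
    have hinj : Function.Injective (fun w : ({w : Cond K × K | w.2 < δ ∧ w.1 ∈ A w.2} :
        Set (Cond K × K)) => ((⟨w.1.1, hAb w.1.2 w.2.1 w.1.1 w.2.2⟩, ⟨w.1.2, w.2.1⟩) :
          CT δ × Iio δ)) := by
      rintro ⟨⟨u, ξ⟩, hw⟩ ⟨⟨u', ξ'⟩, hw'⟩ heq
      have h1 := congrArg (fun y : CT δ × Iio δ => y.1.1) heq
      have h2 := congrArg (fun y : CT δ × Iio δ => y.2.1) heq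
      simp only at h1 h2
      subst h1
      subst h2
      rfl
    refine (mk_le_of_injective hinj).trans_lt ?_
    rw [mk_prod, lift_id, lift_id]
    exact mul_lt_of_lt hin.card.aleph0_lt.le (card_bnd hin δ) (hin.lt δ)
  obtain ⟨z, hz⟩ := h.nm_surj _ hsmall
  refine ⟨z, fun ξ hξ p => ⟨fun hp => ?_, fun hp => ?_⟩⟩
  · intro q hq
    have h1 : b ξ (Cond.glue (δ : WithTop K) q p) := hb.mono ξ p _ hp (Dat.glue_le h hδ hq)
    obtain ⟨u, hu, hinc⟩ := hAmax ξ _ h1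
    obtain ⟨r, hr1, hr2⟩ := not_not.1 hinc
    refine ⟨r, u, ?_, ?_, D.le_mono hδ hr2⟩
    · exact Dat.le_trans hO (D.le_mono hδ hr1) (Dat.glue_le_left h hδ q p).1
    · rw [hz]
      exact ⟨hξ, hu⟩
  · apply hb.reg
    intro q hq
    obtain ⟨r, u, h1, h2, h3⟩ := hp q (D.le_mono hδ hq)
    rw [hz] at h2
    have hu : u ∈ A ξ := h2.2
    have h4 := glue_common h (hAb ξ hξ u hu) h3 h1
    exact ⟨_, h4.1, hb.mono ξ u _ (hAS ξ hu) h4.2⟩

end Pool.Agent.W_MP_315f31_lc
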