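import Pool.Agent.W_MP_315f31_lc.Iter

/-!
# MP_315f31_lc : Cohen stages are good

PROOF of `good_cohen`.  Let `ls : K → List ℕ` be the reading of the base elements, and for each list `t` let
`κ t` be a fixed code (`ls (κ t) = t`).  Take `N` in a club containing `γ`, all `κ t` and closed under the functions below;
`a := cst x`.  `Below` is clear.  Let `E ∈ N` be dense open for `succ γ` and `q' ≤ snoc γ q (cst x)`.  Let `r ≤_γ q'` decide
`q' γ` to be `z`; put `z' := κ (ls z) ∈ N`.  The set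
`D2 := {(u, s) | ∃ z'', ls z' <+: ls z'' ∧ (snoc γ u (cst z''), s) ∈ E}` is dense open for `γ`
(dense: apply density of `E` to `snoc γ u (cst z')`, decide the `γ`-th coordinate of the result) and is in
`N`.  By `Gen N c γ q` there are `r' ≤ r`, `(u, pre c n) ∈ D2`, `u ∈ N`, `r' ≤ u`; by closure `z''` can be
chosen in `N`, and `snoc γ u (cst z'') ∈ N`.  The condition `snoc γ r' (cst z'')` is below `q'` up to
`succ γ` and below `snoc γ u (cst z'')`.
-/

universe u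

open Cardinal Set

namespace Pool.Agent.W_MP_315f31_lc

variable {K : Type u} [LinearOrder K] [OrderBot K] [WellFoundedLT K] [SuccOrder K] [NoMaxOrder K]
  {D : Dat K}

/-- the set used in `good_cohen` -/
def Dat.D2c (D : Dat K) (γ : K) (ls : K → List ℕ) (t : List ℕ) (E : Set (Cond K × List ℕ)) :
    Set (Cond K × List ℕ) :=
  {x | ∃ z, t <+: ls z ∧ (Cond.snoc γ x.1 (D.cst z), x.2) ∈ E}

theorem Dat.D2c_DO {γ : K} (h : OkB D (Order.succ γ : K)) {ls : K → List ℕ}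
    (hls : Function.Surjective ls) (hJ : ∀ x y p, D.J γ x y p ↔ ls y <+: ls x) (t : List ℕ)
    {E : Set (Cond K × List ℕ)} (hE : D.DO (Order.succ γ : K) E) :
    D.DO γ (D.D2c γ ls t E) := by
  have hlt : (γ : WithTop K) < ((Order.succ γ : K) : WithTop K) := by
    exact_mod_cast Order.lt_succ γ
  have hγ : OkB D (γ : WithTop K) := h.mono_top hlt.le
  constructor
  · rintro u s u' s' ⟨z, hz, hz'⟩ hu hs
    refine ⟨z, hz, hE.1 _ _ _ _ hz' ?_ hs⟩
    rw [Dat.snoc_le_iff hγ]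
    refine ⟨?_, ?_⟩
    · refine (Dat.le_congr D (fun β _ => rfl) ?_).2 hu
      intro β hβ
      exact Cond.snoc_of_lt _ _ (by exact_mod_cast hβ)
    · simp only [Cond.snoc_self]
      exact Dat.FL_refl h hlt _ _
  · intro u s
    obtain ⟨z', hz'⟩ := hls t
    obtain ⟨v, s', hv, hs', hvE⟩ := hE.2 (Cond.snoc γ u (D.cst z')) s
    rw [Dat.le_snoc_iff hγ] at hv
    obtain ⟨w, z, hw, hz⟩ := Dat.Dec_dense hγ v (v γ)
    refine ⟨w, s', Dat.le_trans hγ hw hv.1, hs', z, ?_, ?_⟩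
    · have h1 : D.FL γ w (v γ) (D.cst z') := Dat.FL_mono hγ hv.2 hw
      have h2 := (Dat.FL_iff h hlt hz (Dat.Dec_cst hγ w z')).1 h1
      rw [hJ, hz'] at h2
      exact h2
    · refine hE.1 _ _ _ _ hvE ?_ (List.prefix_refl _)
      rw [Dat.snoc_le_iff hγ]
      refine ⟨hw, ?_⟩
      exact (Dat.FL_iff h hlt (Dat.Dec_cst hγ w z) hz).2 (h.refl γ hlt _ _)

theorem Dat.good_cohen {γ : K} (h : OkB D (Order.succ γ : K)) {ls : K → List ℕ}
    (hls : Function.Surjective ls) (hJ : ∀ x y p, D.J γ x y p ↔ ls y <+: ls x) : D.Good γ := by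
  have hlt : (γ : WithTop K) < ((Order.succ γ : K) : WithTop K) := by
    exact_mod_cast Order.lt_succ γ
  have hγ : OkB D (γ : WithTop K) := h.mono_top hlt.le
  have c1 : IsClub {N : Set (Ob K) | ∀ t : List ℕ, ∀ z ∈ N, (fun z : Ob K => match z with
      | Ob.e E => Ob.e (D.D2c γ ls t E)
      | x => x) z ∈ N} :=
    IsClub.all fun t => IsClub.fn _
  have c2 : IsClub {N : Set (Ob K) | ∀ ts : List ℕ × List ℕ, ∀ x ∈ N, ∀ y ∈ N,
      (∃ w, ∃ E u z, x = Ob.e E ∧ y = Ob.c u ∧ ts.1 <+: ls z ∧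
        w = Ob.c (Cond.snoc γ u (D.cst z)) ∧ (Cond.snoc γ u (D.cst z), ts.2) ∈ E) →
      ∃ w ∈ N, ∃ E u z, x = Ob.e E ∧ y = Ob.c u ∧ ts.1 <+: ls z ∧
        w = Ob.c (Cond.snoc γ u (D.cst z)) ∧ (Cond.snoc γ u (D.cst z), ts.2) ∈ E} :=
    IsClub.all fun ts => IsClub.rel2 _
  refine (c1.inter c2).mono ?_
  rintro N ⟨h1, h2⟩ c q hq x hx
  refine ⟨D.cst x, ?_, ?_⟩
  · intro r hr z hz
    rw [Dat.Dec_uniq hγ hz (Dat.Dec_cst hγ r x)]
    exact h.refl γ hlt _ _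
  · intro E hEN hE q' hq'
    rw [Dat.le_snoc_iff hγ] at hq'
    obtain ⟨r, z, hr, hz⟩ := Dat.Dec_dense hγ q' (q' γ)
    obtain ⟨r', hr', u, n, hun, huN, hru⟩ := hq (D.D2c γ ls (ls z) E) (h1 (ls z) _ hEN)
      (D.D2c_DO h hls hJ _ hE) r (Dat.le_trans hγ hr hq'.1)
    obtain ⟨z0, hz0, hz0'⟩ := hun
    obtain ⟨w, hwN, E', u', z'', hE', hu', hz'', rfl, hmem⟩ := h2 (ls z, pre c n) _ hEN _ huN
      ⟨_, E, u, z0, rfl, rfl, hz0, rfl, hz0'⟩
    cases hE'
    cases hu'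
    refine ⟨Cond.snoc γ r' (D.cst z''), ?_, _, n, hmem, hwN, ?_⟩
    · rw [Dat.snoc_le_iff hγ]
      refine ⟨Dat.le_trans hγ hr' hr, ?_⟩
      refine (Dat.FL_iff h hlt (Dat.Dec_cst hγ r' z'') (Dat.Dec_mono hγ hz hr')).2 ?_
      rw [hJ]
      exact hz''
    · rw [Dat.snoc_le_iff hγ]
      refine ⟨?_, ?_⟩
      · refine (Dat.le_congr D (fun β _ => rfl) ?_).2 hru
        intro β hβ
        exact Cond.snoc_of_lt _ _ (by exact_mod_cast hβ)
      · simp only [Cond.snoc_self]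
        exact Dat.FL_refl h hlt _ _

end Pool.Agent.W_MP_315f31_lc
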