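import Pool.Agent.W_MP_315f31_lc.Abs

/-!
# MP_315f31_lc : what the native part delivers about the countable support iteration

`K` is the supercompact cardinal, `P` the countable support iteration of length `K` with its
preorder `L`.  The model side only uses the structure `Core`.
-/

universe u

open Cardinal Set

namespace Pool.Agent.W_MP_315f31_lc

/-- A name of a subset of `A`: `τ a p` means that `p` forces `a ∈ τ`. -/
structure IsNm {P : Type u} (L : P → P → Prop) {A : Type u} (τ : A → P → Prop) : Prop where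
  mono : ∀ a p q, τ a p → L q p → τ a q
  reg : ∀ a p, (∀ q, L q p → ∃ r, L r q ∧ τ a r) → τ a p

/-- A name of a partial function from `I` to `A`. -/
structure IsFn {P : Type u} (L : P → P → Prop) {I A : Type u} (f : I → A → P → Prop) : Prop where
  mono : ∀ i a p q, f i a p → L q p → f i a q
  uniq : ∀ i a b p, f i a p → f i b p → a = b

/-- The names of the Aronszajn tree: `nd α z` is a name of a subset of `{ξ | ξ < α}`, and
`vl α z p` means that `p` forces that it is a node of the tree, of level `α`. -/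
structure TreeNm {K P : Type u} [LinearOrder K] (L : P → P → Prop)
    (nd : K → K → K → P → Prop) (vl : K → K → P → Prop) : Prop where
  nd_nm : ∀ α z, IsNm L (nd α z)
  vl_mono : ∀ α z p q, vl α z p → L q p → vl α z q
  vl_reg : ∀ α z p, (∀ q, L q p → ∃ r, L r q ∧ vl α z r) → vl α z p
  /-- being a node depends only on the subset -/
  vl_congr : ∀ α z z' p, (∀ ξ < α, ∀ q, L q p → (nd α z ξ q ↔ nd α z' ξ q)) → vl α z p → vl α z' p
  /-- the restriction of a node to a smaller level is a node -/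
  restr : ∀ α z β p, β ≤ α → vl α z p →
    ∃ q z', L q p ∧ vl β z' q ∧ ∀ ξ < β, ∀ r, L r q → (nd α z ξ r ↔ nd β z' ξ r)
  /-- the levels are small -/
  small : ∀ α, ∃ Z : Set K, #Z < #K ∧ ∀ z, ∃ z' ∈ Z, ∀ ξ < α, ∀ p, nd α z ξ p ↔ nd α z' ξ p
  /-- the levels are not empty -/
  ne : ∀ α p, ∃ q z, L q p ∧ vl α z q
  /-- there is no cofinal branch -/
  nobr : ∀ b : K → P → Prop, IsNm L b → ∀ p,
    ¬ ∀ α q, L q p → ∃ r z, L r q ∧ vl α z r ∧ ∀ ξ < α, ∀ r', L r' r → (b ξ r' ↔ nd α z ξ r')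

/-- The properties of the iteration. -/
structure Core (K : Type u) [LinearOrder K] (P : Type u) (L : P → P → Prop) : Prop where
  inacc : Inacc K
  wf : WellFoundedLT K
  refl : ∀ p, L p p
  trans : ∀ p q r, L p q → L q r → L p r
  card : #P ≤ #K
  ne : Nonempty P
  /-- countable sets of the extension are covered by countable sets -/
  cover : ∀ (A : Type u) (f : ℕ → A → P → Prop), (∀ n a p q, f n a p → L q p → f n a q) →
    (∀ n p, ∃ q a, L q p ∧ f n a q) → ∀ p, ∃ (q : P) (S : Set A), L q p ∧ S.Countable ∧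
      ∀ n r, L r q → ∃ r' a, L r' r ∧ a ∈ S ∧ f n a r'
  /-- the chain condition -/
  cc : ∀ A : Set P, (∀ p ∈ A, ∀ q ∈ A, p ≠ q → ¬ ∃ r, L r p ∧ L r q) → #A < #K
  /-- every `δ < K` is collapsed to `ℵ₁` -/
  coll : ∀ δ : K, ∃ g : W1.{u} → K → P → Prop, IsFn L g ∧
    ∀ a < δ, ∀ p, ∃ q w, L q p ∧ g w a q
  /-- there are `K` many different reals -/
  reals : ∃ x : K → ℕ → Bool → P → Prop,
    (∀ δ n b p q, x δ n b p → L q p → x δ n b q) ∧ (∀ δ n p, ¬ (x δ n true p ∧ x δ n false p)) ∧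
    (∀ δ n p, ∃ q b, L q p ∧ x δ n b q) ∧
    ∀ δ δ', δ ≠ δ' → ∀ p, ∃ q n b, L q p ∧ x δ n b q ∧ x δ' n (!b) q
  tree : ∃ (nd : K → K → K → P → Prop) (vl : K → K → P → Prop), TreeNm L nd vl
  /-- the forcing axiom -/
  fa : ∀ (Y : Type u), Nonempty Y →
    ∀ (ρ : Y → Y → P → Prop) (D : W1.{u} → Y → P → Prop) (p : P),
    POrd L ρ → TPN L ρ p → DnsW L ρ D p → ∃ q F, L q p ∧ Filt L ρ D q F

end Pool.Agent.W_MP_315f31_lc
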