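import Pool.Agent.W_MP_315f31_lc.StOk

/-!
# MP_315f31_lc : the lottery stage

Let `l` be a limit with `CofU l` and `Cdense l` (otherwise `lotJ` is constantly true and everything is
trivial).  For `u : CT l` and the candidate `i` the relation `i.c.ρ` is a name of a preorder over the poset
`(CT l, ctle)` (`i.bad.ord`).

`lot_stOk`.  refl: if `q` is compatible with `p_i`, take `r ≤ q, p_i` bounded by `l` (`Cdense`) and
`u = r`.  trans: let `q ≤ p`; take `r1 ≤ q` with `lotR x y r1` and `r2 ≤ r1` with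
`lotR y z r2`; if `z` is not `none` or invalid at `r2`, then `y = ⟨i, b⟩`, `z = ⟨i, c⟩`, `r2 ≤ p_i`, `r2 ≤ u2`,
`ρ b c u2`; so `x = ⟨i, a⟩`, `r2 ≤ u1`, `ρ a b u1`; take `u ≤ r2` bounded; then `ρ a c u` (`mono`, `trans`), `r = u`.
sm: one code for each element of `Option (LotB D l)` (`card_lotB`).

`lot_tpk`.  For `i : LotI D l` let `g_i : ObA (CT l) (Iio i.m) → Ob K` be the injection `p u ↦ c u`, `y b ↦ k b`,
`d D ↦ e {x | ∃ h, ⟨x.1, h⟩ ∈ D}`, `s E ↦ s {x | ∃ h h', (⟨x.1, h⟩, ⟨x.2, h'⟩) ∈ E}`.  By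
`i.bad.tp`, `IsClub.comap` and `IsClub.diag`: for club many `N`, for all `x ∈ N` with `dl x = some ⟨i, b⟩`, the set
`g_i⁻¹ N` has the property of `TPN`.  Let `N` be in this club (and closed under the obvious functions: `x ↦ b`,
`(x, b') ↦` a code of `⟨i, b'⟩`, ...), `Gen N c l q`, `x ∈ N`.
CLAIM: if `x' ∈ N`, `dl x' = some ⟨i, b⟩`, `q' ≤ q`, `q' ≤ p_i`, then there are `r ≤ q'` and `y`
with `dl y = some ⟨i, _⟩`, `J l y x' r` and the second part of `LBK N l r`.  PROOF: we may assume that `q'` is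
bounded by `l`.  `q'` is `(g_i⁻¹ N, CT l)`-generic: for `D` dense open in `CT l` with `g_i D ∈ N` the set
`{(u, s) | ∃ v ∈ D, u ≤ v}` is dense open for `l` and in `N`.  So `TPN` gives `r ≤ q'` in `CT l` and `y1` with `LB`
for `y0 = b`; let `y` be a code of `⟨i, y1⟩`.  Given `E ∈ N` dense open for `(le l, J l)` the set
`E' = {(u, b') | (u, code ⟨i, b'⟩) ∈ E or Inc l u p_i}` is dense open for `(CT l, ρ_i)` and its image under `g_i` is in
`N`, so below any `r' ≤ r` (bounded) there is `r''` and `(u, b') ∈ E' ∩ N` with `r'' ≤ u`, `ρ y1 b' r''`; as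
`r'' ≤ p_i` the second alternative is impossible.
CASES for `x`: (1) `dl x = some ⟨i, b⟩` and `p_i` is compatible with `q`: use the claim below a common lower
bound.  Otherwise `x` is trivial: `J l z x r` for all `z` and all `r ≤ q`.  The set
`S = {u | (∃ j, u ≤ p_j) ∨ ∀ j, Inc l u p_j}` is dense open (`Gen_dense`); let `r1 ≤ q`, `u ∈ S ∩ N`, `r1 ≤ u`.
(2) if `u ≤ p_j` for some `j`, there is a code `x' ∈ N` of an element `⟨j, b⟩` (closure), use the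
claim for `x'` below `r1`.  (3) otherwise below `u` all elements are equivalent to `⊥`, and `LBK N l r1 x ⊥`:
for `E ∈ N` the set `{p | ∃ z, (p, z) ∈ E}` is dense open in `P_l` and in `N`.
-/

universe u

open Cardinal Set

set_option linter.unusedSectionVars false

namespace Pool.Agent.W_MP_315f31_lc

variable {K : Type u} [LinearOrder K] [OrderBot K] [WellFoundedLT K] [SuccOrder K] [NoMaxOrder K]

/-! ### Codes of the elements of the lottery -/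

/-- a code of an element of the lottery -/
noncomputable def Dat.lcode (D : Dat K) (l : K) (b : LotB D l) : K :=
  open Classical in if h : ∃ x, D.dl l x = some b then h.choose else ⊥

theorem dl_lcode (hK : Inacc K) {D : Dat K} {l : K} (b : LotB D l) :
    D.dl l (D.lcode l b) = some b := by
  have h : ∃ x, D.dl l x = some b := (Dat.dl_spec hK D l).1 (some b)
  unfold Dat.lcode
  rw [dif_pos h]
  exact h.choose_spec

theorem lot_lotR_congr {D : Dat K} {l x x' y y' : K} {r : Cond K} (hx : D.dl l x = D.dl l x')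
    (hy : D.dl l y = D.dl l y') (hR : D.lotR l x y r) : D.lotR l x' y' r := by
  unfold Dat.lotR at hR ⊢
  rw [hx, hy] at hR
  exact hR

theorem lot_lotJ_congr {D : Dat K} {l x x' y y' : K} {p : Cond K} (hx : D.dl l x = D.dl l x')
    (hy : D.dl l y = D.dl l y') (hJ : D.lotJ l x y p) : D.lotJ l x' y' p := by
  intro hc q hq
  obtain ⟨r, hr, hR⟩ := hJ hc q hq
  exact ⟨r, hr, lot_lotR_congr hx hy hR⟩

/-- the comparison of two elements with the same index -/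
theorem lot_lotJ_of_rho {D : Dat K} {l : K} (h : OkB D l) {x y : K} {i : LotI D l}
    {a b : Iio i.m} {u : CT l} {p : Cond K} (hx : D.dl l x = some ⟨i, a⟩)
    (hy : D.dl l y = some ⟨i, b⟩) (hρ : i.c.ρ a b u) (hp : D.le l p u.1) : D.lotJ l x y p := by
  intro _ q hq
  by_cases hi : D.Inc l q i.c.p.1
  · exact ⟨q, Dat.le_refl h q, Or.inr (Or.inl ⟨_, hy, hi⟩)⟩
  · obtain ⟨w, hw1, hw2⟩ := not_not.1 hi
    exact ⟨w, hw1, Or.inr (Or.inr ⟨i, a, b, u, hx, hy, hw2,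
      Dat.le_trans h hw1 (Dat.le_trans h hq hp), hρ⟩)⟩

theorem lot_refl {D : Dat K} {l : K} (h : OkB D l) (x : K) (p : Cond K) : D.lotJ l x x p := by
  intro hc q hq
  rcases hx : D.dl l x with _ | ⟨i, y⟩
  · exact ⟨q, Dat.le_refl h q, Or.inl hx⟩
  · obtain ⟨r, hr, hrq⟩ := hc.2 q
    have := lot_lotJ_of_rho h hx hx (i.bad.ord.refl y ⟨r, hr⟩) (Dat.le_refl h r) hc r
      (Dat.le_refl h r)
    obtain ⟨r', hr', hR⟩ := this
    exact ⟨r', Dat.le_trans h hr' hrq, hR⟩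

theorem lot_trans {D : Dat K} {l : K} (h : OkB D l) {x y z : K} {p : Cond K}
    (h1 : D.lotJ l x y p) (h2 : D.lotJ l y z p) : D.lotJ l x z p := by
  intro hc q hq
  obtain ⟨r1, hr1, hR1⟩ := h1 hc q hq
  obtain ⟨r2, hr2, hR2⟩ := h2 hc r1 (Dat.le_trans h hr1 hq)
  rcases hR2 with hz | ⟨b, hz, hi⟩ | ⟨i, a, b, u, hy, hz, hp, hu, hρ⟩
  · exact ⟨r2, Dat.le_trans h hr2 hr1, Or.inl hz⟩
  · exact ⟨r2, Dat.le_trans h hr2 hr1, Or.inr (Or.inl ⟨b, hz, hi⟩)⟩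
  · rcases hR1 with hy' | ⟨b', hy', hi⟩ | ⟨i', a', b', u', hx', hy', hp', hu', hρ'⟩
    · rw [hy'] at hy
      cases hy
    · rw [hy'] at hy
      cases hy
      exact absurd ⟨r2, hr2, hp⟩ hi
    · rw [hy'] at hy
      cases hy
      obtain ⟨r3, hr3, hr32⟩ := hc.2 r2
      have e1 : i.c.ρ a' a ⟨r3, hr3⟩ :=
        i.bad.ord.mono _ _ _ _ hρ' (Dat.le_trans h hr32 (Dat.le_trans h hr2 hu'))
      have e2 : i.c.ρ a b ⟨r3, hr3⟩ := i.bad.ord.mono _ _ _ _ hρ (Dat.le_trans h hr32 hu)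
      refine ⟨r3, Dat.le_trans h hr32 (Dat.le_trans h hr2 hr1), Or.inr (Or.inr
        ⟨i, a', b, ⟨r3, hr3⟩, hx', hz, Dat.le_trans h hr32 hp, Dat.le_refl h r3, ?_⟩)⟩
      exact i.bad.ord.trans _ _ _ _ e1 e2

theorem lot_stOk {D : Dat K} {l : K} (h : OkB D l) (hl : IsLim l) (hJ : D.J l = D.lotJ l) :
    StOk D l := by
  have _ := hl
  refine ⟨?_, ?_, ?_, ?_, ?_, ?_⟩
  · intro x p
    rw [hJ]
    exact lot_refl h x p
  · intro x p
    rw [hJ]
    intro _ q _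
    exact ⟨q, Dat.le_refl h q, Or.inl (Dat.dl_spec h.inacc D l).2⟩
  · intro x y z p
    rw [hJ]
    exact lot_trans h
  · intro x y p q
    rw [hJ]
    intro h1 hq hc q' hq'
    exact h1 hc q' (Dat.le_trans h hq' hq)
  · intro x y p
    rw [hJ]
    intro h1 hc q hq
    obtain ⟨r, hr, hr'⟩ := h1 q hq
    obtain ⟨r', hr1, hR⟩ := hr' hc r (Dat.le_refl h r)
    exact ⟨r', Dat.le_trans h hr1 hr, hR⟩
  · have hs := (Dat.dl_spec h.inacc D l).1
    choose k hk using hs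
    refine ⟨range k, ?_, ?_⟩
    · refine mk_range_le.trans_lt ?_
      rw [mk_option]
      exact add_lt_of_lt h.inacc.card.aleph0_lt.le (card_lotB h.inacc D l)
        (one_lt_aleph0.trans h.inacc.card.aleph0_lt)
    · intro x
      refine ⟨k (D.dl l x), ⟨_, rfl⟩, fun p => ?_⟩
      have e : D.dl l x = D.dl l (k (D.dl l x)) := (hk _).symm
      rw [hJ]
      exact ⟨lot_lotJ_congr rfl e (lot_refl h x p), lot_lotJ_congr e rfl (lot_refl h x p)⟩

/-! ### The models of the candidates -/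

/-- the objects of the candidate `i` as objects of `K` -/
def lotG {D : Dat K} {l : K} (i : LotI D l) : ObA (CT l) (Iio i.m) → Ob K
  | .p u => .c u.1
  | .y b => .k b.1
  | .d F => .e {x | ∃ h : Bnd x.1 l, (⟨x.1, h⟩ : CT l) ∈ F}
  | .s E => .s {x | ∃ (h : Bnd x.1 l) (h' : x.2 ∈ Iio i.m),
      ((⟨x.1, h⟩ : CT l), (⟨x.2, h'⟩ : Iio i.m)) ∈ E}

theorem lotG_inj {D : Dat K} {l : K} (i : LotI D l) : Function.Injective (lotG i) := by
  intro a b hab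
  cases a <;> cases b <;> simp only [lotG, Ob.c.injEq, Ob.k.injEq, Ob.e.injEq, Ob.s.injEq,
    reduceCtorEq] at hab
  · rw [Subtype.ext hab]
  · rw [Subtype.ext hab]
  · congr 1
    ext u
    have h1 : ((u.1, []) : Cond K × List ℕ) ∈ _ ↔ _ := Set.ext_iff.1 hab (u.1, [])
    constructor
    · intro hu
      obtain ⟨_, h2⟩ := h1.1 ⟨u.2, hu⟩
      exact h2
    · intro hu
      obtain ⟨_, h2⟩ := h1.2 ⟨u.2, hu⟩
      exact h2
  · congr 1
    ext ⟨u, b⟩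
    have h1 : ((u.1, b.1) : Cond K × K) ∈ _ ↔ _ := Set.ext_iff.1 hab (u.1, b.1)
    constructor
    · intro hu
      obtain ⟨_, _, h2⟩ := h1.1 ⟨u.2, b.2, hu⟩
      exact h2
    · intro hu
      obtain ⟨_, _, h2⟩ := h1.2 ⟨u.2, b.2, hu⟩
      exact h2

/-- the property of the models of the candidate `i` given by its total properness -/
def lotTP {D : Dat K} {l : K} (i : LotI D l) : Set (Set (ObA (CT l) (Iio i.m))) :=
  {N | ∀ q, D.ctle l q i.c.p → GenA (D.ctle l) N q → ∀ y0, ObA.y y0 ∈ N →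
    ∃ r y1, D.ctle l r q ∧ LB (D.ctle l) i.c.ρ N r y0 y1}

/-- the set `E` read at the candidate `i` -/
def lotE {D : Dat K} {l : K} (i : LotI D l) (E : Set (Cond K × K)) : Set (CT l × Iio i.m) :=
  {x | (x.1.1, D.lcode l ⟨i, x.2⟩) ∈ E ∨ D.Inc l x.1.1 i.c.p.1}

/-- the model is closed under all the operations used -/
structure LotN (D : Dat K) (l : K) (N : Set (Ob K)) : Prop where
  tp : ∀ x b, Ob.k x ∈ N → D.dl l x = some b → (lotG b.i) ⁻¹' N ∈ lotTP b.i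
  f1 : ∀ x b, Ob.k x ∈ N → D.dl l x = some b → Ob.k b.y.1 ∈ N
  f2 : ∀ x (b : LotB D l) (b' : Iio b.i.m), Ob.k x ∈ N → D.dl l x = some b → Ob.k b'.1 ∈ N →
    Ob.k (D.lcode l ⟨b.i, b'⟩) ∈ N
  f3 : ∀ u, Ob.c u ∈ N → (∃ x b, D.dl l x = some b ∧ D.le l u b.i.c.p.1) →
    ∃ x b, Ob.k x ∈ N ∧ D.dl l x = some b ∧ D.le l u b.i.c.p.1
  f4 : Ob.e {x : Cond K × List ℕ | (∃ j : LotI D l, D.le l x.1 j.c.p.1) ∨
    ∀ j : LotI D l, D.Inc l x.1 j.c.p.1} ∈ N
  f5 : ∀ F, Ob.e F ∈ N → Ob.e {x : Cond K × List ℕ | ∃ v, (v, []) ∈ F ∧ D.le l x.1 v} ∈ N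
  f5' : ∀ F u, Ob.e F ∈ N → Ob.c u ∈ N → (∃ v, (v, []) ∈ F ∧ D.le l u v) →
    ∃ v, Ob.c v ∈ N ∧ (v, []) ∈ F ∧ D.le l u v
  f6 : ∀ E x b, Ob.s E ∈ N → Ob.k x ∈ N → D.dl l x = some b → lotG b.i (.s (lotE b.i E)) ∈ N
  f7 : ∀ E, Ob.s E ∈ N → Ob.e {x : Cond K × List ℕ | ∃ z, (x.1, z) ∈ E} ∈ N
  f7' : ∀ E p, Ob.s E ∈ N → Ob.c p ∈ N → (∃ z, (p, z) ∈ E) → ∃ z, Ob.k z ∈ N ∧ (p, z) ∈ E

theorem lot_club (D : Dat K) (l : K) : IsClub {N : Set (Ob K) | LotN D l N} := by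
  have c0 : IsClub {N : Set (Ob K) | ∀ z ∈ N, N ∈ {N : Set (Ob K) | ∀ x b, z = Ob.k x →
      D.dl l x = some b → (lotG b.i) ⁻¹' N ∈ lotTP b.i}} := by
    apply IsClub.diag
    intro z
    by_cases hz : ∃ x b, z = Ob.k x ∧ D.dl l x = some b
    · obtain ⟨x, b, rfl, hb⟩ := hz
      refine (IsClub.comap (lotG_inj b.i) b.i.bad.tp).mono ?_
      intro N hN x' b' hx' hb'
      cases hx'
      rw [hb] at hb'
      cases hb'
      exact hN
    · refine IsClub.univ.mono ?_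
      intro N _ x b hx hb
      exact absurd ⟨x, b, hx, hb⟩ hz
  have c1 := IsClub.rel (Z := Ob K) (fun X Z => ∃ x b, X = Ob.k x ∧ D.dl l x = some b ∧
    Z = Ob.k b.y.1)
  have c2 := IsClub.rel2 (Z := Ob K) (fun X Y Z => ∃ (x : K) (b : LotB D l) (b' : Iio b.i.m),
    X = Ob.k x ∧ D.dl l x = some b ∧ Y = Ob.k b'.1 ∧ Z = Ob.k (D.lcode l ⟨b.i, b'⟩))
  have c3 := IsClub.rel (Z := Ob K) (fun X Z => ∃ u x b, X = Ob.c u ∧ Z = Ob.k x ∧
    D.dl l x = some b ∧ D.le l u b.i.c.p.1)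
  have c4 := IsClub.mem (Z := Ob K) (Ob.e {x : Cond K × List ℕ | (∃ j : LotI D l, D.le l x.1 j.c.p.1) ∨
    ∀ j : LotI D l, D.Inc l x.1 j.c.p.1})
  have c5 := IsClub.rel (Z := Ob K) (fun X Z => ∃ F, X = Ob.e F ∧
    Z = Ob.e {x : Cond K × List ℕ | ∃ v, (v, []) ∈ F ∧ D.le l x.1 v})
  have c5' := IsClub.rel2 (Z := Ob K) (fun X Y Z => ∃ F u v, X = Ob.e F ∧ Y = Ob.c u ∧ Z = Ob.c v ∧
    (v, []) ∈ F ∧ D.le l u v)
  have c6 := IsClub.rel2 (Z := Ob K) (fun X Y Z => ∃ E x b, X = Ob.s E ∧ Y = Ob.k x ∧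
    D.dl l x = some b ∧ Z = lotG b.i (.s (lotE b.i E)))
  have c7 := IsClub.rel (Z := Ob K) (fun X Z => ∃ E, X = Ob.s E ∧
    Z = Ob.e {x : Cond K × List ℕ | ∃ z, (x.1, z) ∈ E})
  have c7' := IsClub.rel2 (Z := Ob K) (fun X Y Z => ∃ E p z, X = Ob.s E ∧ Y = Ob.c p ∧ Z = Ob.k z ∧
    (p, z) ∈ E)
  refine (c0.inter (c1.inter (c2.inter (c3.inter (c4.inter (c5.inter (c5'.inter (c6.inter
    (c7.inter c7'))))))))).mono ?_
  rintro N ⟨h0, h1, h2, h3, h4, h5, h5', h6, h7, h7'⟩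
  refine ⟨?_, ?_, ?_, ?_, h4, ?_, ?_, ?_, ?_, ?_⟩
  · intro x b hx hb
    exact h0 _ hx x b rfl hb
  · intro x b hx hb
    obtain ⟨Z, hZ, x', b', hx', hb', rfl⟩ := h1 _ hx ⟨_, x, b, rfl, hb, rfl⟩
    cases hx'
    rw [hb] at hb'
    cases hb'
    exact hZ
  · intro x b b' hx hb hb'
    obtain ⟨Z, hZ, x1, b1, b1', hx1, hb1, hb1', rfl⟩ :=
      h2 _ hx _ hb' ⟨_, x, b, b', rfl, hb, rfl, rfl⟩
    cases hx1
    rw [hb] at hb1
    cases hb1
    have e : b' = b1' := by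
      simp only [Ob.k.injEq] at hb1'
      exact Subtype.ext hb1'
    rw [e]
    exact hZ
  · rintro u hu ⟨x, b, hb, hub⟩
    obtain ⟨Z, hZ, u', x', b', hu', rfl, hb', hub'⟩ := h3 _ hu ⟨_, u, x, b, rfl, rfl, hb, hub⟩
    cases hu'
    exact ⟨x', b', hZ, hb', hub'⟩
  · intro F hF
    obtain ⟨Z, hZ, F', hF', rfl⟩ := h5 _ hF ⟨_, F, rfl, rfl⟩
    cases hF'
    exact hZ
  · rintro F u hF hu ⟨v, hv, huv⟩
    obtain ⟨Z, hZ, F', u', v', hF', hu', rfl, hv', huv'⟩ :=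
      h5' _ hF _ hu ⟨_, F, u, v, rfl, rfl, rfl, hv, huv⟩
    cases hF'
    cases hu'
    exact ⟨v', hZ, hv', huv'⟩
  · intro E x b hE hx hb
    obtain ⟨Z, hZ, E', x', b', hE', hx', hb', rfl⟩ := h6 _ hE _ hx ⟨_, E, x, b, rfl, rfl, hb, rfl⟩
    cases hE'
    cases hx'
    rw [hb] at hb'
    cases hb'
    exact hZ
  · intro E hE
    obtain ⟨Z, hZ, E', hE', rfl⟩ := h7 _ hE ⟨_, E, rfl, rfl⟩
    cases hE'
    exact hZ
  · rintro E p hE hp ⟨z, hz⟩
    obtain ⟨Z, hZ, E', p', z', hE', hp', rfl, hz'⟩ := h7' _ hE _ hp ⟨_, E, p, z, rfl, rfl, rfl, hz⟩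
    cases hE'
    cases hp'
    exact ⟨z', hZ, hz'⟩

/-- genericity for the first coordinates -/
theorem lot_fst {D : Dat K} {l : K} (hr : ∀ x p, D.J l x x p) {N : Set (Ob K)}
    (hN : LotN D l N) {c : ℕ → ℕ} {q : Cond K} (hq : D.Gen N c l q) {E : Set (Cond K × K)}
    (hE : Ob.s E ∈ N) (hD : DOs (D.le l) (D.J l) E) {r' : Cond K} (hr' : D.le l r' q) :
    ∃ r'', D.le l r'' r' ∧ ∃ p z, (p, z) ∈ E ∧ Ob.c p ∈ N ∧ Ob.k z ∈ N ∧ D.le l r'' p := by
  have hDO : D.DO l {x : Cond K × List ℕ | ∃ z, (x.1, z) ∈ E} := by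
    constructor
    · rintro p s p' s' ⟨z, hz⟩ hp _
      exact ⟨z, hD.1 p z p' z hz hp (hr z p')⟩
    · intro p s
      obtain ⟨p', z, hp', _, hz⟩ := hD.2 p ⊥
      exact ⟨p', s, hp', List.prefix_rfl, z, hz⟩
  obtain ⟨r, hr1, p, n, hp, hpN, hrp⟩ := hq _ (hN.f7 E hE) hDO r' hr'
  obtain ⟨z, hzN, hz⟩ := hN.f7' E p hE hpN hp
  exact ⟨r, hr1, p, z, hz, hpN, hzN, hrp⟩

/-- the set `lotE i E` is dense open -/
theorem lotE_DOs {D : Dat K} {l : K} (h : OkB D (Order.succ l : K)) (hJ : D.J l = D.lotJ l)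
    (hc : CofU l ∧ D.Cdense l) (i : LotI D l) {E : Set (Cond K × K)}
    (hE : DOs (D.le l) (D.J l) E) : DOs (D.ctle l) i.c.ρ (lotE i E) := by
  have hok := path_ok h
  have hin := h.inacc
  constructor
  · rintro p y p' y' hpy hp hρ
    rcases hpy with hpy | hpy
    · left
      refine hE.1 _ _ _ _ hpy hp ?_
      rw [hJ]
      exact lot_lotJ_of_rho hok (dl_lcode hin _) (dl_lcode hin _) hρ (Dat.le_refl hok _)
    · right
      exact Dat.Inc_mono hok hpy hp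
  · intro p y
    by_cases hi : D.Inc l p.1 i.c.p.1
    · exact ⟨p, y, Dat.le_refl hok _, i.bad.ord.refl y p, Or.inr hi⟩
    · obtain ⟨w, hw1, hw2⟩ := not_not.1 hi
      obtain ⟨p1, z, hp1, hz, hzE⟩ := hE.2 w (D.lcode l ⟨i, y⟩)
      rw [hJ] at hz
      obtain ⟨r, hr, hR⟩ := hz hc p1 (Dat.le_refl hok p1)
      have hcode : D.dl l (D.lcode l ⟨i, y⟩) = some ⟨i, y⟩ := dl_lcode hin _
      rcases hR with h1 | ⟨b, h1, h2⟩ | ⟨i', a, b, u, h1, h2, h3, h4, h5⟩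
      · rw [h1] at hcode
        cases hcode
      · rw [hcode] at h1
        cases h1
        exact absurd ⟨r, Dat.le_refl hok r, Dat.le_trans hok hr (Dat.le_trans hok hp1 hw2)⟩ h2
      · rw [hcode] at h2
        cases h2
        obtain ⟨r1, hr1, hr1r⟩ := hc.2 r
        refine ⟨⟨r1, hr1⟩, a, Dat.le_trans hok hr1r (Dat.le_trans hok hr (Dat.le_trans hok hp1 hw1)),
          i.bad.ord.mono _ _ _ _ h5 (Dat.le_trans hok hr1r h4), Or.inl ?_⟩
        refine hE.1 p1 z r1 _ hzE (Dat.le_trans hok hr1r hr) ?_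
        rw [hJ]
        exact lot_lotJ_congr (h1.trans (dl_lcode hin _).symm) rfl (lot_refl hok z r1)

/-- the claim -/
theorem lot_claim {D : Dat K} {l : K} (h : OkB D (Order.succ l : K)) (hJ : D.J l = D.lotJ l)
    (hc : CofU l ∧ D.Cdense l) {N : Set (Ob K)} (hN : LotN D l N) {c : ℕ → ℕ} {q : Cond K}
    (hq : D.Gen N c l q) {x : K} (hx : Ob.k x ∈ N) {b : LotB D l} (hb : D.dl l x = some b)
    {q' : Cond K} (hq' : D.le l q' q) (hqp : D.le l q' b.i.c.p.1) :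
    ∃ r y, D.le l r q' ∧ D.J l y x r ∧ ∀ E, Ob.s E ∈ N → DOs (D.le l) (D.J l) E → ∀ r',
      D.le l r' r → ∃ r'', D.le l r'' r' ∧ ∃ p z, (p, z) ∈ E ∧ Ob.c p ∈ N ∧ Ob.k z ∈ N ∧
        D.le l r'' p ∧ D.J l y z r'' := by
  have hok := path_ok h
  have hin := h.inacc
  obtain ⟨q2, hq2, hq2q⟩ := hc.2 q'
  have hgen : GenA (D.ctle l) ((lotG b.i) ⁻¹' N) ⟨q2, hq2⟩ := by
    intro F hF hFD q1 hq1
    have hE1 : D.DO l {x : Cond K × List ℕ | ∃ v, (v, []) ∈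
        {x : Cond K × List ℕ | ∃ h : Bnd x.1 l, (⟨x.1, h⟩ : CT l) ∈ F} ∧ D.le l x.1 v} := by
      constructor
      · rintro p s p' s' ⟨v, hv, hpv⟩ hp _
        exact ⟨v, hv, Dat.le_trans hok hp hpv⟩
      · intro p s
        obtain ⟨p1, hp1, hp1p⟩ := hc.2 p
        obtain ⟨d, hd, hdF⟩ := hFD.2 ⟨p1, hp1⟩
        exact ⟨d.1, s, Dat.le_trans hok hd hp1p, List.prefix_rfl, d.1, ⟨d.2, hdF⟩,
          Dat.le_refl hok _⟩
    obtain ⟨r0, hr0, u, n, hu, huN, hr0u⟩ := hq _ (hN.f5 _ hF) hE1 q1.1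
      (Dat.le_trans hok hq1 (Dat.le_trans hok hq2q hq'))
    obtain ⟨v, hvN, ⟨hvb, hvF⟩, huv⟩ := hN.f5' _ u hF huN hu
    obtain ⟨r, hr, hrr0⟩ := hc.2 r0
    refine ⟨⟨r, hr⟩, Dat.le_trans hok hrr0 hr0, ⟨v, hvb⟩, hvF, hvN, ?_⟩
    exact Dat.le_trans hok hrr0 (Dat.le_trans hok hr0u huv)
  obtain ⟨r, y1, hr, hlb1, hlb2⟩ := hN.tp x b hx hb ⟨q2, hq2⟩ (Dat.le_trans hok hq2q hqp) hgen b.y
    (hN.f1 x b hx hb)
  have hrq' : D.le l r.1 q' := Dat.le_trans hok hr hq2q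
  refine ⟨r.1, D.lcode l ⟨b.i, y1⟩, hrq', ?_, ?_⟩
  · rw [hJ]
    exact lot_lotJ_of_rho hok (dl_lcode hin _) hb hlb1 (Dat.le_refl hok _)
  · intro E hE hED r' hr'
    obtain ⟨r1, hr1, hr1r'⟩ := hc.2 r'
    obtain ⟨r2, hr2, p, y, hpy, hpN, hyN, hr2p, hρ⟩ := hlb2 (lotE b.i E) (hN.f6 E x b hE hx hb)
      (lotE_DOs h hJ hc b.i hED) ⟨r1, hr1⟩ (Dat.le_trans hok hr1r' hr')
    have hr2r' : D.le l r2.1 r' := Dat.le_trans hok hr2 hr1r'
    rcases hpy with hpy | hpy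
    · refine ⟨r2.1, hr2r', p.1, D.lcode l ⟨b.i, y⟩, hpy, hpN, hN.f2 x b y hx hb hyN, hr2p, ?_⟩
      rw [hJ]
      exact lot_lotJ_of_rho hok (dl_lcode hin _) (dl_lcode hin _) hρ (Dat.le_refl hok _)
    · exact absurd ⟨r2.1, hr2p, Dat.le_trans hok hr2r' (Dat.le_trans hok hr'
        (Dat.le_trans hok hrq' hqp))⟩ hpy

theorem lot_tpk {D : Dat K} {l : K} (h : OkB D (Order.succ l : K)) (hl : IsLim l)
    (hg : ∀ γ' : K, γ' < l → D.Good γ') (hJ : D.J l = D.lotJ l) : D.TPK l := by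
  have _ := hl
  have _ := hg
  have hok := path_ok h
  have hin := h.inacc
  have hrefl : ∀ x p, D.J l x x p := fun x p => by
    rw [hJ]
    exact lot_refl hok x p
  refine (lot_club D l).mono ?_
  intro N hN c q hq x hx
  by_cases hc : CofU l ∧ D.Cdense l
  · by_cases hcomp : ∃ b, D.dl l x = some b ∧ ¬ D.Inc l q b.i.c.p.1
    · obtain ⟨b, hb, hi⟩ := hcomp
      obtain ⟨q', hq', hqp⟩ := not_not.1 hi
      obtain ⟨r, y, hr, h1, h2⟩ := lot_claim h hJ hc hN hq hx hb hq' hqp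
      exact ⟨r, y, Dat.le_trans hok hr hq', h1, h2⟩
    · have htriv : ∀ z r, D.le l r q → D.J l z x r := by
        intro z r hr
        rw [hJ]
        intro _ q1 hq1
        refine ⟨q1, Dat.le_refl hok q1, ?_⟩
        rcases hxd : D.dl l x with _ | b
        · exact Or.inl hxd
        · right
          left
          refine ⟨b, hxd, ?_⟩
          have h3 : D.Inc l q b.i.c.p.1 := by
            by_contra h4
            exact hcomp ⟨b, hxd, h4⟩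
          exact Dat.Inc_mono hok h3 (Dat.le_trans hok hq1 hr)
      have hDO : D.DO l {x : Cond K × List ℕ | (∃ j : LotI D l, D.le l x.1 j.c.p.1) ∨
          ∀ j : LotI D l, D.Inc l x.1 j.c.p.1} := by
        constructor
        · rintro p s p' s' (⟨j, hj⟩ | hj) hp _
          · exact Or.inl ⟨j, Dat.le_trans hok hp hj⟩
          · exact Or.inr fun j => Dat.Inc_mono hok (hj j) hp
        · intro p s
          by_cases hj : ∀ j : LotI D l, D.Inc l p j.c.p.1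
          · exact ⟨p, s, Dat.le_refl hok p, List.prefix_rfl, Or.inr hj⟩
          · push Not at hj
            obtain ⟨j, hj⟩ := hj
            obtain ⟨w, hw1, hw2⟩ := not_not.1 hj
            exact ⟨w, s, hw1, List.prefix_rfl, Or.inl ⟨j, hw2⟩⟩
      obtain ⟨r1, hr1, u, n, hu, huN, hr1u⟩ := hq _ hN.f4 hDO q (Dat.le_refl hok q)
      rcases hu with ⟨j, hj⟩ | hj
      · obtain ⟨yj⟩ := j.bad.ne
        obtain ⟨x', b', hx'N, hb', hub'⟩ := hN.f3 u huN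
          ⟨D.lcode l ⟨j, yj⟩, ⟨j, yj⟩, dl_lcode hin _, hj⟩
        obtain ⟨r, y, hr, -, h2⟩ := lot_claim h hJ hc hN hq hx'N hb' hr1
          (Dat.le_trans hok hr1u hub')
        have hrq : D.le l r q := Dat.le_trans hok hr hr1
        exact ⟨r, y, hrq, htriv y r hrq, h2⟩
      · refine ⟨r1, ⊥, hr1, htriv ⊥ r1 hr1, ?_⟩
        intro E hE hED r' hr'
        obtain ⟨r'', hr'', p, z, h1, h2, h3, h4⟩ := lot_fst hrefl hN hq hE hED
          (Dat.le_trans hok hr' hr1)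
        refine ⟨r'', hr'', p, z, h1, h2, h3, h4, ?_⟩
        rw [hJ]
        intro _ q1 hq1
        refine ⟨q1, Dat.le_refl hok q1, ?_⟩
        rcases hzd : D.dl l z with _ | b
        · exact Or.inl hzd
        · right
          left
          refine ⟨b, hzd, Dat.Inc_mono hok (hj b.i) ?_⟩
          exact Dat.le_trans hok hq1 (Dat.le_trans hok hr'' (Dat.le_trans hok hr' hr1u))
  · have hall : ∀ y z r, D.J l y z r := by
      intro y z r
      rw [hJ]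
      intro h1
      exact absurd h1 hc
    refine ⟨q, ⊥, Dat.le_refl hok q, hall _ _ _, ?_⟩
    intro E hE hED r' hr'
    obtain ⟨r'', hr'', p, z, h1, h2, h3, h4⟩ := lot_fst hrefl hN hq hE hED hr'
    exact ⟨r'', hr'', p, z, h1, h2, h3, h4, hall _ _ _⟩

end Pool.Agent.W_MP_315f31_lc
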