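import Pool.Agent.W_MP_315f31_lc.TreeStage
import Pool.Agent.W_MP_315f31_lc.LotStage

/-!
# MP_315f31_lc : the iteration satisfies the requirements
-/

universe u

open Cardinal Set

set_option linter.unusedSectionVars false

namespace Pool.Agent.W_MP_315f31_lc

variable {K : Type u} [LinearOrder K] [OrderBot K] [WellFoundedLT K] [SuccOrder K] [NoMaxOrder K]
  {C : Cod K} {D : Dat K}

theorem it_ok (hK : Inacc K) (hC : C.Ok) (hI : IsIt C D) : OkB D ⊤ ∧ ∀ γ, D.Good γ := by
  have h0 : OkB D ((⊥ : K) : WithTop K) := okB_bot hK hC hI.nm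
  have key : ∀ γ : K, StOk D γ ∧ D.Good γ := by
    intro γ
    induction γ using (wellFounded_lt (α := K)).induction with
    | _ γ ih =>
      have hg : ∀ γ' : K, γ' < γ → D.Good γ' := fun γ' h' => (ih γ' h').2
      have hγ : OkB D (γ : WithTop K) := okB_lim h0 fun γ' h' => (ih γ' (WithTop.coe_lt_coe.1 h')).1
      obtain ⟨l, n, hl, rfl⟩ := exists_lim_add γ
      rcases n with _ | _ | _ | n
      · have hs : StOk D l := lot_stOk hγ hl (hI.lot l hl)
        have h2 := okB_succ hγ hs
        exact ⟨hs, D.good_of_tpk h2 hg (lot_tpk h2 hl hg (hI.lot l hl))⟩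
      · change OkB D ((Order.succ l : K) : WithTop K) at hγ
        change StOk D (Order.succ l) ∧ D.Good (Order.succ l)
        by_cases hc : CofU l ∧ l ≠ ⊥
        · have hJ := hI.tree l hl hc.1 hc.2
          have hs : StOk D (Order.succ l) := tree_stOk hC hγ hl hc.1 hJ
          have h2 := okB_succ hγ hs
          have hn : ∀ β < l, ∃ τ, NodeAt D (Order.succ l : K) β τ := fun β hβ =>
            exists_node hC hI hγ (WithTop.coe_le_coe.2 ((nl_le hK hl hβ).trans (Order.le_succ l)))
          exact ⟨hs, D.good_of_tpk h2 hg (tree_tpk hC h2 hl hc.1 hc.2 hJ hn hg)⟩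
        · have hJ := hI.coh1 l hl hc
          have hs : StOk D (Order.succ l) := coh_stOk hC hγ hJ
          exact ⟨hs, coh_good hC (okB_succ hγ hs) hJ⟩
      · change OkB D ((Order.succ (Order.succ l) : K) : WithTop K) at hγ
        change StOk D (Order.succ (Order.succ l)) ∧ D.Good (Order.succ (Order.succ l))
        have hJ := hI.col l hl
        have hs : StOk D (Order.succ (Order.succ l)) := col_stOk hC hγ hJ
        have h2 := okB_succ hγ hs
        exact ⟨hs, D.good_of_tpk h2 hg (col_tpk hC h2 hg hJ)⟩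
      · have hJ := hI.coh l hl n
        have hs : StOk D (Order.succ^[n + 3] l) := coh_stOk hC hγ hJ
        exact ⟨hs, coh_good hC (okB_succ hγ hs) hJ⟩
  exact ⟨okB_lim h0 fun γ _ => (key γ).1, fun γ => (key γ).2⟩

end Pool.Agent.W_MP_315f31_lc
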