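import Pool.Agent.W_MP_315f31_lc.IterA

/-!
# MP_315f31_lc : the iteration lemma, limit step

`iter_lim_at`: PROOF.  `N` is countable, `β` is a limit, `α < β`, `α ∈ N`.  Let `β_0 = α ≤ β_1 ≤ ...` be elements of
`N` below `β`, cofinal in `{γ ∈ N | γ < β}` (`N` is countable), and let `E_n` enumerate the `E ∈ N` with
`DO β E` (if there is none take `E_n = univ` and skip the membership; `univ ∈ N` may be assumed, see
`huniv`).
Construct `(q_n, W_n)` with `Gen N c β_n q_n`, `CNm N β_n q_n W_n`, `q_(n+1) ↾ β_n = q_n ↾ β_n`: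
`q_0 = q`, `W_0 = W`.  Given `(q_n, W_n)` let `W'_n` be given by `refine_step` for `β_n ≤ β`, `E_n`
(hypotheses `h1`, `h2`): `W'_n w p'` implies `W_n w p`, `p' ≤_β p`, `(p', pre c m) ∈ E_n` for some `p, m`.  By
`IterAt N β_n β_(n+1)` for `W'_n` there is `q_(n+1)` with `q_(n+1) ↾ β_n = q_n`,
`Gen N c β_(n+1) q_(n+1)`, `le β_(n+1) (glue β_n w q_(n+1)) p'` whenever `w ≤_(β_n) q_n`, `W'_n w p'`.  Let
`W_(n+1) w p' := (∃ w0, W'_n w0 p' ∧ le β_n w w0) ∧ le β_(n+1) w p'`, a `CNm` at `β_(n+1)`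
(dense: given `w ≤ q_(n+1)` take `w' ≤_(β_n) w`, `W'_n w' p'`, use `glue β_n w' w`).
Let `r γ = q_n γ` for the `n` with `γ < β_n` (any), `r γ = ⊥` if there is no such `n`; `r ↾ β_n = q_n`.
CLAIM: if `w ≤_(β_n) q_n` and `W_n w p` (or `W'_n w p`) then `le β (glue β_n w r) p`.
Below `β_n` this is `CNm.le`.  For `γ ≥ sup β_n`, `γ < β`: `γ ∉ N`, so `p γ = ⊥` (`hsupp`).  For
`β_k ≤ γ < β_(k+1)`, `k ≥ n`: by `FL_of_dense` it is enough to work densely below; given `t ≤_γ glue β_n w r` there is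
`w1 ≤_(β_k) t` with `W'_k w1 p1`; unwinding the definitions there is a chain
`p1 ≤_β ... ≤_β p_n` with `W_n w1 p_n`, so `p_n = p` by uniqueness, so `p1 ≤_β p`; now
`glue β_k w1 t ≤_γ glue β_k w1 q_(k+1) ≤ p1 ≤ p`, which gives the comparison of `r γ = q_(k+1) γ` and `p γ`
at `glue β_k w1 t`.
`Gen N c β r`: `E ∈ N`, `E = E_n`, `q' ≤_β r`: there is `w ≤_(β_n) q'` with `W'_n w p'`,
`(p', pre c m) ∈ E_n`, `p' ∈ N`; `glue β_n w q' ≤_β q'` and `≤_β glue β_n w r ≤_β p'`.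
The last conclusion is the claim for `n = 0`.
-/

universe u

open Cardinal Set

namespace Pool.Agent.W_MP_315f31_lc

variable {K : Type u} [LinearOrder K] [OrderBot K] [WellFoundedLT K] {D : Dat K}

/-- Monotonicity of glueing in the upper part. -/
theorem lim_glue_mono {β : WithTop K} (h : OkB D β) {α : WithTop K} (hα : α ≤ β) {w r r' : Cond K}
    (hr : D.le β r r') (hw : D.le α w r) : D.le β (Cond.glue α w r) (Cond.glue α w r') := by
  rw [D.glue_le_iff h hα]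
  refine ⟨(D.glue_le_left h hα w r').2, ?_⟩
  intro γ h1 h2
  rw [Cond.glue_of_ge w r' h1]
  have h3 := (D.le_iff_FL β r r').1 hr γ h2
  exact D.FL_mono (h.mono_top h2.le) h3 (D.glue_le (h.mono_top h2.le) h1 hw)

/-- The increasing sequence of elements of the model, cofinal below `β`. -/
theorem lim_seq {β : WithTop K} {N : Set (Ob K)} (hN : N.Countable)
    (hlim : ∀ γ : K, Ob.k γ ∈ N → (γ : WithTop K) < β →
      ∃ γ' : K, Ob.k γ' ∈ N ∧ γ < γ' ∧ (γ' : WithTop K) < β)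
    {α : K} (hα : (α : WithTop K) < β) (hαN : Ob.k α ∈ N) :
    ∃ b : ℕ → K, b 0 = α ∧ StrictMono b ∧ (∀ n, Ob.k (b n) ∈ N) ∧
      (∀ n, (b n : WithTop K) < β) ∧
      ∀ γ : K, Ob.k γ ∈ N → (γ : WithTop K) < β → ∃ n, γ < b n := by
  have hc : {γ : K | Ob.k γ ∈ N ∧ (γ : WithTop K) < β}.Countable := by
    have hinj : Function.Injective (Ob.k : K → Ob K) := fun x y hxy => by
      cases hxy; rfl
    exact (hN.preimage hinj).mono (fun γ hγ => hγ.1)
  obtain ⟨e, he⟩ := hc.exists_eq_range ⟨α, hαN, hα⟩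
  have he' : ∀ n, Ob.k (e n) ∈ N ∧ (e n : WithTop K) < β := by
    intro n
    have : e n ∈ {γ : K | Ob.k γ ∈ N ∧ (γ : WithTop K) < β} := by rw [he]; exact ⟨n, rfl⟩
    exact this
  let T := {γ : K // Ob.k γ ∈ N ∧ (γ : WithTop K) < β}
  have hstep : ∀ (n : ℕ) (x : T), ∃ y : T, x.1 < y.1 ∧ e n < y.1 := by
    intro n x
    rcases le_total x.1 (e n) with h | h
    · obtain ⟨γ', h1, h2, h3⟩ := hlim (e n) (he' n).1 (he' n).2
      exact ⟨⟨γ', h1, h3⟩, lt_of_le_of_lt h h2, h2⟩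
    · obtain ⟨γ', h1, h2, h3⟩ := hlim x.1 x.2.1 x.2.2
      exact ⟨⟨γ', h1, h3⟩, h2, lt_of_le_of_lt h h2⟩
  choose f hf using hstep
  let b : ℕ → T := fun n => Nat.rec ⟨α, hαN, hα⟩ (fun n x => f n x) n
  refine ⟨fun n => (b n).1, rfl, strictMono_nat_of_lt_succ (fun n => (hf n (b n)).1),
    fun n => (b n).2.1, fun n => (b n).2.2, ?_⟩
  intro γ h1 h2
  have : γ ∈ Set.range e := by rw [← he]; exact ⟨h1, h2⟩
  obtain ⟨n, rfl⟩ := this
  exact ⟨n + 1, (hf n (b n)).2⟩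

/-- One step of the fusion. -/
theorem lim_step {β : WithTop K} (h : OkB D β) {N : Set (Ob K)} {c : ℕ → ℕ}
    (h1 : ∀ γ : K, Ob.k γ ∈ N → (γ : WithTop K) < β → ∀ E, Ob.e E ∈ N → ∀ p, Ob.c p ∈ N →
      Ob.e (D.Est γ β p E) ∈ N)
    (h2 : ∀ γ : K, Ob.k γ ∈ N → (γ : WithTop K) < β → ∀ E, Ob.e E ∈ N → ∀ p, Ob.c p ∈ N →
      ∀ u, Ob.c u ∈ N → ∀ s : List ℕ, (∃ p', (p', s) ∈ E ∧ D.le β p' p ∧ D.le γ u p') →
      ∃ p', Ob.c p' ∈ N ∧ (p', s) ∈ E ∧ D.le β p' p ∧ D.le γ u p')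
    {a b : K} (hab : a ≤ b) (hb : (b : WithTop K) < β) (haN : Ob.k a ∈ N)
    (hi : D.IterAt N a b) {E : Set (Cond K × List ℕ)} (hEN : Ob.e E ∈ N) (hE : D.DO β E)
    {q : Cond K} {W : Cond K → Cond K → Prop} (hq : D.Gen N c a q) (hW : D.CNm N a q W) :
    ∃ (W' : Cond K → Cond K → Prop) (q1 : Cond K) (W1 : Cond K → Cond K → Prop),
      D.CNm N a q W' ∧ (∀ w p', W' w p' → ∃ p n, W w p ∧ D.le β p' p ∧ (p', pre c n) ∈ E) ∧
      (∀ γ : K, γ < a → q1 γ = q γ) ∧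
      (∀ w p, D.le a w q → W' w p → D.le b (Cond.glue a w q1) p) ∧
      (∀ w p, W1 w p → W' w p) ∧ D.Gen N c b q1 ∧ D.CNm N b q1 W1 := by
  have ha : (a : WithTop K) < β := lt_of_le_of_lt (WithTop.coe_le_coe.2 hab) hb
  have hab' : (a : WithTop K) ≤ b := WithTop.coe_le_coe.2 hab
  obtain ⟨W', hW', hW'E⟩ := D.refine_step h ha.le hq hW hE (fun p hp => h1 a haN ha E hEN p hp)
    (fun p hp u hu s => h2 a haN ha E hEN p hp u hu s)
  obtain ⟨q1, hq1, hG, hL⟩ := hi c q hq W' hW'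
  have hokb := h.mono_top hb.le
  have hoka := h.mono_top ha.le
  have hqq : ∀ γ : K, (γ : WithTop K) < (a : WithTop K) → q1 γ = q γ := hq1
  refine ⟨W', q1, fun w p' => W' w p' ∧ D.le b w p', hW', hW'E,
    fun γ hγ => hq1 γ (WithTop.coe_lt_coe.2 hγ), hL, fun w p hw => hw.1, hG, ?_⟩
  constructor
  · rintro w w' p ⟨hw1, hw2⟩ hle
    exact ⟨hW'.mono w w' p hw1 (D.le_mono hab' hle), D.le_trans hokb hle hw2⟩
  · intro w hw
    have hwq : D.le a w q := (D.le_congr (fun γ _ => rfl) hqq).1 (D.le_mono hab' hw)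
    obtain ⟨w', p', hw', hp'⟩ := hW'.dense w hwq
    refine ⟨Cond.glue a w' w, p', D.glue_le hokb hab' hw', ?_, ?_⟩
    · exact hW'.mono _ _ _ hp' (D.glue_le_left hoka le_rfl w' w).1
    · exact D.le_trans hokb (lim_glue_mono hokb hab' hw hw')
        (hL w' p' (D.le_trans hoka hw' hwq) hp')
  · rintro w p p' ⟨hw1, -⟩ ⟨hw2, -⟩
    exact hW'.uniq w p p' hw1 hw2
  · rintro w p ⟨hw1, -⟩
    exact hW'.mem w p hw1
  · rintro w p ⟨-, hw2⟩
    exact hw2

theorem Dat.iter_lim_at {β : WithTop K} (h : OkB D β) {N : Set (Ob K)} (hN : N.Countable)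
    (hlim : ∀ γ : K, Ob.k γ ∈ N → (γ : WithTop K) < β →
      ∃ γ' : K, Ob.k γ' ∈ N ∧ γ < γ' ∧ (γ' : WithTop K) < β)
    (huniv : Ob.e (Set.univ : Set (Cond K × List ℕ)) ∈ N)
    (hsupp : ∀ p : Cond K, Ob.c p ∈ N → ∀ γ, p γ ≠ ⊥ → Ob.k γ ∈ N)
    (h1 : ∀ γ : K, Ob.k γ ∈ N → (γ : WithTop K) < β → ∀ E, Ob.e E ∈ N → ∀ p, Ob.c p ∈ N →
      Ob.e (D.Est γ β p E) ∈ N)
    (h2 : ∀ γ : K, Ob.k γ ∈ N → (γ : WithTop K) < β → ∀ E, Ob.e E ∈ N → ∀ p, Ob.c p ∈ N →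
      ∀ u, Ob.c u ∈ N → ∀ s : List ℕ, (∃ p', (p', s) ∈ E ∧ D.le β p' p ∧ D.le γ u p') →
      ∃ p', Ob.c p' ∈ N ∧ (p', s) ∈ E ∧ D.le β p' p ∧ D.le γ u p')
    {α : K} (hα : (α : WithTop K) < β) (hαN : Ob.k α ∈ N)
    (hi : ∀ γ γ' : K, Ob.k γ ∈ N → Ob.k γ' ∈ N → α ≤ γ → γ ≤ γ' → (γ' : WithTop K) < β →
      D.IterAt N γ γ') :
    D.IterAt N α β := by
  classical
  intro c q0 hq0 W0 hW0
  obtain ⟨b, hb0, hbm, hbN, hbβ, hbc⟩ := lim_seq hN hlim hα hαN
  -- the dense sets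
  have hEc : {E : Set (Cond K × List ℕ) | Ob.e E ∈ N ∧ D.DO β E}.Countable := by
    have hinj : Function.Injective (Ob.e : Set (Cond K × List ℕ) → Ob K) := fun x y hxy => by
      cases hxy; rfl
    exact (hN.preimage hinj).mono (fun E hE => hE.1)
  have hEne : {E : Set (Cond K × List ℕ) | Ob.e E ∈ N ∧ D.DO β E}.Nonempty := by
    refine ⟨Set.univ, huniv, ?_, ?_⟩
    · intro p s p' s' _ _ _
      exact Set.mem_univ _
    · intro p s
      exact ⟨p, s, D.le_refl h p, List.prefix_rfl, Set.mem_univ _⟩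
  obtain ⟨E, hE⟩ := hEc.exists_eq_range hEne
  have hE' : ∀ n, Ob.e (E n) ∈ N ∧ D.DO β (E n) := by
    intro n
    have : E n ∈ {E : Set (Cond K × List ℕ) | Ob.e E ∈ N ∧ D.DO β E} := by rw [hE]; exact ⟨n, rfl⟩
    exact this
  -- the sequence
  let T : ℕ → Type _ := fun n => {x : Cond K × (Cond K → Cond K → Prop) //
    D.Gen N c (b n) x.1 ∧ D.CNm N (b n) x.1 x.2}
  have hstep : ∀ (n : ℕ) (x : T n), ∃ (W' : Cond K → Cond K → Prop) (y : T (n + 1)),
      D.CNm N (b n) x.1.1 W' ∧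
      (∀ w p', W' w p' → ∃ p m, x.1.2 w p ∧ D.le β p' p ∧ (p', pre c m) ∈ E n) ∧
      (∀ γ : K, γ < b n → y.1.1 γ = x.1.1 γ) ∧
      (∀ w p, D.le (b n) w x.1.1 → W' w p → D.le (b (n + 1)) (Cond.glue (b n) w y.1.1) p) ∧
      (∀ w p, y.1.2 w p → W' w p) := by
    rintro n ⟨⟨q, W⟩, hq, hW⟩
    have hle : b n ≤ b (n + 1) := hbm.monotone (Nat.le_succ n)
    have hαb : α ≤ b n := by rw [← hb0]; exact hbm.monotone (Nat.zero_le n)
    obtain ⟨W', q1, W1, e1, e2, e3, e4, e5, e6, e7⟩ := lim_step h h1 h2 hle (hbβ (n + 1)) (hbN n)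
      (hi (b n) (b (n + 1)) (hbN n) (hbN (n + 1)) hαb hle (hbβ (n + 1))) (hE' n).1 (hE' n).2 hq hW
    exact ⟨W', ⟨(q1, W1), e6, e7⟩, e1, e2, e3, e4, e5⟩
  choose fW fy hf1 hf2 hf3 hf4 hf5 using hstep
  let x : ∀ n, T n := fun n => Nat.rec (motive := T) ⟨(q0, W0), by
    rw [hb0]; exact ⟨hq0, hW0⟩⟩ (fun n y => fy n y) n
  have hx0 : (x 0).1 = (q0, W0) := rfl
  have hxs : ∀ n, x (n + 1) = fy n (x n) := fun n => rfl
  let q : ℕ → Cond K := fun n => (x n).1.1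
  let W : ℕ → Cond K → Cond K → Prop := fun n => (x n).1.2
  let W' : ℕ → Cond K → Cond K → Prop := fun n => fW n (x n)
  have hG : ∀ n, D.Gen N c (b n) (q n) := fun n => (x n).2.1
  have hW : ∀ n, D.CNm N (b n) (q n) (W n) := fun n => (x n).2.2
  have hW' : ∀ n, D.CNm N (b n) (q n) (W' n) := fun n => hf1 n (x n)
  have hW'E : ∀ n w p', W' n w p' → ∃ p m, W n w p ∧ D.le β p' p ∧ (p', pre c m) ∈ E n :=
    fun n => hf2 n (x n)
  have hqs : ∀ n (γ : K), γ < b n → q (n + 1) γ = q n γ := fun n => hf3 n (x n)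
  have hL : ∀ n w p, D.le (b n) w (q n) → W' n w p →
      D.le (b (n + 1)) (Cond.glue (b n) w (q (n + 1))) p := fun n => hf4 n (x n)
  have hWW : ∀ n w p, W (n + 1) w p → W' n w p := fun n => hf5 n (x n)
  -- coherence
  have hcoh : ∀ m n (γ : K), m ≤ n → γ < b m → q n γ = q m γ := by
    intro m n γ hmn hγ
    induction n, hmn using Nat.le_induction with
    | base => rfl
    | succ n hn ih => rw [hqs n γ (hγ.trans_le (hbm.monotone hn)), ih]
  let r : Cond K := ⟨fun γ => if hγ : ∃ n, γ < b n then q (Nat.find hγ) γ else ⊥, by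
    refine (Set.countable_iUnion (fun n => (q n).2)).mono ?_
    intro γ hγ
    have h4 : (if hγ : ∃ n, γ < b n then q (Nat.find hγ) γ else ⊥) ≠ ⊥ := hγ
    by_cases hex : ∃ n, γ < b n
    · rw [dif_pos hex] at h4
      exact Set.mem_iUnion.2 ⟨_, h4⟩
    · rw [dif_neg hex] at h4
      exact absurd rfl h4⟩
  have hr : ∀ n (γ : K), γ < b n → r γ = q n γ := by
    intro n γ hγ
    have hex : ∃ n, γ < b n := ⟨n, hγ⟩
    have h3 : r γ = q (Nat.find hex) γ := by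
      change (if hγ : ∃ n, γ < b n then q (Nat.find hγ) γ else ⊥) = _
      rw [dif_pos hex]
    rw [h3, hcoh (Nat.find hex) n γ (Nat.find_min' hex hγ) (Nat.find_spec hex)]
  have hr' : ∀ n (γ : K), (γ : WithTop K) < (b n : WithTop K) → r γ = q n γ :=
    fun n γ hγ => hr n γ (WithTop.coe_lt_coe.1 hγ)
  have hokb : ∀ n, OkB D (b n) := fun n => h.mono_top (hbβ n).le
  have hbb : ∀ m n, m ≤ n → (b m : WithTop K) ≤ b n := fun m n hmn =>
    WithTop.coe_le_coe.2 (hbm.monotone hmn)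
  -- the claim
  have claim : ∀ (n : ℕ) (V : Cond K → Cond K → Prop), D.CNm N (b n) (q n) V →
      (∀ k, n ≤ k → ∀ w p1, W' k w p1 → ∃ p, V w p ∧ D.le β p1 p) →
      ∀ w p, D.le (b n) w (q n) → V w p → D.le β (Cond.glue (b n) w r) p := by
    intro n V hV hch w p hw hwp
    have hwr : D.le (b n) w r := (D.le_congr (fun γ _ => rfl) (fun γ hγ => hr' n γ hγ)).2 hw
    rw [D.glue_le_iff h (hbβ n).le]
    refine ⟨hV.le w p hwp, ?_⟩
    intro γ hγ1 hγ2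
    by_cases hex : ∃ k, γ < b k
    · -- `b k ≤ γ < b (k + 1)`
      have hf0 : Nat.find hex ≠ 0 := by
        intro h0
        have h3 := Nat.find_spec hex
        rw [h0] at h3
        exact absurd (lt_of_lt_of_le (WithTop.coe_lt_coe.2 h3) (hbb 0 n (Nat.zero_le n)))
          (not_lt.2 hγ1)
      obtain ⟨k, hk⟩ := Nat.exists_eq_succ_of_ne_zero hf0
      have hk1 : γ < b (k + 1) := by
        have h3 := Nat.find_spec hex
        rw [hk] at h3
        exact h3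
      have hk2 : b k ≤ γ := by
        have h3 := Nat.find_min hex (m := k) (by rw [hk]; exact Nat.lt_succ_self k)
        exact not_lt.1 h3
      have hkn : n ≤ k := by
        by_contra hcon
        push Not at hcon
        exact absurd (lt_of_lt_of_le (WithTop.coe_lt_coe.2 hk1) (hbb (k + 1) n hcon))
          (not_lt.2 hγ1)
      have hk2' : (b k : WithTop K) ≤ γ := WithTop.coe_le_coe.2 hk2
      have hokγ : OkB D (γ : WithTop K) := h.mono_top hγ2.le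
      apply D.FL_of_dense h hγ2
      intro t ht
      have hgr : D.le γ (Cond.glue (b n) w r) r := D.glue_le hokγ hγ1 hwr
      have htr : D.le γ t r := D.le_trans hokγ ht hgr
      have htq : D.le (b k) t (q k) :=
        (D.le_congr (fun γ _ => rfl) (fun γ hγ => hr' k γ hγ)).1 (D.le_mono hk2' htr)
      obtain ⟨w1, p1, hw1, hp1⟩ := (hW' k).dense t htq
      obtain ⟨p2, hp2, hp12⟩ := hch k hkn w1 p1 hp1
      have hw1w : D.le (b n) w1 w := by
        have h3 : D.le (b n) w1 t := D.le_mono (hbb n k hkn) hw1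
        have h4 : D.le (b n) t (Cond.glue (b n) w r) := D.le_mono hγ1 ht
        exact D.le_trans (hokb n) (D.le_trans (hokb n) h3 h4)
          (D.glue_le_left (hokb n) le_rfl w r).1
      have hpp : p2 = p := hV.uniq w1 p2 p hp2 (hV.mono w w1 p hwp hw1w)
      rw [hpp] at hp12
      have hw1q : D.le (b k) w1 (q k) := D.le_trans (hokb k) hw1 htq
      have hA : D.le (b (k + 1)) (Cond.glue (b k) w1 (q (k + 1))) p :=
        D.le_trans (hokb (k + 1)) (hL k w1 p1 hw1q hp1) (D.le_mono (hbβ (k + 1)).le hp12)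
      have hB := (D.le_iff_FL _ _ _).1 hA γ (WithTop.coe_lt_coe.2 hk1)
      rw [Cond.glue_of_ge w1 (q (k + 1)) hk2'] at hB
      refine ⟨Cond.glue (b k) w1 t, D.glue_le hokγ hk2' hw1, ?_⟩
      rw [hr (k + 1) γ hk1]
      refine D.FL_mono hokγ hB ?_
      refine lim_glue_mono hokγ hk2' ?_ hw1
      refine (D.le_congr (fun γ _ => rfl) (fun γ' hγ' => hr (k + 1) γ' ?_)).1 htr
      exact (WithTop.coe_lt_coe.1 hγ').trans hk1
    · have hγN : Ob.k γ ∉ N := fun h3 => hex (hbc γ h3 hγ2)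
      have hpγ : p γ = ⊥ := by
        by_contra h3
        exact hγN (hsupp p (hV.mem w p hwp) γ h3)
      rw [hpγ]
      exact D.FL_top h hγ2 _ _
  have chain : ∀ n k, n ≤ k → ∀ w p1, W' k w p1 → ∃ p, W' n w p ∧ D.le β p1 p := by
    intro n k hnk
    induction k, hnk using Nat.le_induction with
    | base => exact fun w p1 hp1 => ⟨p1, hp1, D.le_refl h p1⟩
    | succ k hk ih =>
      intro w p1 hp1
      obtain ⟨p, m, hp, hpp, -⟩ := hW'E (k + 1) w p1 hp1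
      obtain ⟨p', hp', hpp'⟩ := ih w p (hWW k w p hp)
      exact ⟨p', hp', D.le_trans h hpp hpp'⟩
  refine ⟨r, ?_, ?_, ?_⟩
  · intro γ hγ
    rw [hr 0 γ (by rw [hb0]; exact WithTop.coe_lt_coe.1 hγ)]
    rfl
  · intro E0 hE0 hDO q' hq'
    have hmem : E0 ∈ Set.range E := by rw [← hE]; exact ⟨hE0, hDO⟩
    obtain ⟨n, rfl⟩ := hmem
    have hq'q : D.le (b n) q' (q n) :=
      (D.le_congr (fun γ _ => rfl) (fun γ hγ => hr' n γ hγ)).1 (D.le_mono (hbβ n).le hq')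
    obtain ⟨w, p', hw, hp'⟩ := (hW' n).dense q' hq'q
    obtain ⟨p, m, -, -, hpm⟩ := hW'E n w p' hp'
    refine ⟨Cond.glue (b n) w q', D.glue_le h (hbβ n).le hw, p', m, hpm, (hW' n).mem w p' hp', ?_⟩
    exact D.le_trans h (lim_glue_mono h (hbβ n).le hq' hw)
      (claim n (W' n) (hW' n) (fun k hk => chain n k hk) w p' (D.le_trans (hokb n) hw hq'q) hp')
  · intro w p hw hwp
    have h3 := claim 0 (W 0) (hW 0) (fun k hk w1 p1 hp1 => by
      obtain ⟨p2, hp2, hp12⟩ := chain 0 k hk w1 p1 hp1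
      obtain ⟨p3, m, hp3, hp23, -⟩ := hW'E 0 w1 p2 hp2
      exact ⟨p3, hp3, D.le_trans h hp12 hp23⟩) w p (by rw [hb0]; exact hw) hwp
    rw [hb0] at h3
    exact h3

end Pool.Agent.W_MP_315f31_lc
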