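import Pool.Agent.W_MP_315f31_lc.IterSucc
import Pool.Agent.W_MP_315f31_lc.IterLim

/-!
# MP_315f31_lc : the iteration lemma

`iter`: for club many `N` all the closure properties used in `iter_succ_at` and `iter_lim_at` hold for all
`γ ∈ N` (`IsClub.diag`, `IsClub.all` over lists of natural numbers, `IsClub.fn`, `IsClub.rel`), goodness
holds for all `γ ∈ N`, `γ < β`, `N` is closed under `succ` and predecessors, `Ob.k ⊥ ∈ N`.  Then
`∀ α ≤ β', IterAt N α β'` for all `β' ∈ N ∪ {β}`, `β' ≤ β`, by induction on `β'` (`α = β'` is direct: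
take `r = q`).

`exists_gen`: take `α = ⊥`, `q = one`, `W w p := p = p0`.
-/

universe u

open Cardinal Set

namespace Pool.Agent.W_MP_315f31_lc

variable {K : Type u} [LinearOrder K] [OrderBot K] [WellFoundedLT K] [SuccOrder K] [NoMaxOrder K]
  {D : Dat K}

theorem Dat.iterAt_refl {β : WithTop K} (h : OkB D β) (N : Set (Ob K)) : D.IterAt N β β := by
  intro c q hq W hW
  refine ⟨q, fun _ _ => rfl, hq, fun w p _ hp => ?_⟩
  rw [D.le_congr (p' := w) (q' := p) (fun γ hγ => Cond.glue_of_lt w q hγ) (fun _ _ => rfl)]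
  exact hW.le w p hp

/-- closure properties of `N` with respect to the final length `β` -/
structure Dat.ClAt (D : Dat K) (β : WithTop K) (N : Set (Ob K)) : Prop where
  est : ∀ γ : K, Ob.k γ ∈ N → ∀ E, Ob.e E ∈ N → ∀ p, Ob.c p ∈ N → Ob.e (D.Est γ β p E) ∈ N
  wit : ∀ γ : K, Ob.k γ ∈ N → ∀ E, Ob.e E ∈ N → ∀ p, Ob.c p ∈ N →
      ∀ u, Ob.c u ∈ N → ∀ s : List ℕ, (∃ p', (p', s) ∈ E ∧ D.le β p' p ∧ D.le γ u p') →
      ∃ p', Ob.c p' ∈ N ∧ (p', s) ∈ E ∧ D.le β p' p ∧ D.le γ u p'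

/-- the function used for `ClAt.est` -/
def Dat.estFn (D : Dat K) (β : WithTop K) : Ob K → Ob K → Ob K → Ob K
  | Ob.k γ, Ob.e E, Ob.c p => Ob.e (D.Est γ β p E)
  | x, _, _ => x

/-- the relation used for `ClAt.wit` -/
def Dat.witRel (D : Dat K) (β : WithTop K) (s : List ℕ) (x y z w v : Ob K) : Prop :=
  ∃ (γ : K) (E : Set (Cond K × List ℕ)) (p u p' : Cond K), x = Ob.k γ ∧ y = Ob.e E ∧ z = Ob.c p ∧
    w = Ob.c u ∧ v = Ob.c p' ∧ (p', s) ∈ E ∧ D.le β p' p ∧ D.le γ u p'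

theorem Dat.clAt_club (D : Dat K) (β : WithTop K) : IsClub {N : Set (Ob K) | D.ClAt β N} := by
  have h1 := IsClub.fn3 (D.estFn β)
  have h2 : IsClub {N : Set (Ob K) | ∀ s : List ℕ, N ∈ {N : Set (Ob K) | ∀ x ∈ N, ∀ y ∈ N, ∀ z ∈ N,
      ∀ w ∈ N, (∃ v, D.witRel β s x y z w v) → ∃ v ∈ N, D.witRel β s x y z w v}} :=
    IsClub.all fun s => IsClub.rel4 (D.witRel β s)
  refine (h1.inter h2).mono ?_
  rintro N ⟨hN1, hN2⟩
  constructor
  · intro γ hγ E hE p hp
    exact hN1 _ hγ _ hE _ hp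
  · intro γ hγ E hE p hp u hu s hs
    obtain ⟨p', h3, h4, h5⟩ := hs
    obtain ⟨v, hv, γ', E', q, u', q', e1, e2, e3, e4, e5, h6, h7, h8⟩ := hN2 s _ hγ _ hE _ hp _ hu
      ⟨Ob.c p', γ, E, p, u, p', rfl, rfl, rfl, rfl, rfl, h3, h4, h5⟩
    cases e1
    cases e2
    cases e3
    cases e4
    cases e5
    exact ⟨q', hv, h6, h7, h8⟩

/-- all closure properties of `N` used in the iteration lemma -/
structure Dat.ClAll (D : Dat K) (β : WithTop K) (N : Set (Ob K)) : Prop where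
  ctbl : N.Countable
  nmem : ∀ γ : K, Ob.k γ ∈ N → (γ : WithTop K) < β → D.NameMem N γ
  good : ∀ γ : K, Ob.k γ ∈ N → (γ : WithTop K) < β → ∀ c q, D.Gen N c γ q → ∀ x, Ob.k x ∈ N →
      ∃ a, D.Below γ q a x ∧ D.Gen N c (Order.succ γ : K) (Cond.snoc γ q a)
  supp : ∀ p : Cond K, Ob.c p ∈ N → ∀ γ, p γ ≠ ⊥ → Ob.k γ ∈ N ∧ Ob.k (p γ) ∈ N
  bot : Ob.k ⊥ ∈ N
  uni : Ob.e (Set.univ : Set (Cond K × List ℕ)) ∈ N
  succ : ∀ γ : K, Ob.k γ ∈ N → Ob.k (Order.succ γ) ∈ N
  pred : ∀ γ : K, Ob.k (Order.succ γ) ∈ N → Ob.k γ ∈ N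
  cl : ∀ γ : K, Ob.k γ ∈ N → D.ClAt γ N
  clβ : D.ClAt β N

theorem Dat.clAll_club {β : WithTop K} (h : OkB D β)
    (hg : ∀ γ : K, (γ : WithTop K) < β → D.Good γ) :
    IsClub {N : Set (Ob K) | D.ClAll β N} := by
  classical
  have h2 : IsClub {N : Set (Ob K) | ∀ z ∈ N,
      N ∈ {N : Set (Ob K) | ∀ γ : K, z = Ob.k γ → (γ : WithTop K) < β → D.NameMem N γ}} := by
    apply IsClub.diag
    intro z
    by_cases hz : ∃ γ : K, z = Ob.k γ ∧ (γ : WithTop K) < β
    · obtain ⟨γ, rfl, hγ⟩ := hz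
      refine (Dat.name_mem γ (h.mono_top hγ.le)).mono ?_
      intro N hN γ' hγ' _
      cases hγ'
      exact hN
    · refine IsClub.univ.mono ?_
      intro N _ γ' h1 h2
      exact absurd ⟨γ', h1, h2⟩ hz
  have h3 : IsClub {N : Set (Ob K) | ∀ z ∈ N,
      N ∈ {N : Set (Ob K) | ∀ γ : K, z = Ob.k γ → (γ : WithTop K) < β → ∀ c q, D.Gen N c γ q →
        ∀ x, Ob.k x ∈ N →
        ∃ a, D.Below γ q a x ∧ D.Gen N c (Order.succ γ : K) (Cond.snoc γ q a)}} := by
    apply IsClub.diag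
    intro z
    by_cases hz : ∃ γ : K, z = Ob.k γ ∧ (γ : WithTop K) < β
    · obtain ⟨γ, rfl, hγ⟩ := hz
      refine (hg γ hγ).mono ?_
      intro N hN γ' hγ' _
      cases hγ'
      exact hN
    · refine IsClub.univ.mono ?_
      intro N _ γ' h1 h2
      exact absurd ⟨γ', h1, h2⟩ hz
  have h4 : IsClub {N : Set (Ob K) | ∀ z ∈ N,
      N ∈ {N : Set (Ob K) | ∀ γ : K, z = Ob.k γ → D.ClAt γ N}} := by
    apply IsClub.diag
    intro z
    by_cases hz : ∃ γ : K, z = Ob.k γ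
    · obtain ⟨γ, rfl⟩ := hz
      refine (D.clAt_club γ).mono ?_
      intro N hN γ' hγ'
      cases hγ'
      exact hN
    · refine IsClub.univ.mono ?_
      intro N _ γ' h1
      exact absurd ⟨γ', h1⟩ hz
  let fs : Ob K → Ob K := fun x => match x with
    | Ob.k γ => Ob.k (Order.succ γ)
    | x => x
  have h5 : IsClub {N : Set (Ob K) | ∀ z ∈ N, fs z ∈ N} := IsClub.fn fs
  have h6 := IsClub.rel (fun x y : Ob K => ∃ γ : K, x = Ob.k (Order.succ γ) ∧ y = Ob.k γ)
  refine ((((((((IsClub.ctbl.inter h2).inter h3).inter supp_mem).inter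
    (IsClub.mem (Ob.k ⊥))).inter (IsClub.mem (Ob.e (Set.univ : Set (Cond K × List ℕ))))).inter
    h5).inter h6).inter (h4.inter (D.clAt_club β))).mono ?_
  rintro N ⟨⟨⟨⟨⟨⟨⟨⟨a1, a2⟩, a3⟩, a4⟩, a5⟩, a6⟩, a7⟩, a8⟩, a9, a10⟩
  exact
    { ctbl := a1
      nmem := fun γ h1 h2 => a2 _ h1 γ rfl h2
      good := fun γ h1 h2 => a3 _ h1 γ rfl h2
      supp := a4
      bot := a5
      uni := a6
      succ := fun γ h1 => a7 _ h1
      pred := by
        intro γ h1
        obtain ⟨y, hy, γ', e1, e2⟩ := a8 _ h1 ⟨Ob.k γ, γ, rfl, rfl⟩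
        have e3 : Order.succ γ = Order.succ γ' := by
          injection e1
        have e4 : γ = γ' := Order.succ_injective e3
        rw [e4, ← e2]
        exact hy
      cl := fun γ h1 => a9 _ h1 γ rfl
      clβ := a10 }

/-- the limit step -/
theorem Dat.iter_aux_lim {β β' : WithTop K} (h : OkB D β) {N : Set (Ob K)} (hN : D.ClAll β N)
    (hβ : β' ≤ β) (hcl : D.ClAt β' N)
    (hlim : ∀ γ : K, Ob.k γ ∈ N → (γ : WithTop K) < β' →
      ∃ γ' : K, Ob.k γ' ∈ N ∧ γ < γ' ∧ (γ' : WithTop K) < β')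
    (ih : ∀ β'' : WithTop K, β'' < β' → MemB N β'' → ∀ α : WithTop K, α ≤ β'' → MemB N α →
      D.IterAt N α β'')
    {α : K} (hα : (α : WithTop K) < β') (hαN : Ob.k α ∈ N) : D.IterAt N α β' := by
  refine Dat.iter_lim_at (h.mono_top hβ) hN.ctbl hlim hN.uni (fun p hp γ hγ => (hN.supp p hp γ hγ).1)
    (fun γ hγ _ E hE p hp => hcl.est γ hγ E hE p hp)
    (fun γ hγ _ E hE p hp u hu s hs => hcl.wit γ hγ E hE p hp u hu s hs) hα hαN ?_
  intro γ γ' hγ hγ' _ h2 h3
  exact ih γ' h3 hγ' γ (by exact_mod_cast h2) hγ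

theorem Dat.iter_aux {β : WithTop K} (h : OkB D β) {N : Set (Ob K)} (hN : D.ClAll β N) :
    ∀ β' : WithTop K, β' ≤ β → MemB N β' → ∀ α : WithTop K, α ≤ β' → MemB N α →
      D.IterAt N α β' := by
  intro β'
  induction β' using (wellFounded_lt (α := WithTop K)).induction with
  | _ β' ih =>
    intro hβ hmem α hα hαm
    rcases hα.eq_or_lt with rfl | hlt
    · exact Dat.iterAt_refl (h.mono_top hβ) N
    · obtain ⟨a, rfl⟩ : ∃ a : K, α = a := by
        cases α with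
        | top => exact absurd hlt (not_lt.2 le_top)
        | coe a => exact ⟨a, rfl⟩
      have haN : Ob.k a ∈ N := hαm
      have ih' : ∀ β'' : WithTop K, β'' < β' → MemB N β'' → ∀ α : WithTop K, α ≤ β'' → MemB N α →
          D.IterAt N α β'' := fun β'' h1 h2 α h3 h4 => ih β'' h1 (h1.le.trans hβ) h2 α h3 h4
      cases β' with
      | top =>
        have hb : β = ⊤ := top_le_iff.1 hβ
        refine Dat.iter_aux_lim h hN hβ (by rw [← hb]; exact hN.clβ) ?_ ih' hlt haN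
        intro γ hγ _
        exact ⟨Order.succ γ, hN.succ γ hγ, Order.lt_succ γ, WithTop.coe_lt_top _⟩
      | coe b =>
        have hbN : Ob.k b ∈ N := hmem
        by_cases hs : ∃ γ : K, b = Order.succ γ
        · obtain ⟨γ, rfl⟩ := hs
          have hγN : Ob.k γ ∈ N := hN.pred γ hbN
          have h1 : (γ : WithTop K) < (Order.succ γ : K) := by exact_mod_cast Order.lt_succ γ
          have h2 : (γ : WithTop K) < β := h1.trans_le hβ
          have h3 : a ≤ γ := by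
            have : a < Order.succ γ := by exact_mod_cast hlt
            exact Order.lt_succ_iff.1 this
          refine Dat.iter_succ_at (h.mono_top hβ) (hN.nmem γ hγN h2) ?_ (hN.good γ hγN h2)
            (by exact_mod_cast h3) (ih' γ h1 hγN a (by exact_mod_cast h3) haN)
          intro p hp
          by_cases h4 : p γ = ⊥
          · rw [h4]
            exact hN.bot
          · exact (hN.supp p hp γ h4).2
        · refine Dat.iter_aux_lim h hN hβ (hN.cl b hbN) ?_ ih' hlt haN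
          intro γ hγ hγb
          refine ⟨Order.succ γ, hN.succ γ hγ, Order.lt_succ γ, ?_⟩
          have h1 : γ < b := by exact_mod_cast hγb
          have h2 : Order.succ γ ≤ b := Order.succ_le_of_lt h1
          have h3 : Order.succ γ ≠ b := fun h4 => hs ⟨γ, h4.symm⟩
          exact_mod_cast lt_of_le_of_ne h2 h3

theorem Dat.iter {β : WithTop K} (h : OkB D β)
    (hg : ∀ γ : K, (γ : WithTop K) < β → D.Good γ) :
    IsClub {N : Set (Ob K) | MemB N β → ∀ α : WithTop K, α ≤ β → MemB N α → D.IterAt N α β} := by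
  refine (Dat.clAll_club h hg).mono ?_
  intro N hN hm α hα hαm
  exact Dat.iter_aux h hN β (_root_.le_refl β) hm α hα hαm

/-- `P_β` is proper, and `V ∩ ω^ω` is not meager in the extension -/
theorem Dat.exists_gen {β : WithTop K} (h : OkB D β)
    (hg : ∀ γ : K, (γ : WithTop K) < β → D.Good γ) :
    IsClub {N : Set (Ob K) | MemB N β → ∀ p, Ob.c p ∈ N → ∀ c, D.Coh N c →
      ∃ r, D.le β r p ∧ D.Gen N c β r} := by
  have hb : ((⊥ : K) : WithTop K) ≤ β := by
    cases β with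
    | top => exact le_top
    | coe b => exact_mod_cast bot_le
  refine ((Dat.iter h hg).inter (IsClub.mem (Ob.k ⊥))).mono ?_
  rintro N ⟨hN, hbot⟩ hm p hp c hc
  have hW : D.CNm N ((⊥ : K) : WithTop K) Cond.one (fun _ p' => p' = p) :=
    { mono := fun _ _ _ h1 _ => h1
      dense := fun w _ => ⟨w, p, D.le_bot _ _, rfl⟩
      uniq := fun _ _ _ h1 h2 => h1.trans h2.symm
      mem := fun _ p' h1 => by rw [h1]; exact hp
      le := fun _ _ _ => D.le_bot _ _ }
  obtain ⟨r, -, h2, h3⟩ := hN hm ((⊥ : K) : WithTop K) hb hbot c Cond.one (D.Gen_bot hc _) _ hW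
  refine ⟨r, ?_, h2⟩
  have h4 := h3 Cond.one p (D.le_bot _ _) rfl
  have h5 : Cond.glue ((⊥ : K) : WithTop K) Cond.one r = r := by
    apply Cond.ext
    intro γ
    apply Cond.glue_of_ge
    exact_mod_cast bot_le
  rwa [h5] at h4

/-- the form in which it is used: below every condition, for every countable set `A` of objects and every
club -/
theorem Dat.exists_gen' {β : WithTop K} (h : OkB D β)
    (hg : ∀ γ : K, (γ : WithTop K) < β → D.Good γ) {S : Set (Set (Ob K))} (hS : IsClub S)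
    {A : Set (Ob K)} (hA : A.Countable) (p : Cond K) :
    ∃ N ∈ S, N.Countable ∧ A ⊆ N ∧ Ob.c p ∈ N ∧ ∃ c r, D.Coh N c ∧ D.le β r p ∧ D.Gen N c β r := by
  obtain ⟨B, hB, hB'⟩ : ∃ B : Set (Ob K), B.Countable ∧ ∀ N, B ⊆ N → MemB N β := by
    cases β with
    | top => exact ⟨∅, countable_empty, fun _ _ => trivial⟩
    | coe b => exact ⟨{Ob.k b}, countable_singleton _, fun N hN => hN rfl⟩
  obtain ⟨N, ⟨⟨h1, h2⟩, h3⟩, h4, h5⟩ := ((hS.inter (Dat.exists_gen h hg)).inter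
    D.exists_coh).exists_mem ((hA.union hB).union (countable_singleton (Ob.c p)))
  obtain ⟨-, -, c, hc⟩ := h3
  have hp : Ob.c p ∈ N := h5 (Or.inr rfl)
  obtain ⟨r, h6, h7⟩ := h2 (hB' N fun x hx => h5 (Or.inl (Or.inr hx))) p hp c hc
  exact ⟨N, h1, h4, fun x hx => h5 (Or.inl (Or.inl hx)), hp, c, r, hc, h6, h7⟩

end Pool.Agent.W_MP_315f31_lc
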