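import Pool.Agent.W_MP_315f31_lc.Small
import Pool.Agent.W_MP_315f31_lc.Club

/-!
# MP_315f31_lc : the iteration lemma, preparations

`exists_coh`: for club many `N` (`N` countable, `Cond.one ∈ N`) the dense open sets of `P_⊥ × List ℕ` in
`N` are of the form `univ × E'` with `E'` dense open in `List ℕ` (`le_bot`); meet all of them one after the other.

`supp_mem`: the support of `p ∈ N` is countable, enumerate it by a function `K`-valued function of `p` and `n`.
-/

universe u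

open Cardinal Set

namespace Pool.Agent.W_MP_315f31_lc

variable {K : Type u} [LinearOrder K] [OrderBot K] [WellFoundedLT K] {D : Dat K} {β : WithTop K}

theorem Dat.Gen_mono (h : OkB D β) {N : Set (Ob K)} {c : ℕ → ℕ} {p q : Cond K}
    (hq : D.Gen N c β p) (hp : D.le β q p) : D.Gen N c β q := by
  intro E hE hdo q' hq'
  exact hq E hE hdo q' (D.le_trans h hq' hp)

theorem Dat.Gen_congr (D : Dat K) {N : Set (Ob K)} {c : ℕ → ℕ} {β : WithTop K} {p q : Cond K}
    (hpq : ∀ γ : K, (γ : WithTop K) < β → p γ = q γ) : D.Gen N c β p ↔ D.Gen N c β q := by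
  have h1 : ∀ q', D.le β q' p ↔ D.le β q' q := fun q' =>
    D.le_congr (fun _ _ => rfl) hpq
  constructor
  · intro h2 E hE hdo q' hq'
    exact h2 E hE hdo q' ((h1 q').2 hq')
  · intro h2 E hE hdo q' hq'
    exact h2 E hE hdo q' ((h1 q').1 hq')

theorem pre_succ (c : ℕ → ℕ) (n : ℕ) : pre c (n + 1) = pre c n ++ [c n] := by
  simp [pre, List.range_succ]

theorem pre_prefix (c : ℕ → ℕ) {m n : ℕ} (h : m ≤ n) : pre c m <+: pre c n := by
  induction n, h using Nat.le_induction with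
  | base => exact List.prefix_refl _
  | succ n _ ih =>
    rw [pre_succ]
    exact ih.trans (List.prefix_append _ _)

/-- a subset of `Cond K` which is dense below `q` and belongs to `N` is met -/
theorem Dat.Gen_dense (h : OkB D β) {N : Set (Ob K)} {c : ℕ → ℕ} {q : Cond K}
    (hq : D.Gen N c β q) {S : Set (Cond K)}
    (hS : Ob.e ({x | x.1 ∈ S ∨ ∀ s ∈ S, D.Inc β x.1 s}) ∈ N)
    (mono : ∀ p p', p ∈ S → D.le β p' p → p' ∈ S)
    (dense : ∀ q', D.le β q' q → ∃ r, D.le β r q' ∧ r ∈ S) :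
    ∀ q', D.le β q' q → ∃ r p, D.le β r q' ∧ p ∈ S ∧ Ob.c p ∈ N ∧ D.le β r p := by
  intro q' hq'
  have hdo : D.DO β {x : Cond K × List ℕ | x.1 ∈ S ∨ ∀ s ∈ S, D.Inc β x.1 s} := by
    constructor
    · rintro p s p' s' (hp | hp) hp' _
      · exact Or.inl (mono p p' hp hp')
      · exact Or.inr fun t ht => D.Inc_mono h (hp t ht) hp'
    · intro p s
      by_cases hc : ∀ t ∈ S, D.Inc β p t
      · exact ⟨p, s, D.le_refl h p, List.prefix_refl _, Or.inr hc⟩
      · push Not at hc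
        obtain ⟨t, ht, hi⟩ := hc
        obtain ⟨w, hw1, hw2⟩ := not_not.1 hi
        exact ⟨w, s, hw1, List.prefix_refl _, Or.inl (mono t w ht hw2)⟩
  obtain ⟨r, hr, p, n, hp, hpN, hrp⟩ := hq _ hS hdo q' hq'
  rcases hp with hp | hp
  · exact ⟨r, p, hr, hp, hpN, hrp⟩
  · exfalso
    obtain ⟨r', hr', hrS⟩ := dense r (D.le_trans h hr hq')
    exact hp r' hrS ⟨r', D.le_trans h hr' hrp, D.le_refl h r'⟩

/-- for club many `N`: Cohen reals over `N` exist -/
theorem Dat.exists_coh (D : Dat K) :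
    IsClub {N : Set (Ob K) | N.Countable ∧ Ob.c Cond.one ∈ N ∧ ∃ c, D.Coh N c} := by
  refine (IsClub.inter IsClub.ctbl (IsClub.mem (Ob.c Cond.one))).mono ?_
  rintro N ⟨hN, hone⟩
  have hN' : N.Countable := hN
  refine ⟨hN', hone, ?_⟩
  -- the dense open sets in `N`
  set T : Set (Set (Cond K × List ℕ)) :=
    {E | Ob.e E ∈ N ∧ D.DO ((⊥ : K) : WithTop K) E} with hT
  have hTc : T.Countable := by
    have hinj : Function.Injective (fun E : Set (Cond K × List ℕ) => (Ob.e E : Ob K)) := by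
      intro E F hEF
      simpa using hEF
    have : T ⊆ (fun E : Set (Cond K × List ℕ) => (Ob.e E : Ob K)) ⁻¹' N := fun E hE => hE.1
    exact (hN'.preimage hinj).mono this
  have hext : ∀ E ∈ T, ∀ s : List ℕ, ∃ s', s <+: s' ∧ (Cond.one, s') ∈ E := by
    intro E hE s
    obtain ⟨p', s', _, hs, hm⟩ := hE.2.2 Cond.one s
    exact ⟨s', hs, hE.2.1 _ _ _ _ hm (D.le_bot _ _) (List.prefix_refl _)⟩
  -- an enumeration (with a default value)
  rcases T.eq_empty_or_nonempty with h0 | h0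
  · refine ⟨fun _ => 0, ?_⟩
    intro E hE hdo
    have : E ∈ T := ⟨hE, hdo⟩
    rw [h0] at this
    exact absurd this (notMem_empty _)
  obtain ⟨f, hf⟩ := hTc.exists_eq_range h0
  have hfT : ∀ n, f n ∈ T := fun n => by rw [hf]; exact mem_range_self n
  have hstep : ∀ (n : ℕ) (s : List ℕ), ∃ s', s <+: s' ∧ s.length < s'.length ∧
      (Cond.one, s') ∈ f n := by
    intro n s
    obtain ⟨s', hs', hm⟩ := hext _ (hfT n) (s ++ [0])
    refine ⟨s', (List.prefix_append _ _).trans hs', ?_, hm⟩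
    have := hs'.length_le
    simp at this
    omega
  choose g hg1 hg2 hg3 using hstep
  let sq : ℕ → List ℕ := fun n => Nat.rec [] (fun n s => g n s) n
  have hsq : ∀ n, sq (n + 1) = g n (sq n) := fun n => rfl
  have hpre : ∀ m n, m ≤ n → sq m <+: sq n := by
    intro m n hmn
    induction n, hmn using Nat.le_induction with
    | base => exact List.prefix_refl _
    | succ n _ ih =>
      rw [hsq]
      exact ih.trans (hg1 _ _)
  have hlen : ∀ n, n ≤ (sq n).length := by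
    intro n
    induction n with
    | zero => exact Nat.zero_le _
    | succ n ih =>
      rw [hsq]
      have := hg2 n (sq n)
      omega
  let c : ℕ → ℕ := fun i => (sq (i + 1)).getD i 0
  have hc : ∀ n i, i < (sq n).length → (sq n).getD i 0 = c i := by
    intro n i hi
    have hi' : i < (sq (i + 1)).length := by
      have := hlen (i + 1)
      omega
    have key : ∀ a b : List ℕ, a <+: b → i < a.length → a.getD i 0 = b.getD i 0 := by
      intro a b hab hia
      obtain ⟨t, rfl⟩ := hab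
      rw [List.getD_append _ _ _ _ hia]
    rcases le_total n (i + 1) with h1 | h1
    · exact key _ _ (hpre _ _ h1) hi
    · exact (key _ _ (hpre _ _ h1) hi').symm
  have hcp : ∀ n, pre c (sq n).length = sq n := by
    intro n
    apply List.ext_getElem
    · simp [pre]
    · intro i h1 h2
      have h3 := hc n i h2
      rw [List.getD_eq_getElem _ _ h2] at h3
      simp [pre, h3]
  refine ⟨c, ?_⟩
  intro E hE hdo
  have hET : E ∈ T := ⟨hE, hdo⟩
  rw [hf] at hET
  obtain ⟨n, rfl⟩ := hET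
  have h5 : (Cond.one, pre c (sq (n + 1)).length) ∈ f n := by
    have h6 := hg3 n (sq n)
    rw [← hsq n] at h6
    exact (congrArg (fun l => ((Cond.one : Cond K), l) ∈ f n) (hcp (n + 1))).mpr h6
  exact ⟨Cond.one, (sq (n + 1)).length, h5, hone⟩

theorem Dat.Gen_bot (D : Dat K) {N : Set (Ob K)} {c : ℕ → ℕ} (h : D.Coh N c) (q : Cond K) :
    D.Gen N c ((⊥ : K) : WithTop K) q := by
  intro E hE hdo q' _
  obtain ⟨p, n, hp, hpN⟩ := h E hE hdo
  exact ⟨q', D.le_bot _ _, p, n, hp, hpN, D.le_bot _ _⟩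

/-- for club many `N`: supports and values of the conditions in `N` are in `N` -/
theorem supp_mem : IsClub {N : Set (Ob K) | ∀ p : Cond K, Ob.c p ∈ N → ∀ γ, p γ ≠ ⊥ →
    Ob.k γ ∈ N ∧ Ob.k (p γ) ∈ N} := by
  have hen : ∀ p : Cond K, ∃ f : ℕ → K, ∀ γ, p γ ≠ ⊥ → ∃ n, f n = γ := by
    intro p
    rcases ({γ | p γ ≠ ⊥} : Set K).eq_empty_or_nonempty with h0 | h0
    · refine ⟨fun _ => ⊥, ?_⟩
      intro γ hγ
      have : γ ∈ ({γ | p γ ≠ ⊥} : Set K) := hγ
      rw [h0] at this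
      exact absurd this (notMem_empty _)
    · obtain ⟨f, hf⟩ := p.2.exists_eq_range h0
      refine ⟨f, ?_⟩
      intro γ hγ
      have : γ ∈ range f := by
        rw [← hf]
        exact hγ
      exact this
  choose f hf using hen
  let g1 : ℕ → Ob K → Ob K := fun n z => match z with
    | Ob.c p => Ob.k (f p n)
    | z => z
  let g2 : ℕ → Ob K → Ob K := fun n z => match z with
    | Ob.c p => Ob.k (p (f p n))
    | z => z
  have h1 : IsClub {N : Set (Ob K) | ∀ n, ∀ z ∈ N, g1 n z ∈ N} := IsClub.all fun n => IsClub.fn (g1 n)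
  have h2 : IsClub {N : Set (Ob K) | ∀ n, ∀ z ∈ N, g2 n z ∈ N} := IsClub.all fun n => IsClub.fn (g2 n)
  refine (IsClub.inter h1 h2).mono ?_
  rintro N ⟨hN1, hN2⟩ p hp γ hγ
  obtain ⟨n, hn⟩ := hf p γ hγ
  have e1 := hN1 n _ hp
  have e2 := hN2 n _ hp
  change Ob.k (f p n) ∈ N at e1
  change Ob.k (p (f p n)) ∈ N at e2
  rw [hn] at e1 e2
  exact ⟨e1, e2⟩

/-- the set used at the limit step of the iteration lemma -/
def Dat.Est (D : Dat K) (α β : WithTop K) (p : Cond K) (E : Set (Cond K × List ℕ)) :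
    Set (Cond K × List ℕ) :=
  {x | (∃ p', (p', x.2) ∈ E ∧ D.le β p' p ∧ D.le α x.1 p') ∨ D.Inc α x.1 p}

theorem Dat.Est_DO (h : OkB D β) {α : WithTop K} (hα : α ≤ β) (p : Cond K)
    {E : Set (Cond K × List ℕ)} (hE : D.DO β E) : D.DO α (D.Est α β p E) := by
  have hA := h.mono_top hα
  constructor
  · rintro w s w' s' (⟨p', hp', hp2, hp3⟩ | hi) hw hs
    · exact Or.inl ⟨p', hE.1 _ _ _ _ hp' (D.le_refl h p') hs, hp2, D.le_trans hA hw hp3⟩
    · exact Or.inr (D.Inc_mono hA hi hw)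
  · intro w s
    by_cases hi : D.Inc α w p
    · exact ⟨w, s, D.le_refl hA w, List.prefix_refl _, Or.inr hi⟩
    · obtain ⟨u, hu1, hu2⟩ := not_not.1 hi
      have hg : D.le β (Cond.glue α u p) p := D.glue_le h hα hu2
      obtain ⟨p', s', hp', hs', hm⟩ := hE.2 (Cond.glue α u p) s
      refine ⟨p', s', ?_, hs', Or.inl ⟨p', hm, D.le_trans h hp' hg, D.le_refl hA p'⟩⟩
      exact D.le_trans hA (D.le_trans hA (D.le_mono hα hp') (D.glue_le_left h hα u p).1) hu1

/-- One step of the construction at limits (also used with a single set `E`): refine the name `W` into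
`E`. -/
theorem Dat.refine_step (h : OkB D β) {α : WithTop K} (hα : α ≤ β) {N : Set (Ob K)} {c : ℕ → ℕ}
    {q : Cond K} (hq : D.Gen N c α q) {W : Cond K → Cond K → Prop} (hW : D.CNm N α q W)
    {E : Set (Cond K × List ℕ)} (hE : D.DO β E)
    (h1 : ∀ p, Ob.c p ∈ N → Ob.e (D.Est α β p E) ∈ N)
    (h2 : ∀ p, Ob.c p ∈ N → ∀ u, Ob.c u ∈ N → ∀ s : List ℕ,
      (∃ p', (p', s) ∈ E ∧ D.le β p' p ∧ D.le α u p') →
      ∃ p', Ob.c p' ∈ N ∧ (p', s) ∈ E ∧ D.le β p' p ∧ D.le α u p') :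
    ∃ W' : Cond K → Cond K → Prop, D.CNm N α q W' ∧
      ∀ w p', W' w p' → ∃ p n, W w p ∧ D.le β p' p ∧ (p', pre c n) ∈ E := by
  have hA := h.mono_top hα
  obtain ⟨W', hsub, hmono, hdense, huniq⟩ := D.uniformize hA q
    (fun w p' => ∃ p n, W w p ∧ D.le β p' p ∧ (p', pre c n) ∈ E ∧ Ob.c p' ∈ N ∧ D.le α w p')
    (by
      rintro w w' p' ⟨p, n, h3, h4, h5, h6, h7⟩ hw
      exact ⟨p, n, hW.mono w w' p h3 hw, h4, h5, h6, D.le_trans hA hw h7⟩)
    (by
      intro w hw
      obtain ⟨w1, p, hw1, hWp⟩ := hW.dense w hw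
      have hpN := hW.mem w1 p hWp
      obtain ⟨r, hr, u, n, hu, huN, hru⟩ := hq _ (h1 p hpN) (D.Est_DO h hα p hE) w1
        (D.le_trans hA hw1 hw)
      rcases hu with hu | hu
      · obtain ⟨p', hp'N, hp'E, hp'p, hup'⟩ := h2 p hpN u huN _ hu
        exact ⟨r, p', D.le_trans hA hr hw1, p, n, hW.mono w1 r p hWp hr, hp'p, hp'E, hp'N,
          D.le_trans hA hru hup'⟩
      · exact absurd ⟨r, hru, D.le_trans hA hr (hW.le w1 p hWp)⟩ hu)
  refine ⟨W', ⟨?_, hdense, huniq, ?_, ?_⟩, ?_⟩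
  · intro w w' p hwp hw
    exact hmono w w' p hwp hw
  · intro w p hwp
    obtain ⟨_, _, _, _, _, h6, _⟩ := hsub w p hwp
    exact h6
  · intro w p hwp
    obtain ⟨_, _, _, _, _, _, h7⟩ := hsub w p hwp
    exact h7
  · intro w p' hwp
    obtain ⟨p, n, h3, h4, h5, _, _⟩ := hsub w p' hwp
    exact ⟨p, n, h3, h4, h5⟩

end Pool.Agent.W_MP_315f31_lc
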