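import Pool.Agent.W_MP_315f31_lc.IterA

/-!
# MP_315f31_lc : the iteration lemma, successor step

`name_mem`: for club many `N` and `γ ∈ N`: if `q` is generic for `P_γ` and `k ∈ N` is a name, then densely
below `q` the value of `k` is decided to be an element of `N`: apply `Gen_dense` to
`S = {u | ∃ x, Dec γ u k x}` (the set of `Gen_dense` is in `N` by closure under the function
`(γ, k) ↦ ...`), get `p ∈ S ∩ N`, then `x ∈ N` by closure (`x` is a function of `(γ, p, k)`).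

`iter_succ_at`: PROOF.  Let `c, q, W` be given, `α ≤ γ`.  By `IterAt N α γ` there is `r` with
`r ↾ α = q ↾ α`, `Gen N c γ r`, `le γ (glue α w r) p` whenever `w ≤_α q`, `W w p`.
Put `S s z := ∃ r' a' x w p, le γ r' r ∧ le α r' w ∧ W w p ∧ Dec γ r' (p γ) x ∧ Ob.k x ∈ N ∧ Below γ r' a' x ∧
Gen N c (succ γ) (snoc γ r' a') ∧ le γ s r' ∧ Dec γ s a' z`.  `S` is monotone and dense below `r`: given
`s ≤ r` find `w' ≤_α s`, `W w' p`; `glue α w' s ≤_γ s` and is `≤_α w'`; decide `p γ` to be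
some `x ∈ N` below it (`name_mem`, `Ob.k (p γ) ∈ N` by `supp_mem` or `Ob.k ⊥ ∈ N`), call this condition
`r'`; goodness (hypothesis `hg`) for `r'` and `x` gives `a'`; decide `a'`.  Let `a` be the name given by `mix` for
`S`; the result is `snoc γ r a`.  (1) `Gen N c (succ γ) (snoc γ r a)`: given `E ∈ N` and
`q' ≤ snoc γ r a` let `s ≤_γ q'` decide `a` to be `z` and `S s z` with witnesses `r', a'`; then
`glue γ s q' ≤ q'` and `glue γ s q' ≤ snoc γ r' a'` (at `γ`: `q' γ ≤ a`, and `a, a'` have the same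
value `z` at `s`), use `Gen N c (succ γ) (snoc γ r' a')`.  (2) for `W w p`, `w ≤_α q`:
`le (succ γ) (glue α w (snoc γ r a)) p`: below `γ` by the choice of `r`; at `γ` use `FL_of_dense`: densely
below `glue α w r` we have `a` decided `z`, `S s z` with witnesses `r', a', x, w', p'`, and
`p' = p` by `CNm.uniq` (`W s p`, `W s p'` by monotonicity); `z ≤ x` at `s` by `Below`, and `x` is the
value of `p γ`.
-/

universe u

open Cardinal Set

namespace Pool.Agent.W_MP_315f31_lc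

variable {K : Type u} [LinearOrder K] [OrderBot K] [WellFoundedLT K] [SuccOrder K] [NoMaxOrder K]
  {D : Dat K}

/-- the closure property of `N` used in the successor step -/
def Dat.NameMem (D : Dat K) (N : Set (Ob K)) (γ : K) : Prop :=
  ∀ c q, D.Gen N c γ q → ∀ k, Ob.k k ∈ N → ∀ q', D.le γ q' q →
    ∃ r x, D.le γ r q' ∧ D.Dec γ r k x ∧ Ob.k x ∈ N

theorem Dat.name_mem (γ : K) (h : OkB D γ) : IsClub {N : Set (Ob K) | D.NameMem N γ} := by
  classical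
  let S : K → Set (Cond K) := fun k => {u | ∃ x, D.Dec γ u k x}
  let f : Ob K → Ob K := fun z => match z with
    | Ob.k k => Ob.e {x | x.1 ∈ S k ∨ ∀ s ∈ S k, D.Inc γ x.1 s}
    | z => z
  let R : Ob K → Ob K → Ob K → Prop := fun a b c =>
    ∃ p k x, a = Ob.c p ∧ b = Ob.k k ∧ c = Ob.k x ∧ D.Dec γ p k x
  refine ((IsClub.fn f).inter (IsClub.rel2 R)).mono ?_
  rintro N ⟨hf, hR⟩ c q hq k hk q' hq'
  have hS : Ob.e {x | x.1 ∈ S k ∨ ∀ s ∈ S k, D.Inc γ x.1 s} ∈ N := hf _ hk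
  obtain ⟨r, p, hr, ⟨x, hx⟩, hpN, hrp⟩ := Dat.Gen_dense h hq hS
    (fun p p' ⟨x, hx⟩ hp' => ⟨x, Dat.Dec_mono h hx hp'⟩)
    (fun q'' _ => by
      obtain ⟨r, x, hr, hx⟩ := Dat.Dec_dense h q'' k
      exact ⟨r, hr, x, hx⟩) q' hq'
  obtain ⟨z, hzN, p', k', x', hp', hk', hz, hd⟩ :=
    hR _ hpN _ hk ⟨Ob.k x, p, k, x, rfl, rfl, rfl, hx⟩
  cases hp'
  cases hk'
  subst hz
  exact ⟨r, x', hr, Dat.Dec_mono h hd hrp, hzN⟩

theorem Dat.iter_succ_at {γ : K} (h : OkB D (Order.succ γ : K)) {N : Set (Ob K)}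
    (h1 : D.NameMem N γ) (h2 : ∀ p : Cond K, Ob.c p ∈ N → Ob.k (p γ) ∈ N)
    (hg : ∀ c q, D.Gen N c γ q → ∀ x, Ob.k x ∈ N →
      ∃ a, D.Below γ q a x ∧ D.Gen N c (Order.succ γ : K) (Cond.snoc γ q a))
    {α : WithTop K} (hα : α ≤ γ) (hi : D.IterAt N α γ) :
    D.IterAt N α (Order.succ γ : K) := by
  have hlt : (γ : WithTop K) < ((Order.succ γ : K) : WithTop K) :=
    WithTop.coe_lt_coe.2 (Order.lt_succ γ)
  have hγ : OkB D γ := h.mono_top hlt.le
  have hαo : OkB D α := hγ.mono_top hα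
  intro c q hq W hW
  obtain ⟨r, hrq, hrG, hr3⟩ := hi c q hq W hW
  have hlo : ∀ {s t : Cond K}, D.le γ s t → D.le α s t := fun hst => D.le_mono hα hst
  have hrq' : ∀ s, D.le α s r ↔ D.le α s q := fun s =>
    D.le_congr (fun _ _ => rfl) (fun β hβ => hrq β hβ)
  -- the relation to be mixed
  let S : Cond K → K → Prop := fun s z => ∃ (r' : Cond K) (a' x : K) (w p : Cond K),
    D.le γ r' r ∧ D.le α r' w ∧ W w p ∧ D.Dec γ r' (p γ) x ∧ Ob.k x ∈ N ∧ D.Below γ r' a' x ∧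
      D.Gen N c (Order.succ γ : K) (Cond.snoc γ r' a') ∧ D.le γ s r' ∧ D.Dec γ s a' z
  have hSmono : ∀ s s' z, S s z → D.le γ s' s → S s' z := by
    rintro s s' z ⟨r', a', x, w, p, e1, e2, e3, e4, e5, e6, e7, e8, e9⟩ hs
    exact ⟨r', a', x, w, p, e1, e2, e3, e4, e5, e6, e7, Dat.le_trans hγ hs e8,
      Dat.Dec_mono hγ e9 hs⟩
  have hSdense : ∀ s, D.le γ s r → ∃ s' z, D.le γ s' s ∧ S s' z := by
    intro s hs
    obtain ⟨w', p, hw', hWp⟩ := hW.dense s ((hrq' s).1 (hlo hs))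
    have ht : D.le γ (Cond.glue α w' s) s := Dat.glue_le hγ hα hw'
    have ht' : D.le α (Cond.glue α w' s) w' := (Dat.glue_le_left hαo le_rfl w' s).1
    obtain ⟨r', x, hr', hx, hxN⟩ := h1 c r hrG (p γ) (h2 p (hW.mem _ _ hWp)) _
      (Dat.le_trans hγ ht hs)
    have hr'r : D.le γ r' r := Dat.le_trans hγ hr' (Dat.le_trans hγ ht hs)
    obtain ⟨a', ha', hG'⟩ := hg c r' (Dat.Gen_mono hγ hrG hr'r) x hxN
    obtain ⟨s', z, hs', hz⟩ := Dat.Dec_dense hγ r' a'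
    exact ⟨s', z, Dat.le_trans hγ hs' (Dat.le_trans hγ hr' ht), r', a', x, w', p, hr'r,
      Dat.le_trans hαo (hlo hr') ht', hWp, hx, hxN, ha', hG', hs', hz⟩
  obtain ⟨a, ha⟩ := Dat.mix hγ (Dat.small_dense γ hγ) S (fun p q x => hSmono p q x)
  -- the value of `a` is densely given by `S`
  have hkey : ∀ t, D.le γ t r → ∃ s2 z, D.le γ s2 t ∧ D.Dec γ s2 a z ∧ S s2 z := by
    intro t ht
    obtain ⟨s, z, hs, hz⟩ := Dat.Dec_dense hγ t a
    have hsr : D.le γ s r := Dat.le_trans hγ hs ht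
    obtain ⟨s2, hs2, hS2⟩ := ha s z hz
      (fun q' hq' => hSdense q' (Dat.le_trans hγ hq' hsr)) s (Dat.le_refl hγ s)
    exact ⟨s2, z, Dat.le_trans hγ hs2 hs, Dat.Dec_mono hγ hz hs2, hS2⟩
  refine ⟨Cond.snoc γ r a, ?_, ?_, ?_⟩
  · intro β hβ
    have hβγ : β < γ := WithTop.coe_lt_coe.1 (hβ.trans_le hα)
    rw [Cond.snoc_of_lt _ _ hβγ, hrq β hβ]
  · intro E hE hDO q' hq'
    obtain ⟨hq1, hq2⟩ := (Dat.le_snoc_iff hγ r a q').1 hq'
    obtain ⟨s2, z, hs2, hz, r', a', x, w, p, e1, e2, e3, e4, e5, e6, e7, e8, e9⟩ := hkey q' hq1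
    have t1 : D.le (Order.succ γ : K) (Cond.glue γ s2 q') q' := Dat.glue_le h hlt.le hs2
    have t2 : D.le γ (Cond.glue γ s2 q') s2 := (Dat.glue_le_left hγ le_rfl s2 q').1
    have t3 : D.le γ (Cond.glue γ s2 q') q' := Dat.le_trans hγ t2 hs2
    have t4 : D.le (Order.succ γ : K) (Cond.glue γ s2 q') (Cond.snoc γ r' a') := by
      rw [Dat.le_snoc_iff hγ, Cond.glue_of_ge _ _ le_rfl]
      refine ⟨Dat.le_trans hγ t2 e8, Dat.FL_trans h hlt (Dat.FL_mono hγ hq2 t3) ?_⟩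
      rw [Dat.FL_iff h hlt (Dat.Dec_mono hγ hz t2) (Dat.Dec_mono hγ e9 t2)]
      exact h.refl γ hlt z _
    obtain ⟨r'', hr'', hh⟩ := e7 E hE hDO _ t4
    exact ⟨r'', Dat.le_trans h hr'' t1, hh⟩
  · intro w p hwq hWp
    have hwr : D.le α w r := (hrq' w).2 hwq
    have hcg : ∀ t, D.le γ t (Cond.glue α w (Cond.snoc γ r a)) ↔ D.le γ t (Cond.glue α w r) := by
      intro t
      refine D.le_congr (fun _ _ => rfl) fun β hβ => ?_
      by_cases hβα : (β : WithTop K) < α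
      · rw [Cond.glue_of_lt _ _ hβα, Cond.glue_of_lt _ _ hβα]
      · rw [Cond.glue_of_ge _ _ (not_lt.1 hβα), Cond.glue_of_ge _ _ (not_lt.1 hβα),
          Cond.snoc_of_lt _ _ (WithTop.coe_lt_coe.1 hβ)]
    rw [Dat.le_succ_iff]
    constructor
    · exact Dat.le_trans hγ ((hcg _).1 (Dat.le_refl hγ _)) (hr3 w p hwq hWp)
    · rw [Cond.glue_of_ge _ _ hα, Cond.snoc_self]
      refine Dat.FL_of_dense h hlt fun t ht => ?_
      have ht' := (hcg t).1 ht
      have htr : D.le γ t r := Dat.le_trans hγ ht' (Dat.glue_le hγ hα hwr)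
      have htw : D.le α t w :=
        Dat.le_trans hαo (hlo ht') (Dat.glue_le_left hαo le_rfl w r).1
      obtain ⟨s2, z, hs2, hz, r', a', x, w', p', e1, e2, e3, e4, e5, e6, e7, e8, e9⟩ :=
        hkey t htr
      have hp : p' = p := by
        refine hW.uniq s2 p' p ?_ ?_
        · exact hW.mono w' s2 p' e3 (Dat.le_trans hαo (hlo e8) e2)
        · exact hW.mono w s2 p hWp (Dat.le_trans hαo (hlo hs2) htw)
      subst hp
      refine ⟨s2, hs2, ?_⟩
      rw [Dat.FL_iff h hlt hz (Dat.Dec_mono hγ e4 e8)]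
      exact e6 s2 e8 z e9

end Pool.Agent.W_MP_315f31_lc
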