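import Pool.Agent.W_MP_315f31_lc.Stages

/-!
# MP_315f31_lc : names of subsets of ordinals; independence of the ambient length

`Loc γ S`: `S` depends only on the coordinates below `γ`.  `dense_loc`: if `q ≤_γ p` then
`glue γ q p ≤_A p`; if `r ≤_γ q` then `glue γ r q ≤_A q`, and `S (glue γ r q) ↔ S r`.

`code`: `code_small` (Mix) for `τ`; `ext_reps`: `ext β z ξ` is determined by its trace on the
conditions bounded by `η` (`Dat.small`), and there are fewer than `#K` functions `Iio α → Set (CT η)`.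

`InV_amb`: the inner statement `∃ z, ∀ ξ < β, ∀ r' ≤_A r, (τ ξ r' ↔ ext γ z ξ r')` is `Loc A'` and does not change
when `A` is replaced by `A'` (`forall_loc`), then use `dense_loc`.
`InV_mix`: at `r` with codes `z, z'` of `τ, σ` code the mixture of `ext γ z` and `ext γ z'` (`code`).
`InV_unmix`: `σ` is the mixture of `σ` below `α` and of (the mixture of `τ, σ`) above `α`.
-/

universe u

open Cardinal Set

namespace Pool.Agent.W_MP_315f31_lc

variable {K : Type u} [LinearOrder K] [OrderBot K] [WellFoundedLT K]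

/-- `S` depends only on the coordinates below `γ`. -/
def Loc (γ : WithTop K) (S : Cond K → Prop) : Prop :=
  ∀ p q : Cond K, (∀ β : K, (β : WithTop K) < γ → p β = q β) → (S p ↔ S q)

theorem Loc.mono {γ δ : WithTop K} {S : Cond K → Prop} (h : Loc γ S) (hγ : γ ≤ δ) : Loc δ S := by
  intro p q hpq
  exact h p q fun β hβ => hpq β (hβ.trans_le hγ)

variable {D : Dat K} {A : WithTop K}

theorem dense_loc (h : OkB D A) {γ : WithTop K} (hγ : γ ≤ A) {S : Cond K → Prop} (hS : Loc γ S)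
    (p : Cond K) : (∀ q, D.le A q p → ∃ r, D.le A r q ∧ S r) ↔
      (∀ q, D.le γ q p → ∃ r, D.le γ r q ∧ S r) := by
  have hO : OkB D γ := h.mono_top hγ
  constructor
  · intro hd q hq
    obtain ⟨r, hr, hSr⟩ := hd (Cond.glue γ q p) (Dat.glue_le h hγ hq)
    exact ⟨r, Dat.le_trans hO (D.le_mono hγ hr) (Dat.glue_le_left h hγ q p).1, hSr⟩
  · intro hd q hq
    obtain ⟨r, hr, hSr⟩ := hd q (D.le_mono hγ hq)
    refine ⟨Cond.glue γ r q, Dat.glue_le h hγ hr, ?_⟩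
    exact (hS (Cond.glue γ r q) r fun β hβ => Cond.glue_of_lt r q hβ).2 hSr

theorem forall_loc (h : OkB D A) {γ : WithTop K} (hγ : γ ≤ A) {S : Cond K → Prop} (hS : Loc γ S)
    (p : Cond K) : (∀ q, D.le A q p → S q) ↔ (∀ q, D.le γ q p → S q) := by
  constructor
  · intro hf q hq
    exact (hS (Cond.glue γ q p) q fun β hβ => Cond.glue_of_lt q p hβ).1
      (hf _ (Dat.glue_le h hγ hq))
  · intro hf q hq
    exact hf q (D.le_mono hγ hq)

theorem loc_dense (h : OkB D A) {γ : WithTop K} (hγ : γ ≤ A) {S : Cond K → Prop} (hS : Loc γ S) :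
    Loc γ (fun p => ∀ q, D.le A q p → ∃ r, D.le A r q ∧ S r) := by
  intro p p' hpp
  change (∀ q, D.le A q p → ∃ r, D.le A r q ∧ S r) ↔ (∀ q, D.le A q p' → ∃ r, D.le A r q ∧ S r)
  rw [dense_loc h hγ hS, dense_loc h hγ hS]
  have h1 : ∀ q, D.le γ q p ↔ D.le γ q p' := fun q => D.le_congr (fun _ _ => rfl) hpp
  simp only [h1]

theorem loc_forall (h : OkB D A) {γ : WithTop K} (hγ : γ ≤ A) {S : Cond K → Prop} (hS : Loc γ S) :
    Loc γ (fun p => ∀ q, D.le A q p → S q) := by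
  intro p p' hpp
  change (∀ q, D.le A q p → S q) ↔ (∀ q, D.le A q p' → S q)
  rw [forall_loc h hγ hS, forall_loc h hγ hS]
  have h1 : ∀ q, D.le γ q p ↔ D.le γ q p' := fun q => D.le_congr (fun _ _ => rfl) hpp
  simp only [h1]

theorem loc_Dec (D : Dat K) (γ : WithTop K) (k x : K) : Loc γ (fun p => D.Dec γ p k x) := by
  intro p q hpq
  exact D.Dec_congr hpq

/-! ### `ext` -/

theorem ext_loc (h : OkB D A) {β : WithTop K} (hβ : β ≤ A) (z ξ : K) : Loc β (D.ext β z ξ) := by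
  have _ := h
  have _ := hβ
  intro p p' hpp
  have h1 : ∀ q, D.le β q p ↔ D.le β q p' := fun q => D.le_congr (fun _ _ => rfl) hpp
  unfold Dat.ext
  simp only [h1]

theorem ext_mono (h : OkB D A) {β : WithTop K} (hβ : β ≤ A) {z ξ : K} {p q : Cond K}
    (hp : D.ext β z ξ p) (hq : D.le A q p) : D.ext β z ξ q := by
  intro q' hq'
  exact hp q' (Dat.le_trans (h.mono_top hβ) hq' (D.le_mono hβ hq))

theorem ext_reg (h : OkB D A) {β : WithTop K} (hβ : β ≤ A) {z ξ : K} {p : Cond K}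
    (hd : ∀ q, D.le A q p → ∃ r, D.le A r q ∧ D.ext β z ξ r) : D.ext β z ξ p := by
  have h1 := (dense_loc h hβ (ext_loc h hβ z ξ) p).1 hd
  have hO : OkB D β := h.mono_top hβ
  intro q hq
  obtain ⟨r, hr, hr'⟩ := h1 q hq
  obtain ⟨r', u, h2, h3, h4⟩ := hr' r (Dat.le_refl hO r)
  exact ⟨r', u, Dat.le_trans hO h2 hr, h3, h4⟩

/-- a regular name which depends only on the coordinates below `β` is coded -/
theorem code (h : OkB D A) {β : K} (hβ : (β : WithTop K) ≤ A) (α : K) {τ : K → Cond K → Prop}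
    (hτ : IsNm (D.le A) τ) (hl : ∀ ξ < α, Loc (β : WithTop K) (τ ξ)) :
    ∃ z, ∀ ξ < α, ∀ p, D.ext β z ξ p ↔ τ ξ p := by
  have hO : OkB D (β : WithTop K) := h.mono_top hβ
  have hmono : ∀ ξ < α, ∀ p q, τ ξ p → D.le β q p → τ ξ q := by
    intro ξ hξ p q hp hq
    have h1 := hτ.mono ξ p (Cond.glue β q p) hp (Dat.glue_le h hβ hq)
    exact (hl ξ hξ (Cond.glue β q p) q fun γ hγ => Cond.glue_of_lt q p hγ).1 h1
  obtain ⟨z, hz1, hz2⟩ := Dat.code_small hO (Dat.small_dense β hO) α (fun ξ p => ξ < α ∧ τ ξ p)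
    (fun ξ p q hp hq => ⟨hp.1, hmono ξ hp.1 p q hp.2 hq⟩)
  refine ⟨z, fun ξ hξ p => ⟨fun hp => ?_, fun hp => ?_⟩⟩
  · apply hτ.reg
    rw [dense_loc h hβ (hl ξ hξ)]
    intro q hq
    obtain ⟨r, u, h1, h2, h3⟩ := hp q hq
    exact ⟨r, h1, hmono ξ hξ u r (hz1 u ξ h2).2.2 h3⟩
  · exact hz2 ξ hξ p ⟨hξ, hp⟩

theorem ext_reps (h : OkB D A) {β : K} (hβ : (β : WithTop K) ≤ A) (α : K) :
    ∃ Z : Set K, #Z < #K ∧ ∀ z, ∃ z' ∈ Z, ∀ ξ < α, ∀ p, D.ext β z ξ p ↔ D.ext β z' ξ p := by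
  classical
  have hO : OkB D (β : WithTop K) := h.mono_top hβ
  obtain ⟨η, hη⟩ := Dat.small β hO
  let T : K → Set (Iio α × CT η) := fun z => {w | D.ext β z w.1.1 w.2.1}
  have hex : ∀ t : Set (Iio α × CT η), ∃ z', (∃ z, T z = t) → T z' = t := by
    intro t
    by_cases ht : ∃ z, T z = t
    · obtain ⟨z, hz⟩ := ht
      exact ⟨z, fun _ => hz⟩
    · exact ⟨⊥, fun h0 => absurd h0 ht⟩
  choose f hf using hex
  refine ⟨range f, ?_, fun z => ⟨f (T z), ⟨T z, rfl⟩, ?_⟩⟩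
  · refine mk_range_le.trans_lt ?_
    rw [mk_set, mk_prod, lift_id, lift_id]
    exact h.inacc.card.isStrongPrelimit
      (mul_lt_of_lt h.inacc.card.aleph0_lt.le (h.inacc.lt α) (card_bnd h.inacc η))
  · intro ξ hξ p
    have hT : T (f (T z)) = T z := hf (T z) ⟨z, rfl⟩
    obtain ⟨q, hq, hqp, hpq⟩ := hη p
    have key : ∀ z', D.ext β z' ξ p ↔ ((⟨ξ, hξ⟩, ⟨q, hq⟩) : Iio α × CT η) ∈ T z' := by
      intro z'
      constructor
      · intro h1
        exact ext_mono hO (_root_.le_refl _) h1 hqp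
      · intro h1
        exact ext_mono hO (_root_.le_refl _) h1 hpq
    rw [key z, key (f (T z)), hT]

theorem ext_isNm (h : OkB D A) {β : WithTop K} (hβ : β ≤ A) (z : K) : IsNm (D.le A) (D.ext β z) := by
  exact ⟨fun ξ p q hp hq => ext_mono h hβ hp hq, fun ξ p hd => ext_reg h hβ hd⟩

/-! ### `InV` -/

/-- `τ` below `α`, `σ` from `α` on -/
def mixN (α : K) (τ σ : K → Cond K → Prop) (ξ : K) (p : Cond K) : Prop :=
  (ξ < α ∧ τ ξ p) ∨ (α ≤ ξ ∧ σ ξ p)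

theorem mixN_isNm {A : WithTop K} {D : Dat K} (α : K) {τ σ : K → Cond K → Prop}
    (hτ : IsNm (D.le A) τ) (hσ : IsNm (D.le A) σ) : IsNm (D.le A) (mixN α τ σ) := by
  constructor
  · rintro ξ p q (⟨h1, h2⟩ | ⟨h1, h2⟩) hq
    · exact Or.inl ⟨h1, hτ.mono ξ p q h2 hq⟩
    · exact Or.inr ⟨h1, hσ.mono ξ p q h2 hq⟩
  · intro ξ p hd
    rcases lt_or_ge ξ α with h1 | h1
    · refine Or.inl ⟨h1, hτ.reg ξ p fun q hq => ?_⟩
      obtain ⟨r, hr, h2 | h2⟩ := hd q hq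
      · exact ⟨r, hr, h2.2⟩
      · exact absurd h2.1 (not_le.2 h1)
    · refine Or.inr ⟨h1, hσ.reg ξ p fun q hq => ?_⟩
      obtain ⟨r, hr, h2 | h2⟩ := hd q hq
      · exact absurd h2.1 (not_lt.2 h1)
      · exact ⟨r, hr, h2.2⟩

theorem mixN_loc {γ : WithTop K} (α : K) {τ σ : K → Cond K → Prop} {ξ : K}
    (hτ : ξ < α → Loc γ (τ ξ)) (hσ : α ≤ ξ → Loc γ (σ ξ)) : Loc γ (mixN α τ σ ξ) := by
  intro p q hpq
  unfold mixN
  rcases lt_or_ge ξ α with h1 | h1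
  · have h2 := hτ h1 p q hpq
    have h3 : ¬ α ≤ ξ := not_le.2 h1
    simp only [h1, h3, true_and, false_and, or_false]
    exact h2
  · have h2 := hσ h1 p q hpq
    have h3 : ¬ ξ < α := not_lt.2 h1
    simp only [h1, h3, true_and, false_and, false_or]
    exact h2

variable {γ : WithTop K} {β : K} {τ σ : K → Cond K → Prop} {p : Cond K}

theorem InV_mono (h : OkB D A) {q : Cond K} (hp : D.InV A γ β τ p) (hq : D.le A q p) :
    D.InV A γ β τ q := by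
  intro q' hq'
  exact hp q' (Dat.le_trans h hq' hq)

theorem InV_reg (h : OkB D A) (hd : ∀ q, D.le A q p → ∃ r, D.le A r q ∧ D.InV A γ β τ r) :
    D.InV A γ β τ p := by
  intro q hq
  obtain ⟨r, hr, h1⟩ := hd q hq
  obtain ⟨r', z, hr', h2⟩ := h1 r (Dat.le_refl h r)
  exact ⟨r', z, Dat.le_trans h hr' hr, h2⟩

theorem InV_congr (h : OkB D A) (hc : ∀ ξ < β, ∀ q, D.le A q p → (τ ξ q ↔ σ ξ q)) :
    D.InV A γ β τ p ↔ D.InV A γ β σ p := by
  have key : ∀ {τ σ : K → Cond K → Prop}, (∀ ξ < β, ∀ q, D.le A q p → (τ ξ q ↔ σ ξ q)) →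
      D.InV A γ β τ p → D.InV A γ β σ p := by
    intro τ σ hc hp q hq
    obtain ⟨r, z, hr, h1⟩ := hp q hq
    refine ⟨r, z, hr, fun ξ hξ r' hr' => ?_⟩
    rw [← hc ξ hξ r' (Dat.le_trans h hr' (Dat.le_trans h hr hq))]
    exact h1 ξ hξ r' hr'
  exact ⟨key hc, key fun ξ hξ q hq => (hc ξ hξ q hq).symm⟩

theorem InV_restr {β' : K} (hβ : β' ≤ β) (hp : D.InV A γ β τ p) : D.InV A γ β' τ p := by
  intro q hq
  obtain ⟨r, z, hr, h1⟩ := hp q hq
  exact ⟨r, z, hr, fun ξ hξ => h1 ξ (hξ.trans_le hβ)⟩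

theorem InV_of_loc (h : OkB D A) {g : K} (hg : (g : WithTop K) ≤ A) (hτ : IsNm (D.le A) τ)
    (hl : ∀ ξ < β, Loc (g : WithTop K) (τ ξ)) (p : Cond K) : D.InV A g β τ p := by
  obtain ⟨z, hz⟩ := code h hg β hτ hl
  intro q _
  exact ⟨q, z, Dat.le_refl h q, fun ξ hξ r' _ => (hz ξ hξ r').symm⟩

theorem InV_up (h : OkB D A) {g : K} (hγ : γ ≤ (g : WithTop K)) (hg : (g : WithTop K) ≤ A)
    (hp : D.InV A γ β τ p) : D.InV A g β τ p := by
  intro q hq
  obtain ⟨r, z, hr, h1⟩ := hp q hq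
  have hγA : γ ≤ A := hγ.trans hg
  obtain ⟨z', hz'⟩ := code h hg β (ext_isNm h hγA z) fun ξ _ => (ext_loc h hγA z ξ).mono hγ
  refine ⟨r, z', hr, fun ξ hξ r' hr' => ?_⟩
  rw [h1 ξ hξ r' hr', hz' ξ hξ r']

theorem InV_amb (h : OkB D A) {A' : WithTop K} (hA : A' ≤ A) (hγ : γ ≤ A')
    (hl : ∀ ξ < β, Loc A' (τ ξ)) (p : Cond K) : D.InV A γ β τ p ↔ D.InV A' γ β τ p := by
  have hγA : γ ≤ A := hγ.trans hA
  have h1 : ∀ z, ∀ ξ < β, Loc A' (fun r' => τ ξ r' ↔ D.ext γ z ξ r') := by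
    intro z ξ hξ p q hpq
    have h2 := hl ξ hξ p q hpq
    have h3 := ((ext_loc h hγA z ξ).mono hγ) p q hpq
    change (τ ξ p ↔ D.ext γ z ξ p) ↔ (τ ξ q ↔ D.ext γ z ξ q)
    rw [h2, h3]
  have h4 : ∀ r, (∃ z, ∀ ξ < β, ∀ r', D.le A r' r → (τ ξ r' ↔ D.ext γ z ξ r')) ↔
      (∃ z, ∀ ξ < β, ∀ r', D.le A' r' r → (τ ξ r' ↔ D.ext γ z ξ r')) := by
    intro r
    refine exists_congr fun z => forall_congr' fun ξ => forall_congr' fun hξ => ?_
    exact forall_loc h hA (h1 z ξ hξ) r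
  have h5 : Loc A' (fun r => ∃ z, ∀ ξ < β, ∀ r', D.le A' r' r → (τ ξ r' ↔ D.ext γ z ξ r')) := by
    intro p q hpq
    have h6 : ∀ r', D.le A' r' p ↔ D.le A' r' q := fun r' => D.le_congr (fun _ _ => rfl) hpq
    simp only [h6]
  have h7 : ∀ B : WithTop K, D.InV B γ β τ p ↔ ∀ q, D.le B q p → ∃ r, D.le B r q ∧
      ∃ z, ∀ ξ < β, ∀ r', D.le B r' r → (τ ξ r' ↔ D.ext γ z ξ r') := by
    intro B
    constructor
    · intro h8 q hq
      obtain ⟨r, z, h9, h10⟩ := h8 q hq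
      exact ⟨r, h9, z, h10⟩
    · intro h8 q hq
      obtain ⟨r, h9, z, h10⟩ := h8 q hq
      exact ⟨r, z, h9, h10⟩
  rw [h7 A, h7 A']
  simp only [h4]
  exact dense_loc h hA h5 p

theorem InV_loc (h : OkB D A) (hγ : γ ≤ A) {A' : WithTop K} (hA : A' ≤ A) (hγ' : γ ≤ A')
    (hl : ∀ ξ < β, Loc A' (τ ξ)) : Loc A' (D.InV A γ β τ) := by
  have _ := hγ
  intro p q hpq
  rw [InV_amb h hA hγ' hl p, InV_amb h hA hγ' hl q]
  have h1 : ∀ r, D.le A' r p ↔ D.le A' r q := fun r => D.le_congr (fun _ _ => rfl) hpq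
  unfold Dat.InV
  simp only [h1]

theorem InV_mix (h : OkB D A) {g α : K} (hg : (g : WithTop K) ≤ A)
    (hτ : D.InV A g α τ p) (hσ : D.InV A g β σ p) : D.InV A g β (mixN α τ σ) p := by
  intro q hq
  obtain ⟨r, z, hr, h1⟩ := hτ q hq
  obtain ⟨r2, z2, hr2, h2⟩ := hσ r (Dat.le_trans h hr hq)
  obtain ⟨z3, h3⟩ := code h hg β (mixN_isNm α (ext_isNm h hg z) (ext_isNm h hg z2))
    fun ξ _ => mixN_loc α (fun _ => ext_loc h hg z ξ) (fun _ => ext_loc h hg z2 ξ)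
  refine ⟨r2, z3, Dat.le_trans h hr2 hr, fun ξ hξ r' hr' => ?_⟩
  rw [h3 ξ hξ r']
  have h5 := h2 ξ hξ r' hr'
  unfold mixN
  rcases lt_or_ge ξ α with h6 | h6
  · have h4 := h1 ξ h6 r' (Dat.le_trans h hr' hr2)
    have h7 : ¬ α ≤ ξ := not_le.2 h6
    simp only [h6, h7, true_and, false_and, or_false]
    exact h4
  · have h7 : ¬ ξ < α := not_lt.2 h6
    simp only [h6, h7, true_and, false_and, false_or]
    exact h5

theorem InV_unmix (h : OkB D A) {g α : K} (hg : (g : WithTop K) ≤ A)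
    (hm : D.InV A g β (mixN α τ σ) p) (hσ : D.InV A g α σ p) : D.InV A g β σ p := by
  have h1 : D.InV A g β (mixN α σ (mixN α τ σ)) p := InV_mix h hg hσ hm
  refine (InV_congr h fun ξ _ q _ => ?_).1 h1
  unfold mixN
  rcases lt_or_ge ξ α with h6 | h6
  · have h7 : ¬ α ≤ ξ := not_le.2 h6
    simp only [h6, h7, true_and, false_and, or_false]
  · have h7 : ¬ ξ < α := not_lt.2 h6
    simp only [h6, h7, true_and, false_and, false_or]

end Pool.Agent.W_MP_315f31_lc
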