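import Pool.Agent.W_MP_315f31_lc.Order

/-!
# MP_315f31_lc : antichains and mixing of names

`card_anti`: if `B` is a small dense set of `P_γ`, an antichain `A` injects into `B` (choose for `a ∈ A`
an element of `B` below `a`; it is below no other element of `A`).

`mix`: let `A` be a maximal antichain (Zorn) of the set of all `r` with `∃ x, S r x`, choose `x_r` with
`S r x_r` for `r ∈ A`, and let `k` be a name with `nm k = {(r, x_r) : r ∈ A}` (`OkB.nm_surj`,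
`card_anti`).  If `Dec γ q k x` and `S` is dense below `q`: given `q' ≤ q` take `s ≤ q'`, `S s y`; by
maximality `s` is compatible with some `r ∈ A`, let `s' ≤ s, r`; then `s'` decides `k` to be `x_r`
(the other elements of `A` are incompatible with `s'`), so `x = x_r` and `S s' x`.

`uniformize`: let `A` be a maximal antichain of the set of all `w` with `∃ p, W w p`, choose `p_a`, and put
`W' w p := ∃ a ∈ A, w ≤ a ∧ p = p_a` (so `W' ⊆ W`).
-/

universe u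

open Cardinal Set

namespace Pool.Agent.W_MP_315f31_lc

variable {K : Type u} [LinearOrder K] [OrderBot K] [WellFoundedLT K] {D : Dat K} {β : WithTop K}

/-- `A` is an antichain of `P_β` -/
def Dat.Anti (D : Dat K) (β : WithTop K) (A : Set (Cond K)) : Prop :=
  ∀ p ∈ A, ∀ q ∈ A, p ≠ q → D.Inc β p q

theorem Dat.card_anti (h : OkB D β) {B : Set (Cond K)} (hB : ∀ p, ∃ q ∈ B, D.le β q p)
    {A : Set (Cond K)} (hA : D.Anti β A) : #A ≤ #B := by
  have _ := h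
  choose f hfB hfle using hB
  refine Cardinal.mk_le_of_injective (f := fun a : A => (⟨f a.1, hfB a.1⟩ : B)) ?_
  intro a a' haa
  by_contra hne
  have h1 : f a.1 = f a'.1 := congrArg Subtype.val haa
  exact hA a.1 a.2 a'.1 a'.2 (fun e => hne (Subtype.ext e)) ⟨f a.1, hfle a.1, h1 ▸ hfle a'.1⟩

/-- maximal antichains -/
theorem Dat.exists_max_anti (h : OkB D β) (S : Set (Cond K)) :
    ∃ A ⊆ S, D.Anti β A ∧ ∀ s ∈ S, ∃ a ∈ A, ¬ D.Inc β s a := by
  obtain ⟨A, hA⟩ := zorn_subset {A : Set (Cond K) | A ⊆ S ∧ D.Anti β A} (by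
    intro c hc hch
    refine ⟨⋃₀ c, ⟨Set.sUnion_subset fun A hA => (hc hA).1, ?_⟩, fun A hA => Set.subset_sUnion_of_mem hA⟩
    intro p hp q hq hpq
    obtain ⟨A, hA, hpA⟩ := hp
    obtain ⟨A', hA', hqA'⟩ := hq
    rcases hch.total hA hA' with hs | hs
    · exact (hc hA').2 p (hs hpA) q hqA' hpq
    · exact (hc hA).2 p hpA q (hs hqA') hpq)
  refine ⟨A, hA.prop.1, hA.prop.2, ?_⟩
  intro s hs
  by_contra hcon
  push Not at hcon
  have hins : insert s A ∈ {A : Set (Cond K) | A ⊆ S ∧ D.Anti β A} := by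
    refine ⟨Set.insert_subset hs hA.prop.1, ?_⟩
    intro p hp q hq hpq
    rcases Set.mem_insert_iff.1 hp with hp1 | hp1
    · rcases Set.mem_insert_iff.1 hq with hq1 | hq1
      · exact absurd (hp1.trans hq1.symm) hpq
      · rw [hp1]
        exact hcon q hq1
    · rcases Set.mem_insert_iff.1 hq with hq1 | hq1
      · rw [hq1]
        exact Dat.Inc_symm (hcon p hp1)
      · exact hA.prop.2 p hp1 q hq1 hpq
  have hsA : s ∈ A := hA.le_of_ge hins (Set.subset_insert s A) (Set.mem_insert s A)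
  exact hcon s hsA ⟨s, Dat.le_refl h s, Dat.le_refl h s⟩

theorem Dat.mix (h : OkB D β) (hsm : ∃ B : Set (Cond K), #B < #K ∧ ∀ p, ∃ q ∈ B, D.le β q p)
    (S : Cond K → K → Prop) (hS : ∀ p q x, S p x → D.le β q p → S q x) :
    ∃ k, ∀ q x, D.Dec β q k x → (∀ q', D.le β q' q → ∃ r y, D.le β r q' ∧ S r y) →
      ∀ q', D.le β q' q → ∃ r, D.le β r q' ∧ S r x := by
  obtain ⟨B, hBc, hB⟩ := hsm
  obtain ⟨A, hAS, hA, hmax⟩ := Dat.exists_max_anti h {r : Cond K | ∃ x, S r x}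
  have hAc : #A < #K := (Dat.card_anti h hB hA).trans_lt hBc
  have hch : ∀ r : Cond K, ∃ x, r ∈ A → S r x := by
    intro r
    by_cases hr : r ∈ A
    · obtain ⟨x, hx⟩ := hAS hr
      exact ⟨x, fun _ => hx⟩
    · exact ⟨⊥, fun hr' => absurd hr' hr⟩
  choose X hX using hch
  obtain ⟨k, hk⟩ := h.nm_surj ((fun r => (r, X r)) '' A) (Cardinal.mk_image_le.trans_lt hAc)
  have hmem : ∀ u y, (u, y) ∈ D.nm k ↔ u ∈ A ∧ y = X u := by
    intro u y
    rw [hk]
    constructor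
    · rintro ⟨r, hr, he⟩
      obtain ⟨rfl, rfl⟩ := Prod.mk.inj he
      exact ⟨hr, rfl⟩
    · rintro ⟨hu, rfl⟩
      exact ⟨u, hu, rfl⟩
  refine ⟨k, ?_⟩
  intro q x hdec hdense q' hq'
  obtain ⟨s, y, hsq, hsy⟩ := hdense q' hq'
  obtain ⟨a, haA, hinc⟩ := hmax s ⟨y, hsy⟩
  obtain ⟨s', hs's, hs'a⟩ := not_not.1 hinc
  have hs'q' : D.le β s' q' := Dat.le_trans h hs's hsq
  have hs'q : D.le β s' q := Dat.le_trans h hs'q' hq'
  have d1 : D.Dec β s' k x := Dat.Dec_mono h hdec hs'q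
  have d2 : D.Dec β s' k (X a) := by
    refine Or.inl ⟨⟨a, (hmem a (X a)).2 ⟨haA, rfl⟩, hs'a⟩, ?_⟩
    intro y' hy' v hv hw
    obtain ⟨hvA, hvX⟩ := (hmem v y').1 hv
    obtain ⟨w, hw1, hw2⟩ := hw
    refine hA a haA v hvA ?_ ⟨w, Dat.le_trans h hw1 hs'a, hw2⟩
    rintro rfl
    rw [hvX] at hy'
    exact lt_irrefl _ hy'
  have hx : x = X a := Dat.Dec_uniq h d1 d2
  refine ⟨s', hs'q', ?_⟩
  rw [hx]
  exact hS a s' (X a) (hX a haA) hs'a

/-- a name of a subset of a small set can be coded: for every relation `τ` there is `z` such that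
densely `τ ξ` holds iff densely some `(u, ξ) ∈ nm z` has `u` in the generic filter -/
theorem Dat.code_small (h : OkB D β) (hsm : ∃ B : Set (Cond K), #B < #K ∧ ∀ p, ∃ q ∈ B, D.le β q p)
    (α : K) (τ : K → Cond K → Prop) (hτ : ∀ ξ p q, τ ξ p → D.le β q p → τ ξ q) :
    ∃ z, (∀ u ξ, (u, ξ) ∈ D.nm z → ξ < α ∧ τ ξ u) ∧
      ∀ ξ < α, ∀ p, τ ξ p → ∀ q, D.le β q p → ∃ r u, D.le β r q ∧ (u, ξ) ∈ D.nm z ∧ D.le β r u := by
  obtain ⟨B, hBc, hB⟩ := hsm
  have hcard : #{w : Cond K × K | w.1 ∈ B ∧ w.2 < α ∧ τ w.2 w.1} < #K := by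
    have h1 : #{w : Cond K × K | w.1 ∈ B ∧ w.2 < α ∧ τ w.2 w.1} ≤ #(B ×ˢ Set.Iio α : Set (Cond K × K)) :=
      Cardinal.mk_le_mk_of_subset (fun w hw => ⟨hw.1, hw.2.1⟩)
    have h2 : #(B ×ˢ Set.Iio α : Set (Cond K × K)) = #B * #(Set.Iio α) := Cardinal.mk_setProd _ _
    refine h1.trans_lt ?_
    rw [h2]
    exact Cardinal.mul_lt_of_lt h.inacc.card.aleph0_lt.le hBc (h.inacc.lt α)
  obtain ⟨z, hz⟩ := h.nm_surj _ hcard
  refine ⟨z, ?_, ?_⟩
  · intro u ξ hu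
    rw [hz] at hu
    exact hu.2
  · intro ξ hξ p hp q hq
    obtain ⟨u, huB, huq⟩ := hB q
    refine ⟨u, u, huq, ?_, Dat.le_refl h u⟩
    rw [hz]
    exact ⟨huB, hξ, hτ ξ p u hp (Dat.le_trans h huq hq)⟩

/-- uniformization of names of conditions -/
theorem Dat.uniformize (h : OkB D β) (q : Cond K) (W : Cond K → Cond K → Prop)
    (mono : ∀ w w' p, W w p → D.le β w' w → W w' p)
    (dense : ∀ w, D.le β w q → ∃ w' p, D.le β w' w ∧ W w' p) :
    ∃ W' : Cond K → Cond K → Prop, (∀ w p, W' w p → W w p) ∧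
      (∀ w w' p, W' w p → D.le β w' w → W' w' p) ∧
      (∀ w, D.le β w q → ∃ w' p, D.le β w' w ∧ W' w' p) ∧
      (∀ w p p', W' w p → W' w p' → p = p') := by
  obtain ⟨A, hAS, hA, hmax⟩ := Dat.exists_max_anti h {w : Cond K | ∃ p, W w p}
  have hch : ∀ r : Cond K, ∃ p, r ∈ A → W r p := by
    intro r
    by_cases hr : r ∈ A
    · obtain ⟨x, hx⟩ := hAS hr
      exact ⟨x, fun _ => hx⟩
    · exact ⟨q, fun hr' => absurd hr' hr⟩
  choose X hX using hch
  refine ⟨fun w p => ∃ a ∈ A, D.le β w a ∧ p = X a, ?_, ?_, ?_, ?_⟩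
  · rintro w p ⟨a, haA, hwa, rfl⟩
    exact mono a w (X a) (hX a haA) hwa
  · rintro w w' p ⟨a, haA, hwa, rfl⟩ hw
    exact ⟨a, haA, Dat.le_trans h hw hwa, rfl⟩
  · intro w hw
    obtain ⟨w', p, hw', hWp⟩ := dense w hw
    obtain ⟨a, haA, hinc⟩ := hmax w' ⟨p, hWp⟩
    obtain ⟨s, hs1, hs2⟩ := not_not.1 hinc
    exact ⟨s, X a, Dat.le_trans h hs1 hw', a, haA, hs2, rfl⟩
  · rintro w p p' ⟨a, haA, hwa, rfl⟩ ⟨a', haA', hwa', rfl⟩
    have : a = a' := by
      by_contra hne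
      exact hA a haA a' haA' hne ⟨w, hwa, hwa'⟩
    rw [this]

end Pool.Agent.W_MP_315f31_lc
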