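import Pool.Agent.W_MP_315f31_lc.Small

/-!
# MP_315f31_lc : limits, cofinality and closure points in `K`

`K` is (isomorphic to) a regular uncountable cardinal: small subsets are bounded (`bdd_small`), so
countable subsets are bounded.  `exists_closed`: build a strictly increasing sequence of length `ω_1` of elements
of `K` above `a` (recursion on a well-order of type `ω_1`, e.g. `(ω₁).ToType`; the `i`-th element is above all previous
ones and above `h γ` for all `γ` below a previous one; possible because these are small sets) and let `δ` be its least upper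
bound; a countable subset of `δ` is bounded by one of the elements.
-/

universe u

open Cardinal Set

namespace Pool.Agent.W_MP_315f31_lc

variable {K : Type u} [LinearOrder K] [OrderBot K] [WellFoundedLT K]

/-- limit or `⊥` -/
def IsLim (γ : K) : Prop := ∀ a < γ, ∃ b, a < b ∧ b < γ

omit [WellFoundedLT K] in
theorem isLim_bot : IsLim (⊥ : K) := fun a ha => absurd ha not_lt_bot

/-- least element of a nonempty set -/
theorem nextLim_min (S : Set K) (hS : S.Nonempty) : ∃ m ∈ S, ∀ x ∈ S, m ≤ x := by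
  have hwf : WellFounded ((· < ·) : K → K → Prop) := wellFounded_lt
  exact ⟨hwf.min S hS, hwf.min_mem S hS, fun x hx => not_lt.1 (hwf.not_lt_min S hx)⟩

variable [SuccOrder K] [NoMaxOrder K]

omit [OrderBot K] [WellFoundedLT K] in
theorem IsLim.succ_lt {γ a : K} (h : IsLim γ) (ha : a < γ) : Order.succ a < γ := by
  obtain ⟨b, hab, hb⟩ := h a ha
  exact (Order.succ_le_of_lt hab).trans_lt hb

omit [OrderBot K] [WellFoundedLT K] in
theorem not_isLim_succ (γ : K) : ¬ IsLim (Order.succ γ) := by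
  intro h
  exact lt_irrefl _ (h.succ_lt (Order.lt_succ γ))

omit [OrderBot K] [WellFoundedLT K] in
theorem isLim_or_succ (γ : K) : IsLim γ ∨ ∃ γ', γ = Order.succ γ' := by
  by_cases h : IsLim γ
  · exact Or.inl h
  · right
    unfold IsLim at h
    push Not at h
    obtain ⟨a, ha, hb⟩ := h
    exact ⟨a, le_antisymm (hb _ (Order.lt_succ a)) (Order.succ_le_of_lt ha)⟩

theorem countable_bdd (h : Inacc K) (s : ℕ → K) : ∃ b, ∀ n, s n < b := by
  obtain ⟨b, hb⟩ := bdd_small h (Set.range s)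
    ((le_aleph0_iff_set_countable.mpr (countable_range s)).trans_lt h.card.aleph0_lt)
  exact ⟨b, fun n => hb _ ⟨n, rfl⟩⟩

/-- strict upper bound of a small set -/
noncomputable def nextLimUb (S : Set K) : K :=
  open Classical in if h : ∃ b, ∀ x ∈ S, x < b then h.choose else ⊥

theorem nextLim_lt_ub (h : Inacc K) {S : Set K} (hS : #S < #K) {x : K} (hx : x ∈ S) :
    x < nextLimUb S := by
  have h1 := bdd_small h S hS
  unfold nextLimUb
  rw [dif_pos h1]
  exact h1.choose_spec x hx

/-- recursion along `K` -/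
noncomputable def nextLimRec (G : Set K → K) : K → K :=
  WellFounded.fix (C := fun _ => K) (wellFounded_lt (α := K))
    (fun x ih => G {y | ∃ (j : K) (hj : j < x), y = ih j hj})

omit [OrderBot K] [SuccOrder K] [NoMaxOrder K] in
theorem nextLimRec_eq (G : Set K → K) (x : K) :
    nextLimRec G x = G (nextLimRec G '' Set.Iio x) := by
  unfold nextLimRec
  rw [WellFounded.fix_eq]
  congr 1
  ext y
  simp only [Set.mem_setOf_eq, Set.mem_image, Set.mem_Iio]
  constructor
  · rintro ⟨j, hj, rfl⟩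
    exact ⟨j, hj, rfl⟩
  · rintro ⟨j, hj, rfl⟩
    exact ⟨j, hj, rfl⟩

omit [OrderBot K] [WellFoundedLT K] [SuccOrder K] [NoMaxOrder K] in
theorem nextLim_small_image (h : Inacc K) (f : K → K) (x : K) : #(f '' Set.Iio x) < #K :=
  mk_image_le.trans_lt (h.lt x)

/-- least strict upper bound of an unbounded increasing family: a limit -/
theorem nextLim_lub {I : Type*} (F : I → K) (hb : ∃ b, ∀ i, F i < b)
    (hF : ∀ i, ∃ j, F i < F j) :
    ∃ δ, (∀ i, F i < δ) ∧ (∀ γ < δ, ∃ i, γ ≤ F i) ∧ IsLim δ ∧ ∀ b, (∀ i, F i < b) → δ ≤ b := by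
  obtain ⟨δ, hδ, hmin⟩ := nextLim_min {b | ∀ i, F i < b} hb
  have h2 : ∀ γ < δ, ∃ i, γ ≤ F i := by
    intro γ hγ
    by_contra hcon
    push Not at hcon
    exact absurd (hmin γ hcon) (not_le.2 hγ)
  refine ⟨δ, hδ, h2, ?_, fun b hb => hmin b hb⟩
  intro γ hγ
  obtain ⟨i, hi⟩ := h2 γ hγ
  obtain ⟨j, hj⟩ := hF i
  exact ⟨F j, hi.trans_lt hj, hδ j⟩

/-- every element is a limit (or `⊥`) plus a natural number -/
theorem exists_lim_add (γ : K) : ∃ l n, IsLim l ∧ γ = Order.succ^[n] l := by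
  induction γ using WellFoundedLT.induction with
  | ind γ ih =>
    rcases isLim_or_succ γ with h | ⟨γ', rfl⟩
    · exact ⟨γ, 0, h, rfl⟩
    · obtain ⟨l, n, hl, hn⟩ := ih γ' (Order.lt_succ γ')
      refine ⟨l, n + 1, hl, ?_⟩
      rw [Function.iterate_succ_apply', ← hn]

theorem lim_add_uniq {l l' : K} {n n' : ℕ} (hl : IsLim l) (hl' : IsLim l')
    (h : Order.succ^[n] l = Order.succ^[n'] l') : l = l' ∧ n = n' := by
  induction n generalizing n' with
  | zero =>
    cases n' with
    | zero => exact ⟨h, rfl⟩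
    | succ k =>
      rw [Function.iterate_succ_apply'] at h
      simp only [Function.iterate_zero, id] at h
      rw [h] at hl
      exact absurd hl (not_isLim_succ _)
  | succ n ih =>
    cases n' with
    | zero =>
      rw [Function.iterate_succ_apply'] at h
      simp only [Function.iterate_zero, id] at h
      rw [← h] at hl'
      exact absurd hl' (not_isLim_succ _)
    | succ k =>
      rw [Function.iterate_succ_apply', Function.iterate_succ_apply'] at h
      obtain ⟨h1, h2⟩ := ih (Order.succ_injective h)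
      exact ⟨h1, by rw [h2]⟩

theorem nextLim_iter_lt (α : K) (n : ℕ) : Order.succ^[n] α < Order.succ^[n + 1] α := by
  rw [Function.iterate_succ_apply']
  exact Order.lt_succ _

/-- the limit `α + ω` -/
theorem nextLim_omega (h : Inacc K) (α : K) : ∃ β, α < β ∧ IsLim β ∧
    ∀ b, (∀ n, Order.succ^[n] α < b) → β ≤ b := by
  obtain ⟨δ, h1, -, h3, h4⟩ := nextLim_lub (fun n : ℕ => Order.succ^[n] α)
    (countable_bdd h _) (fun n => ⟨n + 1, nextLim_iter_lt α n⟩)
  exact ⟨δ, h1 0, h3, h4⟩

theorem nextLim_iter_lt_lim {α l : K} (hl : IsLim l) (hα : α < l) (n : ℕ) :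
    Order.succ^[n] α < l := by
  induction n with
  | zero => exact hα
  | succ n ih =>
    rw [Function.iterate_succ_apply']
    exact hl.succ_lt ih

/-- the least limit above `α` -/
noncomputable def nl (α : K) : K :=
  open Classical in if h : ∃ β, α < β ∧ IsLim β then
    WellFounded.min (wellFounded_lt (α := K)) {β | α < β ∧ IsLim β} h else ⊥

theorem exists_lim (h : Inacc K) (α : K) : ∃ β, α < β ∧ IsLim β := by
  obtain ⟨β, h1, h2, -⟩ := nextLim_omega h α
  exact ⟨β, h1, h2⟩

theorem nextLim_nl (h : Inacc K) (α : K) :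
    (α < nl α ∧ IsLim (nl α)) ∧ ∀ β, α < β → IsLim β → nl α ≤ β := by
  have h1 := exists_lim h α
  have hwf : WellFounded ((· < ·) : K → K → Prop) := wellFounded_lt
  unfold nl
  rw [dif_pos h1]
  exact ⟨hwf.min_mem {β | α < β ∧ IsLim β} h1, fun β hβ hβ' =>
    not_lt.1 (hwf.not_lt_min {β | α < β ∧ IsLim β} (show β ∈ _ from ⟨hβ, hβ'⟩))⟩

theorem lt_nl (h : Inacc K) (α : K) : α < nl α := (nextLim_nl h α).1.1

theorem isLim_nl (h : Inacc K) (α : K) : IsLim (nl α) := (nextLim_nl h α).1.2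

theorem nl_le (h : Inacc K) {α β : K} (hβ : IsLim β) (hα : α < β) : nl α ≤ β :=
  (nextLim_nl h α).2 β hα hβ

theorem nl_mono (h : Inacc K) {α β : K} (hα : α ≤ β) : nl α ≤ nl β :=
  nl_le h (isLim_nl h β) (hα.trans_lt (lt_nl h β))

theorem nextLim_nl_le_of (h : Inacc K) {α b : K} (hb : ∀ n, Order.succ^[n] α < b) :
    nl α ≤ b := by
  obtain ⟨β, h1, h2, h3⟩ := nextLim_omega h α
  exact (nl_le h h2 h1).trans (h3 b hb)

theorem not_cofU_nl (h : Inacc K) (α : K) : ¬ CofU (nl α) := by
  intro hc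
  obtain ⟨b, hb, hb'⟩ := hc (fun n => Order.succ^[n] α)
    (fun n => nextLim_iter_lt_lim (isLim_nl h α) (lt_nl h α) n)
  exact absurd (nextLim_nl_le_of h (fun n => (nextLim_iter_lt α n).trans_le (hb' (n + 1))))
    (not_le.2 hb)

theorem nl_succ (h : Inacc K) (α : K) : nl (Order.succ α) = nl α :=
  le_antisymm (nl_le h (isLim_nl h α) ((isLim_nl h α).succ_lt (lt_nl h α)))
    (nl_mono h (Order.le_succ α))

theorem lt_nl_iff (h : Inacc K) (α β : K) (hα : IsLim α) (h1 : α ≤ β) : β < nl α ↔ ∃ n : ℕ, β = Order.succ^[n] α := by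
  constructor
  · intro hβ
    obtain ⟨l, n, hl, hn⟩ := exists_lim_add β
    rcases lt_trichotomy l α with hlt | heq | hgt
    · have h2 := nextLim_iter_lt_lim hα hlt n
      rw [← hn] at h2
      exact absurd h1 (not_le.2 h2)
    · exact ⟨n, by rw [← heq]; exact hn⟩
    · have h2 : l ≤ β := by
        rw [hn]
        clear hn
        induction n with
        | zero => exact le_rfl
        | succ n ih => exact ih.trans (nextLim_iter_lt l n).le
      exact absurd (nl_le h hl hgt) (not_le.2 (h2.trans_lt hβ))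
  · rintro ⟨n, rfl⟩
    exact nextLim_iter_lt_lim (isLim_nl h α) (lt_nl h α) n

/-- for a limit of uncountable cofinality -/
theorem nl_lt_of_cofU (h : Inacc K) {α l : K} (hl : IsLim l) (hc : CofU l) (hα : α < l) :
    nl α < l := by
  obtain ⟨b, hb, hb'⟩ := hc (fun n => Order.succ^[n] α) (fun n => nextLim_iter_lt_lim hl hα n)
  exact (nextLim_nl_le_of h (fun n => (nextLim_iter_lt α n).trans_le (hb' (n + 1)))).trans_lt hb

/-- a limit which is not `CofU` has a strictly increasing cofinal sequence -/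
theorem exists_seq (h : Inacc K) {l : K} (hl : IsLim l) (hc : ¬ CofU l) :
    ∃ s : ℕ → K, StrictMono s ∧ (∀ n, s n < l) ∧ ∀ a < l, ∃ n, a < s n := by
  unfold CofU at hc
  push Not at hc
  obtain ⟨t, ht, htb⟩ := hc
  let s : ℕ → K := fun n => Nat.rec (t 0) (fun n x => max (Order.succ x) (t (n + 1))) n
  have hs0 : s 0 = t 0 := rfl
  have hsS : ∀ n, s (n + 1) = max (Order.succ (s n)) (t (n + 1)) := fun n => rfl
  have h1 : ∀ n, s n < l := by
    intro n
    induction n with
    | zero => exact ht 0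
    | succ n ih =>
      rw [hsS]
      exact max_lt (hl.succ_lt ih) (ht (n + 1))
  have h2 : ∀ n, t n ≤ s n := by
    intro n
    cases n with
    | zero => exact le_rfl
    | succ n =>
      rw [hsS]
      exact le_max_right _ _
  refine ⟨s, strictMono_nat_of_lt_succ fun n => ?_, h1, fun a ha => ?_⟩
  · rw [hsS]
    exact (Order.lt_succ (s n)).trans_le (le_max_left _ _)
  · obtain ⟨n, hn⟩ := htb a ha
    exact ⟨n, hn.trans_le (h2 n)⟩

/-- there is an uncountable initial segment all of whose proper initial segments are countable -/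
theorem nextLim_omega1 (h : Inacc K) : ∃ w : K, ¬ (Set.Iio w).Countable ∧
    ∀ x < w, (Set.Iio x).Countable := by
  have hal : (ℵ₁ : Cardinal.{u}) < #K := by
    have h1 : (ℵ₁ : Cardinal.{u}) ≤ 2 ^ (ℵ₀ : Cardinal.{u}) := by
      rw [← succ_aleph0]
      exact Order.succ_le_of_lt (cantor _)
    exact h1.trans_lt (h.card.isStrongLimit.two_power_lt h.card.aleph0_lt)
  obtain ⟨S, hS⟩ := le_mk_iff_exists_set.1 hal.le
  obtain ⟨b, hb⟩ := bdd_small h S (by rw [hS]; exact hal)
  have hbc : ¬ (Set.Iio b).Countable := by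
    intro hc
    have h2 : S.Countable := hc.mono fun x hx => hb x hx
    have h3 := le_aleph0_iff_set_countable.mpr h2
    rw [hS] at h3
    exact absurd h3 (not_le.2 (by rw [← succ_aleph0]; exact Order.lt_succ _))
  obtain ⟨w, hw, hmin⟩ := nextLim_min {x : K | ¬ (Set.Iio x).Countable} ⟨b, hbc⟩
  refine ⟨w, hw, fun x hx => ?_⟩
  by_contra hcon
  exact absurd (hmin x hcon) (not_le.2 hx)

theorem exists_closed (h : Inacc K) (f : K → K) (a : K) :
    ∃ δ, a < δ ∧ IsLim δ ∧ CofU δ ∧ ∀ γ < δ, f γ < δ := by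
  obtain ⟨w, hw, hwc⟩ := nextLim_omega1 h
  -- `w` is a limit and countable subsets of `w` are bounded
  have hwb : ∀ s : ℕ → K, (∀ n, s n < w) → ∃ x < w, ∀ n, s n < x := by
    intro s hs
    by_contra hcon
    push Not at hcon
    apply hw
    have h1 : Set.Iio w ⊆ ⋃ n, Set.Iio (Order.succ (s n)) := by
      intro x hx
      obtain ⟨n, hn⟩ := hcon x hx
      exact Set.mem_iUnion.2 ⟨n, Order.lt_succ_iff.2 hn⟩
    refine (Set.countable_iUnion fun n => ?_).mono h1
    have h2 : Set.Iio (Order.succ (s n)) = insert (s n) (Set.Iio (s n)) := by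
      ext x
      simp only [Set.mem_Iio, Set.mem_insert_iff, Order.lt_succ_iff, le_iff_eq_or_lt]
    rw [h2]
    exact (hwc _ (hs n)).insert _
  obtain ⟨g, hgdef⟩ : ∃ g : K → K, g = fun x =>
    max (Order.succ x) (nextLimUb (f '' Set.Iio (Order.succ x))) := ⟨_, rfl⟩
  have hg1 : ∀ x, x < g x := fun x => by
    rw [hgdef]
    exact (Order.lt_succ x).trans_le (le_max_left _ _)
  have hg2 : ∀ x γ, γ ≤ x → f γ < g x := fun x γ hγ => by
    rw [hgdef]
    refine lt_of_lt_of_le ?_ (le_max_right _ _)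
    exact nextLim_lt_ub h (nextLim_small_image h f _) ⟨γ, Order.lt_succ_iff.2 hγ, rfl⟩
  obtain ⟨F, hFdef⟩ : ∃ F : K → K, F =
    nextLimRec (fun S => max (Order.succ a) (nextLimUb (g '' S))) := ⟨_, rfl⟩
  have hF : ∀ x, F x = max (Order.succ a) (nextLimUb (g '' (F '' Set.Iio x))) := fun x => by
    rw [hFdef]
    exact nextLimRec_eq _ x
  have hF1 : ∀ x, a < F x := fun x => by
    rw [hF]
    exact (Order.lt_succ a).trans_le (le_max_left _ _)
  have hF2 : ∀ j x, j < x → g (F j) < F x := fun j x hj => by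
    rw [hF x]
    refine lt_of_lt_of_le ?_ (le_max_right _ _)
    refine nextLim_lt_ub h ?_ ⟨F j, ⟨j, hj, rfl⟩, rfl⟩
    rw [Set.image_image]
    exact nextLim_small_image h _ x
  have hF3 : ∀ j x, j < x → F j < F x := fun j x hj => (hg1 _).trans (hF2 j x hj)
  have hwlim : ∀ j < w, ∃ x, j < x ∧ x < w := by
    intro j hj
    obtain ⟨x, hx, hx'⟩ := hwb (fun _ => j) (fun _ => hj)
    exact ⟨x, hx' 0, hx⟩
  have hwne : (Set.Iio w).Nonempty := by
    by_contra hcon
    rw [Set.not_nonempty_iff_eq_empty] at hcon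
    rw [hcon] at hw
    exact hw Set.countable_empty
  obtain ⟨δ, h1, h2, h3, -⟩ := nextLim_lub (fun i : Set.Iio w => F i.1)
    ⟨nextLimUb (F '' Set.Iio w), fun i => nextLim_lt_ub h (nextLim_small_image h F w)
      ⟨i.1, i.2, rfl⟩⟩ (fun i => by
      obtain ⟨x, hx, hx'⟩ := hwlim i.1 i.2
      exact ⟨⟨x, hx'⟩, hF3 _ _ hx⟩)
  obtain ⟨j0, hj0⟩ := hwne
  refine ⟨δ, (hF1 j0).trans (h1 ⟨j0, hj0⟩), h3, ?_, ?_⟩
  · intro s hs
    have h4 : ∀ n, ∃ i : Set.Iio w, s n ≤ F i.1 := fun n => h2 _ (hs n)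
    choose i hi using h4
    obtain ⟨x, hx, hx'⟩ := hwb (fun n => (i n).1) (fun n => (i n).2)
    exact ⟨F x, h1 ⟨x, hx⟩, fun n => (hi n).trans (hF3 _ _ (hx' n)).le⟩
  · intro γ hγ
    obtain ⟨i, hi⟩ := h2 γ hγ
    obtain ⟨x, hx, hx'⟩ := hwlim i.1 i.2
    exact (hg2 _ _ hi).trans ((hF2 _ _ hx).trans (h1 ⟨x, hx'⟩))

/-- there are `#K` many limits -/
theorem exists_lim_inj (h : Inacc K) : ∃ ι : K → K, Function.Injective ι ∧ ∀ γ, IsLim (ι γ) := by
  obtain ⟨F, hFdef⟩ : ∃ F : K → K, F = nextLimRec (fun S => nl (nextLimUb S)) := ⟨_, rfl⟩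
  have hF : ∀ x, F x = nl (nextLimUb (F '' Set.Iio x)) := fun x => by
    rw [hFdef]
    exact nextLimRec_eq _ x
  have hmono : StrictMono F := by
    intro j x hj
    rw [hF x]
    exact (nextLim_lt_ub h (nextLim_small_image h F x) ⟨j, hj, rfl⟩).trans (lt_nl h _)
  refine ⟨F, hmono.injective, fun γ => ?_⟩
  rw [hF γ]
  exact isLim_nl h _

end Pool.Agent.W_MP_315f31_lc
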