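import Pool.Agent.W_MP_315f31_lc.Defs

/-!
# MP_315f31_lc : the orders `le β`

Everything follows from `Dat.le_iff` and the requirements `OkB D β`.  Order of the proofs:
`le_refl` and `Dec_uniq` together by strong induction on `β` (`Dec_uniq` at stage `γ` needs `le γ`
reflexive: if `r` decides both `x < y`, then `r` is compatible with some `(u, x) ∈ nm k`, namely `r ≤ u`,
against the minimality for `y`); `Dec_dense` (take the least `x` such that some `(u, x) ∈ nm k` is
compatible with some / the condition `p`, a common lower bound decides `x`; if there is none `p` decides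
`⊥`); `le_trans` by strong induction on `β` (with `Dec_dense`, `Dec_mono` and `OkB.reg`: to get
`J γ x z r` it is enough to have it densely below `r`, there the middle name is decided).
-/

universe u

open Cardinal Set

namespace Pool.Agent.W_MP_315f31_lc

variable {K : Type u} [LinearOrder K] [OrderBot K] [WellFoundedLT K] {D : Dat K} {β : WithTop K}

/-- monotonicity in the length, no hypothesis -/
theorem Dat.le_mono (D : Dat K) {α β : WithTop K} (h : α ≤ β) {p q : Cond K} (hpq : D.le β p q) :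
    D.le α p q := by
  rw [D.le_iff] at hpq ⊢
  intro γ hγ
  exact hpq γ (hγ.trans_le h)

/-- at length `⊥` all conditions are equivalent -/
theorem Dat.le_bot (D : Dat K) (p q : Cond K) : D.le ((⊥ : K) : WithTop K) p q := by
  rw [D.le_iff]
  intro γ hγ
  exfalso
  rw [WithTop.coe_lt_coe] at hγ
  exact not_lt_bot hγ

/-- `le β` depends only on the coordinates below `β` -/
theorem Dat.le_congr (D : Dat K) {β : WithTop K} {p p' q q' : Cond K}
    (hp : ∀ γ : K, (γ : WithTop K) < β → p γ = p' γ)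
    (hq : ∀ γ : K, (γ : WithTop K) < β → q γ = q' γ) : D.le β p q ↔ D.le β p' q' := by
  induction β using WellFoundedLT.induction generalizing p p' q q' with
  | ind β ih =>
    rw [D.le_iff, D.le_iff]
    apply forall_congr'
    intro γ
    apply forall_congr'
    intro hγ
    apply forall_congr'
    intro r
    have h1 : D.le γ r p ↔ D.le γ r p' :=
      ih γ hγ (fun _ _ => rfl) (fun γ' hγ' => hp γ' (hγ'.trans hγ))
    rw [h1, hp γ hγ, hq γ hγ]

/-- reflexivity and uniqueness at one stage -/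
theorem Dat.ord_uniq_of_refl {D : Dat K} {β : WithTop K} (hr : ∀ p, D.le β p p) {p : Cond K}
    {k x y : K} (hx : D.Dec β p k x) (hy : D.Dec β p k y) : x = y := by
  have key : ∀ x y : K, D.Dec β p k x → D.Dec β p k y → ¬ x < y := by
    intro x y hx hy hlt
    rcases hx with ⟨⟨u, hu, hpu⟩, -⟩ | ⟨hx0, hxa⟩
    · rcases hy with ⟨-, hy2⟩ | ⟨-, hya⟩
      · exact hy2 x hlt u hu ⟨p, hr p, hpu⟩
      · exact hya x u hu ⟨p, hr p, hpu⟩
    · rcases hy with ⟨⟨u, hu, hpu⟩, -⟩ | ⟨hy0, -⟩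
      · exact hxa y u hu ⟨p, hr p, hpu⟩
      · rw [hx0, hy0] at hlt
        exact lt_irrefl _ hlt
  rcases lt_trichotomy x y with h | h | h
  · exact absurd h (key x y hx hy)
  · exact h
  · exact absurd h (key y x hy hx)

theorem Dat.le_refl (h : OkB D β) (p : Cond K) : D.le β p p := by
  induction β using WellFoundedLT.induction generalizing p with
  | ind β ih =>
    rw [D.le_iff]
    intro γ hγ r hr x y hx hy
    have hxy : x = y :=
      Dat.ord_uniq_of_refl (fun p => ih γ hγ (h.mono_top hγ.le) p) hx hy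
    rw [hxy]
    exact h.refl γ hγ y r

theorem Dat.Dec_uniq (h : OkB D β) {p : Cond K} {k x y : K} (hx : D.Dec β p k x)
    (hy : D.Dec β p k y) : x = y :=
  Dat.ord_uniq_of_refl (fun p => Dat.le_refl h p) hx hy

/-- monotonicity from transitivity at one stage -/
theorem Dat.ord_inc_of_trans {D : Dat K} {β : WithTop K}
    (ht : ∀ p q r, D.le β p q → D.le β q r → D.le β p r) {p p' q : Cond K} (hi : D.Inc β p q)
    (hp : D.le β p' p) : D.Inc β p' q := by
  rintro ⟨w, hw1, hw2⟩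
  exact hi ⟨w, ht _ _ _ hw1 hp, hw2⟩

theorem Dat.ord_mono_of_trans {D : Dat K} {β : WithTop K}
    (ht : ∀ p q r, D.le β p q → D.le β q r → D.le β p r) {p q : Cond K} {k x : K}
    (hp : D.Dec β p k x) (hq : D.le β q p) : D.Dec β q k x := by
  rcases hp with ⟨⟨u, hu, hpu⟩, h2⟩ | ⟨h0, h2⟩
  · left
    refine ⟨⟨u, hu, ht _ _ _ hq hpu⟩, ?_⟩
    intro y hy v hv
    exact Dat.ord_inc_of_trans ht (h2 y hy v hv) hq
  · right
    refine ⟨h0, ?_⟩
    intro y v hv
    exact Dat.ord_inc_of_trans ht (h2 y v hv) hq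

theorem Dat.ord_dense_of_trans {D : Dat K} {β : WithTop K} (hr : ∀ p, D.le β p p)
    (ht : ∀ p q r, D.le β p q → D.le β q r → D.le β p r) (p : Cond K) (k : K) :
    ∃ q x, D.le β q p ∧ D.Dec β q k x := by
  classical
  by_cases hex : ∃ y : K, ∃ v, (v, y) ∈ D.nm k ∧ ∃ w, D.le β w p ∧ D.le β w v
  · obtain ⟨y, ⟨v, hv, w, hw1, hw2⟩, hmin⟩ :=
      WellFounded.has_min (wellFounded_lt (α := K))
        {y : K | ∃ v, (v, y) ∈ D.nm k ∧ ∃ w, D.le β w p ∧ D.le β w v} hex
    refine ⟨w, y, hw1, Or.inl ⟨⟨v, hv, hw2⟩, ?_⟩⟩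
    rintro y' hy' v' hv' ⟨w', hw1', hw2'⟩
    exact hmin y' ⟨v', hv', w', ht _ _ _ hw1' hw1, hw2'⟩ hy'
  · refine ⟨p, ⊥, hr p, Or.inr ⟨rfl, ?_⟩⟩
    rintro y v hv ⟨w, hw1, hw2⟩
    exact hex ⟨y, v, hv, w, hw1, hw2⟩

theorem Dat.le_trans (h : OkB D β) {p q r : Cond K} (h1 : D.le β p q) (h2 : D.le β q r) :
    D.le β p r := by
  induction β using WellFoundedLT.induction generalizing p q r with
  | ind β ih =>
    rw [D.le_iff]
    intro γ hγ s hs x z hx hz
    have hγ' := h.mono_top hγ.le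
    have ht : ∀ p q r, D.le γ p q → D.le γ q r → D.le γ p r := fun p q r => ih γ hγ hγ'
    have hr : ∀ p, D.le γ p p := fun p => Dat.le_refl hγ' p
    apply h.reg γ hγ
    intro s' hs'
    obtain ⟨s'', y, hs'', hy⟩ := Dat.ord_dense_of_trans hr ht s' (q γ)
    have hss : D.le γ s'' s := ht _ _ _ hs'' hs'
    have hsp : D.le γ s'' p := ht _ _ _ hss hs
    have hsq : D.le γ s'' q := ht _ _ _ hsp (D.le_mono hγ.le h1)
    refine ⟨s'', hs'', ?_⟩
    apply h.trans γ hγ x y z s''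
    · exact (D.le_iff β p q).1 h1 γ hγ s'' hsp x y (Dat.ord_mono_of_trans ht hx hss) hy
    · exact (D.le_iff β q r).1 h2 γ hγ s'' hsq y z hy (Dat.ord_mono_of_trans ht hz hss)

theorem Dat.Dec_mono (h : OkB D β) {p q : Cond K} {k x : K} (hp : D.Dec β p k x)
    (hq : D.le β q p) : D.Dec β q k x :=
  Dat.ord_mono_of_trans (fun _ _ _ => Dat.le_trans h) hp hq

theorem Dat.Dec_dense (h : OkB D β) (p : Cond K) (k : K) : ∃ q x, D.le β q p ∧ D.Dec β q k x :=
  Dat.ord_dense_of_trans (fun p => Dat.le_refl h p) (fun _ _ _ => Dat.le_trans h) p k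

theorem Dat.Dec_bot (h : OkB D β) (p : Cond K) : D.Dec β p ⊥ ⊥ := by
  right
  refine ⟨rfl, ?_⟩
  intro y v hv
  rw [h.nm_bot] at hv
  exact absurd hv (Set.notMem_empty _)

/-- `Dec` depends only on the coordinates below `β` -/
theorem Dat.Dec_congr (D : Dat K) {β : WithTop K} {p p' : Cond K} {k x : K}
    (hp : ∀ γ : K, (γ : WithTop K) < β → p γ = p' γ) : D.Dec β p k x ↔ D.Dec β p' k x := by
  have h1 : ∀ u, D.le β p u ↔ D.le β p' u := fun u => D.le_congr hp (fun _ _ => rfl)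
  have h2 : ∀ v, IncR (D.le β) p v ↔ IncR (D.le β) p' v := by
    intro v
    unfold IncR
    have h3 : ∀ w, D.le β w p ↔ D.le β w p' := fun w => D.le_congr (fun _ _ => rfl) hp
    simp only [h3]
  unfold Dat.Dec DecR
  simp only [h1, h2]

theorem Dat.le_one (h : OkB D β) (p : Cond K) : D.le β p Cond.one := by
  rw [D.le_iff]
  intro γ hγ r hr x y hx hy
  have hy' : D.Dec γ r ⊥ y := hy
  have h1 : y = ⊥ := Dat.Dec_uniq (h.mono_top hγ.le) hy' (Dat.Dec_bot (h.mono_top hγ.le) r)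
  rw [h1]
  exact h.top γ hγ x r

theorem Dat.Inc_mono (h : OkB D β) {p p' q : Cond K} (hi : D.Inc β p q) (hp : D.le β p' p) :
    D.Inc β p' q :=
  Dat.ord_inc_of_trans (fun _ _ _ => Dat.le_trans h) hi hp

theorem Dat.Inc_symm {p q : Cond K} (hi : D.Inc β p q) : D.Inc β q p := by
  rintro ⟨w, hw1, hw2⟩
  exact hi ⟨w, hw2, hw1⟩

/-! ### comparison of names -/

theorem Dat.le_iff_FL (D : Dat K) (β : WithTop K) (p q : Cond K) :
    D.le β p q ↔ ∀ γ : K, (γ : WithTop K) < β → D.FL γ p (p γ) (q γ) := by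
  rw [D.le_iff]
  rfl

theorem Dat.FL_mono {γ : K} (h : OkB D γ) {p q : Cond K} {a b : K} (hp : D.FL γ p a b)
    (hq : D.le γ q p) : D.FL γ q a b := by
  intro r hr x y hx hy
  exact hp r (Dat.le_trans h hr hq) x y hx hy

theorem Dat.FL_refl {γ : K} (h : OkB D β) (hγ : (γ : WithTop K) < β) (p : Cond K) (a : K) :
    D.FL γ p a a := by
  intro r hr x y hx hy
  have hxy : x = y := Dat.Dec_uniq (h.mono_top hγ.le) hx hy
  rw [hxy]
  exact h.refl γ hγ y r

theorem Dat.FL_trans {γ : K} (h : OkB D β) (hγ : (γ : WithTop K) < β) {p : Cond K} {a b c : K}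
    (h1 : D.FL γ p a b) (h2 : D.FL γ p b c) : D.FL γ p a c := by
  have hγ' := h.mono_top hγ.le
  intro s hs x z hx hz
  apply h.reg γ hγ
  intro s' hs'
  obtain ⟨s'', y, hs'', hy⟩ := Dat.Dec_dense hγ' s' b
  have hss : D.le γ s'' s := Dat.le_trans hγ' hs'' hs'
  have hsp : D.le γ s'' p := Dat.le_trans hγ' hss hs
  refine ⟨s'', hs'', ?_⟩
  apply h.trans γ hγ x y z s''
  · exact h1 s'' hsp x y (Dat.Dec_mono hγ' hx hss) hy
  · exact h2 s'' hsp y z hy (Dat.Dec_mono hγ' hz hss)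

/-- it is enough to compare densely below `p` -/
theorem Dat.FL_of_dense {γ : K} (h : OkB D β) (hγ : (γ : WithTop K) < β) {p : Cond K} {a b : K}
    (hd : ∀ q, D.le γ q p → ∃ r, D.le γ r q ∧ D.FL γ r a b) : D.FL γ p a b := by
  have hγ' := h.mono_top hγ.le
  intro s hs x y hx hy
  apply h.reg γ hγ
  intro q hq
  obtain ⟨r, hr, hF⟩ := hd q (Dat.le_trans hγ' hq hs)
  have hrs : D.le γ r s := Dat.le_trans hγ' hr hq
  exact ⟨r, hr, hF r (Dat.le_refl hγ' r) x y (Dat.Dec_mono hγ' hx hrs) (Dat.Dec_mono hγ' hy hrs)⟩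

theorem Dat.FL_top {γ : K} (h : OkB D β) (hγ : (γ : WithTop K) < β) (p : Cond K) (a : K) :
    D.FL γ p a ⊥ := by
  intro r hr x y hx hy
  have h1 : y = ⊥ := Dat.Dec_uniq (h.mono_top hγ.le) hy (Dat.Dec_bot (h.mono_top hγ.le) r)
  rw [h1]
  exact h.top γ hγ x r

/-- if the values are decided, the comparison of names is the comparison of the values -/
theorem Dat.FL_iff {γ : K} (h : OkB D β) (hγ : (γ : WithTop K) < β) {p : Cond K} {a b x y : K}
    (ha : D.Dec γ p a x) (hb : D.Dec γ p b y) : D.FL γ p a b ↔ D.J γ x y p := by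
  have hγ' := h.mono_top hγ.le
  constructor
  · intro hF
    exact hF p (Dat.le_refl hγ' p) x y ha hb
  · intro hJ r hr x' y' hx' hy'
    have e1 : x' = x := Dat.Dec_uniq hγ' hx' (Dat.Dec_mono hγ' ha hr)
    have e2 : y' = y := Dat.Dec_uniq hγ' hy' (Dat.Dec_mono hγ' hb hr)
    rw [e1, e2]
    exact h.mono γ hγ x y p r hJ hr

/-- `FL` depends only on the coordinates of the condition below `γ`. -/
theorem Dat.ord_FL_congr (D : Dat K) {γ : K} {p p' : Cond K} {a b : K}
    (hp : ∀ δ : K, δ < γ → p δ = p' δ) : D.FL γ p a b ↔ D.FL γ p' a b := by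
  have h1 : ∀ r, D.le γ r p ↔ D.le γ r p' := fun r =>
    D.le_congr (fun _ _ => rfl) (fun δ hδ => hp δ (WithTop.coe_lt_coe.1 hδ))
  unfold Dat.FL
  simp only [h1]

/-! ### glueing -/

theorem Dat.ord_glue_FL (D : Dat K) {α : WithTop K} (w r : Cond K) {γ : K}
    (hγ : (γ : WithTop K) ≤ α) {a b : K} : D.FL γ (Cond.glue α w r) a b ↔ D.FL γ w a b := by
  apply D.ord_FL_congr
  intro δ hδ
  exact Cond.glue_of_lt w r ((WithTop.coe_lt_coe.2 hδ).trans_le hγ)

theorem Dat.glue_le (h : OkB D β) {α : WithTop K} {w r : Cond K} (hα : α ≤ β)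
    (hw : D.le α w r) : D.le β (Cond.glue α w r) r := by
  rw [D.le_iff_FL]
  intro γ hγ
  by_cases hγα : (γ : WithTop K) < α
  · rw [D.ord_glue_FL w r hγα.le, Cond.glue_of_lt w r hγα]
    exact (D.le_iff_FL α w r).1 hw γ hγα
  · rw [Cond.glue_of_ge w r (not_lt.1 hγα)]
    exact Dat.FL_refl h hγ _ _

theorem Dat.glue_le_left (h : OkB D β) {α : WithTop K} (hα : α ≤ β) (w r : Cond K) :
    D.le α (Cond.glue α w r) w ∧ D.le α w (Cond.glue α w r) := by
  have h1 := Dat.le_refl (h.mono_top hα) w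
  constructor
  · rw [D.le_congr (p' := w) (q' := w) (fun γ hγ => Cond.glue_of_lt w r hγ) (fun _ _ => rfl)]
    exact h1
  · rw [D.le_congr (p' := w) (q' := w) (fun _ _ => rfl) (fun γ hγ => Cond.glue_of_lt w r hγ)]
    exact h1

/-- comparison of glued conditions -/
theorem Dat.glue_le_iff (h : OkB D β) {α : WithTop K} (hα : α ≤ β) (w r p : Cond K) :
    D.le β (Cond.glue α w r) p ↔ D.le α w p ∧
      ∀ γ : K, α ≤ (γ : WithTop K) → (γ : WithTop K) < β → D.FL γ (Cond.glue α w r) (r γ) (p γ) := by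
  rw [D.le_iff_FL, D.le_iff_FL α w p]
  constructor
  · intro hF
    constructor
    · intro γ hγ
      have h1 := hF γ (hγ.trans_le hα)
      rw [D.ord_glue_FL w r hγ.le, Cond.glue_of_lt w r hγ] at h1
      exact h1
    · intro γ h1 h2
      have h3 := hF γ h2
      rw [Cond.glue_of_ge w r h1] at h3
      exact h3
  · rintro ⟨h1, h2⟩ γ hγ
    by_cases hγα : (γ : WithTop K) < α
    · rw [D.ord_glue_FL w r hγα.le, Cond.glue_of_lt w r hγα]
      exact h1 γ hγα
    · rw [Cond.glue_of_ge w r (not_lt.1 hγα)]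
      exact h2 γ (not_lt.1 hγα) hγ

theorem Cond.glue_one_of_bnd {δ : K} {q : Cond K} (hq : Bnd q δ) : Cond.glue (δ : WithTop K) q Cond.one = q := by
  apply Cond.ext
  intro γ
  by_cases h : (γ : WithTop K) < (δ : WithTop K)
  · exact Cond.glue_of_lt q Cond.one h
  · rw [Cond.glue_of_ge q Cond.one (not_lt.1 h)]
    by_contra hne
    have h1 : q γ ≠ ⊥ := fun h0 => hne h0.symm
    exact h (WithTop.coe_lt_coe.2 (hq γ h1).1)

theorem Dat.one_le_of_supp (h : OkB D β) {α : WithTop K} (hα : α ≤ β) {p q : Cond K}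
    (hpq : D.le α p q) (hq : ∀ γ : K, α ≤ (γ : WithTop K) → q γ = ⊥) : D.le β p q := by
  rw [D.le_iff_FL]
  intro γ hγ
  by_cases hγα : (γ : WithTop K) < α
  · exact (D.le_iff_FL α p q).1 hpq γ hγα
  · rw [hq γ (not_lt.1 hγα)]
    exact Dat.FL_top h hγ _ _

/-- for conditions bounded by `δ`, `le δ` is `le β` (`δ ≤ β`) -/
theorem Dat.le_iff_of_bnd (h : OkB D β) {δ : K} (hδ : (δ : WithTop K) ≤ β) {p q : Cond K}
    (hq : Bnd q δ) : D.le β p q ↔ D.le δ p q := by
  constructor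
  · exact D.le_mono hδ
  · intro h1
    apply Dat.one_le_of_supp h hδ h1
    intro γ hγ
    by_contra hne
    exact absurd (WithTop.coe_lt_coe.2 (hq γ hne).1) (not_lt.2 hγ)

/-! ### successors and limits -/

theorem Dat.le_succ_iff [SuccOrder K] [NoMaxOrder K] (D : Dat K) (γ : K) (p q : Cond K) :
    D.le (Order.succ γ : K) p q ↔ D.le γ p q ∧ D.FL γ p (p γ) (q γ) := by
  rw [D.le_iff_FL, D.le_iff_FL γ p q]
  constructor
  · intro hF
    refine ⟨fun δ hδ => hF δ ?_, hF γ ?_⟩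
    · rw [WithTop.coe_lt_coe] at hδ ⊢
      exact Order.lt_succ_of_le hδ.le
    · rw [WithTop.coe_lt_coe]
      exact Order.lt_succ γ
  · rintro ⟨h1, h2⟩ δ hδ
    rw [WithTop.coe_lt_coe, Order.lt_succ_iff] at hδ
    rcases lt_or_eq_of_le hδ with h | h
    · exact h1 δ (WithTop.coe_lt_coe.2 h)
    · rw [h]
      exact h2

theorem Dat.le_lim_iff (D : Dat K) {β : WithTop K}
    (hβ : ∀ γ : K, (γ : WithTop K) < β → ∃ γ' : K, γ < γ' ∧ (γ' : WithTop K) < β) (p q : Cond K) :
    D.le β p q ↔ ∀ γ : K, (γ : WithTop K) < β → D.le γ p q := by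
  constructor
  · intro h γ hγ
    exact D.le_mono hγ.le h
  · intro h
    rw [D.le_iff_FL]
    intro γ hγ
    obtain ⟨γ', h1, h2⟩ := hβ γ hγ
    exact (D.le_iff_FL γ' p q).1 (h γ' h2) γ (WithTop.coe_lt_coe.2 h1)

/-- `q ⌢ a ≤ p` -/
theorem Dat.snoc_le_iff [SuccOrder K] [NoMaxOrder K] {γ : K} (h : OkB D γ) (q : Cond K) (a : K) (p : Cond K) :
    D.le (Order.succ γ : K) (Cond.snoc γ q a) p ↔ D.le γ q p ∧ D.FL γ q a (p γ) := by
  have h0 : ∀ δ : K, δ < γ → Cond.snoc γ q a δ = q δ := fun δ hδ => Cond.snoc_of_lt q a hδ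
  rw [D.le_succ_iff, D.ord_FL_congr h0, Cond.snoc_self,
    D.le_congr (p' := q) (q' := p) (fun δ hδ => h0 δ (WithTop.coe_lt_coe.1 hδ)) (fun _ _ => rfl)]

theorem Dat.le_snoc_iff [SuccOrder K] [NoMaxOrder K] {γ : K} (h : OkB D γ) (q : Cond K) (a : K) (p : Cond K) :
    D.le (Order.succ γ : K) p (Cond.snoc γ q a) ↔ D.le γ p q ∧ D.FL γ p (p γ) a := by
  have h0 : ∀ δ : K, δ < γ → Cond.snoc γ q a δ = q δ := fun δ hδ => Cond.snoc_of_lt q a hδ
  rw [D.le_succ_iff, Cond.snoc_self,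
    D.le_congr (p' := p) (q' := q) (fun _ _ => rfl) (fun δ hδ => h0 δ (WithTop.coe_lt_coe.1 hδ))]

/-! ### names with a constant value -/

/-- there is a name of every base element -/
theorem exists_cst (h : OkB D β) (x : K) : ∃ k, D.nm k = {(Cond.one, x)} := by
  apply h.nm_surj
  rw [mk_singleton]
  exact Cardinal.one_lt_aleph0.trans_le h.inacc.card.aleph0_lt.le

/-- a name of the base element `x` -/
noncomputable def Dat.cst (D : Dat K) (x : K) : K :=
  open Classical in if h : ∃ k, D.nm k = {(Cond.one, x)} then h.choose else ⊥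

theorem Dat.ord_nm_cst (h : OkB D β) (x : K) : D.nm (D.cst x) = {(Cond.one, x)} := by
  unfold Dat.cst
  rw [dif_pos (exists_cst h x)]
  exact (exists_cst h x).choose_spec

theorem Dat.Dec_cst (h : OkB D β) (p : Cond K) (x : K) : D.Dec β p (D.cst x) x := by
  left
  rw [Dat.ord_nm_cst h x]
  refine ⟨⟨Cond.one, rfl, Dat.le_one h p⟩, ?_⟩
  intro y hy v hv
  have h1 : (v, y) = (Cond.one, x) := hv
  have h2 : y = x := congrArg Prod.snd h1
  exact absurd h2 hy.ne

end Pool.Agent.W_MP_315f31_lc
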