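import Pool.Agent.W_MP_315f31_lc.TPGood

/-!
# MP_315f31_lc : stages with lower bounds for generic paths are totally proper

Let `e : ℕ → K` enumerate the base elements of `N`.  For `s : List ℕ` the path `Φ_s` is a name of a base element in `N`:
`Φ_[] = x` and `Φ_(s ++ [n]) = e n` if `e n ≤ Φ_s`, otherwise `Φ_s`.  `Ph s y r` means that `r` decides
`Φ_s = y`.

PROOF of `tpk_of_path`.  Take `N` in a suitable club, `q` generic for `N`, `x ∈ N`, `e` an enumeration.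
For `E` with `Ob.s E ∈ N` and `DOs (le γ) (J γ) E` let
`Ê := {(u, s) | (∃ p z, (p, z) ∈ E ∧ p ∈ N ∧ z ∈ N ∧ u ≤ p ∧ ∃ k ≤ s.length, ∃ z', Ph (s.take k) z' u ∧ J γ z' z u) ∨
Inc γ u q}`.  It is dense open for `γ`: openness is clear; dense: let `(u, s)` be given, `u ≤ q` without loss of
generality, extend `u` to decide `Φ_s = z0`, `z0 ∈ N` (`Ph_mem`); the set `{p | ∃ z, J γ z z0 p ∧ (p, z) ∈ E}`
is dense open in `P_γ` and belongs to `N`, so by genericity of `q` there are `u' ≤ u`, `p ∈ N`, `u' ≤ p` and `z` (in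
`N` by closure) with `J γ z z0 p`, `(p, z) ∈ E`; `z = e n` for some `n`, and
`Ph (s ++ [n]) z u'`.  By `exists_gen'` (with the countable set of all `Ob.e Ê`) there are `N'` and `d`, `r0 ≤ q` with
`Gen N' d γ r0`; so `PGen` holds for `r0, d`.  The hypothesis `hlb` gives `r ≤ r0` and `y` below all the
elements of the path, and this gives `LBK N γ r x y`.
-/

universe u

open Cardinal Set

namespace Pool.Agent.W_MP_315f31_lc

variable {K : Type u} [LinearOrder K] [OrderBot K] [WellFoundedLT K] [SuccOrder K] [NoMaxOrder K]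
  {D : Dat K}

/-- one step of the path -/
def Dat.PhStep (D : Dat K) (γ : K) (e : ℕ → K) (n : ℕ) (T : K → Cond K → Prop) (y : K)
    (r : Cond K) : Prop :=
  ∃ y0, T y0 r ∧ ((D.J γ (e n) y0 r ∧ y = e n) ∨ ((∀ r', D.le γ r' r → ¬ D.J γ (e n) y0 r') ∧ y = y0))

/-- `Ph l y r`, where `l` is the REVERSE of the list of the choices: `r` decides the path to be at `y` -/
def Dat.PhR (D : Dat K) (γ : K) (e : ℕ → K) (x : K) : List ℕ → K → Cond K → Prop
  | [], y, _ => y = x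
  | n :: l, y, r => D.PhStep γ e n (D.PhR γ e x l) y r

/-- `r` decides `Φ_s = y` -/
def Dat.Ph (D : Dat K) (γ : K) (e : ℕ → K) (x : K) (s : List ℕ) (y : K) (r : Cond K) : Prop :=
  D.PhR γ e x s.reverse y r

theorem Dat.Ph_nil (D : Dat K) (γ : K) (e : ℕ → K) (x y : K) (r : Cond K) :
    D.Ph γ e x [] y r ↔ y = x := Iff.rfl

theorem Dat.Ph_snoc (D : Dat K) (γ : K) (e : ℕ → K) (x y : K) (s : List ℕ) (n : ℕ) (r : Cond K) :
    D.Ph γ e x (s ++ [n]) y r ↔ D.PhStep γ e n (fun y r => D.Ph γ e x s y r) y r := by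
  unfold Dat.Ph
  rw [List.reverse_append]
  exact Iff.rfl

theorem path_lt (γ : K) : ((γ : K) : WithTop K) < ((Order.succ γ : K) : WithTop K) :=
  WithTop.coe_lt_coe.mpr (Order.lt_succ γ)

theorem path_ok {γ : K} (h : OkB D (Order.succ γ : K)) : OkB D ((γ : K) : WithTop K) :=
  h.mono_top (path_lt γ).le

theorem path_mono {γ : K} (h : OkB D (Order.succ γ : K)) {e : ℕ → K} {x : K} (l : List ℕ) :
    ∀ {y : K} {r r' : Cond K}, D.PhR γ e x l y r → D.le γ r' r → D.PhR γ e x l y r' := by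
  induction l with
  | nil => exact fun hr _ => hr
  | cons n l ih =>
    rintro y r r' ⟨y0, hT, hc⟩ h'
    refine ⟨y0, ih hT h', ?_⟩
    rcases hc with ⟨h1, h2⟩ | ⟨h1, h2⟩
    · exact Or.inl ⟨h.mono γ (path_lt γ) _ _ _ _ h1 h', h2⟩
    · exact Or.inr ⟨fun r'' hr'' => h1 r'' (Dat.le_trans (path_ok h) hr'' h'), h2⟩

theorem Dat.Ph_mono {γ : K} (h : OkB D (Order.succ γ : K)) {e : ℕ → K} {x y : K} {s : List ℕ}
    {r r' : Cond K} (hr : D.Ph γ e x s y r) (h' : D.le γ r' r) : D.Ph γ e x s y r' :=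
  path_mono h _ hr h'

theorem path_uniq {γ : K} (h : OkB D (Order.succ γ : K)) {e : ℕ → K} {x : K} (l : List ℕ) :
    ∀ {y y' : K} {r : Cond K}, D.PhR γ e x l y r → D.PhR γ e x l y' r → y = y' := by
  induction l with
  | nil => exact fun h1 h2 => Eq.trans h1 (Eq.symm h2)
  | cons n l ih =>
    rintro y y' r ⟨y0, hT, hc⟩ ⟨y1, hT', hc'⟩
    have e0 := ih hT hT'
    subst e0
    have hr := Dat.le_refl (path_ok h) r
    rcases hc with ⟨h1, h2⟩ | ⟨h1, h2⟩ <;> rcases hc' with ⟨h3, h4⟩ | ⟨h3, h4⟩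
    · rw [h2, h4]
    · exact absurd h1 (h3 r hr)
    · exact absurd h3 (h1 r hr)
    · rw [h2, h4]

theorem Dat.Ph_uniq {γ : K} (h : OkB D (Order.succ γ : K)) {e : ℕ → K} {x y y' : K} {s : List ℕ}
    {r : Cond K} (hr : D.Ph γ e x s y r) (h' : D.Ph γ e x s y' r) : y = y' :=
  path_uniq h _ hr h'

theorem path_dense {γ : K} (h : OkB D (Order.succ γ : K)) (e : ℕ → K) (x : K) (l : List ℕ)
    (r : Cond K) : ∃ r' y, D.le γ r' r ∧ D.PhR γ e x l y r' := by
  induction l with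
  | nil => exact ⟨r, x, Dat.le_refl (path_ok h) r, rfl⟩
  | cons n l ih =>
    obtain ⟨r1, y0, h1, h2⟩ := ih
    by_cases hc : ∃ r', D.le γ r' r1 ∧ D.J γ (e n) y0 r'
    · obtain ⟨r2, h3, h4⟩ := hc
      exact ⟨r2, e n, Dat.le_trans (path_ok h) h3 h1, y0, path_mono h l h2 h3, Or.inl ⟨h4, rfl⟩⟩
    · push Not at hc
      exact ⟨r1, y0, h1, y0, h2, Or.inr ⟨hc, rfl⟩⟩

theorem Dat.Ph_dense {γ : K} (h : OkB D (Order.succ γ : K)) (e : ℕ → K) (x : K) (s : List ℕ)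
    (r : Cond K) : ∃ r' y, D.le γ r' r ∧ D.Ph γ e x s y r' :=
  path_dense h e x _ r

theorem path_mem {γ : K} {e : ℕ → K} {x : K} (l : List ℕ) :
    ∀ {y : K} {r : Cond K}, D.PhR γ e x l y r → y = x ∨ ∃ n, y = e n := by
  induction l with
  | nil => exact fun hr => Or.inl hr
  | cons n l ih =>
    rintro y r ⟨y0, hT, hc⟩
    rcases hc with ⟨-, h2⟩ | ⟨-, h2⟩
    · exact Or.inr ⟨n, h2⟩
    · rw [h2]
      exact ih hT

theorem Dat.Ph_mem (D : Dat K) {γ : K} {e : ℕ → K} {x y : K} {s : List ℕ} {r : Cond K}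
    (hr : D.Ph γ e x s y r) : y = x ∨ ∃ n, y = e n :=
  path_mem _ hr

/-- along the path the elements decrease -/
theorem Dat.Ph_le {γ : K} (h : OkB D (Order.succ γ : K)) {e : ℕ → K} {x y y' : K} {s s' : List ℕ}
    {r : Cond K} (hs : s <+: s') (hr : D.Ph γ e x s y r) (h' : D.Ph γ e x s' y' r) :
    D.J γ y' y r := by
  obtain ⟨t, rfl⟩ := hs
  induction t using List.reverseRecOn generalizing y' with
  | nil =>
    rw [List.append_nil] at h'
    rw [Dat.Ph_uniq h hr h']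
    exact h.refl γ (path_lt γ) _ _
  | append_singleton t n ih =>
    rw [← List.append_assoc, Dat.Ph_snoc] at h'
    obtain ⟨y0, hT, hc⟩ := h'
    have h1 := ih hT
    rcases hc with ⟨h2, h3⟩ | ⟨-, h3⟩
    · rw [h3]
      exact h.trans γ (path_lt γ) _ _ _ _ h2 h1
    · rw [h3]
      exact h1

/-- `r` forces that the path along `d` meets all dense sets in `N[G]` -/
def Dat.PGen (D : Dat K) (N : Set (Ob K)) (γ : K) (e : ℕ → K) (x : K) (d : ℕ → ℕ) (r : Cond K) :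
    Prop :=
  ∀ E, Ob.s E ∈ N → DOs (D.le γ) (D.J γ) E → ∀ r', D.le γ r' r → ∃ r'', D.le γ r'' r' ∧
    ∃ n z p z', (p, z) ∈ E ∧ Ob.c p ∈ N ∧ Ob.k z ∈ N ∧ D.le γ r'' p ∧
      D.Ph γ e x (pre d n) z' r'' ∧ D.J γ z' z r''

/-- the section of `E` at `z0`, as a subset of `Cond K × List ℕ` -/
def Dat.pathSec (D : Dat K) (γ : K) (E : Set (Cond K × K)) (z0 : K) : Set (Cond K × List ℕ) :=
  {x | ∃ z, D.J γ z z0 x.1 ∧ (x.1, z) ∈ E}

theorem path_sec_DO {γ : K} (h : OkB D (Order.succ γ : K)) {E : Set (Cond K × K)}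
    (hE : DOs (D.le γ) (D.J γ) E) (z0 : K) : D.DO γ (D.pathSec γ E z0) := by
  refine ⟨?_, ?_⟩
  · rintro p s p' s' ⟨z, h1, h2⟩ hp -
    exact ⟨z, h.mono γ (path_lt γ) _ _ _ _ h1 hp,
      hE.1 p z p' z h2 hp (h.refl γ (path_lt γ) _ _)⟩
  · intro p s
    obtain ⟨p', y', h1, h2, h3⟩ := hE.2 p z0
    exact ⟨p', s, h1, List.prefix_rfl, y', h2, h3⟩

/-- the set `Ê` -/
def Dat.pathHat (D : Dat K) (N : Set (Ob K)) (γ : K) (e : ℕ → K) (x : K) (q : Cond K)
    (E : Set (Cond K × K)) : Set (Cond K × List ℕ) :=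
  {us | (∃ p z, (p, z) ∈ E ∧ Ob.c p ∈ N ∧ Ob.k z ∈ N ∧ D.le γ us.1 p ∧
      ∃ k, k ≤ us.2.length ∧ ∃ z', D.Ph γ e x (us.2.take k) z' us.1 ∧ D.J γ z' z us.1) ∨
    D.Inc γ us.1 q}

theorem path_take {s s' : List ℕ} (hs : s <+: s') {k : ℕ} (hk : k ≤ s.length) :
    s'.take k = s.take k := by
  obtain ⟨t, rfl⟩ := hs
  rw [List.take_append_of_le_length hk]

theorem path_pre_take (d : ℕ → ℕ) {k n : ℕ} (hk : k ≤ n) : (pre d n).take k = pre d k := by
  unfold pre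
  rw [← List.map_take, List.take_range, min_eq_left hk]

theorem path_pre_succ (d : ℕ → ℕ) (n : ℕ) : pre d (n + 1) = pre d n ++ [d n] := by
  unfold pre
  rw [List.range_succ, List.map_append]
  rfl

/-- the operation giving the sections -/
noncomputable def Dat.pathOp (D : Dat K) (γ : K) : Ob K → Ob K → Ob K
  | .s E, .k z0 => .e (D.pathSec γ E z0)
  | _, _ => .k ⊥

/-- the relation used for elementarity -/
def Dat.pathRel (D : Dat K) (γ : K) (a b c d : Ob K) : Prop :=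
  ∃ E p z0 z, a = Ob.s E ∧ b = Ob.c p ∧ c = Ob.k z0 ∧ d = Ob.k z ∧ D.J γ z z0 p ∧ (p, z) ∈ E

theorem path_hat_DO {γ : K} (h : OkB D (Order.succ γ : K)) {N : Set (Ob K)} {c : ℕ → ℕ}
    {q : Cond K} (hq : D.Gen N c γ q) {e : ℕ → K} (he : ∀ x, Ob.k x ∈ N ↔ ∃ n, e n = x)
    {x : K} (hx : Ob.k x ∈ N) (hop : ∀ a ∈ N, ∀ b ∈ N, D.pathOp γ a b ∈ N)
    (hrel : ∀ a ∈ N, ∀ b ∈ N, ∀ c ∈ N, (∃ d, D.pathRel γ a b c d) → ∃ d ∈ N, D.pathRel γ a b c d)
    {E : Set (Cond K × K)} (hEN : Ob.s E ∈ N) (hE : DOs (D.le γ) (D.J γ) E) :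
    D.DO γ (D.pathHat N γ e x q E) := by
  have hok := path_ok h
  refine ⟨?_, ?_⟩
  · rintro u s u' s' hus hu hs
    rcases hus with ⟨p, z, h1, h2, h3, h4, k, hk, z', h5, h6⟩ | hi
    · refine Or.inl ⟨p, z, h1, h2, h3, Dat.le_trans hok hu h4, k, hk.trans hs.length_le, z', ?_, ?_⟩
      · simp only [path_take hs hk]
        exact Dat.Ph_mono h h5 hu
      · exact h.mono γ (path_lt γ) _ _ _ _ h6 hu
    · exact Or.inr (Dat.Inc_mono hok hi hu)
  · intro u s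
    by_cases hi : D.Inc γ u q
    · exact ⟨u, s, Dat.le_refl hok u, List.prefix_rfl, Or.inr hi⟩
    · unfold Dat.Inc IncR at hi
      rw [not_not] at hi
      obtain ⟨w, hwu, hwq⟩ := hi
      obtain ⟨w1, z0, hw1, hz0⟩ := Dat.Ph_dense h e x s w
      have hz0N : Ob.k z0 ∈ N := by
        rcases Dat.Ph_mem D hz0 with h1 | ⟨n, h1⟩
        · rw [h1]
          exact hx
        · exact (he z0).mpr ⟨n, h1.symm⟩
      have hD1N : Ob.e (D.pathSec γ E z0) ∈ N := hop _ hEN _ hz0N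
      obtain ⟨r, hr1, p, n, hpn, hpN, hrp⟩ := hq _ hD1N (path_sec_DO h hE z0) w1
        (Dat.le_trans hok hw1 hwq)
      obtain ⟨z1, hz1, hz1E⟩ := hpn
      obtain ⟨d, hdN, E', p', z0', z, hE', hp', hz0', hd, hz, hzE⟩ := hrel _ hEN _ hpN _ hz0N
        ⟨Ob.k z1, E, p, z0, z1, rfl, rfl, rfl, rfl, hz1, hz1E⟩
      cases hE'
      cases hp'
      cases hz0'
      subst hd
      obtain ⟨m, hm⟩ := (he z).mp hdN
      have hrw1 : D.le γ r w1 := hr1
      have hph : D.Ph γ e x (s ++ [m]) z r := by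
        rw [Dat.Ph_snoc]
        refine ⟨z0, Dat.Ph_mono h hz0 hrw1, Or.inl ⟨?_, hm.symm⟩⟩
        rw [hm]
        exact h.mono γ (path_lt γ) _ _ _ _ hz hrp
      refine ⟨r, s ++ [m], Dat.le_trans hok hrw1 (Dat.le_trans hok hw1 hwu),
        List.prefix_append _ _, Or.inl ⟨p, z, hzE, hpN, hdN, hrp, (s ++ [m]).length, le_rfl, z,
          ?_, h.refl γ (path_lt γ) _ _⟩⟩
      simp only [List.take_length]
      exact hph

theorem Dat.tpk_of_path {γ : K} (h : OkB D (Order.succ γ : K))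
    (hg : ∀ γ' : K, γ' < γ → D.Good γ')
    (hlb : IsClub {N : Set (Ob K) | ∀ c q, D.Gen N c γ q → ∀ e : ℕ → K,
      (∀ x, Ob.k x ∈ N ↔ ∃ n, e n = x) → ∀ x, Ob.k x ∈ N → ∀ d r, D.le γ r q →
      D.PGen N γ e x d r → ∃ r' y, D.le γ r' r ∧ ∀ n r'' z, D.le γ r'' r' →
        D.Ph γ e x (pre d n) z r'' → D.J γ y z r''}) : D.TPK γ := by
  have hok := path_ok h
  refine ((hlb.inter IsClub.ctbl).inter ((IsClub.fn2 (D.pathOp γ)).inter
    (IsClub.rel3 (D.pathRel γ)))).mono ?_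
  rintro N ⟨⟨hN1, hN2⟩, hN3, hN4⟩
  intro c q hq x hx
  -- enumeration of the base elements of `N`
  obtain ⟨e, he⟩ : ∃ e : ℕ → K, ∀ x, Ob.k x ∈ N ↔ ∃ n, e n = x := by
    have hc : {y : K | Ob.k y ∈ N}.Countable :=
      Set.Countable.preimage_of_injOn hN2 (fun a _ b _ hab => by cases hab; rfl)
    obtain ⟨e, he⟩ := hc.exists_eq_range ⟨x, hx⟩
    refine ⟨e, fun y => ?_⟩
    have : y ∈ {y : K | Ob.k y ∈ N} ↔ y ∈ Set.range e := by rw [he]
    exact this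
  -- the Cohen real
  have hA : {a : Ob K | ∃ E, Ob.s E ∈ N ∧ a = Ob.e (D.pathHat N γ e x q E)}.Countable := by
    have h1 : (N.image (fun a : Ob K => match a with
        | .s E => Ob.e (D.pathHat N γ e x q E)
        | _ => Ob.k ⊥)).Countable := hN2.image _
    refine h1.mono ?_
    rintro a ⟨E, hE, rfl⟩
    exact ⟨Ob.s E, hE, rfl⟩
  obtain ⟨N', -, -, hAN', -, d, r0, -, hr0q, hgen⟩ :=
    Dat.exists_gen' hok (fun γ' hγ' => hg γ' (WithTop.coe_lt_coe.mp hγ')) IsClub.univ hA q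
  have hPG : D.PGen N γ e x d r0 := by
    intro E hEN hE r' hr'
    obtain ⟨r, hr, u, n, hun, -, hru⟩ := hgen _ (hAN' ⟨E, hEN, rfl⟩)
      (path_hat_DO h hq he hx hN3 hN4 hEN hE) r' hr'
    rcases hun with ⟨p, z, h1, h2, h3, h4, k, hk, z', h5, h6⟩ | hi
    · refine ⟨r, hr, k, z, p, z', h1, h2, h3, Dat.le_trans hok hru h4, ?_, ?_⟩
      · have hk' : k ≤ n := by simpa [pre] using hk
        simp only [path_pre_take d hk'] at h5
        exact Dat.Ph_mono h h5 hru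
      · exact h.mono γ (path_lt γ) _ _ _ _ h6 hru
    · exact absurd ⟨r, hru, Dat.le_trans hok hr (Dat.le_trans hok hr' hr0q)⟩ hi
  obtain ⟨r', y, hr', hy⟩ := hN1 c q hq e he x hx d r0 hr0q hPG
  refine ⟨r', y, Dat.le_trans hok hr' hr0q, ?_, ?_⟩
  · exact hy 0 r' x (Dat.le_refl hok r') rfl
  · intro E hEN hE r1 hr1
    obtain ⟨r'', hr'', n, z, p, z', h1, h2, h3, h4, h5, h6⟩ := hPG E hEN hE r1
      (Dat.le_trans hok hr1 hr')
    refine ⟨r'', hr'', p, z, h1, h2, h3, h4, ?_⟩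
    exact h.trans γ (path_lt γ) _ _ _ _ (hy n r'' z' (Dat.le_trans hok hr'' hr1) h5) h6

/-- stages whose order is a relation of the ground model in which descending sequences have lower bounds -/
theorem Dat.tpk_of_native {γ : K} (h : OkB D (Order.succ γ : K))
    (hg : ∀ γ' : K, γ' < γ → D.Good γ') (R : K → K → Prop)
    (hJ : ∀ x y p, D.J γ x y p ↔ R x y)
    (hlb : ∀ z : ℕ → K, (∀ n, R (z (n + 1)) (z n)) → ∃ y, ∀ n, R y (z n)) : D.TPK γ := by
  have hok := path_ok h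
  refine Dat.tpk_of_path h hg (IsClub.univ.mono ?_)
  rintro N - c q - e - x - d r - -
  classical
  obtain ⟨z, hz0, hz⟩ : ∃ z : ℕ → K, z 0 = x ∧
      ∀ n, z (n + 1) = if R (e (d n)) (z n) then e (d n) else z n :=
    ⟨fun n => Nat.rec x (fun n y => if R (e (d n)) y then e (d n) else y) n, rfl, fun n => rfl⟩
  have hph : ∀ n r, D.Ph γ e x (pre d n) (z n) r := by
    intro n
    induction n with
    | zero =>
      intro r
      rw [hz0]
      exact rfl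
    | succ n ih =>
      intro r
      rw [path_pre_succ, Dat.Ph_snoc]
      refine ⟨z n, ih r, ?_⟩
      rw [hz]
      by_cases hR : R (e (d n)) (z n)
      · rw [if_pos hR]
        exact Or.inl ⟨(hJ _ _ _).mpr hR, rfl⟩
      · rw [if_neg hR]
        exact Or.inr ⟨fun r' _ hJ' => hR ((hJ _ _ _).mp hJ'), rfl⟩
  have hdesc : ∀ n, R (z (n + 1)) (z n) := by
    intro n
    rw [hz]
    by_cases hR : R (e (d n)) (z n)
    · rw [if_pos hR]
      exact hR
    · rw [if_neg hR]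
      exact (hJ _ _ r).mp (h.refl γ (path_lt γ) _ _)
  obtain ⟨y, hy⟩ := hlb z hdesc
  refine ⟨r, y, Dat.le_refl hok r, ?_⟩
  intro n r'' z' _ hz'
  rw [Dat.Ph_uniq h hz' (hph n r'')]
  exact (hJ _ _ _).mpr (hy n)

end Pool.Agent.W_MP_315f31_lc
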