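import Pool.Agent.W_MP_315f31_lc.Mix

/-!
# MP_315f31_lc : the iterations of length `< K` are small

`card_bnd`: a condition bounded by `η` is determined by its restriction to `Iio η`, a function
`Iio η → Iio η` (or into `{⊥} ∪ Iio η`); so there are at most `#(Iio η) ^ #(Iio η) + 1 < #K` of them
(`K` is a strong limit).

`small`: strong induction on `β : K`.  For `γ < β` let `η γ` be given by the induction hypothesis
(`SmallAt γ (η γ)`) and let `X γ` be the small set of representatives of `OkB.sm`.  CLAIM: there is `b γ : K`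
such that for all `k` there is `k' < b γ` with `FL γ one k k' ∧ FL γ one k' k` and (`k' = ⊥` if `k = ⊥`).
Proof of the claim: given `k`, let `k'` be a name with `nm k' = {(u, x') : Bnd u (η γ), x' ∈ X γ and for some x,
Dec γ u k x and x ≡ x' (J γ x x' and J γ x' x hold everywhere), x' chosen as a function of x}`: the
number of such sets is `≤ 2 ^ (#{u // Bnd u (η γ)} * #(X γ)) < #K`, so the names `k'` (one for each such
set) are bounded in `K` (`bdd_small`).  If `r ≤ one` decides `k` to be `x` and `k'` to be `y`, then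
densely below `r` some `u ≡ r'` bounded by `η γ` decides `k`, so `y = x'`.
Then replace `p` by `q γ = k'` for `γ < β` in the support of `p`, `q γ = ⊥` otherwise;
`q` is bounded by a common bound `η` of `β` and all `b γ`, `γ < β`, and `q ≡ p` in `P_β`
(strong induction again: `FL γ q (q γ) (p γ)` follows from `FL γ one (q γ) (p γ)`).
-/

universe u

open Cardinal Set

set_option linter.unusedSectionVars false

namespace Pool.Agent.W_MP_315f31_lc

variable {K : Type u} [LinearOrder K] [OrderBot K] [WellFoundedLT K] {D : Dat K}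

/-- small subsets of `K` are bounded -/
theorem bdd_small (h : Inacc K) (S : Set K) (hS : #S < #K) : ∃ b, ∀ x ∈ S, x < b := by
  by_contra hcon
  push Not at hcon
  have hcov : (⋃ x ∈ S, Iic x) = (univ : Set K) := by
    refine eq_univ_of_forall fun b => ?_
    obtain ⟨x, hx, hbx⟩ := hcon b
    exact mem_biUnion hx hbx
  have hreg := h.card.isRegular
  have h1 : #(⋃ x ∈ S, Iic x : Set K) < #K := by
    rw [card_biUnion_lt_iff_forall_of_isRegular (t := fun x _ => Iic x) hreg hS]
    intro x _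
    have h2 : (Iic x : Set K) = Iio x ∪ {x} := by
      rw [← Iio_insert, union_singleton]
    rw [h2]
    refine (mk_union_le _ _).trans_lt ?_
    rw [mk_singleton]
    exact add_lt_of_lt hreg.aleph0_le (h.lt x) (one_lt_aleph0.trans h.card.aleph0_lt)
  rw [hcov, mk_univ] at h1
  exact lt_irrefl _ h1

theorem mk_Iic_lt (h : Inacc K) (x : K) : #(Iic x) < #K := by
  have h2 : (Iic x : Set K) = Iio x ∪ {x} := by
    rw [← Iio_insert, union_singleton]
  rw [h2]
  refine (mk_union_le _ _).trans_lt ?_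
  rw [mk_singleton]
  exact add_lt_of_lt h.card.isRegular.aleph0_le (h.lt x) (one_lt_aleph0.trans h.card.aleph0_lt)

theorem pow_lt_inacc {c a b : Cardinal.{u}} (hc : c.IsInaccessible) (ha : a < c) (hb : b < c) :
    a ^ b < c := by
  have h1 : a ^ b ≤ 2 ^ (a * b) := by
    rw [power_mul]
    exact power_le_power_right (cantor a).le
  exact h1.trans_lt (hc.isStrongPrelimit (mul_lt_of_lt hc.aleph0_lt.le ha hb))

theorem card_bnd (h : Inacc K) (η : K) : #{q : Cond K // Bnd q η} < #K := by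
  let f : {q : Cond K // Bnd q η} → (Iio η → Iic η) := fun q γ =>
    ⟨q.1 γ, by
      by_cases hγ : q.1 γ = ⊥
      · rw [hγ]; exact bot_le
      · exact (q.2 γ hγ).2.le⟩
  have hf : Function.Injective f := by
    intro q q' hqq
    apply Subtype.ext
    apply Cond.ext
    intro γ
    by_cases hγ : γ < η
    · have h1 := congrFun hqq ⟨γ, hγ⟩
      exact congrArg Subtype.val h1
    · have h1 : q.1 γ = ⊥ := by
        by_contra hne
        exact hγ (q.2 γ hne).1
      have h2 : q'.1 γ = ⊥ := by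
        by_contra hne
        exact hγ (q'.2 γ hne).1
      rw [h1, h2]
  refine (mk_le_of_injective hf).trans_lt ?_
  rw [mk_arrow, lift_id, lift_id]
  exact pow_lt_inacc h.card (mk_Iic_lt h η) (h.lt η)

theorem Bnd.mono {q : Cond K} {δ η : K} (h : Bnd q δ) (hη : δ ≤ η) : Bnd q η := by
  intro γ hγ
  exact ⟨(h γ hγ).1.trans_le hη, (h γ hγ).2.trans_le hη⟩

theorem exists_bnd (h : Inacc K) (q : Cond K) : ∃ η, Bnd q η := by
  have hc : ({γ | q γ ≠ ⊥} ∪ (fun γ => q γ) '' {γ | q γ ≠ ⊥}).Countable :=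
    q.2.union (q.2.image _)
  obtain ⟨b, hb⟩ := bdd_small h _ ((le_aleph0_iff_set_countable.mpr hc).trans_lt h.card.aleph0_lt)
  refine ⟨b, fun γ hγ => ⟨hb γ (Or.inl hγ), hb _ (Or.inr ⟨γ, hγ, rfl⟩)⟩⟩

theorem card_cond (h : Inacc K) : #(Cond K) = #K := by
  have hinf : ℵ₀ ≤ #K := h.card.aleph0_lt.le
  apply le_antisymm
  · have hcov : (⋃ η : K, {q : Cond K | Bnd q η}) = Set.univ := by
      refine eq_univ_of_forall fun q => ?_
      obtain ⟨η, hη⟩ := exists_bnd h q
      exact mem_iUnion.mpr ⟨η, hη⟩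
    have h1 : #(Cond K) = #(⋃ η : K, {q : Cond K | Bnd q η} : Set (Cond K)) := by
      rw [hcov, mk_univ]
    rw [h1]
    refine (mk_iUnion_le _).trans ?_
    have h2 : (⨆ η : K, #{q : Cond K | Bnd q η}) ≤ #K := by
      refine ciSup_le' fun η => ?_
      exact (card_bnd h η).le
    calc #K * (⨆ η : K, #{q : Cond K | Bnd q η}) ≤ #K * #K := mul_le_mul_right h2 _
      _ = #K := mul_eq_self hinf
  · classical
    let g : K → Cond K := fun x => ⟨fun γ => if γ = ⊥ then x else ⊥, by
      refine (countable_singleton (⊥ : K)).mono ?_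
      intro γ hγ
      by_contra hne
      exact hγ (if_neg hne)⟩
    have hg : Function.Injective g := by
      intro x y hxy
      have h1 : (g x) ⊥ = (g y) ⊥ := by rw [hxy]
      have h2 : (g x) ⊥ = x := if_pos rfl
      have h3 : (g y) ⊥ = y := if_pos rfl
      rw [h2, h3] at h1
      exact h1
    exact mk_le_of_injective hg

/-- the names at the stage `γ` are represented by the names below some `b` -/
theorem Dat.small_names {β γ : K} (h : OkB D β) (hγ : γ < β) {η : K} (hη : D.SmallAt γ η) :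
    ∃ b : K, ∀ k : K, ∃ k' : K, k' < b ∧ D.FL γ Cond.one k k' ∧ D.FL γ Cond.one k' k ∧
      (k = ⊥ → k' = ⊥) := by
  classical
  have hγ' : (γ : WithTop K) < (β : WithTop K) := WithTop.coe_lt_coe.mpr hγ
  have hOγ : OkB D (γ : WithTop K) := h.mono_top hγ'.le
  have hin := h.inacc
  obtain ⟨X, hX, hrep⟩ := h.sm γ hγ'
  choose rep hrepX hrepJ using hrep
  -- the set of the possible codes
  let A : Set (Cond K × K) := {u : Cond K | Bnd u η} ×ˢ X
  have hA : #A < #K := by
    have h1 : #A = #{u : Cond K | Bnd u η} * #X := by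
      rw [mk_congr (Equiv.Set.prod _ _), mk_prod, lift_id, lift_id]
    rw [h1]
    exact mul_lt_of_lt hin.card.aleph0_lt.le (card_bnd hin η) hX
  have hsub : ∀ S : Set (Cond K × K), S ⊆ A → ∃ k, D.nm k = S := fun S hS =>
    h.nm_surj S ((mk_le_mk_of_subset hS).trans_lt hA)
  let c : 𝒫 A → K := fun S => (hsub S.1 S.2).choose
  have hc : ∀ S : 𝒫 A, D.nm (c S) = S.1 := fun S => (hsub S.1 S.2).choose_spec
  have hR : #(range c) < #K := by
    refine mk_range_le.trans_lt ?_
    rw [mk_powerset]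
    exact hin.card.isStrongPrelimit hA
  have hR2 : #(range c ∪ {⊥} : Set K) < #K := by
    refine (mk_union_le _ _).trans_lt ?_
    rw [mk_singleton]
    exact add_lt_of_lt hin.card.aleph0_lt.le hR (one_lt_aleph0.trans hin.card.aleph0_lt)
  obtain ⟨b, hb⟩ := bdd_small hin _ hR2
  refine ⟨b, fun k => ?_⟩
  by_cases hk : k = ⊥
  · subst hk
    refine ⟨⊥, hb ⊥ (Or.inr rfl), ?_, ?_, fun _ => rfl⟩
    · exact D.FL_refl h hγ' Cond.one ⊥
    · exact D.FL_refl h hγ' Cond.one ⊥
  · let S : Set (Cond K × K) := {z | Bnd z.1 η ∧ ∃ x, D.Dec γ z.1 k x ∧ z.2 = rep x}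
    have hSA : S ⊆ A := by
      rintro ⟨u, y⟩ ⟨hu, x, _, hy⟩
      refine ⟨hu, ?_⟩
      rw [show (u, y).2 = rep x from hy]
      exact hrepX x
    have hcS : D.nm (c ⟨S, hSA⟩) = S := hc ⟨S, hSA⟩
    -- the value of the code is the representative of the value
    have key : ∀ r x y, D.Dec γ r k x → D.Dec γ r (c ⟨S, hSA⟩) y → y = rep x := by
      intro r x y hx hy
      obtain ⟨u, hu, hur, hru⟩ := hη r
      have hux : D.Dec γ u k x := D.Dec_mono hOγ hx hur
      have huS : (u, rep x) ∈ D.nm (c ⟨S, hSA⟩) := by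
        rw [hcS]
        exact ⟨hu, x, hux, rfl⟩
      rcases hy with ⟨⟨u', hu', hru'⟩, _⟩ | ⟨_, hno⟩
      · rw [hcS] at hu'
        obtain ⟨_, x', hx', hy'⟩ := hu'
        have hx'' : D.Dec γ r k x' := D.Dec_mono hOγ hx' hru'
        have h4 : x' = x := D.Dec_uniq hOγ hx'' hx
        rw [show y = rep x' from hy', h4]
      · exact absurd ⟨r, D.le_refl hOγ r, hru⟩ (hno _ _ huS)
    refine ⟨c ⟨S, hSA⟩, hb _ (Or.inl ⟨_, rfl⟩), ?_, ?_, fun h0 => absurd h0 hk⟩
    · intro r _ x y hx hy
      rw [key r x y hx hy]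
      exact (hrepJ x r).1
    · intro r _ y x hy hx
      rw [key r x y hx hy]
      exact (hrepJ x r).2

theorem Dat.small (β : K) (h : OkB D β) : ∃ η, D.SmallAt β η := by
  classical
  induction β using WellFoundedLT.induction with
  | ind β ih =>
    have hin := h.inacc
    have hex : ∀ γ : K, ∃ b : K, γ < β → ∀ k : K, ∃ k' : K, k' < b ∧ D.FL γ Cond.one k k' ∧
        D.FL γ Cond.one k' k ∧ (k = ⊥ → k' = ⊥) := by
      intro γ
      by_cases hγ : γ < β
      · obtain ⟨η, hη⟩ := ih γ hγ (h.mono_top (WithTop.coe_le_coe.mpr hγ.le))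
        obtain ⟨b, hb⟩ := Dat.small_names h hγ hη
        exact ⟨b, fun _ => hb⟩
      · exact ⟨⊥, fun h0 => absurd h0 hγ⟩
    choose b hb using hex
    have hcard : #(b '' Iio β ∪ {β} : Set K) < #K := by
      refine (mk_union_le _ _).trans_lt ?_
      rw [mk_singleton]
      exact add_lt_of_lt hin.card.aleph0_lt.le (mk_image_le.trans_lt (hin.lt β))
        (one_lt_aleph0.trans hin.card.aleph0_lt)
    obtain ⟨η, hη⟩ := bdd_small hin _ hcard
    refine ⟨η, fun p => ?_⟩
    have hex2 : ∀ γ : K, ∃ k' : K, γ < β → k' < b γ ∧ D.FL γ Cond.one (p γ) k' ∧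
        D.FL γ Cond.one k' (p γ) ∧ (p γ = ⊥ → k' = ⊥) := by
      intro γ
      by_cases hγ : γ < β
      · obtain ⟨k', hk'⟩ := hb γ hγ (p γ)
        exact ⟨k', fun _ => hk'⟩
      · exact ⟨⊥, fun h0 => absurd h0 hγ⟩
    choose k' hk' using hex2
    let q : Cond K := ⟨fun γ => if γ < β then k' γ else ⊥, by
      refine p.2.mono ?_
      intro γ hγ hp
      apply hγ
      by_cases hγβ : γ < β
      · show (if γ < β then k' γ else ⊥) = ⊥
        rw [if_pos hγβ]
        exact (hk' γ hγβ).2.2.2 hp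
      · exact if_neg hγβ⟩
    have hq : ∀ γ, γ < β → q γ = k' γ := fun γ hγ => if_pos hγ
    refine ⟨q, ?_, ?_, ?_⟩
    · intro γ hγ
      by_cases hγβ : γ < β
      · refine ⟨hγβ.trans (hη β (Or.inr rfl)), ?_⟩
        rw [hq γ hγβ]
        exact (hk' γ hγβ).1.trans (hη _ (Or.inl ⟨γ, hγβ, rfl⟩))
      · exact absurd (if_neg hγβ) hγ
    · rw [Dat.le_iff_FL]
      intro γ hγ
      have hγβ : γ < β := WithTop.coe_lt_coe.mp hγ
      rw [hq γ hγβ]
      have hO : OkB D (γ : WithTop K) := h.mono_top hγ.le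
      exact Dat.FL_mono hO (hk' γ hγβ).2.2.1 (Dat.le_one hO q)
    · rw [Dat.le_iff_FL]
      intro γ hγ
      have hγβ : γ < β := WithTop.coe_lt_coe.mp hγ
      rw [hq γ hγβ]
      have hO : OkB D (γ : WithTop K) := h.mono_top hγ.le
      exact Dat.FL_mono hO (hk' γ hγβ).2.1 (Dat.le_one hO p)

/-- a small dense set -/
theorem Dat.small_dense (β : K) (h : OkB D β) :
    ∃ B : Set (Cond K), #B < #K ∧ ∀ p, ∃ q ∈ B, D.le β q p := by
  obtain ⟨η, hη⟩ := Dat.small β h
  refine ⟨{q | Bnd q η}, card_bnd h.inacc η, fun p => ?_⟩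
  obtain ⟨q, hq, hqp, _⟩ := hη p
  exact ⟨q, hq, hqp⟩

end Pool.Agent.W_MP_315f31_lc
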