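import Pool.Agent.W_MP_315f31_lc.Stages
import Pool.Agent.W_MP_315f31_lc.Path
import Pool.Agent.W_MP_315f31_lc.CohenStage

/-!
# MP_315f31_lc : the requirements on a single stage; Cohen and collapse stages

`col_tpk`: `tpk_of_native` with `R x y := ∀ w a, pfl C l y w = some a → pfl C l x w = some a`; the union of a
descending sequence is a partial function with countable domain and values `< l`.
`sm` for the collapse: there are fewer than `#K` functions `pfl C l x` (`#(W1 → Option (Iio l)) < #K`).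
-/

universe u

open Cardinal Set

namespace Pool.Agent.W_MP_315f31_lc

variable {K : Type u} [LinearOrder K] [OrderBot K] [WellFoundedLT K] [SuccOrder K] [NoMaxOrder K]

/-- The requirements of `OkB` for the stage `γ`. -/
structure StOk (D : Dat K) (γ : K) : Prop where
  refl : ∀ x p, D.J γ x x p
  top : ∀ x p, D.J γ x ⊥ p
  trans : ∀ x y z p, D.J γ x y p → D.J γ y z p → D.J γ x z p
  mono : ∀ x y p q, D.J γ x y p → D.le γ q p → D.J γ x y q
  reg : ∀ x y p, (∀ q, D.le γ q p → ∃ r, D.le γ r q ∧ D.J γ x y r) → D.J γ x y p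
  sm : ∃ X : Set K, #X < #K ∧ ∀ x, ∃ y ∈ X, ∀ p, D.J γ x y p ∧ D.J γ y x p

theorem okB_bot {C : Cod K} {D : Dat K} (hK : Inacc K) (hC : C.Ok) (hn : D.nm = C.nm) :
    OkB D ((⊥ : K) : WithTop K) := by
  have hno : ∀ γ : K, ¬ (γ : WithTop K) < ((⊥ : K) : WithTop K) := fun γ hγ =>
    not_lt_bot (WithTop.coe_lt_coe.1 hγ)
  refine ⟨hK, by rw [hn]; exact hC.nm_bot, fun S hS => by rw [hn]; exact hC.nm_surj S hS, ?_, ?_, ?_, ?_, ?_, ?_⟩
  all_goals exact fun γ hγ => (hno γ hγ).elim

theorem okB_succ {D : Dat K} {γ : K} (h : OkB D γ) (hs : StOk D γ) :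
    OkB D (Order.succ γ : K) := by
  have key : ∀ {P : K → Prop}, (∀ γ' : K, (γ' : WithTop K) < γ → P γ') → P γ →
      ∀ γ' : K, (γ' : WithTop K) < ((Order.succ γ : K) : WithTop K) → P γ' := by
    intro P h1 h2 γ' hγ'
    rcases (Order.lt_succ_iff.1 (WithTop.coe_lt_coe.1 hγ')).lt_or_eq with h3 | h3
    · exact h1 γ' (WithTop.coe_lt_coe.2 h3)
    · rw [h3]
      exact h2
  exact ⟨h.inacc, h.nm_bot, h.nm_surj, key h.refl hs.refl, key h.top hs.top, key h.trans hs.trans,
    key h.mono hs.mono, key h.reg hs.reg, key h.sm hs.sm⟩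

/-- limits, including `⊤` -/
theorem okB_lim {D : Dat K} {β : WithTop K} (h0 : OkB D ((⊥ : K) : WithTop K))
    (hb : ∀ γ : K, (γ : WithTop K) < β → StOk D γ) : OkB D β :=
  ⟨h0.inacc, h0.nm_bot, h0.nm_surj, fun γ hγ => (hb γ hγ).refl, fun γ hγ => (hb γ hγ).top,
    fun γ hγ => (hb γ hγ).trans, fun γ hγ => (hb γ hγ).mono, fun γ hγ => (hb γ hγ).reg,
    fun γ hγ => (hb γ hγ).sm⟩

/-- Stages whose order is a relation of the ground model. -/
theorem native_stOk {D : Dat K} {γ : K} (h : OkB D γ) (R : K → K → Prop) (hJ : ∀ x y p, D.J γ x y p ↔ R x y)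
    (h1 : ∀ x, R x x) (h2 : ∀ x, R x ⊥) (h3 : ∀ x y z, R x y → R y z → R x z)
    (h4 : ∃ X : Set K, #X < #K ∧ ∀ x, ∃ y ∈ X, R x y ∧ R y x) : StOk D γ where
  refl x p := (hJ _ _ _).2 (h1 x)
  top x p := (hJ _ _ _).2 (h2 x)
  trans x y z p hxy hyz := (hJ _ _ _).2 (h3 x y z ((hJ _ _ _).1 hxy) ((hJ _ _ _).1 hyz))
  mono x y p q hxy _ := (hJ _ _ _).2 ((hJ _ _ _).1 hxy)
  reg x y p hq := by
    obtain ⟨r, _, hr⟩ := hq p (Dat.le_refl h p)
    exact (hJ _ _ _).2 ((hJ _ _ _).1 hr)
  sm := by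
    obtain ⟨X, hX, hX'⟩ := h4
    refine ⟨X, hX, fun x => ?_⟩
    obtain ⟨y, hy, hxy, hyx⟩ := hX' x
    exact ⟨y, hy, fun p => ⟨(hJ _ _ _).2 hxy, (hJ _ _ _).2 hyx⟩⟩

theorem coh_stOk {C : Cod K} {D : Dat K} {γ : K} (hC : C.Ok) (h : OkB D γ)
    (hJ : D.J γ = cohJ C) : StOk D γ := by
  refine native_stOk h (fun x y => C.ls y <+: C.ls x) (fun x y p => by rw [hJ]; exact Iff.rfl)
    (fun x => List.prefix_refl _) (fun x => by rw [hC.ls_bot]; exact List.nil_prefix)
    (fun x y z hxy hyz => hyz.trans hxy) ?_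
  choose κ hκ using hC.ls_surj
  refine ⟨range κ, ?_, fun x => ⟨κ (C.ls x), mem_range_self _, ?_⟩⟩
  · refine lt_of_le_of_lt ?_ h.inacc.card.aleph0_lt
    exact (countable_range κ).le_aleph0
  · rw [hκ]
    exact ⟨List.prefix_refl _, List.prefix_refl _⟩

theorem coh_good {C : Cod K} {D : Dat K} {γ : K} (hC : C.Ok) (h : OkB D (Order.succ γ : K))
    (hJ : D.J γ = cohJ C) : D.Good γ :=
  Dat.good_cohen h hC.ls_surj fun x y p => by rw [hJ]; exact Iff.rfl

theorem pfl_lt {C : Cod K} {l x a : K} {w : W1.{u}} (h : pfl C l x w = some a) : a < l := by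
  unfold pfl at h
  split_ifs at h with h1
  exact h1 w a h

theorem pfl_ctbl {C : Cod K} (hC : C.Ok) (l x : K) : {w | pfl C l x w ≠ none}.Countable := by
  refine (hC.pf_ctbl x).mono fun w hw => ?_
  intro h
  apply hw
  unfold pfl
  split_ifs with h1
  · exact h
  · rfl

theorem pfl_bot {C : Cod K} (hC : C.Ok) (l : K) : pfl C l ⊥ = fun _ => none := by
  unfold pfl
  rw [hC.pf_bot]
  simp

theorem exists_pfl {C : Cod K} (hC : C.Ok) (l : K) (f : W1.{u} → Option K) (hf : {w | f w ≠ none}.Countable)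
    (hl : ∀ w a, f w = some a → a < l) : ∃ x, pfl C l x = f := by
  obtain ⟨x, hx⟩ := hC.pf_surj f hf
  refine ⟨x, ?_⟩
  unfold pfl
  rw [hx, if_pos hl]

theorem card_pfl (hK : Inacc K) (C : Cod K) (l : K) : #(range (pfl C l)) < #K := by
  classical
  have h1 : #(W1.{u} → Option (Iio l)) < #K := by
    rw [← Cardinal.power_def]
    refine pow_lt_inacc hK.card ?_ ?_
    · rw [Cardinal.mk_option]
      exact Cardinal.add_lt_of_lt hK.card.aleph0_lt.le (hK.lt l) (Cardinal.one_lt_aleph0.trans hK.card.aleph0_lt)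
    · rw [Cardinal.mk_out]
      have h2 : (ℵ₁ : Cardinal.{u}) ≤ 2 ^ (ℵ₀ : Cardinal.{u}) := by
        rw [← Cardinal.succ_aleph0]
        exact Order.succ_le_of_lt (Cardinal.cantor _)
      exact h2.trans_lt (hK.card.isStrongLimit.two_power_lt hK.card.aleph0_lt)
  refine lt_of_le_of_lt (Cardinal.mk_le_of_injective (f := fun g w =>
    if h : ∃ a : Iio l, g.1 w = some a.1 then some h.choose else none) ?_) h1
  rintro ⟨_, x, rfl⟩ ⟨_, y, rfl⟩ hxy
  refine Subtype.ext (funext fun w => ?_)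
  have hw := congrFun hxy w
  simp only at hw
  have key : ∀ z, pfl C l z w = (if h : ∃ a : Iio l, pfl C l z w = some a.1 then some h.choose else none :
      Option (Iio l)).map Subtype.val := by
    intro z
    by_cases h : ∃ a : Iio l, pfl C l z w = some a.1
    · rw [dif_pos h]
      exact h.choose_spec
    · rw [dif_neg h]
      cases hz : pfl C l z w with
      | none => rfl
      | some a => exact absurd ⟨⟨a, pfl_lt hz⟩, hz⟩ h
  show pfl C l x w = pfl C l y w
  rw [key x, key y, hw]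

theorem col_stOk {C : Cod K} {D : Dat K} {γ l : K} (hC : C.Ok) (h : OkB D γ)
    (hJ : D.J γ = colJ C l) : StOk D γ := by
  refine native_stOk h (fun x y => ∀ w a, pfl C l y w = some a → pfl C l x w = some a)
    (fun x y p => by rw [hJ]; exact Iff.rfl) (fun x w a hw => hw) (fun x w a hw => by
      rw [pfl_bot hC] at hw
      exact absurd hw (by simp)) (fun x y z hxy hyz w a hw => hxy w a (hyz w a hw)) ?_
  have h1 : ∀ g : range (pfl C l), ∃ x, pfl C l x = g.1 := fun g => g.2
  choose κ hκ using h1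
  refine ⟨range κ, lt_of_le_of_lt Cardinal.mk_range_le (card_pfl h.inacc C l), fun x =>
    ⟨κ ⟨pfl C l x, mem_range_self x⟩, mem_range_self _, ?_⟩⟩
  rw [hκ]
  exact ⟨fun w a hw => hw, fun w a hw => hw⟩

theorem col_tpk {C : Cod K} {D : Dat K} {γ l : K} (hC : C.Ok) (h : OkB D (Order.succ γ : K))
    (hg : ∀ γ' : K, γ' < γ → D.Good γ') (hJ : D.J γ = colJ C l) : D.TPK γ := by
  classical
  refine Dat.tpk_of_native h hg (fun x y => ∀ w a, pfl C l y w = some a → pfl C l x w = some a)
    (fun x y p => by rw [hJ]; exact Iff.rfl) ?_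
  intro z hz
  have hmono : ∀ n m, n ≤ m → ∀ w a, pfl C l (z n) w = some a → pfl C l (z m) w = some a := by
    intro n m hnm
    induction m, hnm using Nat.le_induction with
    | base => exact fun w a h => h
    | succ m _ ih => exact fun w a h => hz m w a (ih w a h)
  have huniq : ∀ n m w a b, pfl C l (z n) w = some a → pfl C l (z m) w = some b → a = b := by
    intro n m w a b ha hb
    rcases le_total n m with hnm | hnm
    · have h1 := hmono n m hnm w a ha
      rw [hb] at h1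
      exact (Option.some.inj h1).symm
    · have h1 := hmono m n hnm w b hb
      rw [ha] at h1
      exact Option.some.inj h1
  let f : W1.{u} → Option K := fun w => if h : ∃ n a, pfl C l (z n) w = some a then some h.choose_spec.choose else none
  have hf : ∀ n w a, pfl C l (z n) w = some a → f w = some a := by
    intro n w a ha
    have h1 : ∃ n a, pfl C l (z n) w = some a := ⟨n, a, ha⟩
    show (if h : ∃ n a, pfl C l (z n) w = some a then some h.choose_spec.choose else none) = some a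
    rw [dif_pos h1]
    exact congrArg some (huniq _ _ _ _ _ h1.choose_spec.choose_spec ha)
  have hf' : ∀ w a, f w = some a → ∃ n, pfl C l (z n) w = some a := by
    intro w a ha
    by_cases h1 : ∃ n a, pfl C l (z n) w = some a
    · obtain ⟨n, b, hb⟩ := h1
      have h2 := hf n w b hb
      rw [ha] at h2
      exact ⟨n, by rw [hb, h2]⟩
    · have h2 : f w = none := dif_neg h1
      rw [h2] at ha
      exact absurd ha (by simp)
  obtain ⟨y, hy⟩ := exists_pfl hC l f ((countable_iUnion fun n => pfl_ctbl hC l (z n)).mono fun w hw => by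
    rw [mem_iUnion]
    obtain ⟨a, ha⟩ := Option.ne_none_iff_exists'.1 hw
    obtain ⟨n, hn⟩ := hf' w a ha
    exact ⟨n, by rw [mem_setOf_eq, hn]; simp⟩) (fun w a ha => by
    obtain ⟨n, hn⟩ := hf' w a ha
    exact pfl_lt hn)
  refine ⟨y, fun n w a ha => ?_⟩
  rw [hy]
  exact hf n w a ha

end Pool.Agent.W_MP_315f31_lc
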