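import Pool.Agent.W_MP_315f31_lc.NextLim

/-!
# MP_315f31_lc : the stages of the iteration

For a limit `l` (or `l = ⊥`): stage `l` is the lottery of all minimal counterexamples to the forcing
axiom over `P_l`, stage `l + 1` is the tree `T_l` if `l` has uncountable cofinality (otherwise Cohen forcing),
stage `l + 2` is the collapse of `l` to `ℵ₁` by countable conditions of the ground model, all other stages are
Cohen forcing.
-/

universe u

open Cardinal Set

set_option linter.unusedSectionVars false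

namespace Pool.Agent.W_MP_315f31_lc

variable {K : Type u} [LinearOrder K] [OrderBot K] [WellFoundedLT K] [SuccOrder K] [NoMaxOrder K]

/-- The codes. -/
structure Cod (K : Type u) [LinearOrder K] [OrderBot K] where
  nm : K → Set (Cond K × K)
  pr : K → K × K
  ls : K → List ℕ
  pf : K → W1.{u} → Option K

structure Cod.Ok (C : Cod K) : Prop where
  nm_bot : C.nm ⊥ = ∅
  nm_surj : ∀ S : Set (Cond K × K), #S < #K → ∃ k, C.nm k = S
  pr_bot : C.pr ⊥ = (⊥, ⊥)
  pr_surj : Function.Surjective C.pr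
  ls_bot : C.ls ⊥ = []
  ls_surj : Function.Surjective C.ls
  pf_bot : C.pf ⊥ = fun _ => none
  pf_ctbl : ∀ x, {w | C.pf x w ≠ none}.Countable
  pf_surj : ∀ f : W1.{u} → Option K, {w | f w ≠ none}.Countable → ∃ x, C.pf x = f

/-! ### Cardinal arithmetic -/

/-- a surjection with a prescribed value at `⊥` -/
theorem exists_cover_fn {T : Type*} (ι : T → K) (hι : Function.Injective ι) (t0 : T) :
    ∃ f : K → T, Function.Surjective f ∧ f ⊥ = t0 := by
  classical
  refine ⟨fun x => if hx : ∃ t, Order.succ (ι t) = x then hx.choose else t0, ?_, ?_⟩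
  · intro t
    refine ⟨Order.succ (ι t), ?_⟩
    have hx : ∃ t', Order.succ (ι t') = Order.succ (ι t) := ⟨t, rfl⟩
    change (if hx : ∃ t', Order.succ (ι t') = Order.succ (ι t) then hx.choose else t0) = t
    rw [dif_pos hx]
    exact hι (Order.succ_injective hx.choose_spec)
  · have hx : ¬ ∃ t, Order.succ (ι t) = (⊥ : K) := by
      rintro ⟨t, ht⟩
      have h1 : ι t < Order.succ (ι t) := Order.lt_succ _
      rw [ht] at h1
      exact not_lt_bot h1
    exact dif_neg hx

theorem exists_cover_fn_of_le {T : Type u} (hT : #T ≤ #K) (t0 : T) :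
    ∃ f : K → T, Function.Surjective f ∧ f ⊥ = t0 := by
  obtain ⟨ι⟩ := hT
  exact exists_cover_fn ι ι.injective t0

theorem card_sigma_le (h : Inacc K) (F : K → Type u) (hF : ∀ b, #(F b) ≤ #K) :
    #(Σ b : K, F b) ≤ #K := by
  rw [mk_sigma]
  calc sum (fun b => #(F b)) ≤ sum (fun _ : K => #K) := sum_le_sum _ _ hF
    _ = #K * #K := by rw [sum_const, lift_id]
    _ = #K := mul_eq_self h.card.aleph0_lt.le

theorem two_pow_lt (h : Inacc K) {a : Cardinal.{u}} (ha : a < #K) : 2 ^ a < #K :=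
  h.card.isStrongPrelimit ha

/-- the number of small subsets of a set of size `#K` -/
theorem card_small_subsets (h : Inacc K) : #{S : Set K // #S < #K} ≤ #K := by
  classical
  have hb : ∀ S : {S : Set K // #S < #K}, ∃ b, ∀ x ∈ S.1, x < b := fun S => bdd_small h S.1 S.2
  choose b hb using hb
  let f : {S : Set K // #S < #K} → Σ b : K, Set (Iio b) := fun S => ⟨b S, {x | x.1 ∈ S.1}⟩
  have hf : Function.Injective f := by
    intro S S' hSS
    have key : ∀ T T' : {S : Set K // #S < #K}, f T = f T' → T.1 ⊆ T'.1 := by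
      intro T T' hT x hx
      have hxb : x < b T := hb T x hx
      have h1 : ∀ z : Σ b : K, Set (Iio b), z = f T → ∃ hz : x < z.1, (⟨x, hz⟩ : Iio z.1) ∈ z.2 := by
        rintro z rfl
        exact ⟨hxb, hx⟩
      obtain ⟨hz, hz'⟩ := h1 (f T') hT.symm
      exact hz'
    exact Subtype.ext (Subset.antisymm (key S S' hSS) (key S' S hSS.symm))
  refine (mk_le_of_injective hf).trans (card_sigma_le h _ fun b => ?_)
  rw [mk_set]
  exact (two_pow_lt h (h.lt b)).le

theorem aleph_one_lt (h : Inacc K) : (ℵ₁ : Cardinal.{u}) < #K := by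
  have h1 : (ℵ₁ : Cardinal.{u}) ≤ 2 ^ ℵ₀ := by
    rw [← succ_aleph0]
    exact Order.succ_le_of_lt (cantor ℵ₀)
  exact h1.trans_lt (two_pow_lt h h.card.aleph0_lt)

theorem card_w1_lt (h : Inacc K) : #(W1.{u}) < #K := by
  rw [mk_out]
  exact aleph_one_lt h

theorem card_option_lt (h : Inacc K) {T : Type u} (hT : #T < #K) : #(Option T) < #K := by
  rw [mk_option]
  exact add_lt_of_lt h.card.aleph0_lt.le hT (one_lt_aleph0.trans h.card.aleph0_lt)

/-- the number of partial functions with countable domain -/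
theorem card_pf (h : Inacc K) :
    #{f : W1.{u} → Option K // {w | f w ≠ none}.Countable} ≤ #K := by
  classical
  have hb : ∀ f : {f : W1.{u} → Option K // {w | f w ≠ none}.Countable},
      ∃ b : K, ∀ w a, f.1 w = some a → a < b := by
    intro f
    have hc : {a : K | ∃ w, f.1 w = some a}.Countable := by
      have h1 : {a : K | ∃ w, f.1 w = some a} ⊆
          (fun w => (f.1 w).getD ⊥) '' {w | f.1 w ≠ none} := by
        rintro a ⟨w, hw⟩
        refine ⟨w, ?_, ?_⟩
        · change f.1 w ≠ none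
          rw [hw]
          exact Option.some_ne_none a
        · change (f.1 w).getD ⊥ = a
          rw [hw]
          rfl
      exact (f.2.image _).mono h1
    obtain ⟨b, hb⟩ := bdd_small h _ ((le_aleph0_iff_set_countable.mpr hc).trans_lt h.card.aleph0_lt)
    exact ⟨b, fun w a hw => hb a ⟨w, hw⟩⟩
  choose b hb using hb
  let f : {f : W1.{u} → Option K // {w | f w ≠ none}.Countable} →
      Σ b : K, (W1.{u} → Option (Iic b)) := fun g =>
    ⟨b g, fun w => (g.1 w).map fun a => if ha : a ≤ b g then ⟨a, ha⟩ else ⟨b g, le_refl _⟩⟩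
  have hrec : ∀ g w, ((f g).2 w).map Subtype.val = g.1 w := by
    intro g w
    change (((g.1 w).map fun a => if ha : a ≤ b g then (⟨a, ha⟩ : Iic (b g)) else
      ⟨b g, le_refl _⟩)).map Subtype.val = g.1 w
    cases hg : g.1 w with
    | none => rfl
    | some a =>
      have ha : a ≤ b g := (hb g w a hg).le
      simp [ha]
  have hf : Function.Injective f := by
    intro g g' hgg
    apply Subtype.ext
    funext w
    rw [← hrec g w, ← hrec g' w, hgg]
  refine (mk_le_of_injective hf).trans (card_sigma_le h _ fun b => ?_)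
  rw [mk_arrow, lift_id, lift_id]
  exact (pow_lt_inacc h.card (card_option_lt h (mk_Iic_lt h b)) (card_w1_lt h)).le

/-- Existence of codes: `#(Cond K) = #K`, and `#K ^ <#K = #K` because `K` is inaccessible. -/
theorem exists_cod (h : Inacc K) : ∃ C : Cod K, C.Ok := by
  classical
  have hinf : ℵ₀ ≤ #K := h.card.aleph0_lt.le
  -- names
  have hcK : #(Cond K × K) = #K := by
    rw [mk_prod, lift_id, lift_id, card_cond h, mul_eq_self hinf]
  obtain ⟨e⟩ := Cardinal.eq.1 hcK
  have h1 : #{S : Set (Cond K × K) // #S < #K} ≤ #K := by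
    let g : {S : Set (Cond K × K) // #S < #K} → {S : Set K // #S < #K} := fun S =>
      ⟨e '' S.1, by rw [mk_image_eq e.injective]; exact S.2⟩
    have hg : Function.Injective g := by
      intro S S' hSS
      apply Subtype.ext
      have h2 : e '' S.1 = e '' S'.1 := congrArg Subtype.val hSS
      exact e.injective.image_injective h2
    exact (mk_le_of_injective hg).trans (card_small_subsets h)
  have hempty : #(∅ : Set (Cond K × K)) < #K := by
    rw [mk_eq_zero]
    exact aleph0_pos.trans h.card.aleph0_lt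
  obtain ⟨nm, hnm, hnm0⟩ := exists_cover_fn_of_le h1 ⟨∅, hempty⟩
  -- pairs
  have h2 : #(K × K) ≤ #K := by
    rw [mk_prod, lift_id, mul_eq_self hinf]
  obtain ⟨pr, hpr, hpr0⟩ := exists_cover_fn_of_le h2 (⊥, ⊥)
  -- lists of natural numbers
  have : Infinite K := infinite_iff.2 hinf
  obtain ⟨j, hj⟩ := Countable.exists_injective_nat (List ℕ)
  obtain ⟨ls, hls, hls0⟩ := exists_cover_fn (K := K) (fun l => Infinite.natEmbedding K (j l))
    ((Infinite.natEmbedding K).injective.comp hj) []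
  -- partial functions
  obtain ⟨pf, hpf, hpf0⟩ := exists_cover_fn_of_le (card_pf h) ⟨fun _ => none, by simp⟩
  exact ⟨⟨fun x => (nm x).1, pr, ls, fun x => (pf x).1⟩,
    { nm_bot := congrArg Subtype.val hnm0
      nm_surj := by
        intro S hS
        obtain ⟨k, hk⟩ := hnm ⟨S, hS⟩
        exact ⟨k, congrArg Subtype.val hk⟩
      pr_bot := hpr0
      pr_surj := hpr
      ls_bot := hls0
      ls_surj := hls
      pf_bot := congrArg Subtype.val hpf0
      pf_ctbl := fun x => (pf x).2
      pf_surj := by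
        intro f hf
        obtain ⟨x, hx⟩ := hpf ⟨f, hf⟩
        exact ⟨x, congrArg Subtype.val hx⟩ }⟩

/-! ### Cohen -/

def cohJ (C : Cod K) (x y : K) (_ : Cond K) : Prop := C.ls y <+: C.ls x

/-! ### Collapse -/

/-- the partial function coded by `x`, read as `∅` if it has a value `≥ l` -/
noncomputable def pfl (C : Cod K) (l x : K) : W1.{u} → Option K :=
  open Classical in if ∀ w a, C.pf x w = some a → a < l then C.pf x else fun _ => none

def colJ (C : Cod K) (l x y : K) (_ : Cond K) : Prop :=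
  ∀ w a, pfl C l y w = some a → pfl C l x w = some a

/-! ### Lottery -/

/-- the conditions bounded by `l` are dense in `P_l` -/
def Dat.Cdense (D : Dat K) (l : K) : Prop := ∀ p, ∃ q, Bnd q l ∧ D.le l q p

/-- candidates for counterexamples over `P_l`, on the set `Iio m` -/
structure Cand (l m : K) : Type u where
  ρ : Iio m → Iio m → CT l → Prop
  W : W1.{u} → Iio m → CT l → Prop
  p : CT l

/-- the order of `P_l` on the bounded conditions -/
def Dat.ctle (D : Dat K) (l : K) (a b : CT l) : Prop := D.le l a.1 b.1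

/-- the same with an arbitrary relation in place of `D.le l` -/
def ctL (L : Cond K → Cond K → Prop) (l : K) (a b : CT l) : Prop := L a.1 b.1

def Cand.IsBad {l m : K} (D : Dat K) (c : Cand l m) : Prop := Bad (D.ctle l) c.ρ c.W c.p

/-- the same with an arbitrary relation in place of `D.le l` -/
def Cand.IsBadL {l m : K} (L : Cond K → Cond K → Prop) (c : Cand l m) : Prop :=
  Bad (ctL L l) c.ρ c.W c.p

theorem Cand.isBadL_iff {l m : K} (D : Dat K) (c : Cand l m) : c.IsBadL (D.le l) ↔ c.IsBad D :=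
  Iff.rfl

/-- `m` is the least base of a counterexample -/
def IsMinL (L : Cond K → Cond K → Prop) (l m : K) : Prop :=
  (∃ c : Cand l m, c.IsBadL L) ∧ ∀ m' < m, ∀ c : Cand l m', ¬ c.IsBadL L

def Dat.IsMin (D : Dat K) (l m : K) : Prop :=
  (∃ c : Cand l m, c.IsBad D) ∧ ∀ m' < m, ∀ c : Cand l m', ¬ c.IsBad D

theorem isMinL_iff (D : Dat K) (l m : K) : IsMinL (D.le l) l m ↔ D.IsMin l m := Iff.rfl

/-- the counterexamples in the lottery; `L` is the order of `P_l` -/
structure LotIL (L : Cond K → Cond K → Prop) (l : K) : Type u where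
  m : K
  min : IsMinL L l m
  c : Cand l m
  bad : c.IsBadL L

/-- the elements of the lottery -/
structure LotBL (L : Cond K → Cond K → Prop) (l : K) : Type u where
  i : LotIL L l
  y : Iio i.m

/-- the counterexamples in the lottery -/
abbrev LotI (D : Dat K) (l : K) : Type u := LotIL (D.le l) l

/-- the elements of the lottery -/
abbrev LotB (D : Dat K) (l : K) : Type u := LotBL (D.le l) l

theorem LotI.m_eq {D : Dat K} {l : K} (i j : LotI D l) : i.m = j.m := by
  rcases lt_trichotomy i.m j.m with h | h | h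
  · exact absurd i.bad (j.min.2 i.m h i.c)
  · exact h
  · exact absurd j.bad (i.min.2 j.m h j.c)

theorem card_cand (h : Inacc K) (l m : K) : #(Cand l m) < #K := by
  have hinf : ℵ₀ ≤ #K := h.card.aleph0_lt.le
  let f : Cand l m → (Set (Iio m × Iio m × CT l)) × (Set (W1.{u} × Iio m × CT l)) × CT l := fun c =>
    ({z | c.ρ z.1 z.2.1 z.2.2}, {z | c.W z.1 z.2.1 z.2.2}, c.p)
  have hf : Function.Injective f := by
    intro c c' hcc
    obtain ⟨ρ, W, p⟩ := c
    obtain ⟨ρ', W', p'⟩ := c'
    have h1 : ({z | ρ z.1 z.2.1 z.2.2} : Set (Iio m × Iio m × CT l)) = {z | ρ' z.1 z.2.1 z.2.2} :=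
      congrArg Prod.fst hcc
    have h2 : ({z | W z.1 z.2.1 z.2.2} : Set (W1.{u} × Iio m × CT l)) = {z | W' z.1 z.2.1 z.2.2} :=
      congrArg (fun z => z.2.1) hcc
    have h3 : p = p' := congrArg (fun z => z.2.2) hcc
    have h4 : ρ = ρ' := by
      funext x y u
      exact congrArg (fun S : Set (Iio m × Iio m × CT l) => (x, y, u) ∈ S) h1
    have h5 : W = W' := by
      funext x y u
      exact congrArg (fun S : Set (W1.{u} × Iio m × CT l) => (x, y, u) ∈ S) h2
    rw [h3, h4, h5]
  have hI : #(Iio m) < #K := h.lt m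
  have hC : #(CT l) < #K := card_bnd h l
  have hW : #(W1.{u}) < #K := card_w1_lt h
  refine (mk_le_of_injective hf).trans_lt ?_
  simp only [mk_prod, lift_id, mk_set]
  refine mul_lt_of_lt hinf (two_pow_lt h (mul_lt_of_lt hinf hI (mul_lt_of_lt hinf hI hC)))
    (mul_lt_of_lt hinf (two_pow_lt h (mul_lt_of_lt hinf hW (mul_lt_of_lt hinf hI hC))) hC)

theorem card_lotB (h : Inacc K) (D : Dat K) (l : K) : #(LotB D l) < #K := by
  by_cases hne : Nonempty (LotI D l)
  · obtain ⟨i0⟩ := hne
    let g : {c : Cand l i0.m // c.IsBadL (D.le l)} × Iio i0.m → LotB D l := fun z =>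
      ⟨⟨i0.m, i0.min, z.1.1, z.1.2⟩, z.2⟩
    have hg : Function.Surjective g := by
      rintro ⟨⟨m, min, c, bad⟩, y⟩
      have hm : m = i0.m := LotI.m_eq (D := D) (l := l) ⟨m, min, c, bad⟩ i0
      subst hm
      exact ⟨(⟨c, bad⟩, y), rfl⟩
    refine (mk_le_of_surjective hg).trans_lt ?_
    rw [mk_prod, lift_id, lift_id]
    exact mul_lt_of_lt h.card.aleph0_lt.le
      ((mk_subtype_le _).trans_lt (card_cand h l i0.m)) (h.lt i0.m)
  · have : IsEmpty (LotB D l) := ⟨fun b => hne ⟨b.i⟩⟩
    rw [mk_eq_zero]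
    exact aleph0_pos.trans h.card.aleph0_lt

/-- decoding of the elements of the lottery -/
noncomputable def dlL (L : Cond K → Cond K → Prop) (l : K) : K → Option (LotBL L l) :=
  open Classical in if h : ∃ f : K → Option (LotBL L l), Function.Surjective f ∧ f ⊥ = none
    then h.choose else fun _ => none

/-- decoding of the elements of the lottery -/
noncomputable def Dat.dl (D : Dat K) (l : K) : K → Option (LotB D l) := dlL (D.le l) l

theorem Dat.dl_spec (h : Inacc K) (D : Dat K) (l : K) :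
    Function.Surjective (D.dl l) ∧ D.dl l ⊥ = none := by
  have h1 : ∃ f : K → Option (LotBL (D.le l) l), Function.Surjective f ∧ f ⊥ = none :=
    exists_cover_fn_of_le (card_option_lt h (card_lotB h D l)).le none
  have h2 : D.dl l = h1.choose := by
    unfold Dat.dl dlL
    rw [dif_pos h1]
  rw [h2]
  exact h1.choose_spec

def Dat.lotR (D : Dat K) (l x y : K) (r : Cond K) : Prop :=
  D.dl l y = none ∨ (∃ b : LotB D l, D.dl l y = some b ∧ D.Inc l r b.i.c.p.1) ∨
    ∃ (i : LotI D l) (a b : Iio i.m) (u : CT l), D.dl l x = some ⟨i, a⟩ ∧ D.dl l y = some ⟨i, b⟩ ∧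
      D.le l r i.c.p.1 ∧ D.le l r u.1 ∧ i.c.ρ a b u

def Dat.lotJ (D : Dat K) (l x y : K) (p : Cond K) : Prop :=
  (CofU l ∧ D.Cdense l) → ∀ q, D.le l q p → ∃ r, D.le l r q ∧ D.lotR l x y r

/-! ### Tree -/

/-- `p` forces that `ξ` belongs to the subset of `K` with the `P_β`-name coded by `z` -/
def Dat.ext (D : Dat K) (β : WithTop K) (z ξ : K) (p : Cond K) : Prop :=
  ∀ q, D.le β q p → ∃ r u, D.le β r q ∧ (u, ξ) ∈ D.nm z ∧ D.le β r u

/-- `p` forces (in `P_A`) that `τ ∩ β` belongs to the model `V[G_γ]` -/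
def Dat.InV (D : Dat K) (A γ : WithTop K) (β : K) (τ : K → Cond K → Prop) (p : Cond K) : Prop :=
  ∀ q, D.le A q p → ∃ r z, D.le A r q ∧ ∀ ξ < β, ∀ r', D.le A r' r → (τ ξ r' ↔ D.ext γ z ξ r')

/-- `p` forces (in `P_A`) that `τ ∩ α` is a node of the tree of level `α` -/
def Dat.VlN (D : Dat K) (A : WithTop K) (α : K) (τ : K → Cond K → Prop) (p : Cond K) : Prop :=
  ∀ β ≤ α, IsLim β → β ≠ ⊥ → (¬ CofU β → D.InV A β β τ p) ∧
    (CofU β → D.InV A (nl β : K) β τ p ∧ ∀ q, D.le A q p → ¬ D.InV A β β τ q)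

/-- the node of level `α` coded by `z` is the subset of `α` with the `P_(nl α)`-name `z` -/
def Dat.Vl (D : Dat K) (A : WithTop K) (α z : K) (p : Cond K) : Prop :=
  D.VlN A α (D.ext (nl α : K) z) p

def Dat.treeR (C : Cod K) (D : Dat K) (l x y : K) (r : Cond K) : Prop :=
  (¬ (C.pr y).1 < l ∨ (C.pr y).1 = ⊥ ∨
      ∀ r', D.le (Order.succ l : K) r' r → ¬ D.Vl (Order.succ l : K) (C.pr y).1 (C.pr y).2 r') ∨
    ((C.pr x).1 < l ∧ (C.pr y).1 ≤ (C.pr x).1 ∧ D.Vl (Order.succ l : K) (C.pr x).1 (C.pr x).2 r ∧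
      D.Vl (Order.succ l : K) (C.pr y).1 (C.pr y).2 r ∧
      ∀ ξ < (C.pr y).1, ∀ r', D.le (Order.succ l : K) r' r →
        (D.ext (nl (C.pr x).1 : K) (C.pr x).2 ξ r' ↔ D.ext (nl (C.pr y).1 : K) (C.pr y).2 ξ r'))

def Dat.treeJ (C : Cod K) (D : Dat K) (l x y : K) (p : Cond K) : Prop :=
  ∀ q, D.le (Order.succ l : K) q p → ∃ r, D.le (Order.succ l : K) r q ∧ D.treeR C l x y r

/-! ### The iteration -/

/-- `D` is the iteration. -/
structure IsIt (C : Cod K) (D : Dat K) : Prop where
  nm : D.nm = C.nm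
  lot : ∀ l, IsLim l → D.J l = D.lotJ l
  tree : ∀ l, IsLim l → CofU l → l ≠ ⊥ → D.J (Order.succ l) = D.treeJ C l
  coh1 : ∀ l, IsLim l → ¬ (CofU l ∧ l ≠ ⊥) → D.J (Order.succ l) = cohJ C
  col : ∀ l, IsLim l → D.J (Order.succ (Order.succ l)) = colJ C l
  coh : ∀ l, IsLim l → ∀ n : ℕ, D.J (Order.succ^[n + 3] l) = cohJ C

/-- locality of the orders -/
theorem Dat.le_loc {D1 D2 : Dat K} (hn : D1.nm = D2.nm) (β : WithTop K)
    (hJ : ∀ γ : K, (γ : WithTop K) < β → D1.J γ = D2.J γ) : D1.le β = D2.le β := by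
  induction β using (wellFounded_lt (α := WithTop K)).induction with
  | _ β ih =>
    funext p q
    apply propext
    rw [Dat.le_iff, Dat.le_iff]
    have h1 : ∀ γ : K, (γ : WithTop K) < β → D1.le γ = D2.le γ := fun γ hγ =>
      ih γ hγ fun γ' hγ' => hJ γ' (hγ'.trans hγ)
    unfold Dat.Dec
    constructor
    · intro h γ hγ
      have h2 := h γ hγ
      rw [h1 γ hγ, hJ γ hγ, hn] at h2
      exact h2
    · intro h γ hγ
      rw [h1 γ hγ, hJ γ hγ, hn]
      exact h γ hγ

theorem lotJ_loc {D1 D2 : Dat K} {l : K} (h : D1.le l = D2.le l) : D1.lotJ l = D2.lotJ l := by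
  have key : ∀ (D : Dat K) (L : Cond K → Cond K → Prop), L = D.le l → D.lotJ l =
      fun x y p => (CofU l ∧ ∀ p, ∃ q, Bnd q l ∧ L q p) → ∀ q, L q p → ∃ r, L r q ∧
        (dlL L l y = none ∨ (∃ b : LotBL L l, dlL L l y = some b ∧ IncR L r b.i.c.p.1) ∨
        ∃ (i : LotIL L l) (a b : Iio i.m) (u : CT l), dlL L l x = some ⟨i, a⟩ ∧
          dlL L l y = some ⟨i, b⟩ ∧ L r i.c.p.1 ∧ L r u.1 ∧ i.c.ρ a b u) := by
    rintro D L rfl
    rfl
  rw [key D1 (D2.le l) h.symm, key D2 (D2.le l) rfl]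

theorem ext_congrD {D1 D2 : Dat K} (hn : D1.nm = D2.nm) {β : WithTop K} (h : D1.le β = D2.le β) :
    D1.ext β = D2.ext β := by
  unfold Dat.ext
  rw [hn, h]

theorem inV_congrD {D1 D2 : Dat K} (hn : D1.nm = D2.nm) {A γ : WithTop K} (hA : D1.le A = D2.le A)
    (hγ : D1.le γ = D2.le γ) : D1.InV A γ = D2.InV A γ := by
  unfold Dat.InV
  rw [hA, ext_congrD hn hγ]

theorem vlN_congrD {D1 D2 : Dat K} (hn : D1.nm = D2.nm) {A : WithTop K} (hA : D1.le A = D2.le A)
    {α : K} (h : ∀ β ≤ α, D1.le β = D2.le β ∧ D1.le (nl β : K) = D2.le (nl β : K)) :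
    D1.VlN A α = D2.VlN A α := by
  funext τ p
  apply propext
  unfold Dat.VlN
  rw [hA]
  refine forall_congr' fun β => forall_congr' fun hβ => ?_
  rw [inV_congrD hn hA (h β hβ).1, inV_congrD hn hA (h β hβ).2]

theorem vl_congrD {D1 D2 : Dat K} (hn : D1.nm = D2.nm) {A : WithTop K} (hA : D1.le A = D2.le A)
    {α : K} (h : ∀ β ≤ α, D1.le β = D2.le β ∧ D1.le (nl β : K) = D2.le (nl β : K)) :
    D1.Vl A α = D2.Vl A α := by
  unfold Dat.Vl
  rw [vlN_congrD hn hA h, ext_congrD hn (h α (_root_.le_refl α)).2]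

theorem nl_le_of_lim {α l : K} (hl : IsLim l) (hα : α < l) : nl α ≤ l := by
  classical
  have h1 : ∃ β, α < β ∧ IsLim β := ⟨l, hα, hl⟩
  unfold nl
  rw [dif_pos h1]
  exact WellFounded.min_le (wellFounded_lt (α := K)) (s := {β | α < β ∧ IsLim β}) ⟨hα, hl⟩

theorem treeJ_congrD (C : Cod K) {D1 D2 : Dat K} (hn : D1.nm = D2.nm) {l : K} (hl : IsLim l)
    (h : ∀ β : K, β ≤ Order.succ l → D1.le β = D2.le β) : D1.treeJ C l = D2.treeJ C l := by
  have hs := h (Order.succ l) (_root_.le_refl _)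
  have hlt : ∀ β : K, β < l → D1.le β = D2.le β := fun β hβ =>
    h β (hβ.le.trans (Order.le_succ l))
  have hnl : ∀ β : K, β < l → D1.le (nl β : K) = D2.le (nl β : K) := fun β hβ =>
    h (nl β) ((nl_le_of_lim hl hβ).trans (Order.le_succ l))
  have hvl : ∀ α : K, α < l → D1.Vl (Order.succ l : K) α = D2.Vl (Order.succ l : K) α :=
    fun α hα => vl_congrD hn hs fun β hβ => ⟨hlt β (hβ.trans_lt hα), hnl β (hβ.trans_lt hα)⟩
  have hext : ∀ α : K, α < l → D1.ext (nl α : K) = D2.ext (nl α : K) := fun α hα =>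
    ext_congrD hn (hnl α hα)
  have hR : ∀ x y r, D1.treeR C l x y r ↔ D2.treeR C l x y r := by
    intro x y r
    unfold Dat.treeR
    rw [hs]
    by_cases hy : (C.pr y).1 < l
    · rw [hvl _ hy, hext _ hy]
      by_cases hx : (C.pr x).1 < l
      · rw [hvl _ hx, hext _ hx]
      · constructor
        · rintro (h1 | h1)
          · exact Or.inl h1
          · exact absurd h1.1 hx
        · rintro (h1 | h1)
          · exact Or.inl h1
          · exact absurd h1.1 hx
    · exact ⟨fun _ => Or.inl (Or.inl hy), fun _ => Or.inl (Or.inl hy)⟩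
  funext x y p
  apply propext
  unfold Dat.treeJ
  rw [hs]
  refine forall_congr' fun q => forall_congr' fun _ => exists_congr fun r => ?_
  rw [hR]

/-- the stage with the position `(l, n)` -/
noncomputable def stF (C : Cod K) (z : K × ℕ) (D : Dat K) : K → K → Cond K → Prop :=
  open Classical in match z.2 with
    | 0 => D.lotJ z.1
    | 1 => if CofU z.1 ∧ z.1 ≠ ⊥ then D.treeJ C z.1 else cohJ C
    | 2 => colJ C z.1
    | _ + 3 => cohJ C

theorem stF_loc (C : Cod K) {z : K × ℕ} (hz : IsLim z.1) {D1 D2 : Dat K} (hn : D1.nm = D2.nm)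
    (hJ : ∀ γ' < Order.succ^[z.2] z.1, D1.J γ' = D2.J γ') : stF C z D1 = stF C z D2 := by
  classical
  obtain ⟨l, n⟩ := z
  have hle : ∀ β : K, β ≤ Order.succ^[n] l → D1.le β = D2.le β := fun β hβ =>
    Dat.le_loc hn β fun γ hγ => hJ γ ((WithTop.coe_lt_coe.1 hγ).trans_le hβ)
  match n with
  | 0 => exact lotJ_loc (hle l (_root_.le_refl l))
  | 1 =>
    change (if CofU l ∧ l ≠ ⊥ then D1.treeJ C l else cohJ C) =
      (if CofU l ∧ l ≠ ⊥ then D2.treeJ C l else cohJ C)
    rw [treeJ_congrD C hn hz hle]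
  | 2 => rfl
  | _ + 3 => rfl

/-- Existence: well-founded recursion on `γ`; `lotJ D l` depends only on `D.nm` and `D.le l`, `treeJ C D l` on
`D.nm` and `D.le β`, `β ≤ succ l`, and `D.le β` depends only on `D.nm` and `D.J γ`, `γ < β`. -/
theorem exists_it (C : Cod K) : ∃ D : Dat K, IsIt C D := by
  classical
  have hex : ∀ γ : K, ∃ z : K × ℕ, IsLim z.1 ∧ γ = Order.succ^[z.2] z.1 := by
    intro γ
    obtain ⟨l, n, h1, h2⟩ := exists_lim_add γ
    exact ⟨(l, n), h1, h2⟩
  choose z hz1 hz2 using hex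
  let J : K → K → K → Cond K → Prop := WellFounded.fix (C := fun _ => K → K → Cond K → Prop)
    (wellFounded_lt (α := K)) (fun γ ih => stF C (z γ)
      ⟨C.nm, fun γ' => if hγ : γ' < γ then ih γ' hγ else fun _ _ _ => True⟩)
  have hJ : ∀ γ, J γ = stF C (z γ) ⟨C.nm, J⟩ := by
    intro γ
    have h1 : J γ = stF C (z γ) ⟨C.nm, fun γ' => if _ : γ' < γ then J γ' else fun _ _ _ => True⟩ :=
      WellFounded.fix_eq _ _ _
    rw [h1]
    refine stF_loc C (hz1 γ) rfl fun γ' hγ' => ?_
    rw [← hz2 γ] at hγ'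
    change (if _ : γ' < γ then J γ' else fun _ _ _ => True) = J γ'
    rw [dif_pos hγ']
  have hz : ∀ (l : K) (n : ℕ), IsLim l → z (Order.succ^[n] l) = (l, n) := by
    intro l n hl
    obtain ⟨h1, h2⟩ := lim_add_uniq hl (hz1 (Order.succ^[n] l)) (hz2 (Order.succ^[n] l))
    exact Prod.ext h1.symm h2.symm
  refine ⟨⟨C.nm, J⟩, ?_⟩
  exact
    { nm := rfl
      lot := by
        intro l hl
        change J l = _
        rw [hJ l]
        have h1 : z l = (l, 0) := hz l 0 hl
        rw [h1]
        rfl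
      tree := by
        intro l hl hc hb
        change J (Order.succ l) = _
        rw [hJ]
        have h1 : z (Order.succ l) = (l, 1) := hz l 1 hl
        rw [h1]
        change (if CofU l ∧ l ≠ ⊥ then _ else _) = _
        rw [if_pos ⟨hc, hb⟩]
      coh1 := by
        intro l hl hc
        change J (Order.succ l) = _
        rw [hJ]
        have h1 : z (Order.succ l) = (l, 1) := hz l 1 hl
        rw [h1]
        change (if CofU l ∧ l ≠ ⊥ then _ else _) = _
        rw [if_neg hc]
      col := by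
        intro l hl
        change J (Order.succ (Order.succ l)) = _
        rw [hJ]
        have h1 : z (Order.succ (Order.succ l)) = (l, 2) := hz l 2 hl
        rw [h1]
        rfl
      coh := by
        intro l hl n
        change J (Order.succ^[n + 3] l) = _
        rw [hJ, hz l (n + 3) hl]
        rfl }

end Pool.Agent.W_MP_315f31_lc
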