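import Pool.Agent.W_MP_315f31_lc.Iter

/-!
# MP_315f31_lc : totally proper stages are good

PROOF of `good_of_tpk`.  Take `N` in a suitable club (`γ ∈ N`, closed under the functions used below), `c, q` with
`Gen N c γ q`, `x ∈ N`.  Put `S s z := ∃ r, D.le γ r q ∧ D.LBK N γ r x z ∧ D.le γ s r`; it is monotone and
dense below `q` (`TPK γ` applied to any `q' ≤ q`, which is generic by `Gen_mono`).  Let `a` be the
name given by `mix` (`small_dense` for `P_γ`): whenever `s ≤ q` decides `a` to be `z`, densely below `s`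
there is `s'` with `LBK N γ r x z`, `s' ≤ r`, so `LBK N γ s' x z` (`LBK` is monotone).
`Below γ q a x`: by `OkB.reg`.
`Gen N c (succ γ) (snoc γ q a)`: let `E ∈ N` be dense open for `succ γ` and `q' ≤ snoc γ q a`.
Let `D1 := {(p, y) | ∀ p' ≤_γ p, ∀ s, ∃ p'' ≤_γ p', ∃ s' ⊇ s, (snoc γ p'' (cst y), s') ∈ E}`.
CLAIM 1: `DOs (le γ) (J γ) D1`.  Open: clear (`snoc_le_iff`, `FL_iff`, `Dec_cst`).  Dense: let `p, y` be given;
by `exists_gen'` (for the club of `TPK γ` and closure under `t ↦ E^t`, `A = {y, E^t (t : List ℕ)}`) there is `N'`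
with `p, y ∈ N'` and a generic `q1 ≤ p` for `N'`; `TPK γ` gives `r ≤ q1` and `z` with
`LBK N' γ r y z`.  Then `(r, z) ∈ D1`: given `p' ≤ r` and `t`, the set
`E^t := {(u, v) | ∃ s' ⊇ t, (snoc γ u (cst v), s') ∈ E}` is dense open (dense: `E` is dense below
`snoc γ u (cst v)`, decide the value of the `γ`-th coordinate of the element found) and belongs to `N'`, so there are
`p'' ≤ p'`, `(u, v) ∈ E^t` with `p'' ≤ u`, `J γ z v p''`; so `snoc γ p'' (cst z) ≤ snoc γ u (cst v)`.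
`D1 ∈ N`.  Let `s ≤_γ q'` decide `a` to be `z` with `LBK N γ s x z`; there are `s1 ≤ s` and
`(p, y) ∈ D1` with `p, y ∈ N`, `s1 ≤ p`, `J γ z y s1`.  Let
`D2 := {(u, t) | (snoc γ u (cst y), t) ∈ E ∨ Inc γ u p}`, dense open for `γ` because `(p, y) ∈ D1`, and `D2 ∈ N`.
By `Gen N c γ` there are `s2 ≤ s1` and `(u, pre c n) ∈ D2` with `u ∈ N`, `s2 ≤ u`; `u` is compatible with `p`, so
`(snoc γ u (cst y), pre c n) ∈ E`, and `snoc γ u (cst y) ∈ N`.  Finally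
`glue γ s2 q' ≤ q'` and `glue γ s2 q' ≤ snoc γ u (cst y)`: at `γ`, `q' γ ≤ a` (from `q' ≤ snoc γ q a`), `a` has
the value `z` and `J γ z y`.
-/

universe u

open Cardinal Set

namespace Pool.Agent.W_MP_315f31_lc

variable {K : Type u} [LinearOrder K] [OrderBot K] [WellFoundedLT K] [SuccOrder K] [NoMaxOrder K]
  {D : Dat K}

theorem tpg_lt (γ : K) : (γ : WithTop K) < ((Order.succ γ : K) : WithTop K) :=
  WithTop.coe_lt_coe.2 (Order.lt_succ γ)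

theorem tpg_ok {γ : K} (h : OkB D (Order.succ γ : K)) : OkB D (γ : WithTop K) :=
  h.mono_top (tpg_lt γ).le

/-- `le γ` does not see the last coordinate -/
theorem tpg_le_snoc {γ : K} (p q : Cond K) (a : K) :
    D.le γ p (Cond.snoc γ q a) ↔ D.le γ p q :=
  D.le_congr (fun _ _ => rfl) (fun _ hβ => Cond.snoc_of_lt q a (WithTop.coe_lt_coe.1 hβ))

theorem tpg_snoc_le_snoc {γ : K} (h : OkB D (Order.succ γ : K)) {u u' : Cond K} {y y' : K}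
    (hu : D.le γ u' u) (hy : D.J γ y' y u') :
    D.le (Order.succ γ : K) (Cond.snoc γ u' (D.cst y')) (Cond.snoc γ u (D.cst y)) := by
  have h0 := tpg_ok h
  rw [Dat.snoc_le_iff h0, tpg_le_snoc, Cond.snoc_self]
  exact ⟨hu, (Dat.FL_iff h (tpg_lt γ) (Dat.Dec_cst h0 u' y') (Dat.Dec_cst h0 u' y)).2 hy⟩

theorem Dat.LBK_mono {γ : K} (h : OkB D (Order.succ γ : K)) {N : Set (Ob K)} {r r' : Cond K}
    {x y : K} (hr : D.LBK N γ r x y) (h' : D.le γ r' r) : D.LBK N γ r' x y := by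
  refine ⟨h.mono γ (tpg_lt γ) _ _ _ _ hr.1 h', ?_⟩
  intro E hE hD r1 hr1
  exact hr.2 E hE hD r1 (Dat.le_trans (tpg_ok h) hr1 h')

/-- `E` read at the base elements: `(u, v)` such that `(u ⌢ v, s') ∈ E` for some `s' ⊇ t` -/
def Dat.Et (D : Dat K) (γ : K) (E : Set (Cond K × List ℕ)) (t : List ℕ) : Set (Cond K × K) :=
  {x | ∃ s', t <+: s' ∧ (Cond.snoc γ x.1 (D.cst x.2), s') ∈ E}

theorem Dat.Et_DOs {γ : K} (h : OkB D (Order.succ γ : K)) {E : Set (Cond K × List ℕ)}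
    (hE : D.DO (Order.succ γ : K) E) (t : List ℕ) : DOs (D.le γ) (D.J γ) (D.Et γ E t) := by
  have h0 := tpg_ok h
  constructor
  · rintro p y p' y' ⟨s', hs', hmem⟩ hp hy
    exact ⟨s', hs', hE.1 _ _ _ _ hmem (tpg_snoc_le_snoc h hp hy) (List.prefix_refl _)⟩
  · intro p y
    obtain ⟨p', s', hp', hs', hmem⟩ := hE.2 (Cond.snoc γ p (D.cst y)) t
    rw [Dat.le_snoc_iff h0] at hp'
    obtain ⟨r, z, hr, hz⟩ := Dat.Dec_dense h0 p' (p' γ)
    have h1 : D.J γ z y r :=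
      (Dat.FL_iff h (tpg_lt γ) hz (Dat.Dec_cst h0 r y)).1 (Dat.FL_mono h0 hp'.2 hr)
    refine ⟨r, z, Dat.le_trans h0 hr hp'.1, h1, s', hs', hE.1 _ _ _ _ hmem ?_ (List.prefix_refl _)⟩
    rw [Dat.snoc_le_iff h0]
    exact ⟨hr, (Dat.FL_iff h (tpg_lt γ) (Dat.Dec_cst h0 r z) hz).2 (h.refl γ (tpg_lt γ) z r)⟩

def Dat.D1 (D : Dat K) (γ : K) (E : Set (Cond K × List ℕ)) : Set (Cond K × K) :=
  {x | ∀ p', D.le γ p' x.1 → ∀ t, ∃ p'', D.le γ p'' p' ∧ (p'', x.2) ∈ D.Et γ E t}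

theorem Dat.D1_DOs {γ : K} (h : OkB D (Order.succ γ : K))
    (hg : ∀ γ' : K, γ' < γ → D.Good γ') (ht : D.TPK γ)
    {E : Set (Cond K × List ℕ)} (hE : D.DO (Order.succ γ : K) E) :
    DOs (D.le γ) (D.J γ) (D.D1 γ E) := by
  have h0 := tpg_ok h
  constructor
  · intro p y p' y' hmem hp hy p1 hp1 t
    obtain ⟨p2, hp2, hE2⟩ := hmem p1 (Dat.le_trans h0 hp1 hp) t
    refine ⟨p2, hp2, (Dat.Et_DOs h hE t).1 p2 y p2 y' hE2 (Dat.le_refl h0 p2) ?_⟩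
    exact h.mono γ (tpg_lt γ) _ _ _ _ hy (Dat.le_trans h0 hp2 hp1)
  · intro p y
    have hA : (insert (Ob.k y) (Set.range fun t : List ℕ => Ob.s (D.Et γ E t))).Countable :=
      (Set.countable_range _).insert _
    obtain ⟨N', hN'S, -, hAN, -, c, q1, -, hq1, hgen⟩ :=
      Dat.exists_gen' h0 (fun γ' hγ' => hg γ' (WithTop.coe_lt_coe.1 hγ')) ht hA p
    obtain ⟨r, z, hr, hz1, hz2⟩ := hN'S c q1 hgen y (hAN (Set.mem_insert _ _))
    refine ⟨r, z, Dat.le_trans h0 hr hq1, hz1, ?_⟩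
    intro p' hp' t
    obtain ⟨r2, hr2, u, v, huv, -, -, hr2u, hzv⟩ :=
      hz2 (D.Et γ E t) (hAN (Set.mem_insert_of_mem _ ⟨t, rfl⟩)) (Dat.Et_DOs h hE t) p' hp'
    exact ⟨r2, hr2, (Dat.Et_DOs h hE t).1 u v r2 z huv hr2u hzv⟩

/-- the dense set used for the last coordinate -/
def Dat.D2 (D : Dat K) (γ : K) (E : Set (Cond K × List ℕ)) (p : Cond K) (y : K) :
    Set (Cond K × List ℕ) :=
  {x | (Cond.snoc γ x.1 (D.cst y), x.2) ∈ E ∨ D.Inc γ x.1 p}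

theorem Dat.D2_DO {γ : K} (h : OkB D (Order.succ γ : K))
    {E : Set (Cond K × List ℕ)} (hE : D.DO (Order.succ γ : K) E) {p : Cond K} {y : K}
    (hpy : (p, y) ∈ D.D1 γ E) : D.DO γ (D.D2 γ E p y) := by
  have h0 := tpg_ok h
  constructor
  · rintro u t u' t' (h1 | h1) hu ht
    · left
      exact hE.1 _ _ _ _ h1 (tpg_snoc_le_snoc h hu (h.refl γ (tpg_lt γ) y u')) ht
    · right
      exact Dat.Inc_mono h0 h1 hu
  · intro u t
    by_cases h1 : D.Inc γ u p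
    · exact ⟨u, t, Dat.le_refl h0 u, List.prefix_refl _, Or.inr h1⟩
    · obtain ⟨w, hwu, hwp⟩ : ∃ w, D.le γ w u ∧ D.le γ w p := by
        by_contra hcon
        exact h1 hcon
      obtain ⟨p2, hp2, s', hs', hmem⟩ := hpy w hwp t
      exact ⟨p2, s', Dat.le_trans h0 hp2 hwu, hs', Or.inl hmem⟩

/-- the function `E ↦ D1 γ E` on objects -/
def Dat.fD1 (D : Dat K) (γ : K) : Ob K → Ob K
  | Ob.e E => Ob.s (D.D1 γ E)
  | z => z

/-- the function `(E, p, y) ↦ D2 γ E p y` on objects -/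
def Dat.fD2 (D : Dat K) (γ : K) : Ob K → Ob K → Ob K → Ob K
  | Ob.e E, Ob.c p, Ob.k y => Ob.e (D.D2 γ E p y)
  | z, _, _ => z

/-- the function `(u, y) ↦ snoc γ u (cst y)` on objects -/
noncomputable def Dat.fSn (D : Dat K) (γ : K) : Ob K → Ob K → Ob K
  | Ob.c u, Ob.k y => Ob.c (Cond.snoc γ u (D.cst y))
  | z, _ => z

theorem Dat.good_of_tpk {γ : K} (h : OkB D (Order.succ γ : K))
    (hg : ∀ γ' : K, γ' < γ → D.Good γ') (ht : D.TPK γ) : D.Good γ := by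
  have h0 := tpg_ok h
  have hclub := ((ht.inter (IsClub.fn (D.fD1 γ))).inter (IsClub.fn3 (D.fD2 γ))).inter
    (IsClub.fn2 (D.fSn γ))
  refine hclub.mono ?_
  rintro N ⟨⟨⟨hN1, hN2⟩, hN3⟩, hN4⟩ c q hgen x hx
  have k2 : ∀ E, Ob.e E ∈ N → Ob.s (D.D1 γ E) ∈ N := fun E hE => hN2 _ hE
  have k3 : ∀ E p y, Ob.e E ∈ N → Ob.c p ∈ N → Ob.k y ∈ N → Ob.e (D.D2 γ E p y) ∈ N :=
    fun E p y hE hp hy => hN3 _ hE _ hp _ hy
  have k4 : ∀ u y, Ob.c u ∈ N → Ob.k y ∈ N → Ob.c (Cond.snoc γ u (D.cst y)) ∈ N :=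
    fun u y hu hy => hN4 _ hu _ hy
  -- the mixed name
  obtain ⟨S, hSdef⟩ : ∃ S : Cond K → K → Prop, S = fun s z =>
      ∃ r, D.le γ r q ∧ D.LBK N γ r x z ∧ D.le γ s r := ⟨_, rfl⟩
  have hSmono : ∀ p q x, S p x → D.le γ q p → S q x := by
    intro p p' z hp hp'
    rw [hSdef] at hp ⊢
    obtain ⟨r, h1, h2, h3⟩ := hp
    exact ⟨r, h1, h2, Dat.le_trans h0 hp' h3⟩
  have hSdense : ∀ q', D.le γ q' q → ∃ r y, D.le γ r q' ∧ S r y := by
    intro q' hq'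
    obtain ⟨r, y, hr, hy⟩ := hN1 c q' (Dat.Gen_mono h0 hgen hq') x hx
    refine ⟨r, y, hr, ?_⟩
    rw [hSdef]
    exact ⟨r, Dat.le_trans h0 hr hq', hy, Dat.le_refl h0 r⟩
  obtain ⟨a, ha⟩ := Dat.mix h0 (Dat.small_dense γ h0) S hSmono
  have key : ∀ s, D.le γ s q → ∀ z, D.Dec γ s a z → ∀ s', D.le γ s' s →
      ∃ r, D.le γ r s' ∧ D.LBK N γ r x z := by
    intro s hs z hz s' hs'
    obtain ⟨r, hr, hSr⟩ := ha s z hz (fun q' hq' => hSdense q' (Dat.le_trans h0 hq' hs)) s' hs'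
    rw [hSdef] at hSr
    obtain ⟨r', -, h2, h3⟩ := hSr
    exact ⟨r, hr, Dat.LBK_mono h h2 h3⟩
  refine ⟨a, ?_, ?_⟩
  · intro r hr z hz
    refine h.reg γ (tpg_lt γ) _ _ _ fun q' hq' => ?_
    obtain ⟨r', hr', h2⟩ := key r hr z hz q' hq'
    exact ⟨r', hr', h2.1⟩
  · intro E hEN hE q' hq'
    rw [Dat.le_snoc_iff h0] at hq'
    obtain ⟨hq'q, hFL⟩ := hq'
    obtain ⟨s, z, hs, hz⟩ := Dat.Dec_dense h0 q' a
    obtain ⟨s', hs', hL⟩ := key s (Dat.le_trans h0 hs hq'q) z hz s (Dat.le_refl h0 s)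
    obtain ⟨s1, hs1, p, y, hpy, hp, hy, hs1p, hJ⟩ :=
      hL.2 (D.D1 γ E) (k2 E hEN) (Dat.D1_DOs h hg ht hE) s' (Dat.le_refl h0 s')
    have hs1' : D.le γ s1 q' := Dat.le_trans h0 hs1 (Dat.le_trans h0 hs' hs)
    have hs1q : D.le γ s1 q := Dat.le_trans h0 hs1' hq'q
    obtain ⟨s2, hs2, u, n, hu, huN, hs2u⟩ :=
      hgen (D.D2 γ E p y) (k3 E p y hEN hp hy) (Dat.D2_DO h hE hpy) s1 hs1q
    have hmem : (Cond.snoc γ u (D.cst y), pre c n) ∈ E := by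
      rcases hu with h1 | h1
      · exact h1
      · exact absurd ⟨s2, hs2u, Dat.le_trans h0 hs2 hs1p⟩ h1
    have hs2q' : D.le γ s2 q' := Dat.le_trans h0 hs2 hs1'
    have hle : (γ : WithTop K) ≤ ((Order.succ γ : K) : WithTop K) := (tpg_lt γ).le
    have hr1 := (Dat.glue_le_left h hle s2 q').1
    refine ⟨Cond.glue γ s2 q', Dat.glue_le h hle hs2q', Cond.snoc γ u (D.cst y), n, hmem,
      k4 u y huN hy, ?_⟩
    rw [Dat.le_snoc_iff h0, Cond.glue_of_ge s2 q' le_rfl]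
    refine ⟨Dat.le_trans h0 hr1 hs2u, ?_⟩
    refine Dat.FL_trans h (tpg_lt γ) (b := a) ?_ ?_
    · exact Dat.FL_mono h0 hFL (Dat.le_trans h0 hr1 hs2q')
    · have hrs1 : D.le γ (Cond.glue γ s2 q') s1 := Dat.le_trans h0 hr1 hs2
      have hrs : D.le γ (Cond.glue γ s2 q') s :=
        Dat.le_trans h0 hrs1 (Dat.le_trans h0 hs1 hs')
      exact (Dat.FL_iff h (tpg_lt γ) (Dat.Dec_mono h0 hz hrs) (Dat.Dec_cst h0 _ y)).2
        (h.mono γ (tpg_lt γ) _ _ _ _ hJ hrs1)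

end Pool.Agent.W_MP_315f31_lc
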