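import Pool.Agent.W_MP_315f31_lc.TreeNode

/-!
# MP_315f31_lc : the generic branch added at stage `l + 1`, existence of nodes

`br_at` (BRX): at `r` the name `r (succ l)` has the value `x`, valid and nontrivial.  If `r' ≤ r` and
`ext ... x ξ r'`: for `q ≤ r'` decide `q (succ l)` to be `x'` at some `r''`; `J (succ l) x' x r''` because
`q ≤ r`, so by `tree_dest` `x'` is a witness for `br ξ`.  If `br ξ r'`: densely below `r'` there is `x''`, the value of the
`(l+1)`-st coordinate, with `ext ... x'' ξ`, and `J (succ l) x'' x`, so `ext ... x ξ` (`tree_dest`); use `ext_reg`.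
`br_ext` (EXT): decide `q (succ l) = x` at `r0 ≤ q`, `node_ext` gives `r1 ≤ r0` and `x'`; take
`glue (succ l) r1 (the condition q with the coordinate succ l replaced by cst x')`.
`br_node`: nm, loc: `br` depends on the coordinates `< l + 2`, is monotone and regular.  `VlN`: for a limit `b < l` (`b ≠ ⊥`) use
`br_ext` with `β = b` and `br_at`: densely `br` agrees below the level of `x` with the valid node `x` (`VlN_reg`, `VlN_congr`,
`VlN_restr`, `VlN_amb`).  For `b = l`: `InV A (nl l) l br` by `InV_of_loc`.  Suppose `InV A l l br q`; take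
`r ≤ q`, `z` with `br ξ r' ↔ ext l z ξ r'` for `ξ < l`, `r' ≤ r`; by `br_ext` there are `r1 ≤ r` and a valid nontrivial value
`x` of the `(l+1)`-st coordinate, of level `α < l`.  Decide `ext l z α` positively or negatively by some
`r2 ≤ r1` (it depends only on the coordinates `< l`), let `x'` be given by `node_split` with the opposite value `b`,
and replace the `(l+1)`-st coordinate of `r2` by `cst x'`: the resulting condition is `≤ r2` and at it
`br α ↔ b` by `br_at`, a contradiction.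
`exists_node`: strong induction on `β`.  `β = ⊥`: the empty name.  `β = succ γ`: a node of level `γ`, made empty at `γ`.
`β` a limit, `CofU β`: `br C β` (`br_node`, its hypothesis on nodes from the induction hypothesis and `NodeAt.down`).
`β` a limit, not `CofU`: let `s` be a strictly increasing cofinal sequence (`exists_seq`), `τ_n` a node of level `s n`,
`τ ξ := τ_n ξ` for the least `n` with `ξ < s n`.  The finite mixtures `μ_0 = τ_0`, `μ_(m+1) = mixN (s m) μ_m τ_(m+1)` are valid of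
level `s m` and agree with `τ` below `s m`, so `τ` is fine at the limits `b < β`; at `β` use `InV_of_loc` (`nl (s n) ≤ β`).
-/

universe u

open Cardinal Set

set_option linter.unusedSectionVars false

namespace Pool.Agent.W_MP_315f31_lc

variable {K : Type u} [LinearOrder K] [OrderBot K] [WellFoundedLT K] [SuccOrder K] [NoMaxOrder K]
  {C : Cod K} {D : Dat K} {l : K} {A : WithTop K}

/-- `p` forces that `ξ` belongs to the generic branch added at stage `succ l` -/
def Dat.br (C : Cod K) (D : Dat K) (l ξ : K) (p : Cond K) : Prop :=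
  ∀ q, D.le (Order.succ (Order.succ l) : K) q p → ∃ r x,
    D.le (Order.succ (Order.succ l) : K) r q ∧ D.Dec (Order.succ l : K) r (r (Order.succ l)) x ∧
    (C.pr x).1 < l ∧ ξ < (C.pr x).1 ∧ D.Vl (Order.succ l : K) (C.pr x).1 (C.pr x).2 r ∧
    D.ext (nl (C.pr x).1 : K) (C.pr x).2 ξ r

/-! ### changing one coordinate -/

/-- the condition `w` below `γ`, the name `a` at `γ`, the condition `q` above `γ` -/
noncomputable def tb_put (γ : K) (w : Cond K) (a : K) (q : Cond K) : Cond K :=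
  Cond.glue (Order.succ γ : K) (Cond.snoc γ w a) q

theorem tb_put_lt {γ δ : K} (w : Cond K) (a : K) (q : Cond K) (hδ : δ < γ) :
    tb_put γ w a q δ = w δ := by
  unfold tb_put
  rw [Cond.glue_of_lt _ _ (WithTop.coe_lt_coe.2 (hδ.trans (Order.lt_succ γ))),
    Cond.snoc_of_lt _ _ hδ]

theorem tb_put_self (γ : K) (w : Cond K) (a : K) (q : Cond K) : tb_put γ w a q γ = a := by
  unfold tb_put
  rw [Cond.glue_of_lt _ _ (WithTop.coe_lt_coe.2 (Order.lt_succ γ)), Cond.snoc_self]

theorem tb_put_le (h : OkB D A) {γ : K} (hγ : ((Order.succ γ : K) : WithTop K) ≤ A) {w q : Cond K}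
    {a x y : K} (hw : D.le γ w q) (ha : D.Dec γ w a x) (hq : D.Dec γ w (q γ) y)
    (hJ : D.J γ x y w) : D.le A (tb_put γ w a q) q := by
  have hlt : (γ : WithTop K) < ((Order.succ γ : K) : WithTop K) :=
    WithTop.coe_lt_coe.2 (Order.lt_succ γ)
  apply Dat.glue_le h hγ
  rw [Dat.snoc_le_iff (h.mono_top (hlt.le.trans hγ))]
  exact ⟨hw, (Dat.FL_iff h (hlt.trans_le hγ) ha hq).2 hJ⟩

theorem tb_put_loc {γ : K} {δ : WithTop K} (hδ : δ ≤ (γ : WithTop K)) {S : Cond K → Prop}
    (hS : Loc δ S) (w : Cond K) (a : K) (q : Cond K) : S (tb_put γ w a q) ↔ S w :=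
  hS _ _ fun _ hβ => tb_put_lt w a q (WithTop.coe_lt_coe.1 (hβ.trans_le hδ))

theorem tb_put_Dec (h : OkB D A) {γ : K} (hγ : (γ : WithTop K) ≤ A) (w q : Cond K) (x : K) :
    D.Dec γ (tb_put γ w (D.cst x) q) ((tb_put γ w (D.cst x) q : Cond K) γ) x := by
  rw [tb_put_self]
  exact Dat.Dec_cst (h.mono_top hγ) _ x

/-! ### the branch -/

theorem tb_lt (l : K) : ((Order.succ l : K) : WithTop K) <
    ((Order.succ (Order.succ l) : K) : WithTop K) :=
  WithTop.coe_lt_coe.2 (Order.lt_succ _)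

theorem tb_key (h : OkB D (Order.succ (Order.succ l) : K)) (hl : IsLim l) (hc : CofU l)
    (hJ : D.J (Order.succ l) = D.treeJ C l) {r : Cond K} {x : K}
    (hx : D.Dec (Order.succ l : K) r (r (Order.succ l)) x) (h1 : (C.pr x).1 < l)
    (h3 : D.Vl (Order.succ l : K) (C.pr x).1 (C.pr x).2 r) {ξ : K} (hξ : ξ < (C.pr x).1)
    {w : Cond K} {y : K} (hw : D.le (Order.succ (Order.succ l) : K) w r)
    (hy : D.Dec (Order.succ l : K) w (w (Order.succ l)) y) :
    (C.pr y).1 < l ∧ ξ < (C.pr y).1 ∧ D.Vl (Order.succ l : K) (C.pr y).1 (C.pr y).2 w ∧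
      (D.ext (nl (C.pr y).1 : K) (C.pr y).2 ξ w ↔ D.ext (nl (C.pr x).1 : K) (C.pr x).2 ξ w) := by
  have hO1 : OkB D (Order.succ l : K) := h.mono_top (tb_lt l).le
  have hw1 : D.le (Order.succ l : K) w r := D.le_mono (tb_lt l).le hw
  have hJ1 : D.treeJ C l y x w := by
    rw [← hJ]
    exact (D.le_iff _ w r).1 hw (Order.succ l) (tb_lt l) w (Dat.le_refl hO1 w) y x hy
      (Dat.Dec_mono hO1 hx hw1)
  obtain ⟨e1, e2, e3, e4⟩ := tree_dest hO1 hl hc hJ1 h1
    (fun h0 => not_lt_bot (h0 ▸ hξ)) (VlN_mono hO1 h3 hw1)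
  exact ⟨e1, hξ.trans_le e2, e3, e4 ξ hξ w (Dat.le_refl hO1 w)⟩

theorem tb_nl_le (h : OkB D A) (hl : IsLim l) (hA : (l : WithTop K) ≤ A) {α : K} (hα : α < l) :
    ((nl α : K) : WithTop K) ≤ A :=
  (WithTop.coe_le_coe.2 (nl_le h.inacc hl hα)).trans hA

theorem tb_le1 (l : K) : (l : WithTop K) ≤ ((Order.succ l : K) : WithTop K) :=
  WithTop.coe_le_coe.2 (Order.le_succ l)

theorem br_at (hC : C.Ok) (h : OkB D (Order.succ (Order.succ l) : K)) (hl : IsLim l) (hc : CofU l)
    (hJ : D.J (Order.succ l) = D.treeJ C l) {r : Cond K} {x : K}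
    (hx : D.Dec (Order.succ l : K) r (r (Order.succ l)) x) (h1 : (C.pr x).1 < l)
    (h3 : D.Vl (Order.succ l : K) (C.pr x).1 (C.pr x).2 r) {ξ : K} (hξ : ξ < (C.pr x).1)
    {r' : Cond K} (hr : D.le (Order.succ (Order.succ l) : K) r' r) :
    D.br C l ξ r' ↔ D.ext (nl (C.pr x).1 : K) (C.pr x).2 ξ r' := by
  have _ := hC
  have hO1 : OkB D (Order.succ l : K) := h.mono_top (tb_lt l).le
  have hn2 : ((nl (C.pr x).1 : K) : WithTop K) ≤ ((Order.succ (Order.succ l) : K) : WithTop K) :=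
    tb_nl_le h hl ((tb_le1 l).trans (tb_lt l).le) h1
  constructor
  · intro hb
    refine ext_reg h hn2 fun q hq => ?_
    obtain ⟨r2, y, hr2, hy, -, -, -, hext⟩ := hb q hq
    have hr2r : D.le (Order.succ (Order.succ l) : K) r2 r :=
      Dat.le_trans h hr2 (Dat.le_trans h hq hr)
    exact ⟨r2, hr2, (tb_key h hl hc hJ hx h1 h3 hξ hr2r hy).2.2.2.1 hext⟩
  · intro he q hq
    obtain ⟨r0, y, hr0, hy⟩ := Dat.Dec_dense hO1 q (q (Order.succ l))
    have hg : D.le (Order.succ (Order.succ l) : K) (Cond.glue (Order.succ l : K) r0 q) q :=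
      Dat.glue_le h (tb_lt l).le hr0
    have hy' : D.Dec (Order.succ l : K) (Cond.glue (Order.succ l : K) r0 q)
        ((Cond.glue (Order.succ l : K) r0 q : Cond K) (Order.succ l)) y := by
      rw [Cond.glue_of_ge r0 q (_root_.le_refl _)]
      exact (D.Dec_congr fun γ hγ => Cond.glue_of_lt r0 q hγ).2 hy
    have hgr : D.le (Order.succ (Order.succ l) : K) (Cond.glue (Order.succ l : K) r0 q) r :=
      Dat.le_trans h hg (Dat.le_trans h hq hr)
    obtain ⟨e1, e2, e3, e4⟩ := tb_key h hl hc hJ hx h1 h3 hξ hgr hy'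
    exact ⟨_, y, hg, hy', e1, e2, e3, e4.2 (ext_mono h hn2 he (Dat.le_trans h hg hq))⟩

/-- replace the coordinate `succ l` by a stronger node -/
theorem tb_replace (h : OkB D A) (hA : ((Order.succ (Order.succ l) : K) : WithTop K) ≤ A)
    (hJ : D.J (Order.succ l) = D.treeJ C l) {q w : Cond K} {x x' : K}
    (hw : D.le (Order.succ l : K) w q) (hx : D.Dec (Order.succ l : K) w (q (Order.succ l)) x)
    (hj : D.treeJ C l x' x w) :
    D.le A (tb_put (Order.succ l) w (D.cst x') q) q := by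
  have hO1 : OkB D (Order.succ l : K) := h.mono_top ((tb_lt l).le.trans hA)
  refine tb_put_le h hA hw (Dat.Dec_cst hO1 w x') hx ?_
  rw [hJ]
  exact hj

theorem tb_Vl_put (h : OkB D (Order.succ l : K)) {α z : K} (w : Cond K) (a : K) (q : Cond K)
    (hV : D.Vl (Order.succ l : K) α z w) :
    D.Vl (Order.succ l : K) α z (tb_put (Order.succ l) w a q) := by
  refine VlN_mono h hV ?_
  have h1 : D.le (Order.succ l : K) w w := Dat.le_refl h w
  exact (D.le_congr (fun γ hγ => (tb_put_lt w a q (WithTop.coe_lt_coe.1 hγ)).symm)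
    (fun _ _ => rfl)).1 h1

theorem br_ext (hC : C.Ok) (h : OkB D A) (hA : (Order.succ (Order.succ l) : K) ≤ A) (hl : IsLim l)
    (hc : CofU l) (hl0 : l ≠ ⊥) (hJ : D.J (Order.succ l) = D.treeJ C l)
    (hn : ∀ β < l, ∃ τ, NodeAt D (Order.succ l : K) β τ) (q : Cond K) {β : K} (hβ : β < l) :
    ∃ r x, D.le A r q ∧ D.Dec (Order.succ l : K) r (r (Order.succ l)) x ∧ (C.pr x).1 < l ∧
      (C.pr x).1 ≠ ⊥ ∧ β ≤ (C.pr x).1 ∧ D.Vl (Order.succ l : K) (C.pr x).1 (C.pr x).2 r := by
  have hO1 : OkB D (Order.succ l : K) := h.mono_top ((tb_lt l).le.trans hA)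
  obtain ⟨r0, x, hr0, hx⟩ := Dat.Dec_dense hO1 q (q (Order.succ l))
  obtain ⟨r1, x', hr1, hj, e1, e2, e3, e4⟩ := node_ext hC hO1 hl hc hl0 hn x r0 hβ
  refine ⟨tb_put (Order.succ l) r1 (D.cst x') q, x', ?_, ?_, e1, e2, e3, ?_⟩
  · exact tb_replace h hA hJ (Dat.le_trans hO1 hr1 hr0) (Dat.Dec_mono hO1 hx hr1) hj
  · exact tb_put_Dec hO1 (_root_.le_refl _) r1 q x'
  · exact tb_Vl_put hO1 r1 _ q e4

theorem tb_br_loc (C : Cod K) (D : Dat K) (l ξ : K) :
    Loc ((Order.succ (Order.succ l) : K) : WithTop K) (D.br C l ξ) := by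
  intro p q hpq
  have h1 : ∀ r, D.le (Order.succ (Order.succ l) : K) r p ↔
      D.le (Order.succ (Order.succ l) : K) r q := fun r => D.le_congr (fun _ _ => rfl) hpq
  unfold Dat.br
  simp only [h1]

theorem tb_br_nm (h : OkB D A) (hA : ((Order.succ (Order.succ l) : K) : WithTop K) ≤ A) :
    IsNm (D.le A) (D.br C l) := by
  have hO2 : OkB D (Order.succ (Order.succ l) : K) := h.mono_top hA
  constructor
  · intro ξ p q hp hq q' hq'
    exact hp q' (Dat.le_trans hO2 hq' (D.le_mono hA hq))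
  · intro ξ p hd q hq
    obtain ⟨r, hr, hb⟩ := (dense_loc h hA (tb_br_loc C D l ξ) p).1 hd q hq
    obtain ⟨r2, x, hr2, h2⟩ := hb r (Dat.le_refl hO2 r)
    exact ⟨r2, x, Dat.le_trans hO2 hr2 hr, h2⟩

theorem br_node (hC : C.Ok) (h : OkB D A) (hA : ((nl l : K) : WithTop K) ≤ A) (hl : IsLim l)
    (hc : CofU l) (hl0 : l ≠ ⊥) (hJ : D.J (Order.succ l) = D.treeJ C l)
    (hn : ∀ β < l, ∃ τ, NodeAt D (Order.succ l : K) β τ) : NodeAt D A l (D.br C l) := by
  have hss : Order.succ (Order.succ l) ≤ nl l :=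
    ((isLim_nl h.inacc l).succ_lt ((isLim_nl h.inacc l).succ_lt (lt_nl h.inacc l))).le
  have hA2 : ((Order.succ (Order.succ l) : K) : WithTop K) ≤ A :=
    (WithTop.coe_le_coe.2 hss).trans hA
  have hA1 : ((Order.succ l : K) : WithTop K) ≤ A := (tb_lt l).le.trans hA2
  have hA0 : (l : WithTop K) ≤ A := (tb_le1 l).trans hA1
  have hO2 : OkB D (Order.succ (Order.succ l) : K) := h.mono_top hA2
  have hO1 : OkB D (Order.succ l : K) := h.mono_top hA1
  have hnm : IsNm (D.le A) (D.br C l) := tb_br_nm h hA2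
  have hloc : ∀ ξ < l, Loc ((nl l : K) : WithTop K) (D.br C l ξ) := fun ξ _ =>
    (tb_br_loc C D l ξ).mono (WithTop.coe_le_coe.2 hss)
  refine ⟨hnm, hloc, fun p => ?_⟩
  -- below `l`
  have hlow : ∀ b < l, D.VlN A b (D.br C l) p := by
    intro b hb
    refine VlN_reg h fun q _ => ?_
    obtain ⟨r, x, hr, hx, e1, -, e3, e4⟩ := br_ext hC h hA2 hl hc hl0 hJ hn q hb
    refine ⟨r, hr, ?_⟩
    have hα : nl ((C.pr x).1 : WithTop K) ≤ ((Order.succ l : K) : WithTop K) := by
      rw [nl_coe h.inacc]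
      exact tb_nl_le hO1 hl (tb_le1 l) e1
    have hV : D.Vl A (C.pr x).1 (C.pr x).2 r := (Vl_amb h hA1 hα _ r).2 e4
    refine (VlN_congr h fun ξ hξ r' hr' => ?_).2 (VlN_restr e3 hV)
    exact br_at hC hO2 hl hc hJ hx e1 e4 (hξ.trans_le e3) (D.le_mono hA2 hr')
  intro b hb hbl hb0
  rcases lt_or_eq_of_le hb with hb1 | rfl
  · exact hlow b hb1 b (_root_.le_refl b) hbl hb0
  refine ⟨fun hcn => absurd hc hcn, fun _ => ⟨InV_of_loc h hA hnm hloc p, ?_⟩⟩
  -- at `l`
  intro q _ hI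
  obtain ⟨r, z, hr, hz⟩ := hI q (Dat.le_refl h q)
  obtain ⟨r1, x, hr1, hx, e1, e2, -, e4⟩ :=
    br_ext hC h hA2 hl hc hl0 hJ hn r (bot_lt_iff_ne_bot.2 hl0)
  -- decide the value of the coded branch at the level of `x`
  obtain ⟨w, v, hw, hwv⟩ : ∃ (w : Cond K) (v : Prop), D.le (Order.succ b : K) w r1 ∧
      (D.ext (b : WithTop K) z (C.pr x).1 w ↔ ¬ v) := by
    by_cases hex : ∃ r2, D.le (Order.succ b : K) r2 r1 ∧ D.ext (b : WithTop K) z (C.pr x).1 r2
    · obtain ⟨r2, hr2, hr2e⟩ := hex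
      exact ⟨r2, False, hr2, by simp [hr2e]⟩
    · refine ⟨r1, True, Dat.le_refl hO1 r1, ?_⟩
      simp only [not_true_eq_false, iff_false]
      exact fun h2 => hex ⟨r1, Dat.le_refl hO1 r1, h2⟩
  obtain ⟨x', f1, f2, f3, f4⟩ := node_split hC hO1 hl hc e1 (VlN_mono hO1 e4 hw) v
  have hle : D.le A (tb_put (Order.succ b) w (D.cst x') r1) r1 :=
    tb_replace h hA2 hJ hw (Dat.Dec_mono hO1 hx hw) f2
  have hdec := tb_put_Dec hO1 (_root_.le_refl _) w r1 x'
  have f1l : (C.pr x').1 < b := by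
    rw [f1]
    exact hl.succ_lt e1
  have f1x : (C.pr x).1 < (C.pr x').1 := by
    rw [f1]
    exact Order.lt_succ _
  have g1 := br_at hC hO2 hl hc hJ hdec f1l (tb_Vl_put hO1 w _ r1 f3) f1x (Dat.le_refl hO2 _)
  rw [f4] at g1
  have g2 := hz (C.pr x).1 e1 _ (Dat.le_trans h hle hr1)
  rw [g1, tb_put_loc (tb_le1 b) (ext_loc hO1 (tb_le1 b) z (C.pr x).1), hwv] at g2
  by_cases hv : v
  · exact (g2.1 hv) hv
  · exact hv (g2.2 hv)

theorem tb_false_nm (h : OkB D A) : IsNm (D.le A) (fun (_ : K) (_ : Cond K) => False) :=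
  ⟨fun _ _ _ h1 _ => h1, fun _ p hd => (hd p (Dat.le_refl h p)).elim fun _ h1 => h1.2⟩

theorem exists_node (hC : C.Ok) (hI : IsIt C D) (h : OkB D A) {β : K} (hA : ((nl β : K) : WithTop K) ≤ A) :
    ∃ τ, NodeAt D A β τ := by
  classical
  induction β using WellFoundedLT.induction generalizing A with
  | ind β ih =>
    by_cases hβ0 : β = ⊥
    · subst hβ0
      exact ⟨fun _ _ => False, tb_false_nm h, fun ξ hξ => absurd hξ not_lt_bot,
        fun p => VlN_bot p⟩
    rcases isLim_or_succ β with hl | ⟨γ, rfl⟩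
    swap
    · -- successor
      obtain ⟨τ, hτ⟩ := ih γ (Order.lt_succ γ) h (by rw [← nl_succ h.inacc]; exact hA)
      refine ⟨mixN γ τ (fun _ _ => False), mixN_isNm γ hτ.nm (tb_false_nm h), ?_, fun p => ?_⟩
      · intro ξ _
        refine mixN_loc γ (fun hξ => ?_) (fun _ _ _ _ => Iff.rfl)
        rw [nl_succ h.inacc]
        exact hτ.loc ξ hξ
      · rw [VlN_succ]
        refine (VlN_congr h fun ξ hξ q _ => ?_).2 (hτ.vl p)
        exact ⟨fun ht => ht.elim (fun h1 => h1.2) (fun h1 => absurd hξ (not_lt.2 h1.1)),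
          fun ht => Or.inl ⟨hξ, ht⟩⟩
    by_cases hc : CofU β
    · -- uncountable cofinality
      have hsn : Order.succ β ≤ nl β := ((isLim_nl h.inacc β).succ_lt (lt_nl h.inacc β)).le
      have hA1 : ((Order.succ β : K) : WithTop K) ≤ A := (WithTop.coe_le_coe.2 hsn).trans hA
      have hO1 : OkB D (Order.succ β : K) := h.mono_top hA1
      exact ⟨_, br_node hC h hA hl hc hβ0 (hI.tree β hl hc hβ0) fun γ hγ =>
        ih γ hγ hO1 (tb_nl_le hO1 hl (tb_le1 β) hγ)⟩
    · -- countable cofinality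
      have hβA : (β : WithTop K) ≤ A := (WithTop.coe_le_coe.2 (lt_nl h.inacc β).le).trans hA
      obtain ⟨s, hsm, hsl, hsc⟩ := exists_seq h.inacc hl hc
      have hex : ∀ n, ∃ τ, NodeAt D A (s n) τ := fun n =>
        ih (s n) (hsl n) h (tb_nl_le h hl hβA (hsl n))
      choose t ht using hex
      -- the finite mixtures
      let μ : ℕ → K → Cond K → Prop := fun n => Nat.rec (t 0) (fun m x => mixN (s m) x (t (m + 1))) n
      have hμ0 : μ 0 = t 0 := rfl
      have hμs : ∀ m, μ (m + 1) = mixN (s m) (μ m) (t (m + 1)) := fun m => rfl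
      have hμ : ∀ m, IsNm (D.le A) (μ m) ∧ ∀ p, D.VlN A (s m) (μ m) p := by
        intro m
        induction m with
        | zero => exact ⟨(ht 0).nm, (ht 0).vl⟩
        | succ m ihm =>
          rw [hμs]
          refine ⟨mixN_isNm _ ihm.1 (ht (m + 1)).nm, fun p => ?_⟩
          refine VlN_mix h ?_ (hsm.monotone (Nat.le_succ m)) ihm.1 (ht (m + 1)).nm (ihm.2 p)
            ((ht (m + 1)).vl p)
          rw [nl_coe h.inacc]
          exact tb_nl_le h hl hβA (hsl (m + 1))
      let σ : K → Cond K → Prop := fun ξ p => ∃ n, ξ < s n ∧ (∀ m < n, s m ≤ ξ) ∧ t n ξ p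
      have hσ : ∀ ξ n, ξ < s n → (∀ m < n, s m ≤ ξ) → ∀ p, σ ξ p ↔ t n ξ p := by
        intro ξ n h1 h2 p
        constructor
        · rintro ⟨n', h3, h4, h5⟩
          have : n' = n := by
            rcases lt_trichotomy n' n with h6 | h6 | h6
            · exact absurd h3 (not_lt.2 (h2 n' h6))
            · exact h6
            · exact absurd h1 (not_lt.2 (h4 n h6))
          rw [← this]
          exact h5
        · intro h3
          exact ⟨n, h1, h2, h3⟩
      have hidx : ∀ ξ m, ξ < s m → ∃ n, ξ < s n ∧ ∀ j < n, s j ≤ ξ := by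
        intro ξ m hm
        have hexm : ∃ n, ξ < s n := ⟨m, hm⟩
        exact ⟨Nat.find hexm, Nat.find_spec hexm, fun j hj => not_lt.1 (Nat.find_min hexm hj)⟩
      have hσμ : ∀ m, ∀ ξ < s m, ∀ p, μ m ξ p ↔ σ ξ p := by
        intro m
        induction m with
        | zero =>
          intro ξ hξ p
          exact (hσ ξ 0 hξ (fun j hj => absurd hj (Nat.not_lt_zero j)) p).symm
        | succ m ihm =>
          intro ξ hξ p
          rw [hμs]
          unfold mixN
          rcases lt_or_ge ξ (s m) with h6 | h6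
          · have h7 : ¬ s m ≤ ξ := not_le.2 h6
            simp only [h6, h7, true_and, false_and, or_false]
            exact ihm ξ h6 p
          · have h7 : ¬ ξ < s m := not_lt.2 h6
            simp only [h6, h7, true_and, false_and, false_or]
            exact (hσ ξ (m + 1) hξ (fun j hj =>
              (hsm.monotone (Nat.lt_succ_iff.1 hj)).trans h6) p).symm
      have hσnm : IsNm (D.le A) σ := by
        constructor
        · rintro ξ p q ⟨n, h1, h2, h3⟩ hq
          exact ⟨n, h1, h2, (ht n).nm.mono ξ p q h3 hq⟩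
        · intro ξ p hd
          obtain ⟨r, -, n, h1, h2, -⟩ := hd p (Dat.le_refl h p)
          refine (hσ ξ n h1 h2 p).2 ((ht n).nm.reg ξ p fun q hq => ?_)
          obtain ⟨r, hr, hσr⟩ := hd q hq
          exact ⟨r, hr, (hσ ξ n h1 h2 r).1 hσr⟩
      have hσloc : ∀ ξ < β, Loc (β : WithTop K) (σ ξ) := by
        intro ξ hξ
        obtain ⟨m, hm⟩ := hsc ξ hξ
        obtain ⟨n, h1, h2⟩ := hidx ξ m hm
        have h3 : Loc (β : WithTop K) (t n ξ) :=
          ((ht n).loc ξ h1).mono (WithTop.coe_le_coe.2 (nl_le h.inacc hl (hsl n)))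
        intro p q hpq
        rw [hσ ξ n h1 h2, hσ ξ n h1 h2]
        exact h3 p q hpq
      refine ⟨σ, hσnm, fun ξ hξ =>
        (hσloc ξ hξ).mono (WithTop.coe_le_coe.2 (lt_nl h.inacc β).le), fun p => ?_⟩
      intro b hb hbl hb0
      rcases lt_or_eq_of_le hb with hb1 | rfl
      · obtain ⟨m, hm⟩ := hsc b hb1
        have h1 : D.VlN A (s m) σ p :=
          (VlN_congr h fun ξ hξ q _ => hσμ m ξ hξ q).1 ((hμ m).2 p)
        exact h1 b hm.le hbl hb0
      · exact ⟨fun _ => InV_of_loc h hβA hσnm hσloc p, fun hc' => absurd hc' hc⟩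

end Pool.Agent.W_MP_315f31_lc
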