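import Pool.Agent.W_MP_315f31_lc.CC

/-!
# MP_315f31_lc : the tree

`nd α z := D.ext (nl α) z`, `vl α z := D.Vl ⊤ α z`.  nd_nm: `ext_isNm`.  vl_mono, vl_reg, vl_congr: `VlN_mono`,
`VlN_reg`, `VlN_congr`.  restr: `Vl_restr`.  small: `ext_reps` with `β = nl α`.  ne: `exists_node` with `A = ⊤`, then
`exists_code`.  nobr: let `g` be given by `it_capture` for `b`, `δ > ⊥` a limit with `CofU δ`, closed under `g`
(`exists_closed g ⊥`), `z` as in `it_capture`.  Then `InV ⊤ δ δ b q` for all `q`.  Apply the assumption with `α = δ`, `q = p`: `r ≤ p`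
and `z'` with `Vl ⊤ δ z' r` and `b ξ r' ↔ ext (nl δ) z' ξ r'` for `ξ < δ`, `r' ≤ r`.  By `InV_congr`
`InV ⊤ δ δ (ext (nl δ) z') r`, which contradicts the second part of `VlN` for `β = δ`.
-/

universe u

open Cardinal Set

namespace Pool.Agent.W_MP_315f31_lc

variable {K : Type u} [LinearOrder K] [OrderBot K] [WellFoundedLT K] [SuccOrder K] [NoMaxOrder K]
  {C : Cod K} {D : Dat K}

theorem it_tree (hC : C.Ok) (hI : IsIt C D) (h : OkB D ⊤) :
    TreeNm (D.le ⊤) (fun α z => D.ext (nl α : K) z) (fun α z => D.Vl ⊤ α z) where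
  nd_nm α z := ext_isNm h le_top z
  vl_mono α z p q hp hq := VlN_mono h hp hq
  vl_reg α z p hd := VlN_reg h hd
  vl_congr α z z' p hc hp := (VlN_congr h hc).1 hp
  restr α z β p hβ hp := Vl_restr h le_top hβ hp
  small α := ext_reps h le_top α
  ne α p := by
    obtain ⟨τ, hτ⟩ := exists_node hC hI h (β := α) le_top
    obtain ⟨r, z, hr, hz, -⟩ := exists_code h le_top hτ.nm (hτ.vl p)
    exact ⟨r, z, hr, hz⟩
  nobr b hb p hH := by
    obtain ⟨g, hg⟩ := it_capture h hb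
    obtain ⟨δ, hδ0, hl, hc, hcl⟩ := exists_closed h.inacc g ⊥
    obtain ⟨z, hz⟩ := hg δ hcl
    obtain ⟨r, z', -, hV, hbr⟩ := hH δ p (Dat.le_refl h p)
    have h1 : D.InV ⊤ δ δ b r := fun q _ =>
      ⟨q, z, Dat.le_refl h q, fun ξ hξ r' _ => hz ξ hξ r'⟩
    exact ((hV δ (_root_.le_refl δ) hl hδ0.ne').2 hc).2 r (Dat.le_refl h r)
      ((InV_congr h hbr).1 h1)

end Pool.Agent.W_MP_315f31_lc
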