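import Pool.Agent.W_MP_315f31_lc.TreeVl
import Pool.Agent.W_MP_315f31_lc.StOk

/-!
# MP_315f31_lc : the tree stage `l + 1` (`l` a limit of uncountable cofinality): the order

Notation: `x` codes the node of level `(C.pr x).1` with content `ext (nl (C.pr x).1) (C.pr x).2`; it is
trivial at `r` if its level is `⊥` or not below `l` or if `r` forces that it is not valid.

`tree_dest`: the first alternative of `treeR` is impossible below `r`, so the second holds densely below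
`r`; `Vl` is regular (`VlN_reg`) and `ext` is regular, so it holds at `r`.
`tree_stOk`: refl: densely `x` is valid or forced to be not valid; trans: if `z` is nontrivial and valid at a
condition use `tree_dest` twice; top: `C.pr ⊥ = (⊥, ⊥)`; sm: for `α < l` let `Z_α` be given by `ext_reps` for
`nl α`; take `⊥` and one code of `(α, z)` for all `α < l`, `z ∈ Z_α`.
`node_ext`: densely `x` is trivial or valid.  If it is trivial, take a code (`exists_code`) of a node of level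
`β` (or of level `succ ⊥` if `β = ⊥`).  If it is valid of level `α`: if `β ≤ α` take `x' = x`, otherwise a code of
`mixN α (ext (nl α) z) τ` with `τ` a node of level `β` (`VlN_mix`).  (`nl β < l` by `nl_lt_of_cofU`.)
`node_split`: a code of the name which is `ext (nl α) z` below `α` and constantly `b` at `α`
(`VlN_succ`, `VlN_congr`, `nl_succ`); `code` gives it for all conditions, no density needed.
-/

universe u

open Cardinal Set

set_option linter.unusedSectionVars false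

namespace Pool.Agent.W_MP_315f31_lc

variable {K : Type u} [LinearOrder K] [OrderBot K] [WellFoundedLT K] [SuccOrder K] [NoMaxOrder K]
  {C : Cod K} {D : Dat K} {l : K}

/-- a node of level `β` given by a name -/
structure NodeAt (D : Dat K) (A : WithTop K) (β : K) (τ : K → Cond K → Prop) : Prop where
  nm : IsNm (D.le A) τ
  loc : ∀ ξ < β, Loc (nl β : K) (τ ξ)
  vl : ∀ p, D.VlN A β τ p

theorem NodeAt.amb {A A' : WithTop K} {β : K} {τ : K → Cond K → Prop} (h : OkB D A) (hA : A' ≤ A)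
    (hβ : ((nl β : K) : WithTop K) ≤ A') (hn : NodeAt D A' β τ) :
    ∃ σ : K → Cond K → Prop, NodeAt D A β σ ∧ ∀ ξ < β, ∀ p, σ ξ p ↔ τ ξ p := by
  have hO : OkB D A' := h.mono_top hA
  have hloc : ∀ ξ < β, Loc A' (τ ξ) := fun ξ hξ => (hn.loc ξ hξ).mono hβ
  refine ⟨fun ξ p => ξ < β ∧ τ ξ p, ⟨⟨?_, ?_⟩, ?_, ?_⟩, fun ξ hξ p => ⟨fun h1 => h1.2, fun h1 => ⟨hξ, h1⟩⟩⟩
  · intro ξ p q hp hq
    exact ⟨hp.1, hn.nm.mono ξ p q hp.2 (D.le_mono hA hq)⟩
  · intro ξ p hd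
    obtain ⟨_, _, hξ, _⟩ := hd p (Dat.le_refl h p)
    refine ⟨hξ, hn.nm.reg ξ p ?_⟩
    rw [← dense_loc h hA (hloc ξ hξ)]
    intro q hq
    obtain ⟨r, hr, h1⟩ := hd q hq
    exact ⟨r, hr, h1.2⟩
  · intro ξ hξ p q hpq
    have h1 := hn.loc ξ hξ p q hpq
    exact ⟨fun h2 => ⟨hξ, h1.1 h2.2⟩, fun h2 => ⟨hξ, h1.2 h2.2⟩⟩
  · intro p
    have h1 : D.VlN A β τ p := (VlN_amb h hA (by rw [nl_coe h.inacc]; exact hβ) hloc p).2 (hn.vl p)
    exact (VlN_congr h fun ξ hξ q _ => ⟨fun h2 => ⟨hξ, h2⟩, fun h2 => h2.2⟩).1 h1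

theorem NodeAt.down {A A' : WithTop K} {β : K} {τ : K → Cond K → Prop} (h : OkB D A) (hA : A' ≤ A)
    (hβ : ((nl β : K) : WithTop K) ≤ A') (hn : NodeAt D A β τ) :
    ∃ σ : K → Cond K → Prop, NodeAt D A' β σ ∧ ∀ ξ < β, ∀ p, σ ξ p ↔ τ ξ p := by
  have hO : OkB D A' := h.mono_top hA
  have hloc : ∀ ξ < β, Loc A' (τ ξ) := fun ξ hξ => (hn.loc ξ hξ).mono hβ
  refine ⟨fun ξ p => ξ < β ∧ τ ξ p, ⟨⟨?_, ?_⟩, ?_, ?_⟩, fun ξ hξ p => ⟨fun h1 => h1.2, fun h1 => ⟨hξ, h1⟩⟩⟩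
  · intro ξ p q hp hq
    refine ⟨hp.1, ?_⟩
    have h1 := hn.nm.mono ξ p (Cond.glue A' q p) hp.2 (Dat.glue_le h hA hq)
    exact (hloc ξ hp.1 (Cond.glue A' q p) q fun γ hγ => Cond.glue_of_lt q p hγ).1 h1
  · intro ξ p hd
    obtain ⟨_, _, hξ, _⟩ := hd p (Dat.le_refl hO p)
    refine ⟨hξ, hn.nm.reg ξ p ?_⟩
    rw [dense_loc h hA (hloc ξ hξ)]
    intro q hq
    obtain ⟨r, hr, h1⟩ := hd q hq
    exact ⟨r, hr, h1.2⟩
  · intro ξ hξ p q hpq
    have h1 := hn.loc ξ hξ p q hpq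
    exact ⟨fun h2 => ⟨hξ, h1.1 h2.2⟩, fun h2 => ⟨hξ, h1.2 h2.2⟩⟩
  · intro p
    have h1 : D.VlN A' β τ p := (VlN_amb h hA (by rw [nl_coe h.inacc]; exact hβ) hloc p).1 (hn.vl p)
    exact (VlN_congr hO fun ξ hξ q _ => ⟨fun h2 => ⟨hξ, h2⟩, fun h2 => h2.2⟩).1 h1

theorem tn_nl' (h : Inacc K) (hl : IsLim l) (hc : CofU l) {α : K} (hα : α < l) :
    ((nl α : K) : WithTop K) ≤ ((Order.succ l : K) : WithTop K) :=
  WithTop.coe_le_coe.2 ((nl_lt_of_cofU h hl hc hα).le.trans (Order.le_succ l))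

theorem tn_nl (h : Inacc K) (hl : IsLim l) (hc : CofU l) {α : K} (hα : α < l) :
    nl (α : WithTop K) ≤ ((Order.succ l : K) : WithTop K) := by
  rw [nl_coe h]
  exact tn_nl' h hl hc hα

theorem tn_treeJ_mono (h : OkB D (Order.succ l : K)) {x y : K} {p q : Cond K}
    (hp : D.treeJ C l x y p) (hq : D.le (Order.succ l : K) q p) : D.treeJ C l x y q :=
  fun q' hq' => hp q' (Dat.le_trans h hq' hq)

theorem tree_dest (h : OkB D (Order.succ l : K)) (hl : IsLim l) (hc : CofU l) {x x' : K}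
    {r : Cond K} (hJ : D.treeJ C l x' x r) (h1 : (C.pr x).1 < l) (h2 : (C.pr x).1 ≠ ⊥)
    (h3 : D.Vl (Order.succ l : K) (C.pr x).1 (C.pr x).2 r) :
    (C.pr x').1 < l ∧ (C.pr x).1 ≤ (C.pr x').1 ∧
      D.Vl (Order.succ l : K) (C.pr x').1 (C.pr x').2 r ∧
      ∀ ξ < (C.pr x).1, ∀ r', D.le (Order.succ l : K) r' r →
        (D.ext (nl (C.pr x').1 : K) (C.pr x').2 ξ r' ↔ D.ext (nl (C.pr x).1 : K) (C.pr x).2 ξ r') := by
  have key : ∀ q, D.le (Order.succ l : K) q r → ∃ r2, D.le (Order.succ l : K) r2 q ∧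
      ((C.pr x').1 < l ∧ (C.pr x).1 ≤ (C.pr x').1 ∧ D.Vl (Order.succ l : K) (C.pr x').1 (C.pr x').2 r2 ∧
      D.Vl (Order.succ l : K) (C.pr x).1 (C.pr x).2 r2 ∧
      ∀ ξ < (C.pr x).1, ∀ r', D.le (Order.succ l : K) r' r2 →
        (D.ext (nl (C.pr x').1 : K) (C.pr x').2 ξ r' ↔ D.ext (nl (C.pr x).1 : K) (C.pr x).2 ξ r')) := by
    intro q hq
    obtain ⟨r2, hr2, hR⟩ := hJ q hq
    refine ⟨r2, hr2, ?_⟩
    rcases hR with (h4 | h4 | h4) | h4
    · exact absurd h1 h4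
    · exact absurd h4 h2
    · exact absurd (VlN_mono h h3 (Dat.le_trans h hr2 hq)) (h4 r2 (Dat.le_refl h r2))
    · exact h4
  obtain ⟨_, _, h4, h5, _⟩ := key r (Dat.le_refl h r)
  refine ⟨h4, h5, ?_, ?_⟩
  · refine VlN_reg h fun q hq => ?_
    obtain ⟨r2, hr2, _, _, h6, _⟩ := key q hq
    exact ⟨r2, hr2, h6⟩
  · intro ξ hξ r' hr'
    constructor
    · intro h6
      refine ext_reg h (tn_nl' h.inacc hl hc h1) fun q hq => ?_
      obtain ⟨r2, hr2, _, _, _, _, h7⟩ := key q (Dat.le_trans h hq hr')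
      exact ⟨r2, hr2, (h7 ξ hξ r2 (Dat.le_refl h r2)).1
        (ext_mono h (tn_nl' h.inacc hl hc h4) h6 (Dat.le_trans h hr2 hq))⟩
    · intro h6
      refine ext_reg h (tn_nl' h.inacc hl hc h4) fun q hq => ?_
      obtain ⟨r2, hr2, _, _, _, _, h7⟩ := key q (Dat.le_trans h hq hr')
      exact ⟨r2, hr2, (h7 ξ hξ r2 (Dat.le_refl h r2)).2
        (ext_mono h (tn_nl' h.inacc hl hc h1) h6 (Dat.le_trans h hr2 hq))⟩

theorem tree_intro (h : OkB D (Order.succ l : K)) {x x' : K} {r : Cond K}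
    (h1 : (C.pr x').1 < l) (h2 : (C.pr x).1 ≤ (C.pr x').1)
    (h3 : D.Vl (Order.succ l : K) (C.pr x').1 (C.pr x').2 r)
    (h4 : D.Vl (Order.succ l : K) (C.pr x).1 (C.pr x).2 r)
    (h5 : ∀ ξ < (C.pr x).1, ∀ r', D.le (Order.succ l : K) r' r →
        (D.ext (nl (C.pr x').1 : K) (C.pr x').2 ξ r' ↔ D.ext (nl (C.pr x).1 : K) (C.pr x).2 ξ r')) :
    D.treeJ C l x' x r := by
  intro q hq
  refine ⟨q, Dat.le_refl h q, Or.inr ⟨h1, h2, VlN_mono h h3 hq, VlN_mono h h4 hq, ?_⟩⟩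
  intro ξ hξ r' hr'
  exact h5 ξ hξ r' (Dat.le_trans h hr' hq)

theorem tree_triv (h : OkB D (Order.succ l : K)) {x y : K} {r : Cond K}
    (hy : ¬ (C.pr y).1 < l ∨ (C.pr y).1 = ⊥ ∨
      ∀ r', D.le (Order.succ l : K) r' r → ¬ D.Vl (Order.succ l : K) (C.pr y).1 (C.pr y).2 r') :
    D.treeJ C l x y r := by
  intro q hq
  refine ⟨q, Dat.le_refl h q, Or.inl ?_⟩
  rcases hy with h1 | h1 | h1
  · exact Or.inl h1
  · exact Or.inr (Or.inl h1)
  · exact Or.inr (Or.inr fun r' hr' => h1 r' (Dat.le_trans h hr' hq))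

theorem tn_loc_and {γ : WithTop K} {S T : Cond K → Prop} (hS : Loc γ S) (hT : Loc γ T) :
    Loc γ (fun p => S p ∧ T p) := fun p q hpq => and_congr (hS p q hpq) (hT p q hpq)

theorem tn_loc_or {γ : WithTop K} {S T : Cond K → Prop} (hS : Loc γ S) (hT : Loc γ T) :
    Loc γ (fun p => S p ∨ T p) := fun p q hpq => or_congr (hS p q hpq) (hT p q hpq)

theorem tn_loc_const {γ : WithTop K} (P : Prop) : Loc (K := K) γ (fun _ => P) :=
  fun _ _ _ => Iff.rfl

theorem tn_Vl_loc (h : OkB D (Order.succ l : K)) (hl : IsLim l) (hc : CofU l) {α z ε : K}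
    (hα : α < l) (hε : nl α ≤ ε) :
    Loc (ε : WithTop K) (D.Vl (Order.succ l : K) α z) := by
  have h1 := Vl_loc h (tn_nl h.inacc hl hc hα) z
  exact h1.mono (WithTop.coe_le_coe.2 hε)

theorem tn_ext_loc (h : OkB D (Order.succ l : K)) (hl : IsLim l) (hc : CofU l) {α z ξ ε : K}
    (hα : α < l) (hε : nl α ≤ ε) :
    Loc (ε : WithTop K) (D.ext (nl α : K) z ξ) :=
  (ext_loc h (tn_nl' h.inacc hl hc hα) z ξ).mono (WithTop.coe_le_coe.2 hε)

theorem tn_treeR_loc (h : OkB D (Order.succ l : K)) (hl : IsLim l) (hc : CofU l) {x y ε : K}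
    (hε : ε ≤ l) (hx : (C.pr x).1 < l → nl (C.pr x).1 ≤ ε) (hy : (C.pr y).1 < l → nl (C.pr y).1 ≤ ε) :
    Loc (ε : WithTop K) (D.treeR C l x y) := by
  have hεS : (ε : WithTop K) ≤ ((Order.succ l : K) : WithTop K) :=
    WithTop.coe_le_coe.2 (hε.trans (Order.le_succ l))
  by_cases hyl : (C.pr y).1 < l
  · have hyε := hy hyl
    have e1 : Loc (ε : WithTop K) (fun r => ∀ r', D.le (Order.succ l : K) r' r →
        ¬ D.Vl (Order.succ l : K) (C.pr y).1 (C.pr y).2 r') := by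
      refine loc_forall h hεS (S := fun r' => ¬ D.Vl (Order.succ l : K) (C.pr y).1 (C.pr y).2 r') ?_
      intro p q hpq
      exact not_congr (tn_Vl_loc h hl hc hyl hyε p q hpq)
    have e2 : Loc (ε : WithTop K) (fun r => (C.pr x).1 < l ∧ (C.pr y).1 ≤ (C.pr x).1 ∧
        D.Vl (Order.succ l : K) (C.pr x).1 (C.pr x).2 r ∧
        D.Vl (Order.succ l : K) (C.pr y).1 (C.pr y).2 r ∧
        ∀ ξ < (C.pr y).1, ∀ r', D.le (Order.succ l : K) r' r →
          (D.ext (nl (C.pr x).1 : K) (C.pr x).2 ξ r' ↔ D.ext (nl (C.pr y).1 : K) (C.pr y).2 ξ r')) := by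
      by_cases hxl : (C.pr x).1 < l
      · have hxε := hx hxl
        refine tn_loc_and (tn_loc_const _) (tn_loc_and (tn_loc_const _)
          (tn_loc_and (tn_Vl_loc h hl hc hxl hxε) (tn_loc_and (tn_Vl_loc h hl hc hyl hyε) ?_)))
        intro p q hpq
        refine forall_congr' fun ξ => forall_congr' fun hξ => ?_
        refine loc_forall h hεS (S := fun r' => D.ext (nl (C.pr x).1 : K) (C.pr x).2 ξ r' ↔
          D.ext (nl (C.pr y).1 : K) (C.pr y).2 ξ r') ?_ p q hpq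
        intro p' q' hpq'
        exact iff_congr (tn_ext_loc h hl hc hxl hxε p' q' hpq') (tn_ext_loc h hl hc hyl hyε p' q' hpq')
      · intro p q _
        exact ⟨fun h1 => absurd h1.1 hxl, fun h1 => absurd h1.1 hxl⟩
    exact tn_loc_or (tn_loc_or (tn_loc_const _) (tn_loc_or (tn_loc_const _) e1)) e2
  · intro p q _
    exact ⟨fun _ => Or.inl (Or.inl hyl), fun _ => Or.inl (Or.inl hyl)⟩

/-- the truth of `treeJ` depends only on the coordinates below a bound of the levels -/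
theorem treeJ_loc (h : OkB D (Order.succ l : K)) (hl : IsLim l) (hc : CofU l) {x y ε : K}
    (hε : ε ≤ l) (hx : (C.pr x).1 < l → nl (C.pr x).1 ≤ ε) (hy : (C.pr y).1 < l → nl (C.pr y).1 ≤ ε) :
    Loc (ε : WithTop K) (D.treeJ C l x y) :=
  loc_dense h (WithTop.coe_le_coe.2 (hε.trans (Order.le_succ l))) (tn_treeR_loc h hl hc hε hx hy)

/-- two codes of the same node -/
theorem tn_same (h : OkB D (Order.succ l : K)) {x y : K} (p : Cond K)
    (hxy : (C.pr x).1 = (C.pr y).1)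
    (he : ∀ ξ < (C.pr y).1, ∀ r', D.ext (nl (C.pr y).1 : K) (C.pr x).2 ξ r' ↔
      D.ext (nl (C.pr y).1 : K) (C.pr y).2 ξ r') : D.treeJ C l x y p := by
  intro q hq
  by_cases h1 : (C.pr y).1 < l
  · by_cases h2 : ∃ r, D.le (Order.succ l : K) r q ∧ D.Vl (Order.succ l : K) (C.pr y).1 (C.pr y).2 r
    · obtain ⟨r, hr, h3⟩ := h2
      refine ⟨r, hr, Or.inr ?_⟩
      rw [hxy]
      refine ⟨h1, le_rfl, ?_, h3, fun ξ hξ r' _ => he ξ hξ r'⟩
      exact (VlN_congr h fun ξ hξ r' _ => he ξ hξ r').2 h3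
    · exact ⟨q, Dat.le_refl h q, Or.inl (Or.inr (Or.inr fun r' hr' h3 => h2 ⟨r', hr', h3⟩))⟩
  · exact ⟨q, Dat.le_refl h q, Or.inl (Or.inl h1)⟩

theorem tree_stOk (hC : C.Ok) (h : OkB D (Order.succ l : K)) (hl : IsLim l) (hc : CofU l)
    (hJ : D.J (Order.succ l) = D.treeJ C l) : StOk D (Order.succ l) := by
  classical
  refine ⟨?_, ?_, ?_, ?_, ?_, ?_⟩
  · intro x p
    rw [hJ]
    exact tn_same h p rfl fun _ _ _ => Iff.rfl
  · intro x p
    rw [hJ]
    refine tree_triv h (Or.inr (Or.inl ?_))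
    rw [hC.pr_bot]
  · intro x y z p hxy hyz
    rw [hJ] at hxy hyz ⊢
    intro q hq
    by_cases h1 : (C.pr z).1 < l
    · by_cases h2 : (C.pr z).1 = ⊥
      · exact ⟨q, Dat.le_refl h q, Or.inl (Or.inr (Or.inl h2))⟩
      · by_cases h3 : ∃ r, D.le (Order.succ l : K) r q ∧
            D.Vl (Order.succ l : K) (C.pr z).1 (C.pr z).2 r
        · obtain ⟨r, hr, h4⟩ := h3
          have hrp := Dat.le_trans h hr hq
          obtain ⟨a1, a2, a3, a4⟩ := tree_dest h hl hc (tn_treeJ_mono h hyz hrp) h1 h2 h4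
          have h5 : (C.pr y).1 ≠ ⊥ := by
            intro h6
            rw [h6] at a2
            exact h2 (le_bot_iff.1 a2)
          obtain ⟨b1, b2, b3, b4⟩ := tree_dest h hl hc (tn_treeJ_mono h hxy hrp) a1 h5 a3
          refine ⟨r, hr, Or.inr ⟨b1, a2.trans b2, b3, h4, fun ξ hξ r' hr' => ?_⟩⟩
          exact (b4 ξ (hξ.trans_le a2) r' hr').trans (a4 ξ hξ r' hr')
        · exact ⟨q, Dat.le_refl h q, Or.inl (Or.inr (Or.inr fun r' hr' h4 => h3 ⟨r', hr', h4⟩))⟩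
    · exact ⟨q, Dat.le_refl h q, Or.inl (Or.inl h1)⟩
  · intro x y p q hp hq
    rw [hJ] at hp ⊢
    exact tn_treeJ_mono h hp hq
  · intro x y p hd
    rw [hJ] at hd ⊢
    intro q hq
    obtain ⟨r, hr, h1⟩ := hd q hq
    obtain ⟨r', hr', h2⟩ := h1 r (Dat.le_refl h r)
    exact ⟨r', Dat.le_trans h hr' hr, h2⟩
  · choose κ hκ using hC.pr_surj
    have hZ : ∀ α : K, α < l → ∃ Z : Set K, #Z < #K ∧ ∀ z, ∃ z' ∈ Z, ∀ ξ < α, ∀ p,
        D.ext (nl α : K) z ξ p ↔ D.ext (nl α : K) z' ξ p :=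
      fun α hα => ext_reps h (tn_nl' h.inacc hl hc hα) α
    choose! Z hZ1 hZ2 using hZ
    have hreg := h.inacc.card.isRegular
    have hU : #(⋃ α ∈ Iio l, (fun z => κ (α, z)) '' Z α : Set K) < #K := by
      rw [card_biUnion_lt_iff_forall_of_isRegular hreg (h.inacc.lt l)]
      intro α hα
      exact mk_image_le.trans_lt (hZ1 α hα)
    refine ⟨{⊥} ∪ ⋃ α ∈ Iio l, (fun z => κ (α, z)) '' Z α, ?_, fun x => ?_⟩
    · refine (mk_union_le _ _).trans_lt (add_lt_of_lt hreg.aleph0_le ?_ hU)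
      rw [mk_singleton]
      exact one_lt_aleph0.trans h.inacc.card.aleph0_lt
    · by_cases hx : (C.pr x).1 < l
      · obtain ⟨z', hz', hz⟩ := hZ2 (C.pr x).1 hx (C.pr x).2
        have hy : C.pr (κ ((C.pr x).1, z')) = ((C.pr x).1, z') := hκ _
        refine ⟨κ ((C.pr x).1, z'), Or.inr ?_, fun p => ?_⟩
        · exact mem_biUnion (show (C.pr x).1 ∈ Iio l from hx) ⟨z', hz', rfl⟩
        · rw [hJ]
          constructor
          · refine tn_same h p ?_ ?_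
            · rw [hy]
            · rw [hy]
              exact fun ξ hξ r' => hz ξ hξ r'
          · refine tn_same h p ?_ ?_
            · rw [hy]
            · rw [hy]
              exact fun ξ hξ r' => (hz ξ hξ r').symm
      · refine ⟨⊥, Or.inl rfl, fun p => ?_⟩
        rw [hJ]
        refine ⟨tree_triv h (Or.inr (Or.inl ?_)), tree_triv h (Or.inl hx)⟩
        rw [hC.pr_bot]

theorem node_ext (hC : C.Ok) (h : OkB D (Order.succ l : K)) (hl : IsLim l) (hc : CofU l) (hl0 : l ≠ ⊥)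
    (hn : ∀ β < l, ∃ τ, NodeAt D (Order.succ l : K) β τ) (x : K) (p : Cond K) {β : K}
    (hβ : β < l) : ∃ r x', D.le (Order.succ l : K) r p ∧ D.treeJ C l x' x r ∧ (C.pr x').1 < l ∧
      (C.pr x').1 ≠ ⊥ ∧ β ≤ (C.pr x').1 ∧ D.Vl (Order.succ l : K) (C.pr x').1 (C.pr x').2 r := by
  by_cases hx : (C.pr x).1 < l ∧ (C.pr x).1 ≠ ⊥ ∧
      ∃ r, D.le (Order.succ l : K) r p ∧ D.Vl (Order.succ l : K) (C.pr x).1 (C.pr x).2 r
  · obtain ⟨h1, h2, r0, hr0, h3⟩ := hx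
    rcases le_or_gt β (C.pr x).1 with h4 | h4
    · exact ⟨r0, x, hr0, tree_intro h h1 le_rfl h3 h3 fun _ _ _ _ => Iff.rfl, h1, h2, h4, h3⟩
    · obtain ⟨τ, hτ⟩ := hn β hβ
      have hnm := ext_isNm h (tn_nl' h.inacc hl hc h1) (C.pr x).2
      have h5 := VlN_mix h (tn_nl h.inacc hl hc hβ) h4.le hnm hτ.nm h3 (hτ.vl r0)
      obtain ⟨r, z', hr, h6, h7⟩ := exists_code h (tn_nl h.inacc hl hc hβ)
        (mixN_isNm (C.pr x).1 hnm hτ.nm) h5
      obtain ⟨x', hx'⟩ := hC.pr_surj (β, z')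
      refine ⟨r, x', Dat.le_trans h hr hr0, ?_, ?_, ?_, ?_, ?_⟩
      · refine tree_intro h ?_ ?_ ?_ (VlN_mono h h3 hr) ?_
        · rw [hx']
          exact hβ
        · rw [hx']
          exact h4.le
        · rw [hx']
          exact h6
        · rw [hx']
          intro ξ hξ r' hr'
          have h8 := h7 ξ (hξ.trans h4) r' hr'
          refine h8.symm.trans ⟨fun h9 => ?_, fun h9 => Or.inl ⟨hξ, h9⟩⟩
          rcases h9 with h9 | h9
          · exact h9.2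
          · exact absurd hξ (not_lt.2 h9.1)
      · rw [hx']
        exact hβ
      · rw [hx']
        intro h9
        rw [show β = ⊥ from h9] at h4
        exact not_lt_bot h4
      · rw [hx']
      · rw [hx']
        exact h6
  · have htr : ¬ (C.pr x).1 < l ∨ (C.pr x).1 = ⊥ ∨
        ∀ r', D.le (Order.succ l : K) r' p → ¬ D.Vl (Order.succ l : K) (C.pr x).1 (C.pr x).2 r' := by
      by_contra hcon
      push Not at hcon
      exact hx hcon
    have hb : (⊥ : K) < l := bot_lt_iff_ne_bot.2 hl0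
    have hγ : max β (Order.succ ⊥) < l := max_lt hβ (hl.succ_lt hb)
    obtain ⟨τ, hτ⟩ := hn _ hγ
    obtain ⟨r, z, hr, h1, _⟩ := exists_code h (tn_nl h.inacc hl hc hγ) hτ.nm (hτ.vl p)
    obtain ⟨x', hx'⟩ := hC.pr_surj (max β (Order.succ ⊥), z)
    refine ⟨r, x', hr, tn_treeJ_mono h (tree_triv h htr) hr, ?_, ?_, ?_, ?_⟩
    · rw [hx']
      exact hγ
    · rw [hx']
      intro h2
      have h2' : max β (Order.succ ⊥) = ⊥ := h2
      have h3 : Order.succ (⊥ : K) ≤ ⊥ := (le_max_right β (Order.succ ⊥)).trans_eq h2'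
      exact absurd (Order.lt_succ (⊥ : K)) (not_lt.2 h3)
    · rw [hx']
      exact le_max_left _ _
    · rw [hx']
      exact h1

theorem node_split (hC : C.Ok) (h : OkB D (Order.succ l : K)) (hl : IsLim l) (hc : CofU l)
    {x : K} {r : Cond K} (h1 : (C.pr x).1 < l)
    (h3 : D.Vl (Order.succ l : K) (C.pr x).1 (C.pr x).2 r) (b : Prop) :
    ∃ x', (C.pr x').1 = Order.succ (C.pr x).1 ∧ D.treeJ C l x' x r ∧
      D.Vl (Order.succ l : K) (C.pr x').1 (C.pr x').2 r ∧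
      ∀ r', (D.ext (nl (C.pr x').1 : K) (C.pr x').2 (C.pr x).1 r' ↔ b) := by
  have hg := tn_nl' h.inacc hl hc h1
  have hnm := ext_isNm h hg (C.pr x).2
  have hcn : IsNm (D.le (Order.succ l : K)) (fun (_ : K) (_ : Cond K) => b) := by
    refine ⟨fun _ _ _ h2 _ => h2, fun _ p hd => ?_⟩
    obtain ⟨_, _, h2⟩ := hd p (Dat.le_refl h p)
    exact h2
  obtain ⟨z', hz'⟩ := code h hg (Order.succ (C.pr x).1) (mixN_isNm (C.pr x).1 hnm hcn)
    fun ξ _ => mixN_loc (C.pr x).1 (fun _ => ext_loc h hg (C.pr x).2 ξ) (fun _ => tn_loc_const b)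
  obtain ⟨x', hx'⟩ := hC.pr_surj (Order.succ (C.pr x).1, z')
  have hlow : ∀ ξ < (C.pr x).1, ∀ r', D.ext (nl (C.pr x).1 : K) z' ξ r' ↔
      D.ext (nl (C.pr x).1 : K) (C.pr x).2 ξ r' := by
    intro ξ hξ r'
    refine (hz' ξ (hξ.trans (Order.lt_succ _)) r').trans ⟨fun h9 => ?_, fun h9 => Or.inl ⟨hξ, h9⟩⟩
    rcases h9 with h9 | h9
    · exact h9.2
    · exact absurd hξ (not_lt.2 h9.1)
  have hhi : ∀ r', D.ext (nl (C.pr x).1 : K) z' (C.pr x).1 r' ↔ b := by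
    intro r'
    refine (hz' _ (Order.lt_succ _) r').trans ⟨fun h9 => ?_, fun h9 => Or.inr ⟨le_rfl, h9⟩⟩
    rcases h9 with h9 | h9
    · exact absurd h9.1 (lt_irrefl _)
    · exact h9.2
  have hV : D.Vl (Order.succ l : K) (Order.succ (C.pr x).1) z' r := by
    unfold Dat.Vl
    rw [nl_succ h.inacc, VlN_succ]
    exact (VlN_congr h fun ξ hξ r' _ => hlow ξ hξ r').2 h3
  refine ⟨x', ?_, ?_, ?_, ?_⟩
  · rw [hx']
  · refine tree_intro h ?_ ?_ ?_ h3 ?_
    · rw [hx']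
      exact hl.succ_lt h1
    · rw [hx']
      exact Order.le_succ _
    · rw [hx']
      exact hV
    · rw [hx']
      change ∀ ξ < (C.pr x).1, ∀ r', D.le (Order.succ l : K) r' r →
        (D.ext (nl (Order.succ (C.pr x).1) : K) z' ξ r' ↔ D.ext (nl (C.pr x).1 : K) (C.pr x).2 ξ r')
      rw [nl_succ h.inacc]
      exact fun ξ hξ r' _ => hlow ξ hξ r'
  · rw [hx']
    exact hV
  · rw [hx']
    change ∀ r', (D.ext (nl (Order.succ (C.pr x).1) : K) z' (C.pr x).1 r' ↔ b)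
    rw [nl_succ h.inacc]
    exact hhi

end Pool.Agent.W_MP_315f31_lc
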