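import Pool.Agent.W_MP_315f31_lc.TreeBr

/-!
# MP_315f31_lc : the tree stage is totally proper

`tree_tpk`: use `tpk_of_path` for `γ = succ l`.  Let `N` be in a suitable club: `l ∈ N`, `⊥ ∈ N`, closed under
`succ`, `nl`, `x ↦ (C.pr x).1`, `(γ, β) ↦` the dense set `E_β` below (an object `Ob.s`).  Let `c, q, e, x, d, r` be as in
`tpk_of_path`.  Let `ε` be the least upper bound of `{α ∈ N | α < l}`; `ε < l` by `CofU l` (`N` is countable), `ε` is a
limit, `ε ≠ ⊥`, `¬ CofU ε`, and `nl α < ε` for `α ∈ N`, `α < l`.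
For `β ∈ N`, `⊥ ≠ β < l` the set `E_β := {(p, z) | (C.pr z).1 < l ∧ β ≤ (C.pr z).1 ∧ Vl (succ l) (C.pr z).1 (C.pr z).2 p}` is
dense open for `(le (succ l), J (succ l))`: `node_ext`, `tree_dest`.
(1) `Ph γ e x s z` is `Loc ε` for all `s, z`: by induction on `s`, with `treeJ_loc` (the elements `e n` and `x` are in
`N`, so levels below `l` are below `ε`) and `loc_forall`-type arguments for the negative part.
(2) Let `τ ξ u := ∀ u' ≤ u, ∃ u'' ≤ u', ∃ n z, Ph γ e x (pre d n) z u'' ∧ (C.pr z).1 < l ∧ ξ < (C.pr z).1 ∧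
Vl (succ l) (C.pr z).1 (C.pr z).2 u'' ∧ ext (nl (C.pr z).1) (C.pr z).2 ξ u''` (`≤` is `le (succ l)`).  It is monotone and
regular, and `Loc ε` for `ξ < ε` (`loc_dense`, `Vl_loc`, `ext_loc`, (1)).
(3) If `u ≤ r`, `Ph γ e x (pre d n) z u`, `z` valid at `u` with level `< l`, then for `ξ < (C.pr z).1` and `u' ≤ u`:
`τ ξ u' ↔ ext (nl (C.pr z).1) (C.pr z).2 ξ u'`: compare with the witness `(n', z')` in the definition of `τ`: `Ph_le`
gives `J z z'` or `J z' z`, use `tree_dest` (the levels are `≠ ⊥` because `ξ` is below them).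
(4) `τ` is valid of level `ε` at `r`: at a limit `b < ε` take `β ∈ N`, `b ≤ β < l`; `PGen` with `E_β` gives, densely below
`r`, a position `z'` of the path which is `≤ z` with `(p, z) ∈ E_β`; so `z'` is valid of level `≥ β ≥ b` (`tree_dest`)
and (3) applies (`VlN_reg`, `VlN_congr`, `VlN_restr`).  At `b = ε` we have `¬ CofU ε` and `InV_of_loc`.
(5) Let `w` be a code of `τ` at `nl ε` (`code`, `τ` is also `Loc (nl ε)`), `y` a code of the pair `(ε, w)`, `r' = r`.  If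
`r'' ≤ r`, `Ph γ e x (pre d n) z r''`: densely below `r''` either `z` is trivial (`tree_triv`) or valid of level `< l`, hence
`≤ ε`, and `tree_intro` applies by (3), (4).
-/

universe u

open Cardinal Set

namespace Pool.Agent.W_MP_315f31_lc

variable {K : Type u} [LinearOrder K] [OrderBot K] [WellFoundedLT K] [SuccOrder K] [NoMaxOrder K]
  {C : Cod K} {D : Dat K} {l : K}

/-- the dense sets of the tree stage -/
def Dat.tsE (C : Cod K) (D : Dat K) (l β : K) : Set (Cond K × K) :=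
  {a | (C.pr a.2).1 < l ∧ (C.pr a.2).1 ≠ ⊥ ∧ β ≤ (C.pr a.2).1 ∧
    D.Vl (Order.succ l : K) (C.pr a.2).1 (C.pr a.2).2 a.1}

theorem ts_DOs (hC : C.Ok) (h : OkB D (Order.succ l : K)) (hl : IsLim l)
    (hc : CofU l) (hl0 : l ≠ ⊥) (hJ : D.J (Order.succ l) = D.treeJ C l)
    (hn : ∀ β < l, ∃ τ, NodeAt D (Order.succ l : K) β τ) {β : K} (hβ : β < l) :
    DOs (D.le (Order.succ l : K)) (D.J (Order.succ l)) (Dat.tsE C D l β) := by
  constructor
  · rintro p y p' y' ⟨h1, h2, h3, h4⟩ hp hy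
    rw [hJ] at hy
    have h4' : D.Vl (Order.succ l : K) (C.pr y).1 (C.pr y).2 p' := VlN_mono h h4 hp
    obtain ⟨e1, e2, e3, -⟩ := tree_dest h hl hc hy h1 h2 h4'
    refine ⟨e1, ?_, h3.trans e2, e3⟩
    intro h0
    apply h2
    have e2' : (C.pr y).1 ≤ (C.pr y').1 := e2
    have h0' : (C.pr y').1 = ⊥ := h0
    rw [h0'] at e2'
    exact le_bot_iff.1 e2'
  · intro p y
    obtain ⟨r, x', h1, h2, h3, h4, h5, h6⟩ := node_ext hC h hl hc hl0 hn y p hβ
    rw [hJ]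
    exact ⟨r, x', h1, h2, h3, h4, h5, h6⟩

/-- the position of the path depends only on the coordinates below a bound of the levels -/
theorem ts_phR_loc (h : OkB D (Order.succ l : K)) (hl : IsLim l) (hc : CofU l)
    (hJ : D.J (Order.succ l) = D.treeJ C l) {ε : K} (hε : ε ≤ l) {e : ℕ → K} {x : K}
    (hx : (C.pr x).1 < l → nl (C.pr x).1 ≤ ε)
    (he : ∀ n, (C.pr (e n)).1 < l → nl (C.pr (e n)).1 ≤ ε) (s : List ℕ) :
    ∀ y, Loc (ε : WithTop K) (D.PhR (Order.succ l) e x s y) := by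
  induction s with
  | nil =>
    intro y p q _
    exact Iff.rfl
  | cons n s ih =>
    intro y
    have hεA : (ε : WithTop K) ≤ ((Order.succ l : K) : WithTop K) :=
      WithTop.coe_le_coe.2 (hε.trans (Order.le_succ l))
    have key : ∀ p q : Cond K, (∀ β : K, (β : WithTop K) < ε → p β = q β) →
        D.PhR (Order.succ l) e x (n :: s) y p → D.PhR (Order.succ l) e x (n :: s) y q := by
      rintro p q hpq ⟨y0, hT, hcase⟩
      have hy0 : (C.pr y0).1 < l → nl (C.pr y0).1 ≤ ε := by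
        rcases path_mem s hT with h1 | ⟨m, h1⟩
        · rw [h1]
          exact hx
        · rw [h1]
          exact he m
      have hloc : Loc (ε : WithTop K) (D.J (Order.succ l) (e n) y0) := by
        rw [hJ]
        exact treeJ_loc h hl hc hε (he n) hy0
      refine ⟨y0, (ih y0 p q hpq).1 hT, ?_⟩
      rcases hcase with ⟨h1, h2⟩ | ⟨h1, h2⟩
      · exact Or.inl ⟨(hloc p q hpq).1 h1, h2⟩
      · refine Or.inr ⟨?_, h2⟩
        exact (loc_forall h hεA (S := fun r => ¬ D.J (Order.succ l) (e n) y0 r)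
          (fun a b hab => not_congr (hloc a b hab)) p q hpq).1 h1
    intro p q hpq
    exact ⟨key p q hpq, key q p fun β hβ => (hpq β hβ).symm⟩

/-- the branch given by the path -/
def Dat.tsT (C : Cod K) (D : Dat K) (l : K) (e : ℕ → K) (x : K) (d : ℕ → ℕ) (ξ : K) (u : Cond K) :
    Prop :=
  ∀ u', D.le (Order.succ l : K) u' u → ∃ u'', D.le (Order.succ l : K) u'' u' ∧
    ∃ n z, D.Ph (Order.succ l) e x (pre d n) z u'' ∧ (C.pr z).1 < l ∧ ξ < (C.pr z).1 ∧
      D.Vl (Order.succ l : K) (C.pr z).1 (C.pr z).2 u'' ∧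
      D.ext (nl (C.pr z).1 : K) (C.pr z).2 ξ u''

theorem ts_isNm (h : OkB D (Order.succ l : K)) (e : ℕ → K) (x : K) (d : ℕ → ℕ) :
    IsNm (D.le (Order.succ l : K)) (Dat.tsT C D l e x d) := by
  constructor
  · intro ξ p q hp hq u' hu'
    exact hp u' (Dat.le_trans h hu' hq)
  · intro ξ p hp u' hu'
    obtain ⟨r, hr, hr'⟩ := hp u' hu'
    obtain ⟨u'', h1, h2⟩ := hr' r (Dat.le_refl h r)
    exact ⟨u'', Dat.le_trans h h1 hr, h2⟩

theorem ts_pre (d : ℕ → ℕ) {n m : ℕ} (hnm : n ≤ m) : pre d n <+: pre d m := by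
  rw [← path_pre_take d hnm]
  exact List.take_prefix _ _

theorem ts_nl_le (h : OkB D (Order.succ l : K)) (hl : IsLim l) {α : K} (hα : α < l) :
    ((nl α : K) : WithTop K) ≤ ((Order.succ l : K) : WithTop K) :=
  WithTop.coe_le_coe.2 ((nl_le h.inacc hl hα).trans (Order.le_succ l))

/-- a valid position of the path is an initial segment of the branch -/
theorem ts_agree (h : OkB D (Order.succ (Order.succ l) : K)) (hl : IsLim l) (hc : CofU l)
    (hJ : D.J (Order.succ l) = D.treeJ C l) {e : ℕ → K} {x : K} {d : ℕ → ℕ} {n : ℕ} {z : K}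
    {u : Cond K} (hz : D.Ph (Order.succ l) e x (pre d n) z u) (h1 : (C.pr z).1 < l)
    (h2 : D.Vl (Order.succ l : K) (C.pr z).1 (C.pr z).2 u) {ξ : K} (hξ : ξ < (C.pr z).1)
    {u' : Cond K} (hu : D.le (Order.succ l : K) u' u) :
    Dat.tsT C D l e x d ξ u' ↔ D.ext (nl (C.pr z).1 : K) (C.pr z).2 ξ u' := by
  have h0 : OkB D ((Order.succ l : K) : WithTop K) := path_ok h
  constructor
  · intro hτ
    refine ext_reg h0 (ts_nl_le h0 hl h1) fun q hq => ?_
    obtain ⟨u'', hu'', n', z', e1, e2, e3, e4, e5⟩ := hτ q hq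
    refine ⟨u'', hu'', ?_⟩
    have hle : D.le (Order.succ l : K) u'' u := Dat.le_trans h0 hu'' (Dat.le_trans h0 hq hu)
    have hz1 : D.Ph (Order.succ l) e x (pre d n) z u'' := Dat.Ph_mono h hz hle
    have hV1 : D.Vl (Order.succ l : K) (C.pr z).1 (C.pr z).2 u'' := VlN_mono h0 h2 hle
    rcases le_total n n' with hn | hn
    · have hJ1 := Dat.Ph_le h (ts_pre d hn) hz1 e1
      rw [hJ] at hJ1
      obtain ⟨-, -, -, f4⟩ := tree_dest h0 hl hc hJ1 h1 (ne_bot_of_gt hξ) hV1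
      exact (f4 ξ hξ u'' (Dat.le_refl h0 u'')).1 e5
    · have hJ1 := Dat.Ph_le h (ts_pre d hn) e1 hz1
      rw [hJ] at hJ1
      obtain ⟨-, -, -, f4⟩ := tree_dest h0 hl hc hJ1 e2 (ne_bot_of_gt e3) e4
      exact (f4 ξ e3 u'' (Dat.le_refl h0 u'')).2 e5
  · intro hx' u1 hu1
    refine ⟨u1, Dat.le_refl h0 u1, n, z, ?_, h1, hξ, ?_, ?_⟩
    · exact Dat.Ph_mono h hz (Dat.le_trans h0 hu1 hu)
    · exact VlN_mono h0 h2 (Dat.le_trans h0 hu1 hu)
    · exact ext_mono h0 (ts_nl_le h0 hl h1) hx' hu1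

/-- the branch depends only on the coordinates below a bound of the levels -/
theorem ts_loc (h : OkB D (Order.succ (Order.succ l) : K)) (hl : IsLim l) (hc : CofU l)
    (hJ : D.J (Order.succ l) = D.treeJ C l) {ε : K} (hε : ε ≤ l) {e : ℕ → K} {x : K}
    (hx : (C.pr x).1 < l → nl (C.pr x).1 ≤ ε)
    (he : ∀ n, (C.pr (e n)).1 < l → nl (C.pr (e n)).1 ≤ ε) (d : ℕ → ℕ) (ξ : K) :
    Loc (ε : WithTop K) (Dat.tsT C D l e x d ξ) := by
  have h0 : OkB D ((Order.succ l : K) : WithTop K) := path_ok h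
  have hεA : (ε : WithTop K) ≤ ((Order.succ l : K) : WithTop K) :=
    WithTop.coe_le_coe.2 (hε.trans (Order.le_succ l))
  refine loc_dense h0 hεA (S := fun u'' => ∃ n z, D.Ph (Order.succ l) e x (pre d n) z u'' ∧
    (C.pr z).1 < l ∧ ξ < (C.pr z).1 ∧ D.Vl (Order.succ l : K) (C.pr z).1 (C.pr z).2 u'' ∧
      D.ext (nl (C.pr z).1 : K) (C.pr z).2 ξ u'') ?_
  have key : ∀ p q : Cond K, (∀ β : K, (β : WithTop K) < ε → p β = q β) →
      (∃ n z, D.Ph (Order.succ l) e x (pre d n) z p ∧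
    (C.pr z).1 < l ∧ ξ < (C.pr z).1 ∧ D.Vl (Order.succ l : K) (C.pr z).1 (C.pr z).2 p ∧
      D.ext (nl (C.pr z).1 : K) (C.pr z).2 ξ p) → (∃ n z, D.Ph (Order.succ l) e x (pre d n) z q ∧
    (C.pr z).1 < l ∧ ξ < (C.pr z).1 ∧ D.Vl (Order.succ l : K) (C.pr z).1 (C.pr z).2 q ∧
      D.ext (nl (C.pr z).1 : K) (C.pr z).2 ξ q) := by
    rintro p q hpq ⟨n, z, e1, e2, e3, e4, e5⟩
    have hz0 : nl (C.pr z).1 ≤ ε := by
      rcases Dat.Ph_mem D e1 with f1 | ⟨m, f1⟩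
      · rw [f1] at e2 ⊢
        exact hx e2
      · rw [f1] at e2 ⊢
        exact he m e2
    have hz1 : ((nl (C.pr z).1 : K) : WithTop K) ≤ (ε : WithTop K) := WithTop.coe_le_coe.2 hz0
    have hz2 : ((nl (C.pr z).1 : K) : WithTop K) ≤ ((Order.succ l : K) : WithTop K) :=
      ts_nl_le h0 hl e2
    refine ⟨n, z, ?_, e2, e3, ?_, ?_⟩
    · exact (ts_phR_loc h0 hl hc hJ hε hx he (pre d n).reverse z p q hpq).1 e1
    · have hz3 := hz2
      rw [← nl_coe h0.inacc] at hz3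
      exact ((Vl_loc h0 hz3 (C.pr z).2).mono hz1 p q hpq).1 e4
    · exact ((ext_loc h0 hz2 (C.pr z).2 ξ).mono hz1 p q hpq).1 e5
  intro p q hpq
  exact ⟨key p q hpq, key q p fun β hβ => (hpq β hβ).symm⟩

theorem tree_tpk (hC : C.Ok) (h : OkB D (Order.succ (Order.succ l) : K)) (hl : IsLim l)
    (hc : CofU l) (hl0 : l ≠ ⊥) (hJ : D.J (Order.succ l) = D.treeJ C l)
    (hn : ∀ β < l, ∃ τ, NodeAt D (Order.succ l : K) β τ)
    (hg : ∀ γ' : K, γ' < Order.succ l → D.Good γ') : D.TPK (Order.succ l) := by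
  have h0 : OkB D ((Order.succ l : K) : WithTop K) := path_ok h
  have hK := h0.inacc
  obtain ⟨f1, hf1⟩ : ∃ f : Ob K → Ob K, ∀ α, f (Ob.k α) = Ob.k (nl α) :=
    ⟨fun a => match a with
      | .k α => .k (nl α)
      | b => b, fun _ => rfl⟩
  obtain ⟨f2, hf2⟩ : ∃ f : Ob K → Ob K, ∀ α, f (Ob.k α) = Ob.k (C.pr α).1 :=
    ⟨fun a => match a with
      | .k α => .k (C.pr α).1
      | b => b, fun _ => rfl⟩
  obtain ⟨f3, hf3⟩ : ∃ f : Ob K → Ob K, ∀ α, f (Ob.k α) = Ob.s (Dat.tsE C D l α) :=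
    ⟨fun a => match a with
      | .k α => .s (Dat.tsE C D l α)
      | b => b, fun _ => rfl⟩
  refine Dat.tpk_of_path h hg ?_
  refine (((IsClub.mem (Ob.k (⊥ : K))).inter (IsClub.fn f1)).inter
    ((IsClub.fn f2).inter (IsClub.fn f3))).mono ?_
  rintro N ⟨⟨hN0, hN1⟩, ⟨hN2, hN3⟩⟩ c q - e he x hx d r - hP
  have k1 : ∀ α, Ob.k α ∈ N → Ob.k (nl α) ∈ N := fun α hα => by
    have h1 := hN1 _ hα
    rwa [hf1] at h1
  have k2 : ∀ α, Ob.k α ∈ N → Ob.k (C.pr α).1 ∈ N := fun α hα => by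
    have h1 := hN2 _ hα
    rwa [hf2] at h1
  have k3 : ∀ α, Ob.k α ∈ N → Ob.s (Dat.tsE C D l α) ∈ N := fun α hα => by
    have h1 := hN3 _ hα
    rwa [hf3] at h1
  -- the supremum of the model below `l`
  obtain ⟨ε, hε1, hεmin⟩ := nextLim_min {b : K | ∀ α, Ob.k α ∈ N → α < l → α < b}
    ⟨l, fun α _ hα => hα⟩
  have hεex : ∀ a < ε, ∃ α, Ob.k α ∈ N ∧ α < l ∧ a ≤ α := by
    intro a ha
    by_contra hcon
    push Not at hcon
    exact absurd (hεmin a fun α hα hαl => hcon α hα hαl) (not_le.2 ha)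
  have hbotl : (⊥ : K) < l := bot_lt_iff_ne_bot.2 hl0
  have hεbot : ε ≠ ⊥ := ne_bot_of_gt (hε1 ⊥ hN0 hbotl)
  have hεl : ε < l := by
    obtain ⟨b, hb, hb'⟩ := hc (fun n => open Classical in if e n < l then e n else ⊥) (by
      intro n
      by_cases hen : e n < l
      · rw [if_pos hen]
        exact hen
      · rw [if_neg hen]
        exact hbotl)
    refine (hεmin (Order.succ b) fun α hα hαl => ?_).trans_lt (hl.succ_lt hb)
    obtain ⟨n, rfl⟩ := (he α).1 hα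
    have h1 := hb' n
    rw [if_pos hαl] at h1
    exact Order.lt_succ_of_le h1
  have hεnl : ∀ α, Ob.k α ∈ N → α < l → nl α < ε := fun α hα hαl =>
    hε1 _ (k1 α hα) (nl_lt_of_cofU hK hl hc hαl)
  have hεlim : IsLim ε := by
    intro a ha
    obtain ⟨α, hα, hαl, haα⟩ := hεex a ha
    exact ⟨nl α, haα.trans_lt (lt_nl hK α), hεnl α hα hαl⟩
  have hεc : ¬ CofU ε := by
    intro hcε
    obtain ⟨b, hb, hb'⟩ := hcε (fun n => open Classical in if e n < l then e n else ⊥) (by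
      intro n
      by_cases hen : e n < l
      · rw [if_pos hen]
        exact hε1 _ ((he _).2 ⟨n, rfl⟩) hen
      · rw [if_neg hen]
        exact bot_lt_iff_ne_bot.2 hεbot)
    obtain ⟨α, hα, hαl, hbα⟩ := hεex b hb
    obtain ⟨n, hen⟩ := (he _).1 (k1 α hα)
    have h1 := hb' n
    rw [hen, if_pos (nl_lt_of_cofU hK hl hc hαl)] at h1
    exact absurd (h1.trans hbα) (not_le.2 (lt_nl hK α))
  have hlev : ∀ z, Ob.k z ∈ N → (C.pr z).1 < l → nl (C.pr z).1 ≤ ε := fun z hz hzl =>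
    (hεnl _ (k2 z hz) hzl).le
  have hlevx := hlev x hx
  have hleve : ∀ n, (C.pr (e n)).1 < l → nl (C.pr (e n)).1 ≤ ε := fun n =>
    hlev (e n) ((he _).2 ⟨n, rfl⟩)
  have hεA : ((nl ε : K) : WithTop K) ≤ ((Order.succ l : K) : WithTop K) :=
    ts_nl_le h0 hl hεl
  have hεA' : ((ε : K) : WithTop K) ≤ ((Order.succ l : K) : WithTop K) :=
    WithTop.coe_le_coe.2 (hεl.le.trans (Order.le_succ l))
  -- the branch
  have hτ : IsNm (D.le (Order.succ l : K)) (Dat.tsT C D l e x d) := ts_isNm h0 e x d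
  have hτloc : ∀ ξ, Loc (ε : WithTop K) (Dat.tsT C D l e x d ξ) := fun ξ =>
    ts_loc h hl hc hJ hεl.le hlevx hleve d ξ
  have hVβ : ∀ β, Ob.k β ∈ N → β < l → D.VlN (Order.succ l : K) β (Dat.tsT C D l e x d) r := by
    intro β hβ hβl
    refine VlN_reg h0 fun q' hq' => ?_
    obtain ⟨r'', hr'', n, z, p, z', hpz, -, -, hrp, hPh, hJz⟩ :=
      hP _ (k3 β hβ) (ts_DOs hC h0 hl hc hl0 hJ hn hβl) q' hq'
    obtain ⟨e1, e2, e3, e4⟩ := hpz
    rw [hJ] at hJz
    obtain ⟨g1, g2, g3, -⟩ := tree_dest h0 hl hc hJz e1 e2 (VlN_mono h0 e4 hrp)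
    refine ⟨r'', hr'', VlN_restr (le_trans e3 g2) ?_⟩
    refine (VlN_congr h0 fun ξ hξ q'' hq'' => ?_).2 g3
    exact ts_agree h hl hc hJ hPh g1 g3 hξ hq''
  have hVε : D.VlN (Order.succ l : K) ε (Dat.tsT C D l e x d) r := by
    intro b hb hbl hb0
    rcases lt_or_eq_of_le hb with hlt | heq
    · obtain ⟨β, hβ, hβl, hbβ⟩ := hεex b hlt
      exact hVβ β hβ hβl b hbβ hbl hb0
    · subst heq
      exact ⟨fun _ => InV_of_loc h0 hεA' hτ (fun ξ _ => hτloc ξ) r, fun h1 => absurd h1 hεc⟩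
  obtain ⟨w, hw⟩ := code h0 hεA ε hτ (fun ξ _ => (hτloc ξ).mono
    (WithTop.coe_le_coe.2 (lt_nl hK ε).le))
  obtain ⟨y, hy⟩ := hC.pr_surj (ε, w)
  have hy1 : (C.pr y).1 = ε := by rw [hy]
  have hy2 : (C.pr y).2 = w := by rw [hy]
  have hVy : D.Vl (Order.succ l : K) (C.pr y).1 (C.pr y).2 r := by
    rw [hy1, hy2]
    exact (VlN_congr h0 fun ξ hξ q' _ => (hw ξ hξ q').symm).1 hVε
  refine ⟨r, y, Dat.le_refl h0 r, ?_⟩
  intro n r'' z hr'' hz
  have hzN : Ob.k z ∈ N := by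
    rcases Dat.Ph_mem D hz with g1 | ⟨m, g1⟩
    · rw [g1]
      exact hx
    · rw [g1]
      exact (he _).2 ⟨m, rfl⟩
  rw [hJ]
  by_cases hz1 : (C.pr z).1 < l
  · by_cases hz2 : (C.pr z).1 = ⊥
    · exact tree_triv h0 (Or.inr (Or.inl hz2))
    · have hreg := h.reg (Order.succ l) (path_lt (Order.succ l)) y z r''
      rw [hJ] at hreg
      refine hreg fun q' hq' => ?_
      by_cases hV : ∃ q'', D.le (Order.succ l : K) q'' q' ∧
          D.Vl (Order.succ l : K) (C.pr z).1 (C.pr z).2 q''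
      · obtain ⟨q'', hq'', hVz⟩ := hV
        have hq''r'' : D.le (Order.succ l : K) q'' r'' := Dat.le_trans h0 hq'' hq'
        have hq''r : D.le (Order.succ l : K) q'' r := Dat.le_trans h0 hq''r'' hr''
        refine ⟨q'', hq'', ?_⟩
        have hzε : (C.pr z).1 < ε := hε1 _ (k2 z hzN) hz1
        refine tree_intro h0 (by rw [hy1]; exact hεl) (by rw [hy1]; exact hzε.le)
          (VlN_mono h0 hVy hq''r) hVz ?_
        intro ξ hξ r' hr'
        rw [hy1, hy2, hw ξ (hξ.trans hzε) r']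
        exact ts_agree h hl hc hJ (Dat.Ph_mono h hz hq''r'') hz1 hVz hξ hr'
      · refine ⟨q', Dat.le_refl h0 q', tree_triv h0 (Or.inr (Or.inr fun r' hr' hV' => ?_))⟩
        exact hV ⟨r', hr', hV'⟩
  · exact tree_triv h0 (Or.inl hz1)

end Pool.Agent.W_MP_315f31_lc
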