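import Pool.Agent.W_MP_315f31_lc.Loc

/-!
# MP_315f31_lc : validity of nodes

`VlN_InV`: write `α = succ^[n] α0` with `α0` a limit or `⊥`.  `InV A (nl α) α0 τ p` (from `VlN` at `α0`, by `InV_up` if
`¬ CofU α0`; trivial if `α0 = ⊥`; `nl α = nl α0`).  Densely the finitely many values `τ ξ`, `α0 ≤ ξ < α` are decided
(`IsNm.reg`: if no extension satisfies `τ ξ` it is decided negatively), and then the finite
extension is coded (`code`).
`VlN_mix`: let `b ≤ β` be a limit.  If `b ≤ α` use `InV_congr`.  If `α < b`: `nl α ≤ b`, so `τ ∩ α` and `σ ∩ α`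
are in `V[G_b]` (`VlN_InV`, `InV_up`); `¬ CofU b`: `InV_mix`; `CofU b`: `InV_mix` at `nl b`, and if
some `q ≤ p` had `InV A b b (mixN α τ σ) q`, then `InV A b b σ q` by `InV_unmix`, a contradiction.
-/

universe u

open Cardinal Set

set_option linter.unusedSectionVars false

namespace Pool.Agent.W_MP_315f31_lc

variable {K : Type u} [LinearOrder K] [OrderBot K] [WellFoundedLT K] [SuccOrder K] [NoMaxOrder K]
  {D : Dat K} {A : WithTop K} {α β : K} {τ σ : K → Cond K → Prop} {p : Cond K}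

omit [SuccOrder K] [NoMaxOrder K] in
theorem isLim_coe (b : K) : IsLim (b : WithTop K) ↔ IsLim b := by
  constructor
  · intro hb a ha
    obtain ⟨c, hc1, hc2⟩ := hb a (WithTop.coe_lt_coe.2 ha)
    obtain ⟨c', rfl⟩ := WithTop.ne_top_iff_exists.1 (hc2.trans_le le_top).ne
    exact ⟨c', WithTop.coe_lt_coe.1 hc1, WithTop.coe_lt_coe.1 hc2⟩
  · intro hb a ha
    obtain ⟨a', rfl⟩ := WithTop.ne_top_iff_exists.1 (ha.trans_le le_top).ne
    obtain ⟨c, hc1, hc2⟩ := hb a' (WithTop.coe_lt_coe.1 ha)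
    exact ⟨c, WithTop.coe_lt_coe.2 hc1, WithTop.coe_lt_coe.2 hc2⟩

/-- `nl` in `WithTop K` agrees with `nl` in `K`: the hypotheses `(nl α : WithTop K) ≤ A` below elaborate
to `nl (↑α) ≤ A` (next limit in `WithTop K`), this lemma converts them to `↑(nl α) ≤ A`. -/
theorem nl_coe (h : Inacc K) (α : K) : nl (α : WithTop K) = ((nl α : K) : WithTop K) := by
  classical
  have hmem : ((nl α : K) : WithTop K) ∈ {β : WithTop K | (α : WithTop K) < β ∧ IsLim β} :=
    ⟨WithTop.coe_lt_coe.2 (lt_nl h α), (isLim_coe _).2 (isLim_nl h α)⟩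
  have hex : ∃ β : WithTop K, (α : WithTop K) < β ∧ IsLim β := ⟨_, hmem⟩
  have he : nl (α : WithTop K) =
      WellFounded.min (wellFounded_lt (α := WithTop K)) {β | (α : WithTop K) < β ∧ IsLim β} hex := by
    unfold nl
    rw [dif_pos hex]
  rw [he]
  apply le_antisymm
  · exact WellFounded.min_le (wellFounded_lt (α := WithTop K)) hmem
  · obtain ⟨h1, h2⟩ := WellFounded.min_mem (wellFounded_lt (α := WithTop K))
      {β | (α : WithTop K) < β ∧ IsLim β} hex
    generalize WellFounded.min (wellFounded_lt (α := WithTop K))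
      {β | (α : WithTop K) < β ∧ IsLim β} hex = m at h1 h2
    cases m with
    | top => exact le_top
    | coe m => exact WithTop.coe_le_coe.2 (nl_le h ((isLim_coe _).1 h2) (WithTop.coe_lt_coe.1 h1))

theorem VlN_mono (h : OkB D A) {q : Cond K} (hp : D.VlN A α τ p) (hq : D.le A q p) :
    D.VlN A α τ q := by
  intro b hb hl hb0
  obtain ⟨h1, h2⟩ := hp b hb hl hb0
  refine ⟨fun hc => InV_mono h (h1 hc) hq, fun hc => ⟨InV_mono h (h2 hc).1 hq, fun r hr => ?_⟩⟩
  exact (h2 hc).2 r (Dat.le_trans h hr hq)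

theorem VlN_reg (h : OkB D A) (hd : ∀ q, D.le A q p → ∃ r, D.le A r q ∧ D.VlN A α τ r) :
    D.VlN A α τ p := by
  intro b hb hl hb0
  refine ⟨fun hc => InV_reg h fun q hq => ?_, fun hc => ⟨InV_reg h fun q hq => ?_, fun q hq hI => ?_⟩⟩
  · obtain ⟨r, hr, hV⟩ := hd q hq
    exact ⟨r, hr, (hV b hb hl hb0).1 hc⟩
  · obtain ⟨r, hr, hV⟩ := hd q hq
    exact ⟨r, hr, ((hV b hb hl hb0).2 hc).1⟩
  · obtain ⟨r, hr, hV⟩ := hd q hq
    exact ((hV b hb hl hb0).2 hc).2 r (Dat.le_refl h r) (InV_mono h hI hr)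

theorem treeVl_congr1 (h : OkB D A) (hc : ∀ ξ < α, ∀ q, D.le A q p → (τ ξ q ↔ σ ξ q))
    (hp : D.VlN A α τ p) : D.VlN A α σ p := by
  intro b hb hl hb0
  obtain ⟨h1, h2⟩ := hp b hb hl hb0
  have hcong : ∀ (γ : WithTop K) (q : Cond K), D.le A q p → (D.InV A γ b τ q ↔ D.InV A γ b σ q) := by
    intro γ q hq
    exact InV_congr h fun ξ hξ r hr => hc ξ (hξ.trans_le hb) r (Dat.le_trans h hr hq)
  refine ⟨fun hc => (hcong _ p (Dat.le_refl h p)).1 (h1 hc), fun hc =>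
    ⟨(hcong _ p (Dat.le_refl h p)).1 (h2 hc).1, fun q hq hI => ?_⟩⟩
  exact (h2 hc).2 q hq ((hcong _ q hq).2 hI)

theorem VlN_congr (h : OkB D A) (hc : ∀ ξ < α, ∀ q, D.le A q p → (τ ξ q ↔ σ ξ q)) :
    D.VlN A α τ p ↔ D.VlN A α σ p :=
  ⟨treeVl_congr1 h hc, treeVl_congr1 h fun ξ hξ q hq => (hc ξ hξ q hq).symm⟩

theorem VlN_restr (hα : β ≤ α) (hp : D.VlN A α τ p) : D.VlN A β τ p :=
  fun b hb => hp b (hb.trans hα)

theorem VlN_succ : D.VlN A (Order.succ α) τ p ↔ D.VlN A α τ p := by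
  refine ⟨VlN_restr (Order.le_succ α), fun hp b hb hl hb0 => hp b ?_ hl hb0⟩
  rcases Order.le_succ_iff_eq_or_le.1 hb with h1 | h1
  · exact absurd (h1 ▸ hl) (not_isLim_succ α)
  · exact h1

theorem VlN_bot (p : Cond K) : D.VlN A ⊥ τ p :=
  fun _ hb _ hb0 => absurd (le_bot_iff.1 hb) hb0

theorem VlN_amb (h : OkB D A) {A' : WithTop K} (hA : A' ≤ A) (hα : (nl α : WithTop K) ≤ A')
    (hl : ∀ ξ < α, Loc A' (τ ξ)) (p : Cond K) : D.VlN A α τ p ↔ D.VlN A' α τ p := by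
  rw [nl_coe h.inacc] at hα
  have key : ∀ b ≤ α, IsLim b → b ≠ ⊥ →
      (((¬ CofU b → D.InV A b b τ p) ∧
        (CofU b → D.InV A (nl b : K) b τ p ∧ ∀ q, D.le A q p → ¬ D.InV A b b τ q)) ↔
      ((¬ CofU b → D.InV A' b b τ p) ∧
        (CofU b → D.InV A' (nl b : K) b τ p ∧ ∀ q, D.le A' q p → ¬ D.InV A' b b τ q))) := by
    intro b hb _ _
    have hl' : ∀ ξ < b, Loc A' (τ ξ) := fun ξ hξ => hl ξ (hξ.trans_le hb)
    have hnb : ((nl b : K) : WithTop K) ≤ A' :=
      (WithTop.coe_le_coe.2 (nl_mono h.inacc hb)).trans hα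
    have hbA : (b : WithTop K) ≤ A' :=
      (WithTop.coe_le_coe.2 (lt_nl h.inacc b).le).trans hnb
    have e1 : ∀ q, D.InV A b b τ q ↔ D.InV A' b b τ q := fun q => InV_amb h hA hbA hl' q
    have e2 : D.InV A (nl b : K) b τ p ↔ D.InV A' (nl b : K) b τ p := InV_amb h hA hnb hl' p
    have hloc : Loc A' (fun q => ¬ D.InV A b b τ q) := fun q q' hqq =>
      not_congr (InV_loc h (hbA.trans hA) hA hbA hl' q q' hqq)
    have e3 : (∀ q, D.le A q p → ¬ D.InV A b b τ q) ↔ ∀ q, D.le A' q p → ¬ D.InV A' b b τ q := by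
      rw [forall_loc h hA hloc p]
      exact forall_congr' fun q => imp_congr Iff.rfl (not_congr (e1 q))
    rw [e1 p, e2, e3]
  exact forall_congr' fun b => forall_congr' fun hb => forall_congr' fun hl =>
    forall_congr' fun hb0 => key b hb hl hb0

theorem VlN_loc (h : OkB D A) {A' : WithTop K} (hA : A' ≤ A) (hα : (nl α : WithTop K) ≤ A')
    (hl : ∀ ξ < α, Loc A' (τ ξ)) : Loc A' (D.VlN A α τ) := by
  rw [nl_coe h.inacc] at hα
  intro p p' hpp
  have key : ∀ b ≤ α, IsLim b → b ≠ ⊥ →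
      (((¬ CofU b → D.InV A b b τ p) ∧
        (CofU b → D.InV A (nl b : K) b τ p ∧ ∀ q, D.le A q p → ¬ D.InV A b b τ q)) ↔
      ((¬ CofU b → D.InV A b b τ p') ∧
        (CofU b → D.InV A (nl b : K) b τ p' ∧ ∀ q, D.le A q p' → ¬ D.InV A b b τ q))) := by
    intro b hb _ _
    have hl' : ∀ ξ < b, Loc A' (τ ξ) := fun ξ hξ => hl ξ (hξ.trans_le hb)
    have hnb : ((nl b : K) : WithTop K) ≤ A' :=
      (WithTop.coe_le_coe.2 (nl_mono h.inacc hb)).trans hα
    have hbA : (b : WithTop K) ≤ A' :=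
      (WithTop.coe_le_coe.2 (lt_nl h.inacc b).le).trans hnb
    have e1 : D.InV A b b τ p ↔ D.InV A b b τ p' := InV_loc h (hbA.trans hA) hA hbA hl' p p' hpp
    have e2 : D.InV A (nl b : K) b τ p ↔ D.InV A (nl b : K) b τ p' :=
      InV_loc h (hnb.trans hA) hA hnb hl' p p' hpp
    have hloc : Loc A' (fun q => ¬ D.InV A b b τ q) := fun q q' hqq =>
      not_congr (InV_loc h (hbA.trans hA) hA hbA hl' q q' hqq)
    have e3 : (∀ q, D.le A q p → ¬ D.InV A b b τ q) ↔ ∀ q, D.le A q p' → ¬ D.InV A b b τ q :=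
      loc_forall h hA hloc p p' hpp
    rw [e1, e2, e3]
  exact forall_congr' fun b => forall_congr' fun hb => forall_congr' fun hl =>
    forall_congr' fun hb0 => key b hb hl hb0

/-- the value at one more ordinal can be decided -/
theorem treeVl_InV_succ (h : OkB D A) {g : K} (hg : (g : WithTop K) ≤ A) (hτ : IsNm (D.le A) τ)
    (hp : D.InV A g α τ p) : D.InV A g (Order.succ α) τ p := by
  refine InV_reg h fun q hq => ?_
  have hconst : ∀ (P : Prop) (r : Cond K),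
      D.InV A g (Order.succ α) (fun _ _ => P : K → Cond K → Prop) r := by
    intro P r
    refine InV_of_loc h hg ⟨fun _ _ _ h _ => h, fun _ p hd => ?_⟩ (fun _ _ _ _ _ => Iff.rfl) r
    obtain ⟨_, _, h1⟩ := hd p (Dat.le_refl h p)
    exact h1
  have hmix : ∀ (P : Prop) (r : Cond K), D.le A r q → (∀ r', D.le A r' r → (τ α r' ↔ P)) →
      D.InV A g (Order.succ α) τ r := by
    intro P r hr hP
    have h1 := InV_mix h hg (InV_mono h hp (Dat.le_trans h hr hq)) (hconst P r)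
    refine (InV_congr h fun ξ hξ r' hr' => ?_).2 h1
    rcases lt_or_eq_of_le (Order.lt_succ_iff.1 hξ) with hlt | heq
    · exact ⟨fun ht => Or.inl ⟨hlt, ht⟩, fun ht => ht.elim (fun h2 => h2.2)
        (fun h2 => absurd hlt (not_lt.2 h2.1))⟩
    · subst heq
      exact ⟨fun ht => Or.inr ⟨le_rfl, (hP r' hr').1 ht⟩, fun ht => ht.elim
        (fun h2 => absurd h2.1 (lt_irrefl _)) (fun h2 => (hP r' hr').2 h2.2)⟩
  by_cases hex : ∃ r, D.le A r q ∧ τ α r
  · obtain ⟨r, hr, ht⟩ := hex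
    exact ⟨r, hr, hmix True r hr fun r' hr' => iff_true_intro (hτ.mono α r r' ht hr')⟩
  · refine ⟨q, Dat.le_refl h q, hmix False q (Dat.le_refl h q) fun r' hr' => ?_⟩
    exact iff_false_intro fun ht => hex ⟨r', hr', ht⟩

theorem VlN_InV (h : OkB D A) (hα : (nl α : WithTop K) ≤ A) (hτ : IsNm (D.le A) τ)
    (hp : D.VlN A α τ p) : D.InV A (nl α : K) α τ p := by
  rw [nl_coe h.inacc] at hα
  obtain ⟨l, n, hl, rfl⟩ := exists_lim_add α
  have hnl : ∀ m : ℕ, nl (Order.succ^[m] l) = nl l := by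
    intro m
    induction m with
    | zero => rfl
    | succ m ih =>
      rw [Function.iterate_succ_apply', nl_succ h.inacc, ih]
  have hll : ∀ m : ℕ, l ≤ Order.succ^[m] l := by
    intro m
    induction m with
    | zero => exact le_rfl
    | succ m ih =>
      rw [Function.iterate_succ_apply']
      exact ih.trans (Order.le_succ _)
  rw [hnl n] at hα ⊢
  have h0 : D.InV A (nl l : K) l τ p := by
    by_cases hl0 : l = ⊥
    · intro q hq
      refine ⟨q, ⊥, Dat.le_refl h q, fun ξ hξ => ?_⟩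
      rw [hl0] at hξ
      exact absurd hξ not_lt_bot
    · obtain ⟨h1, h2⟩ := hp l (hll n) hl hl0
      by_cases hc : CofU l
      · exact (h2 hc).1
      · exact InV_up h (WithTop.coe_le_coe.2 (lt_nl h.inacc l).le) hα (h1 hc)
  have h1 : ∀ m : ℕ, D.InV A (nl l : K) (Order.succ^[m] l) τ p := by
    intro m
    induction m with
    | zero => exact h0
    | succ m ih =>
      rw [Function.iterate_succ_apply']
      exact treeVl_InV_succ h hα hτ ih
  exact h1 n

theorem VlN_mix (h : OkB D A) (hβ : (nl β : WithTop K) ≤ A) (hα : α ≤ β) (hτ : IsNm (D.le A) τ)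
    (hσ : IsNm (D.le A) σ) (h1 : D.VlN A α τ p) (h2 : D.VlN A β σ p) :
    D.VlN A β (mixN α τ σ) p := by
  rw [nl_coe h.inacc] at hβ
  intro b hb hl hb0
  have hnb : ((nl b : K) : WithTop K) ≤ A :=
    (WithTop.coe_le_coe.2 (nl_mono h.inacc hb)).trans hβ
  have hbA : (b : WithTop K) ≤ A :=
    (WithTop.coe_le_coe.2 (lt_nl h.inacc b).le).trans hnb
  have hnα : ((nl α : K) : WithTop K) ≤ A :=
    (WithTop.coe_le_coe.2 (nl_mono h.inacc hα)).trans hβ
  rcases le_or_gt b α with hbα | hbα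
  · -- below `α`
    have hcong : ∀ (γ : WithTop K) (q : Cond K),
        D.InV A γ b τ q ↔ D.InV A γ b (mixN α τ σ) q := by
      intro γ q
      refine InV_congr h fun ξ hξ r _ => ?_
      have hξα : ξ < α := hξ.trans_le hbα
      exact ⟨fun ht => Or.inl ⟨hξα, ht⟩, fun ht => ht.elim (fun h3 => h3.2)
        (fun h3 => absurd hξα (not_lt.2 h3.1))⟩
    obtain ⟨h3, h4⟩ := h1 b hbα hl hb0
    refine ⟨fun hc => (hcong _ p).1 (h3 hc), fun hc => ⟨(hcong _ p).1 (h4 hc).1, fun q hq hI => ?_⟩⟩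
    exact (h4 hc).2 q hq ((hcong _ q).2 hI)
  · -- above `α`
    have hnαb : ((nl α : K) : WithTop K) ≤ (b : WithTop K) :=
      WithTop.coe_le_coe.2 (nl_le h.inacc hl hbα)
    rw [← nl_coe h.inacc] at hnα
    have hτb : D.InV A b α τ p := InV_up h hnαb hbA (VlN_InV h hnα hτ h1)
    have hσb : D.InV A b α σ p := InV_up h hnαb hbA (VlN_InV h hnα hσ (VlN_restr hα h2))
    obtain ⟨h3, h4⟩ := h2 b hb hl hb0
    refine ⟨fun hc => InV_mix h hbA hτb (h3 hc), fun hc => ⟨?_, fun q hq hI => ?_⟩⟩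
    · exact InV_mix h hnb (InV_up h (WithTop.coe_le_coe.2 (lt_nl h.inacc b).le) hnb hτb) (h4 hc).1
    · exact (h4 hc).2 q hq (InV_unmix h hbA hI (InV_mono h hσb hq))

/-! ### coded nodes -/

theorem Vl_amb (h : OkB D A) {A' : WithTop K} (hA : A' ≤ A) (hα : (nl α : WithTop K) ≤ A') (z : K)
    (p : Cond K) : D.Vl A α z p ↔ D.Vl A' α z p := by
  have hα' := hα
  rw [nl_coe h.inacc] at hα'
  exact VlN_amb h hA hα (fun ξ _ => (ext_loc h (hα'.trans hA) z ξ).mono hα') p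

theorem Vl_loc (h : OkB D A) (hα : (nl α : WithTop K) ≤ A) (z : K) :
    Loc (nl α : K) (D.Vl A α z) := by
  rw [nl_coe h.inacc] at hα
  exact VlN_loc h hα (nl_coe h.inacc α).le (fun ξ _ => ext_loc h hα z ξ)

/-- every valid name is densely given by a code -/
theorem exists_code (h : OkB D A) (hα : (nl α : WithTop K) ≤ A) (hτ : IsNm (D.le A) τ)
    (hp : D.VlN A α τ p) : ∃ r z, D.le A r p ∧ D.Vl A α z r ∧
      ∀ ξ < α, ∀ r', D.le A r' r → (τ ξ r' ↔ D.ext (nl α : K) z ξ r') := by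
  obtain ⟨r, z, hr, hz⟩ := VlN_InV h hα hτ hp p (Dat.le_refl h p)
  exact ⟨r, z, hr, (VlN_congr h hz).1 (VlN_mono h hp hr), hz⟩

/-- the restriction of a node is a node -/
theorem Vl_restr (h : OkB D A) (hα : (nl α : WithTop K) ≤ A) {z : K} (hβ : β ≤ α)
    (hp : D.Vl A α z p) : ∃ r z', D.le A r p ∧ D.Vl A β z' r ∧
      ∀ ξ < β, ∀ r', D.le A r' r → (D.ext (nl α : K) z ξ r' ↔ D.ext (nl β : K) z' ξ r') := by
  rw [nl_coe h.inacc] at hα
  have hnβ : ((nl β : K) : WithTop K) ≤ A :=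
    (WithTop.coe_le_coe.2 (nl_mono h.inacc hβ)).trans hα
  rw [← nl_coe h.inacc] at hnβ
  exact exists_code h hnβ (ext_isNm h hα z) (VlN_restr hβ hp)

end Pool.Agent.W_MP_315f31_lc
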